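import Pool.Agent.Q272.LP.Basic

/-!
# Divisibilities between the discriminant and powers of the conductor
-/

set_option autoImplicit false

namespace Pool.Agent.Q272.LP

open Finset

theorem fact_prod (s : Finset ℕ) (hs : ∀ p ∈ s, p.Prime) (f : ℕ → ℕ) (q : ℕ) :
    (∏ p ∈ s, p ^ f p).factorization q = if q ∈ s then f q else 0 := by
  rw [Nat.factorization_prod fun p hp => pow_ne_zero _ (hs p hp).ne_zero]
  rw [Finsupp.finsetSum_apply]
  have h1 : ∀ p ∈ s, (p ^ f p).factorization q = if q = p then f p else 0 := by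
    intro p hp
    rw [(hs p hp).factorization_pow, Finsupp.single_apply]
    by_cases h : p = q
    · rw [if_pos h, if_pos h.symm]
    · rw [if_neg h, if_neg (Ne.symm h)]
  rw [sum_congr rfl h1, Finset.sum_ite_eq]

theorem cond6_ne (a b : ℤ) : Cond6 a b ≠ 0 := (cond6_pos a b).ne'

theorem fact_cond {a b : ℤ} (hD : Disc a b ≠ 0) {p : ℕ} (hp : p.Prime) :
    (Cond6 a b).factorization p =
      if 5 ≤ p ∧ (p : ℤ) ∣ Disc a b then (if (p : ℤ) ∣ a then 2 else 1) else 0 := by
  have h1 : Cond6 a b = ∏ p ∈ (Disc a b).natAbs.primeFactors.filter (fun p => 5 ≤ p),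
      p ^ (fun p : ℕ => if (p : ℤ) ∣ a then 2 else 1) p := by
    unfold Cond6
    refine prod_congr rfl fun p _ => ?_
    by_cases h : (p : ℤ) ∣ a
    · simp [h]
    · simp [h]
  rw [h1, fact_prod _ fun p hp => Nat.prime_of_mem_primeFactors (mem_filter.1 hp).1]
  have h2 : p ∈ (Disc a b).natAbs.primeFactors.filter (fun p => 5 ≤ p) ↔
      5 ≤ p ∧ (p : ℤ) ∣ Disc a b := by
    rw [mem_filter, Nat.mem_primeFactors, ← Int.natCast_dvd]
    constructor
    · rintro ⟨⟨_, h, _⟩, h5⟩
      exact ⟨h5, h⟩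
    · rintro ⟨h5, h⟩
      exact ⟨⟨hp, h, Int.natAbs_ne_zero.2 hD⟩, h5⟩
  simp only [h2]

/-- the valuation at `p` of an integer -/
def V (p : ℕ) (x : ℤ) : ℕ := x.natAbs.factorization p

theorem V_pow_dvd {p : ℕ} (hp : p.Prime) {x : ℤ} (hx : x ≠ 0) (k : ℕ) :
    (p : ℤ) ^ k ∣ x ↔ k ≤ V p x := by
  unfold V
  rw [← hp.pow_dvd_iff_le_factorization (Int.natAbs_ne_zero.2 hx), ← Int.natCast_dvd_natCast,
    Int.dvd_natAbs]
  push_cast
  rfl

theorem V_dvd {p : ℕ} (hp : p.Prime) {x : ℤ} (hx : x ≠ 0) : (p : ℤ) ∣ x ↔ 1 ≤ V p x := by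
  have := V_pow_dvd hp hx 1
  rwa [pow_one] at this

theorem f6 {p : ℕ} (hp : p.Prime) (h : p < 5) (k : ℕ) : (6 ^ k).factorization p = k := by
  have h2 := hp.two_le
  have e : (6 : ℕ).factorization p = 1 := by
    rw [show (6 : ℕ) = 2 * 3 by norm_num, Nat.factorization_mul (by norm_num) (by norm_num),
      Finsupp.add_apply]
    interval_cases p
    · rw [Nat.Prime.factorization_self Nat.prime_two,
        Nat.factorization_eq_zero_of_not_dvd (by norm_num)]
    · rw [Nat.Prime.factorization_self Nat.prime_three,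
        Nat.factorization_eq_zero_of_not_dvd (by norm_num)]
    · norm_num at hp
  rw [Nat.factorization_pow, Finsupp.smul_apply, e, smul_eq_mul, mul_one]

/-- a prime dividing `D` and `a` divides `b` if it is not `2` or `3` -/
theorem dvd_b {a b : ℤ} {p : ℕ} (hp : p.Prime) (h5 : 5 ≤ p) (hD : (p : ℤ) ∣ Disc a b)
    (ha : (p : ℤ) ∣ a) : (p : ℤ) ∣ b := by
  have hpp := Nat.prime_iff_prime_int.mp hp
  have h1 : (p : ℤ) ∣ 27 * b ^ 2 := by
    have : 27 * b ^ 2 = 4 * a ^ 3 - Disc a b := by unfold Disc; ring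
    rw [this]
    exact dvd_sub (Dvd.dvd.mul_left (dvd_pow ha (by norm_num)) _) hD
  rcases hpp.dvd_or_dvd h1 with h | h
  · exfalso
    have h2 : p ∣ 3 ^ 3 := by norm_num; exact_mod_cast h
    have := Nat.le_of_dvd (by norm_num) (hp.dvd_of_dvd_pow h2)
    omega
  · exact hpp.dvd_of_dvd_pow h

/-- the conductor divides the discriminant -/
theorem cond_dvd {a b : ℤ} (hD : Disc a b ≠ 0) : Cond6 a b ∣ (Disc a b).natAbs := by
  rw [← Nat.factorization_prime_le_iff_dvd (cond6_ne a b) (Int.natAbs_ne_zero.mpr hD)]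
  intro p hp
  rw [fact_cond hD hp]
  change _ ≤ V p (Disc a b)
  split_ifs with h1 h2
  · rw [← V_pow_dvd hp hD]
    have h3 := dvd_b hp h1.1 h1.2 h2
    unfold Disc
    refine dvd_sub (Dvd.dvd.mul_left ?_ _) (Dvd.dvd.mul_left ?_ _)
    · exact (pow_dvd_pow_of_dvd h2 2).trans (pow_dvd_pow _ (by norm_num))
    · exact pow_dvd_pow_of_dvd h3 2
  · exact (V_dvd hp hD).mp h1.2
  · exact Nat.zero_le _

/-- full 2-torsion over `ℤ`: the square of the conductor divides the discriminant -/
theorem cond_sq_dvd {a b r s t : ℤ} (hD : Disc a b ≠ 0)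
    (h1 : r + s + t = 0) (h2 : r * s + r * t + s * t = -a) (h3 : r * s * t = b) :
    Cond6 a b ^ 2 ∣ (Disc a b).natAbs := by
  have e : Disc a b = ((r - s) * (r - t) * (s - t)) ^ 2 := by
    have ht : t = -r - s := by linarith
    have ha : a = -(r * s + r * t + s * t) := by linarith
    rw [← h3, ha, ht]
    unfold Disc
    ring
  rw [← Nat.factorization_prime_le_iff_dvd (pow_ne_zero _ (cond6_ne a b))
    (Int.natAbs_ne_zero.mpr hD)]
  intro p hp
  have hpp := Nat.prime_iff_prime_int.mp hp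
  rw [Nat.factorization_pow, Finsupp.smul_apply, smul_eq_mul, fact_cond hD hp]
  change _ ≤ V p (Disc a b)
  split_ifs with h5 h6
  · rw [← V_pow_dvd hp hD]
    have hb := dvd_b hp h5.1 h5.2 h6
    -- all roots are divisible by `p`
    have hroot : ∀ x : ℤ, x ^ 3 - a * x - b = 0 → (p : ℤ) ∣ x := by
      intro x hx
      refine hpp.dvd_of_dvd_pow (n := 3) ?_
      have : x ^ 3 = a * x + b := by linarith
      rw [this]
      exact dvd_add (Dvd.dvd.mul_right h6 _) hb
    have hr : (p : ℤ) ∣ r := hroot r (by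
      have : a = -(r * s + r * t + s * t) := by linarith
      have ht : t = -r - s := by linarith
      rw [← h3, this, ht]; ring)
    have hs : (p : ℤ) ∣ s := hroot s (by
      have : a = -(r * s + r * t + s * t) := by linarith
      have ht : t = -r - s := by linarith
      rw [← h3, this, ht]; ring)
    have ht : (p : ℤ) ∣ t := hroot t (by
      have : a = -(r * s + r * t + s * t) := by linarith
      have ht : t = -r - s := by linarith
      rw [← h3, this, ht]; ring)
    rw [e]
    have h7 : (p : ℤ) ^ 3 ∣ (r - s) * (r - t) * (s - t) := by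
      have : (p : ℤ) ^ 3 = p * p * p := by ring
      rw [this]
      exact mul_dvd_mul (mul_dvd_mul (dvd_sub hr hs) (dvd_sub hr ht)) (dvd_sub hs ht)
    calc (p : ℤ) ^ (2 * 2) ∣ (p : ℤ) ^ 6 := pow_dvd_pow _ (by norm_num)
      _ = ((p : ℤ) ^ 3) ^ 2 := by ring
      _ ∣ _ := pow_dvd_pow_of_dvd h7 2
  · rw [← V_pow_dvd hp hD, mul_one, e]
    refine pow_dvd_pow_of_dvd ?_ 2
    refine hpp.dvd_of_dvd_pow (n := 2) ?_
    rw [← e]
    exact h5.2
  · simp

/-- minimality at `p` -/
theorem min_at {a b : ℤ} (h : IsMinimal a b) {p : ℕ} (hp : p.Prime) :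
    (a ≠ 0 ∧ V p a ≤ 3) ∨ (b ≠ 0 ∧ V p b ≤ 5) := by
  have h1 := ((isMinimal_iff a b).mp h).2 p hp
  by_contra hcon
  push Not at hcon
  apply h1
  constructor
  · by_cases h0 : a = 0
    · rw [h0]; exact dvd_zero _
    · rw [V_pow_dvd hp h0]
      have := hcon.1 h0
      omega
  · by_cases h0 : b = 0
    · rw [h0]; exact dvd_zero _
    · rw [V_pow_dvd hp h0]
      have := hcon.2 h0
      omega

/-- integral `j`-invariant `j = 6912 a³ / D` -/
def IntegralJ (a b : ℤ) : Prop := Disc a b ∣ 6912 * a ^ 3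

/-- integral `j`-invariant: the discriminant divides a constant times the fifth power of the
conductor -/
theorem disc_dvd {a b : ℤ} (h : IsMinimal a b) (hj : IntegralJ a b) :
    (Disc a b).natAbs ∣ 6 ^ 40 * Cond6 a b ^ 5 := by
  have hD := h.1
  rw [← Nat.factorization_prime_le_iff_dvd (Int.natAbs_ne_zero.mpr hD)
    (mul_ne_zero (by norm_num) (pow_ne_zero _ (cond6_ne a b)))]
  intro p hp
  have hpp := Nat.prime_iff_prime_int.mp hp
  rw [Nat.factorization_mul (by norm_num) (pow_ne_zero _ (cond6_ne a b)), Finsupp.add_apply,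
    Nat.factorization_pow (Cond6 a b), Finsupp.smul_apply, smul_eq_mul, fact_cond hD hp]
  change V p (Disc a b) ≤ _
  -- bounds
  have hVa : V p (Disc a b) ≤ 8 + 3 * 3 ∨ (b ≠ 0 ∧ V p b ≤ 5) := by
    rcases min_at h hp with ⟨h1, h2⟩ | h1
    · left
      have h3 : V p (Disc a b) ≤ V p (6912 * a ^ 3) := by
        have h0 : (6912 : ℤ) * a ^ 3 ≠ 0 := mul_ne_zero (by norm_num) (pow_ne_zero _ h1)
        rw [← V_pow_dvd hp h0]
        exact ((V_pow_dvd hp hD _).mpr le_rfl).trans hj
      have h4 : V p (6912 * a ^ 3) = V p 6912 + 3 * V p a := by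
        unfold V
        rw [Int.natAbs_mul, Nat.factorization_mul (by norm_num)
          (Int.natAbs_ne_zero.mpr (pow_ne_zero _ h1)), Int.natAbs_pow, Nat.factorization_pow]
        rfl
      have h5 : V p 6912 ≤ 8 := by
        by_contra hcon
        push Not at hcon
        have h6 : (p : ℤ) ^ 9 ∣ 6912 := (V_pow_dvd hp (by norm_num) 9).mpr hcon
        have h7 : p ^ 9 ∣ 6912 := by exact_mod_cast h6
        have h8 : p ∣ 6912 := (dvd_pow_self p (by norm_num)).trans h7
        have h9 : p ^ 9 ≤ 6912 := Nat.le_of_dvd (by norm_num) h7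
        have h10 : p < 3 := by
          by_contra hc
          push Not at hc
          have : 3 ^ 9 ≤ p ^ 9 := Nat.pow_le_pow_left hc 9
          norm_num at this
          omega
        have h11 := hp.two_le
        interval_cases p
        norm_num at h7
      omega
    · right; exact h1
  by_cases h5 : 5 ≤ p
  · by_cases hdiv : (p : ℤ) ∣ Disc a b
    · have ha : (p : ℤ) ∣ a := by
        have h1 : (p : ℤ) ∣ 6912 * a ^ 3 := hdiv.trans hj
        rcases hpp.dvd_or_dvd h1 with h2 | h2
        · exfalso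
          have h3 : p ∣ 2 ^ 8 * 3 ^ 3 := by norm_num; exact_mod_cast h2
          rcases hp.dvd_mul.mp h3 with h4 | h4
          · have := Nat.le_of_dvd (by norm_num) (hp.dvd_of_dvd_pow h4)
            omega
          · have := Nat.le_of_dvd (by norm_num) (hp.dvd_of_dvd_pow h4)
            omega
        · exact hpp.dvd_of_dvd_pow h2
      rw [if_pos ⟨h5, hdiv⟩, if_pos ha]
      have h10 : V p (Disc a b) ≤ 10 := by
        have hunit : ∀ m : ℤ, m ∣ 6912 → ∀ x : ℤ, x ≠ 0 → V p (m * x) = V p x := by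
          intro m hm x hx
          have hm0 : m ≠ 0 := by
            rintro rfl
            norm_num at hm
          unfold V
          rw [Int.natAbs_mul, Nat.factorization_mul (Int.natAbs_ne_zero.mpr hm0)
            (Int.natAbs_ne_zero.mpr hx), Finsupp.add_apply]
          have : m.natAbs.factorization p = 0 := by
            refine Nat.factorization_eq_zero_of_not_dvd fun hc => ?_
            have h2 : (p : ℤ) ∣ 6912 := (Int.natCast_dvd.mpr hc).trans hm
            have h3 : p ∣ 2 ^ 8 * 3 ^ 3 := by norm_num; exact_mod_cast h2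
            rcases hp.dvd_mul.mp h3 with h4 | h4
            · have := Nat.le_of_dvd (by norm_num) (hp.dvd_of_dvd_pow h4)
              omega
            · have := Nat.le_of_dvd (by norm_num) (hp.dvd_of_dvd_pow h4)
              omega
          omega
        rcases min_at h hp with ⟨h1, h2⟩ | ⟨h1, h2⟩
        · have h0 : (6912 : ℤ) * a ^ 3 ≠ 0 := mul_ne_zero (by norm_num) (pow_ne_zero _ h1)
          have h3 : V p (Disc a b) ≤ V p (6912 * a ^ 3) := by
            rw [← V_pow_dvd hp h0]
            exact ((V_pow_dvd hp hD _).mpr le_rfl).trans hj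
          rw [hunit 6912 dvd_rfl _ (pow_ne_zero _ h1)] at h3
          have h4 : V p (a ^ 3) = 3 * V p a := by
            unfold V
            rw [Int.natAbs_pow, Nat.factorization_pow]
            rfl
          omega
        · -- `D ∣ 6912 a³`, `27 b² = 4 a³ - D`
          have h0 : (1728 * 27 : ℤ) * b ^ 2 ≠ 0 := mul_ne_zero (by norm_num) (pow_ne_zero _ h1)
          have h3 : V p (Disc a b) ≤ V p (1728 * 27 * b ^ 2) := by
            rw [← V_pow_dvd hp h0]
            have h4 : Disc a b ∣ 1728 * 27 * b ^ 2 := by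
              have : (1728 * 27 : ℤ) * b ^ 2 = 6912 * a ^ 3 - 1728 * Disc a b := by
                unfold Disc; ring
              rw [this]
              exact dvd_sub hj (Dvd.intro_left _ rfl)
            exact ((V_pow_dvd hp hD _).mpr le_rfl).trans h4
          have h5' : V p (1728 * 27 * b ^ 2) = V p (b ^ 2) := by
            have e1 : (1728 * 27 * b ^ 2 : ℤ) = 1728 * (27 * b ^ 2) := by ring
            rw [e1, hunit 1728 ⟨4, by norm_num⟩ _ (mul_ne_zero (by norm_num) (pow_ne_zero _ h1)),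
              hunit 27 ⟨256, by norm_num⟩ _ (pow_ne_zero _ h1)]
          have h4 : V p (b ^ 2) = 2 * V p b := by
            unfold V
            rw [Int.natAbs_pow, Nat.factorization_pow]
            rfl
          omega
      omega
    · have h1 : ¬ 1 ≤ V p (Disc a b) := fun h => hdiv ((V_dvd hp hD).mpr h)
      omega
  · push Not at h5
    rw [f6 hp h5]
    rcases hVa with h1 | ⟨h1, h2⟩
    · omega
    · have h0 : (1728 * 27 : ℤ) * b ^ 2 ≠ 0 := mul_ne_zero (by norm_num) (pow_ne_zero _ h1)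
      have h3 : V p (Disc a b) ≤ V p (1728 * 27 * b ^ 2) := by
        rw [← V_pow_dvd hp h0]
        have h4 : Disc a b ∣ 1728 * 27 * b ^ 2 := by
          have : (1728 * 27 : ℤ) * b ^ 2 = 6912 * a ^ 3 - 1728 * Disc a b := by
            unfold Disc; ring
          rw [this]
          exact dvd_sub hj (Dvd.intro_left _ rfl)
        exact ((V_pow_dvd hp hD _).mpr le_rfl).trans h4
      have h4 : V p (1728 * 27 * b ^ 2) = V p (6 ^ 6 : ℤ) + 2 * V p b := by
        unfold V
        rw [Int.natAbs_mul, Nat.factorization_mul (by norm_num)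
          (Int.natAbs_ne_zero.mpr (pow_ne_zero _ h1)), Int.natAbs_pow, Nat.factorization_pow]
        norm_num
      have h6 : V p (6 ^ 6 : ℤ) = 6 := by
        have : V p (6 ^ 6 : ℤ) = (6 ^ 6 : ℕ).factorization p := by
          unfold V
          norm_num
        rw [this, f6 hp h5]
      omega

/-- `b = 0`: the curves with `j = 1728` -/
theorem disc_dvd' {a : ℤ} (h : IsMinimal a 0) :
    Cond6 a 0 ^ 3 ∣ (Disc a 0).natAbs ^ 2 ∧
      (Disc a 0).natAbs ^ 2 ∣ 6 ^ 40 * Cond6 a 0 ^ 9 := by
  have hD := h.1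
  have ha : a ≠ 0 := by
    rintro rfl
    apply hD
    unfold Disc; norm_num
  have e : Disc a 0 = 4 * a ^ 3 := by unfold Disc; ring
  have hfac : ∀ p : ℕ, p.Prime → V p (Disc a 0) = V p 4 + 3 * V p a := by
    intro p _
    rw [e]
    unfold V
    rw [Int.natAbs_mul, Nat.factorization_mul (by norm_num)
      (Int.natAbs_ne_zero.mpr (pow_ne_zero _ ha)), Int.natAbs_pow, Nat.factorization_pow]
    rfl
  have hVa : ∀ p : ℕ, p.Prime → V p a ≤ 3 := by
    intro p hp
    rcases min_at h hp with h1 | h1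
    · exact h1.2
    · exact absurd rfl h1.1
  have h4 : ∀ p : ℕ, p.Prime → 5 ≤ p → V p 4 = 0 := by
    intro p hp h5
    unfold V
    refine Nat.factorization_eq_zero_of_not_dvd fun hc => ?_
    have : p ∣ 2 ^ 2 := by simpa using hc
    have := Nat.le_of_dvd (by norm_num) (hp.dvd_of_dvd_pow this)
    omega
  have h4' : ∀ p : ℕ, p.Prime → V p 4 ≤ 2 := by
    intro p hp
    by_contra hcon
    push Not at hcon
    have h6 : (p : ℤ) ^ 3 ∣ 4 := (V_pow_dvd hp (by norm_num) 3).mpr hcon
    have h7 : p ^ 3 ∣ 4 := by exact_mod_cast h6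
    have h8 : p ^ 3 ≤ 4 := Nat.le_of_dvd (by norm_num) h7
    have h9 : 2 ^ 3 ≤ p ^ 3 := Nat.pow_le_pow_left hp.two_le 3
    omega
  have hdiv : ∀ p : ℕ, p.Prime → 5 ≤ p → ((p : ℤ) ∣ Disc a 0 ↔ (p : ℤ) ∣ a) := by
    intro p hp h5
    rw [V_dvd hp hD, V_dvd hp ha, hfac p hp, h4 p hp h5]
    omega
  constructor
  · rw [← Nat.factorization_prime_le_iff_dvd (pow_ne_zero _ (cond6_ne a 0))
      (pow_ne_zero _ (Int.natAbs_ne_zero.mpr hD))]
    intro p hp
    rw [Nat.factorization_pow, Nat.factorization_pow, Finsupp.smul_apply, Finsupp.smul_apply,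
      smul_eq_mul, smul_eq_mul, fact_cond hD hp]
    change _ ≤ 2 * V p (Disc a 0)
    split_ifs with h1 h2
    · have h3 := (V_dvd hp ha).mp h2
      have h5 := hfac p hp
      omega
    · exact absurd ((hdiv p hp h1.1).mp h1.2) h2
    · omega
  · rw [← Nat.factorization_prime_le_iff_dvd (pow_ne_zero _ (Int.natAbs_ne_zero.mpr hD))
      (mul_ne_zero (by norm_num) (pow_ne_zero _ (cond6_ne a 0)))]
    intro p hp
    rw [Nat.factorization_mul (by norm_num) (pow_ne_zero _ (cond6_ne a 0)), Finsupp.add_apply,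
      Nat.factorization_pow (Cond6 a 0), Finsupp.smul_apply, smul_eq_mul, fact_cond hD hp,
      Nat.factorization_pow, Finsupp.smul_apply, smul_eq_mul]
    change 2 * V p (Disc a 0) ≤ _
    have h5 := hfac p hp
    have h6 := hVa p hp
    by_cases h7 : 5 ≤ p
    · have h8 := h4 p hp h7
      by_cases h9 : (p : ℤ) ∣ a
      · rw [if_pos ⟨h7, (hdiv p hp h7).mpr h9⟩, if_pos h9]
        omega
      · have h10 : ¬ 1 ≤ V p a := fun h => h9 ((V_dvd hp ha).mpr h)
        omega
    · push Not at h7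
      rw [f6 hp h7]
      have := h4' p hp
      omega

/-- a squarefree divisor of the discriminant -/
theorem sqfree_le {a b : ℤ} (hD : Disc a b ≠ 0) {P : ℕ} (hP : Squarefree P)
    (hd : (P : ℤ) ∣ Disc a b) : P ≤ 6 * Cond6 a b := by
  have hP0 : P ≠ 0 := hP.ne_zero
  refine Nat.le_of_dvd (by have := cond6_pos a b; omega) ?_
  rw [← Nat.factorization_prime_le_iff_dvd hP0 (mul_ne_zero (by norm_num) (cond6_ne a b))]
  intro p hp
  rw [Nat.factorization_mul (by norm_num) (cond6_ne a b), Finsupp.add_apply, fact_cond hD hp]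
  have h1 : P.factorization p ≤ 1 := hP.natFactorization_le_one p
  by_cases h2 : p ∣ P
  · have h3 : (p : ℤ) ∣ Disc a b := (Int.natCast_dvd_natCast.mpr h2).trans hd
    by_cases h5 : 5 ≤ p
    · rw [if_pos ⟨h5, h3⟩]
      split_ifs <;> omega
    · push Not at h5
      have := f6 hp h5 1
      rw [pow_one] at this
      omega
  · rw [Nat.factorization_eq_zero_of_not_dvd h2]
    omega

end Pool.Agent.Q272.LP
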