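import Pool.Agent.Q272.LP.Sets

/-!
# Curves with a fixed invariant
-/

set_option autoImplicit false

namespace Pool.Agent.Q272.LP

open Finset

/-- the `j`-invariant `6912 a³ / D` is equal to `j` -/
def HasJ (j : ℚ) (a b : ℤ) : Prop := 6912 * (a : ℚ) ^ 3 = j * Disc a b

theorem tc_j (j : ℚ) : TwistClosed (HasJ j) := by
  rintro a b l - - - h
  unfold HasJ at h ⊢
  rw [disc_twist]
  push_cast
  linear_combination (l : ℚ) ^ 6 * h

theorem V_mul {p : ℕ} {x y : ℤ} (hx : x ≠ 0) (hy : y ≠ 0) : V p (x * y) = V p x + V p y := by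
  unfold V
  rw [Int.natAbs_mul, Nat.factorization_mul (Int.natAbs_ne_zero.2 hx) (Int.natAbs_ne_zero.2 hy)]
  rfl

theorem V_pow {p : ℕ} {x : ℤ} (n : ℕ) : V p (x ^ n) = n * V p x := by
  unfold V
  rw [Int.natAbs_pow, Nat.factorization_pow]
  rfl

theorem V_natAbs (p : ℕ) (x : ℤ) : x.natAbs.factorization p = V p x := rfl

theorem j_dvd {j : ℚ} (h0 : j ≠ 0) (h1728 : j ≠ 1728) : ∃ Z : ℕ, Z ≠ 0 ∧
    ∀ a b : ℤ, IsMinimal a b → HasJ j a b →
      (Disc a b).natAbs ∣ Z ^ 13 * Cond6 a b ^ 3 ∧ Cond6 a b ^ 3 ∣ Z ^ 13 * (Disc a b).natAbs := by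
  set n : ℤ := j.num with hn
  set d : ℤ := (j.den : ℤ) with hd
  have hn0 : n ≠ 0 := Rat.num_ne_zero.mpr h0
  have hd0 : d ≠ 0 := by rw [hd]; exact_mod_cast j.den_nz
  have hdQ : (d : ℚ) ≠ 0 := by exact_mod_cast hd0
  have hj : j * (d : ℚ) = n := by rw [hn, hd]; push_cast; exact Rat.mul_den_eq_num j
  set m : ℤ := n - 1728 * d with hm
  have hm0 : m ≠ 0 := by
    intro h
    apply h1728
    have h2 : (n : ℚ) = 1728 * d := by
      have : n = 1728 * d := by linarith
      exact_mod_cast this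
    rw [← hj] at h2
    exact mul_right_cancel₀ hdQ h2
  set Zi : ℤ := 6912 * 46656 * n * d * m with hZi
  have hZi0 : Zi ≠ 0 := by
    rw [hZi]
    exact mul_ne_zero (mul_ne_zero (mul_ne_zero (by norm_num) hn0) hd0) hm0
  refine ⟨Zi.natAbs, Int.natAbs_ne_zero.mpr hZi0, fun a b hmin hJ => ?_⟩
  have hD := hmin.1
  have e1 : 6912 * a ^ 3 * d = n * Disc a b := by
    have : (6912 : ℚ) * (a : ℚ) ^ 3 * d = n * Disc a b := by
      unfold HasJ at hJ
      rw [hJ, ← hj]; ring
    exact_mod_cast this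
  have e2 : 46656 * b ^ 2 * d = m * Disc a b := by
    have h3 : (46656 : ℤ) * b ^ 2 = 6912 * a ^ 3 - 1728 * Disc a b := by
      unfold Disc; ring
    rw [h3, hm]
    linear_combination e1
  have ha0 : a ≠ 0 := by
    rintro rfl
    have : n * Disc 0 b = 0 := by rw [← e1]; ring
    exact (mul_ne_zero hn0 hD) this
  have hb0 : b ≠ 0 := by
    rintro rfl
    have : m * Disc a 0 = 0 := by rw [← e2]; ring
    exact (mul_ne_zero hm0 hD) this
  have f1 : ∀ p : ℕ, V p 6912 + 3 * V p a + V p d = V p n + V p (Disc a b) := by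
    intro p
    have := congrArg (V p) e1
    rwa [V_mul (mul_ne_zero (by norm_num) (pow_ne_zero _ ha0)) hd0,
      V_mul (by norm_num) (pow_ne_zero _ ha0), V_pow, V_mul hn0 hD] at this
  have f2 : ∀ p : ℕ, V p 46656 + 2 * V p b + V p d = V p m + V p (Disc a b) := by
    intro p
    have := congrArg (V p) e2
    rwa [V_mul (mul_ne_zero (by norm_num) (pow_ne_zero _ hb0)) hd0,
      V_mul (by norm_num) (pow_ne_zero _ hb0), V_pow, V_mul hm0 hD] at this
  have f3 : ∀ p : ℕ, V p Zi = V p 6912 + V p 46656 + V p n + V p d + V p m := by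
    intro p
    rw [hZi, V_mul (mul_ne_zero (mul_ne_zero (by norm_num) hn0) hd0) hm0,
      V_mul (mul_ne_zero (by norm_num) hn0) hd0, V_mul (by norm_num) hn0,
      V_mul (by norm_num) (by norm_num)]
  have small : ∀ p : ℕ, p.Prime → p < 5 → 1 ≤ V p Zi := by
    intro p hp h5
    rw [← V_dvd hp hZi0]
    have h6 : (p : ℤ) ∣ 6912 := by
      have h2 := hp.two_le
      interval_cases p
      · norm_num
      · norm_num
      · norm_num at hp
    rw [hZi]
    exact Dvd.dvd.mul_right (Dvd.dvd.mul_right (Dvd.dvd.mul_right (Dvd.dvd.mul_right h6 _) _) _) _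
  constructor
  · rw [← Nat.factorization_prime_le_iff_dvd (Int.natAbs_ne_zero.mpr hD)
      (mul_ne_zero (pow_ne_zero _ (Int.natAbs_ne_zero.mpr hZi0)) (pow_ne_zero _ (cond6_ne a b)))]
    intro p hp
    rw [Nat.factorization_mul (pow_ne_zero _ (Int.natAbs_ne_zero.mpr hZi0))
      (pow_ne_zero _ (cond6_ne a b)), Finsupp.add_apply, Nat.factorization_pow,
      Nat.factorization_pow, Finsupp.smul_apply, Finsupp.smul_apply, smul_eq_mul, smul_eq_mul,
      fact_cond hD hp, V_natAbs, V_natAbs]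
    have g1 := f1 p
    have g2 := f2 p
    have g3 := f3 p
    have g4 := min_at hmin hp
    by_cases hZ : 1 ≤ V p Zi
    · omega
    · have h5 : 5 ≤ p := by
        by_contra hc
        push Not at hc
        exact hZ (small p hp hc)
      by_cases hpD : (p : ℤ) ∣ Disc a b
      · have g5 := (V_dvd hp hD).mp hpD
        have g6 : (p : ℤ) ∣ a := (V_dvd hp ha0).mpr (by omega)
        rw [if_pos ⟨h5, hpD⟩, if_pos g6]
        omega
      · have g5 : ¬ 1 ≤ V p (Disc a b) := fun h => hpD ((V_dvd hp hD).mpr h)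
        omega
  · rw [← Nat.factorization_prime_le_iff_dvd (pow_ne_zero _ (cond6_ne a b))
      (mul_ne_zero (pow_ne_zero _ (Int.natAbs_ne_zero.mpr hZi0)) (Int.natAbs_ne_zero.mpr hD))]
    intro p hp
    rw [Nat.factorization_mul (pow_ne_zero _ (Int.natAbs_ne_zero.mpr hZi0))
      (Int.natAbs_ne_zero.mpr hD), Finsupp.add_apply, Nat.factorization_pow,
      Nat.factorization_pow, Finsupp.smul_apply, Finsupp.smul_apply, smul_eq_mul, smul_eq_mul,
      fact_cond hD hp, V_natAbs, V_natAbs]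
    have g1 := f1 p
    have g2 := f2 p
    have g3 := f3 p
    by_cases hZ : 1 ≤ V p Zi
    · split_ifs <;> omega
    · have z1 : V p 6912 = 0 := by omega
      have z2 : V p 46656 = 0 := by omega
      have z3 : V p n = 0 := by omega
      have z4 : V p d = 0 := by omega
      have z5 : V p m = 0 := by omega
      rw [z1, z3, z4] at g1
      rw [z2, z4, z5] at g2
      split_ifs with h1 h2
      · have g5 := (V_dvd hp ha0).mp h2
        omega
      · have g5 := (V_dvd hp hD).mp h1.2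
        have g6 : ¬ 1 ≤ V p a := fun h => h2 ((V_dvd hp ha0).mpr h)
        omega
      · omega

/-- there is a minimal model with invariant `j` -/
theorem j_exists {j : ℚ} (h0 : j ≠ 0) (h1728 : j ≠ 1728) :
    ∃ a b : ℤ, IsMinimal a b ∧ HasJ j a b := by
  classical
  have hne : ∃ k : ℕ, ∃ a b : ℤ, Disc a b ≠ 0 ∧ HasJ j a b ∧ (Disc a b).natAbs = k := by
    have hj1 : j - 1728 ≠ 0 := sub_ne_zero.mpr h1728
    set c : ℚ := j / (j - 1728) with hc
    have hc0 : c ≠ 0 := div_ne_zero h0 hj1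
    have hc1 : c - 1 = 1728 / (j - 1728) := by
      rw [hc]; field_simp; ring
    have hcd : c * (c.den : ℚ) = c.num := Rat.mul_den_eq_num c
    set u : ℤ := (c.den : ℤ) with hu
    have hu0 : u ≠ 0 := by rw [hu]; exact_mod_cast c.den_nz
    have hcd' : c * (u : ℚ) = (c.num : ℚ) := by rw [hu]; push_cast; exact hcd
    have ha : ((3 * c.num * u ^ 3 : ℤ) : ℚ) = 3 * c * (u : ℚ) ^ 4 := by
      push_cast; rw [← hcd']; ring
    have hb : ((2 * c.num * u ^ 5 : ℤ) : ℚ) = 2 * c * (u : ℚ) ^ 6 := by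
      push_cast; rw [← hcd']; ring
    have hDQ : ((Disc (3 * c.num * u ^ 3) (2 * c.num * u ^ 5) : ℤ) : ℚ) =
        108 * c ^ 2 * (c - 1) * (u : ℚ) ^ 12 := by
      have : ((Disc (3 * c.num * u ^ 3) (2 * c.num * u ^ 5) : ℤ) : ℚ) =
          4 * ((3 * c.num * u ^ 3 : ℤ) : ℚ) ^ 3 - 27 * ((2 * c.num * u ^ 5 : ℤ) : ℚ) ^ 2 := by
        unfold Disc; push_cast; ring
      rw [this, ha, hb]; ring
    have huQ : (u : ℚ) ≠ 0 := by exact_mod_cast hu0
    refine ⟨_, 3 * c.num * u ^ 3, 2 * c.num * u ^ 5, ?_, ?_, rfl⟩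
    · intro h
      rw [h] at hDQ
      have h2 : 108 * c ^ 2 * (c - 1) * (u : ℚ) ^ 12 ≠ 0 := by
        rw [hc1]
        have : (1728 : ℚ) / (j - 1728) ≠ 0 := div_ne_zero (by norm_num) hj1
        exact mul_ne_zero (mul_ne_zero (mul_ne_zero (by norm_num) (pow_ne_zero _ hc0)) this)
          (pow_ne_zero _ huQ)
      apply h2
      rw [← hDQ]
      simp
    · unfold HasJ
      rw [hDQ, ha, hc1, hc]
      field_simp
      ring
  obtain ⟨a, b, hD, hJ, hk⟩ := Nat.find_spec hne
  have hmin : ∀ m : ℕ, m < (Disc a b).natAbs →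
      ¬ ∃ a b : ℤ, Disc a b ≠ 0 ∧ HasJ j a b ∧ (Disc a b).natAbs = m := by
    intro m hm
    rw [hk] at hm
    exact Nat.find_min hne hm
  refine ⟨a, b, ⟨hD, fun u a' b' hu ha hb => ?_⟩, hJ⟩
  by_contra hcon
  push Not at hcon
  have hDD : ((Disc a' b' : ℤ) : ℚ) = u ^ 12 * Disc a b := by
    unfold Disc
    push_cast
    rw [ha, hb]; ring
  rw [Int.abs_eq_natAbs, Int.abs_eq_natAbs] at hcon
  refine hmin (Disc a' b').natAbs (by exact_mod_cast hcon) ⟨a', b', ?_, ?_, rfl⟩
  · intro h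
    rw [h] at hDD
    have : u ^ 12 * (Disc a b : ℚ) ≠ 0 := mul_ne_zero (pow_ne_zero _ hu) (by exact_mod_cast hD)
    apply this
    rw [← hDD]; simp
  · unfold HasJ at hJ ⊢
    rw [hDD, ha]
    linear_combination u ^ 12 * hJ

/-- for a fixed invariant the only limit point is `3` -/
theorem lim_j {j : ℚ} (h0 : j ≠ 0) (h1728 : j ≠ 1728) (x : ℝ) :
    LimPt absD N6 (HasJ j) x ↔ x = 3 := by
  obtain ⟨a0, b0, hm0, hp0⟩ := j_exists h0 h1728
  constructor
  · intro hx
    obtain ⟨Z, hZ, hdv⟩ := j_dvd h0 h1728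
    set c' : ℝ := Real.log ((Z : ℝ) ^ 13) with hc'
    have hbd : ∀ a b, IsMinimal a b → HasJ j a b →
        |Real.log (absD a b) - 3 * Real.log (N6 a b)| ≤ c' := by
      intro a b hmin hJ
      obtain ⟨h1, h2⟩ := hdv a b hmin hJ
      have hD := Int.natAbs_ne_zero.mpr hmin.1
      have hZR : ((Z : ℝ)) ≠ 0 := by exact_mod_cast hZ
      have hCR : ((Cond6 a b : ℝ)) ≠ 0 := by exact_mod_cast cond6_ne a b
      have hDR : (((Disc a b).natAbs : ℕ) : ℝ) ≠ 0 := by exact_mod_cast hD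
      have h3 := log_le_of_dvd (mul_ne_zero (pow_ne_zero _ hZ) (pow_ne_zero _ (cond6_ne a b))) h1
      have h4 := log_le_of_dvd (mul_ne_zero (pow_ne_zero _ hZ) hD) h2
      rw [Nat.cast_mul, Nat.cast_pow, Nat.cast_pow, Real.log_mul (pow_ne_zero _ hZR)
        (pow_ne_zero _ hCR), Real.log_pow (x := (Cond6 a b : ℝ)) (n := 3)] at h3
      rw [Nat.cast_mul, Nat.cast_pow, Nat.cast_pow, Real.log_mul (pow_ne_zero _ hZR) hDR,
        Real.log_pow (x := (Cond6 a b : ℝ)) (n := 3)] at h4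
      rw [absD_eq, abs_le, hc']
      unfold N6
      push_cast at h3 h4
      constructor <;> linarith
    by_contra hne
    set δ : ℝ := |x - 3| / 2 with hδ
    have hδ0 : 0 < δ := by
      have : 0 < |x - 3| := abs_pos.mpr (sub_ne_zero.mpr hne)
      positivity
    obtain ⟨M', -, hM'⟩ := big_of (M := 0) (R := |c'| / δ + 1)
    obtain ⟨a, b, g1, g2, g3, g4⟩ := hx δ M' hδ0
    obtain ⟨g5, g6⟩ := hM' _ g3
    have hB : 0 < Real.log (N6 a b) := by
      have : 0 ≤ |c'| / δ := by positivity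
      linarith
    have g7 := hbd a b g1 g2
    have g8 : |Real.log (absD a b) / Real.log (N6 a b) - 3| < δ := by
      have e : Real.log (absD a b) / Real.log (N6 a b) - 3 =
          (Real.log (absD a b) - 3 * Real.log (N6 a b)) / Real.log (N6 a b) := by
        field_simp
      rw [e, abs_div, abs_of_pos hB, div_lt_iff₀ hB]
      have g9 : |c'| < δ * Real.log (N6 a b) := by
        have : |c'| / δ < Real.log (N6 a b) := by linarith
        rwa [div_lt_iff₀ hδ0, mul_comm] at this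
      exact lt_of_le_of_lt (g7.trans (le_abs_self c')) g9
    have g9 : |x - 3| < 2 * δ := by
      have e : x - 3 = (Real.log (absD a b) / Real.log (N6 a b) - 3) -
          (Real.log (absD a b) / Real.log (N6 a b) - x) := by ring
      rw [e]
      refine lt_of_le_of_lt (abs_sub _ _) ?_
      linarith
    rw [hδ] at g9
    linarith
  · rintro rfl
    exact reach_three size_absD (tc_j j) hm0 hp0

end Pool.Agent.Q272.LP
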