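import Pool.Agent.Q272.LP.Ht
import Pool.Agent.Q272.TR.Abc

/-!
# Full 2-torsion: the limit points of `log H / log N` and the exponents in the abc inequality
-/

set_option autoImplicit false

namespace Pool.Agent.Q272.LP

open Finset
open Pool.Agent.Q272.TR (rad rad_pos rad_fact AbcExp)

/-- an upper bound for the limit points -/
theorem lim_le {Φ : ℤ → ℤ → ℝ} {P : ℤ → ℤ → Prop} {hi : ℝ}
    (hup : ∃ c' : ℝ, ∀ a b, IsMinimal a b → P a b →
      Real.log (Φ a b) ≤ hi * Real.log (N6 a b) + c') {x : ℝ} (hx : LimPt Φ N6 P x) : x ≤ hi := by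
  obtain ⟨c', hc'⟩ := hup
  by_contra hcon
  push Not at hcon
  set δ := (x - hi) / 2 with hδ
  have hδ0 : 0 < δ := by linarith
  obtain ⟨M', -, hM'⟩ := big_of (M := 0) (R := |c'| / δ + 1)
  obtain ⟨a, b, g1, g2, g3, g4⟩ := hx δ M' hδ0
  obtain ⟨g5, g6⟩ := hM' _ g3
  have hB : 0 < Real.log (N6 a b) := by
    have : 0 ≤ |c'| / δ := by positivity
    linarith
  have g7 := hc' a b g1 g2
  have g8 : hi + δ < Real.log (Φ a b) / Real.log (N6 a b) := by
    have := (abs_lt.mp g4).1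
    linarith
  rw [lt_div_iff₀ hB] at g8
  have g9 : |c'| < δ * Real.log (N6 a b) := by
    have : |c'| / δ < Real.log (N6 a b) := by linarith
    rwa [div_lt_iff₀ hδ0, mul_comm] at this
  have := le_abs_self c'
  nlinarith

theorem abc_int {l C : ℝ} (h : ∀ a b c : ℕ, 0 < a → 0 < b → a + b = c → Nat.Coprime a b →
    (c : ℝ) ≤ C * (rad (a * b * c) : ℝ) ^ l) {x y : ℤ} (hxy : IsCoprime x y) (hx : x ≠ 0)
    (hy : y ≠ 0) (hz : x + y ≠ 0) :
    ((max x.natAbs y.natAbs : ℕ) : ℝ) ≤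
      C * (rad (x.natAbs * y.natAbs * (x + y).natAbs) : ℝ) ^ l := by
  have h1 : 0 < x.natAbs := Int.natAbs_pos.mpr hx
  have h2 : 0 < y.natAbs := Int.natAbs_pos.mpr hy
  have h3 : 0 < (x + y).natAbs := Int.natAbs_pos.mpr hz
  have c1 : Nat.Coprime x.natAbs y.natAbs := Int.isCoprime_iff_gcd_eq_one.mp hxy
  have c2 : Nat.Coprime x.natAbs (x + y).natAbs :=
    Int.isCoprime_iff_gcd_eq_one.mp (by
      have := (IsCoprime.mul_add_left_right hxy 1)
      rwa [mul_one] at this)
  have c3 : Nat.Coprime y.natAbs (x + y).natAbs :=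
    Int.isCoprime_iff_gcd_eq_one.mp (by
      have := (IsCoprime.add_mul_left_right hxy.symm 1)
      rwa [mul_one] at this)
  have hcases : x.natAbs + y.natAbs = (x + y).natAbs ∨ x.natAbs + (x + y).natAbs = y.natAbs ∨
      y.natAbs + (x + y).natAbs = x.natAbs := by omega
  rcases hcases with h4 | h4 | h4
  · refine le_trans ?_ (h _ _ _ h1 h2 h4 c1)
    have : max x.natAbs y.natAbs ≤ (x + y).natAbs := by omega
    exact_mod_cast this
  · have h5 := h _ _ _ h1 h3 h4 c2
    rw [show x.natAbs * (x + y).natAbs * y.natAbs = x.natAbs * y.natAbs * (x + y).natAbs by ring]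
      at h5
    refine le_trans ?_ h5
    have : max x.natAbs y.natAbs ≤ y.natAbs := by omega
    exact_mod_cast this
  · have h5 := h _ _ _ h2 h3 h4 c3
    rw [show y.natAbs * (x + y).natAbs * x.natAbs = x.natAbs * y.natAbs * (x + y).natAbs by ring]
      at h5
    refine le_trans ?_ h5
    have : max x.natAbs y.natAbs ≤ x.natAbs := by omega
    exact_mod_cast this

theorem rad_dvd_cond {a b r s t : ℤ} (hmin : IsMinimal a b) (h1 : r + s + t = 0)
    (h2 : r * s + r * t + s * t = -a) (h3 : r * s * t = b) {g : ℕ} {x y : ℤ} (hg : 0 < g)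
    (hx : r - s = g * x) (hy : s - t = g * y) (hx0 : x ≠ 0) (hy0 : y ≠ 0) (hz0 : x + y ≠ 0) :
    g * rad (x.natAbs * y.natAbs * (x + y).natAbs) ∣ 6 ^ 3 * Cond6 a b := by
  have hD := hmin.1
  have e : Disc a b = ((r - s) * (r - t) * (s - t)) ^ 2 := by
    have ht : t = -r - s := by linarith
    have ha : a = -(r * s + r * t + s * t) := by linarith
    rw [← h3, ha, ht]
    unfold Disc
    ring
  have hz : r - t = g * (x + y) := by
    have : r - t = (r - s) + (s - t) := by ring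
    rw [this, hx, hy]; ring
  have hn0 : x.natAbs * y.natAbs * (x + y).natAbs ≠ 0 :=
    mul_ne_zero (mul_ne_zero (Int.natAbs_ne_zero.mpr hx0) (Int.natAbs_ne_zero.mpr hy0))
      (Int.natAbs_ne_zero.mpr hz0)
  -- divisibility of the roots
  have hroots : ∀ d : ℤ, (3 * d) ∣ (g : ℤ) → d ∣ r ∧ d ∣ s ∧ d ∣ t := by
    rintro d ⟨c, hc⟩
    refine ⟨⟨c * (2 * x + y), ?_⟩, ⟨c * (y - x), ?_⟩, ⟨c * (-x - 2 * y), ?_⟩⟩
    · have : 3 * r = (r - s) + (r - t) := by linarith
      rw [hx, hz, hc] at this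
      have h9 : 3 * r = 3 * (d * (c * (2 * x + y))) := by rw [this]; ring
      linarith
    · have : 3 * s = (s - t) - (r - s) := by linarith
      rw [hx, hy, hc] at this
      have h9 : 3 * s = 3 * (d * (c * (y - x))) := by rw [this]; ring
      linarith
    · have : 3 * t = -(r - t) - (s - t) := by linarith
      rw [hz, hy, hc] at this
      have h9 : 3 * t = 3 * (d * (c * (-x - 2 * y))) := by rw [this]; ring
      linarith
  have hroots' : ∀ p : ℕ, p.Prime → 5 ≤ p → ∀ k, ((p : ℤ) ^ k) ∣ (g : ℤ) →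
      (p : ℤ) ^ k ∣ r ∧ (p : ℤ) ^ k ∣ s ∧ (p : ℤ) ^ k ∣ t := by
    intro p hp h5 k hk
    have hc3 : IsCoprime ((p : ℤ) ^ k) 3 := by
      refine IsCoprime.pow_left ?_
      have : Nat.Coprime p 3 := (Nat.coprime_primes hp Nat.prime_three).mpr (by omega)
      exact_mod_cast Nat.isCoprime_iff_coprime.mpr this
    have gx : (p : ℤ) ^ k ∣ r - s := by rw [hx]; exact Dvd.dvd.mul_right hk _
    have gy : (p : ℤ) ^ k ∣ s - t := by rw [hy]; exact Dvd.dvd.mul_right hk _
    have gz : (p : ℤ) ^ k ∣ r - t := by rw [hz]; exact Dvd.dvd.mul_right hk _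
    refine ⟨hc3.dvd_of_dvd_mul_left ?_, hc3.dvd_of_dvd_mul_left ?_, hc3.dvd_of_dvd_mul_left ?_⟩
    · have : 3 * r = (r - s) + (r - t) := by linarith
      rw [this]; exact dvd_add gx gz
    · have : 3 * s = (s - t) - (r - s) := by linarith
      rw [this]; exact dvd_sub gy gx
    · have : 3 * t = -(r - t) - (s - t) := by linarith
      rw [this]; exact dvd_sub (dvd_neg.mpr gz) gy
  -- squares in the roots contradict minimality
  have hno : ∀ p : ℕ, p.Prime → ¬ ((p : ℤ) ^ 2 ∣ r ∧ (p : ℤ) ^ 2 ∣ s ∧ (p : ℤ) ^ 2 ∣ t) := by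
    rintro p hp ⟨g1, g2, g3⟩
    apply ((isMinimal_iff a b).mp hmin).2 p hp
    have ha : a = -(r * s + r * t + s * t) := by linarith
    constructor
    · rw [ha, dvd_neg, show (p : ℤ) ^ 4 = (p : ℤ) ^ 2 * (p : ℤ) ^ 2 by ring]
      exact dvd_add (dvd_add (mul_dvd_mul g1 g2) (mul_dvd_mul g1 g3)) (mul_dvd_mul g2 g3)
    · rw [← h3, show (p : ℤ) ^ 6 = (p : ℤ) ^ 2 * (p : ℤ) ^ 2 * (p : ℤ) ^ 2 by ring]
      exact mul_dvd_mul (mul_dvd_mul g1 g2) g3
  rw [← Nat.factorization_prime_le_iff_dvd (mul_ne_zero hg.ne' (rad_pos _).ne')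
    (mul_ne_zero (by norm_num) (cond6_ne a b))]
  intro p hp
  have hpp := Nat.prime_iff_prime_int.mp hp
  rw [Nat.factorization_mul hg.ne' (rad_pos _).ne', Finsupp.add_apply,
    Nat.factorization_mul (by norm_num) (cond6_ne a b), Finsupp.add_apply, fact_cond hD hp]
  have f1 := rad_fact (x.natAbs * y.natAbs * (x + y).natAbs) p hp hn0
  by_cases h5 : 5 ≤ p
  · have f2 : g.factorization p ≤ 1 := by
      by_contra hcon
      push Not at hcon
      have h6 : p ^ 2 ∣ g := (hp.pow_dvd_iff_le_factorization hg.ne').mpr hcon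
      exact hno p hp (hroots' p hp h5 2 (by exact_mod_cast h6))
    by_cases g1 : p ∣ g
    · obtain ⟨d1, d2, d3⟩ := hroots' p hp h5 1 (by rw [pow_one]; exact_mod_cast g1)
      rw [pow_one] at d1 d2 d3
      have hpa : (p : ℤ) ∣ a := by
        have ha : a = -(r * s + r * t + s * t) := by linarith
        rw [ha, dvd_neg]
        exact dvd_add (dvd_add (Dvd.dvd.mul_right d1 _) (Dvd.dvd.mul_right d1 _))
          (Dvd.dvd.mul_right d2 _)
      have hpD : (p : ℤ) ∣ Disc a b := by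
        rw [e]
        exact dvd_pow (Dvd.dvd.mul_left (dvd_sub d2 d3) _) (by norm_num)
      rw [if_pos ⟨h5, hpD⟩, if_pos hpa]
      split_ifs at f1 <;> omega
    · rw [Nat.factorization_eq_zero_of_not_dvd g1]
      by_cases g2 : p ∣ x.natAbs * y.natAbs * (x + y).natAbs
      · have hpD : (p : ℤ) ∣ Disc a b := by
          have g3 : (p : ℤ) ∣ x * y * (x + y) := by
            rw [← Int.natAbs_mul, ← Int.natAbs_mul] at g2
            exact Int.natCast_dvd.mpr g2
          rw [e, hx, hy, hz]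
          refine dvd_pow ?_ (by norm_num)
          have : (g : ℤ) * x * ((g : ℤ) * (x + y)) * ((g : ℤ) * y) =
              (g : ℤ) ^ 3 * (x * y * (x + y)) := by ring
          rw [this]
          exact Dvd.dvd.mul_left g3 _
        rw [if_pos ⟨h5, hpD⟩]
        rw [if_pos g2] at f1
        split_ifs <;> omega
      · rw [if_neg g2] at f1
        omega
  · push Not at h5
    rw [f6 hp h5]
    have f2 : g.factorization p ≤ 2 := by
      by_contra hcon
      push Not at hcon
      have h6 : p ^ 3 ∣ g := (hp.pow_dvd_iff_le_factorization hg.ne').mpr hcon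
      by_cases h3' : p = 3
      · refine hno p hp (hroots ((p : ℤ) ^ 2) ?_)
        rw [h3'] at h6 ⊢
        have : (((3 : ℕ) : ℤ)) ^ 3 ∣ (g : ℤ) := by exact_mod_cast h6
        have e3 : (3 : ℤ) * (((3 : ℕ) : ℤ)) ^ 2 = (((3 : ℕ) : ℤ)) ^ 3 := by norm_num
        rwa [e3]
      · have h22 : p = 2 := by
          have := hp.two_le
          interval_cases p
          · rfl
          · exact absurd rfl h3'
          · exact absurd hp (by decide)
        -- `8 ∣ g`
        have h8 : (8 : ℤ) ∣ (g : ℤ) := by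
          rw [h22] at h6
          exact_mod_cast h6
        have g4 : ∀ z : ℤ, (8 : ℤ) ∣ 3 * z → (p : ℤ) ^ 2 ∣ z := by
          intro z hz'
          rw [h22]
          have : (((2 : ℕ) : ℤ)) ^ 2 = 4 := by norm_num
          rw [this]
          omega
        refine hno p hp ⟨g4 r ?_, g4 s ?_, g4 t ?_⟩
        · have : 3 * r = (r - s) + (r - t) := by linarith
          rw [this, hx, hz]
          exact dvd_add (Dvd.dvd.mul_right h8 _) (Dvd.dvd.mul_right h8 _)
        · have : 3 * s = (s - t) - (r - s) := by linarith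
          rw [this, hx, hy]
          exact dvd_sub (Dvd.dvd.mul_right h8 _) (Dvd.dvd.mul_right h8 _)
        · have : 3 * t = -(r - t) - (s - t) := by linarith
          rw [this, hz, hy]
          exact dvd_sub (dvd_neg.mpr (Dvd.dvd.mul_right h8 _)) (Dvd.dvd.mul_right h8 _)
    split_ifs at f1 <;> omega

/-- abc with the exponent `l` gives the exponent `6 l` for full 2-torsion -/
theorem full_up {l : ℝ} (hl : 1 ≤ l) (h : AbcExp l) : ∃ c' : ℝ, ∀ a b, IsMinimal a b →
    FullTwoTorsion a b → Real.log (Hs a b) ≤ 6 * l * Real.log (N6 a b) + c' := by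
  obtain ⟨C, hC⟩ := h
  have hC0 : 0 < C := by
    have h1 := hC 1 1 2 one_pos one_pos rfl (Nat.coprime_one_right 1)
    have h2 : (0 : ℝ) < (rad (1 * 1 * 2) : ℝ) ^ l :=
      Real.rpow_pos_of_pos (by exact_mod_cast rad_pos _) _
    by_contra hcon
    push Not at hcon
    have : C * (rad (1 * 1 * 2) : ℝ) ^ l ≤ 0 := mul_nonpos_of_nonpos_of_nonneg hcon h2.le
    norm_num at h1
    norm_num at this
    linarith
  refine ⟨Real.log (108 * C ^ 6 * ((6 : ℝ) ^ 3) ^ (6 * l)), fun a b hmin hf => ?_⟩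
  obtain ⟨r, s, t, h1, h2, h3⟩ := full_int hf
  have hD := hmin.1
  have e : Disc a b = ((r - s) * (r - t) * (s - t)) ^ 2 := by
    have ht : t = -r - s := by linarith
    have ha : a = -(r * s + r * t + s * t) := by linarith
    rw [← h3, ha, ht]
    unfold Disc
    ring
  have hrs : r - s ≠ 0 := by
    intro h0; apply hD; rw [e, h0]; ring
  have hst : s - t ≠ 0 := by
    intro h0; apply hD; rw [e, h0]; ring
  have hrt : r - t ≠ 0 := by
    intro h0; apply hD; rw [e, h0]; ring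
  have hg : 0 < Int.gcd (r - s) (s - t) := Int.gcd_pos_of_ne_zero_left _ hrs
  obtain ⟨x, y, hxy, hx, hy⟩ := Int.exists_gcd_one hg
  set g := Int.gcd (r - s) (s - t) with hgdef
  have hx' : r - s = g * x := by rw [hx]; ring
  have hy' : s - t = g * y := by rw [hy]; ring
  have hx0 : x ≠ 0 := by rintro rfl; apply hrs; rw [hx']; ring
  have hy0 : y ≠ 0 := by rintro rfl; apply hst; rw [hy']; ring
  have hz0 : x + y ≠ 0 := by
    intro h0
    apply hrt
    have : r - t = (r - s) + (s - t) := by ring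
    rw [this, hx', hy', ← mul_add, h0, mul_zero]
  have hco : IsCoprime x y := Int.isCoprime_iff_gcd_eq_one.mpr hxy
  have hM := abc_int hC hco hx0 hy0 hz0
  have hd := rad_dvd_cond hmin h1 h2 h3 hg hx' hy' hx0 hy0 hz0
  set R := rad (x.natAbs * y.natAbs * (x + y).natAbs) with hR
  set M : ℕ := max x.natAbs y.natAbs with hMdef
  have hle : (g : ℝ) * R ≤ 6 ^ 3 * N6 a b := by
    unfold N6
    have := Nat.le_of_dvd (by have := cond6_pos a b; positivity) hd
    exact_mod_cast this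
  have hg1 : (1 : ℝ) ≤ g := by exact_mod_cast hg
  have hR0 : (0 : ℝ) ≤ R := Nat.cast_nonneg _
  have hN1 := N6_one a b
  have hgM : (g : ℝ) * M ≤ C * (6 ^ 3 * N6 a b) ^ l := by
    calc (g : ℝ) * M ≤ g * (C * (R : ℝ) ^ l) := by gcongr
      _ = C * ((g : ℝ) ^ (1 : ℝ) * (R : ℝ) ^ l) := by rw [Real.rpow_one]; ring
      _ ≤ C * ((g : ℝ) ^ l * (R : ℝ) ^ l) := by gcongr
      _ = C * ((g : ℝ) * R) ^ l := by rw [Real.mul_rpow (by linarith) hR0]
      _ ≤ _ := by gcongr
  -- the roots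
  have hxM : |(x : ℝ)| ≤ M := by
    have : x.natAbs ≤ M := le_max_left _ _
    rw [← Int.cast_abs, ← Nat.cast_natAbs]
    exact_mod_cast this
  have hyM : |(y : ℝ)| ≤ M := by
    have : y.natAbs ≤ M := le_max_right _ _
    rw [← Int.cast_abs, ← Nat.cast_natAbs]
    exact_mod_cast this
  have hxR : (r : ℝ) - s = g * x := by exact_mod_cast hx'
  have hyR : (s : ℝ) - t = g * y := by exact_mod_cast hy'
  have h1R : (r : ℝ) + s + t = 0 := by exact_mod_cast h1
  set G : ℝ := (g : ℝ) * M with hG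
  have hG0 : 0 ≤ G := by positivity
  have bx := abs_le.mp hxM
  have bY := abs_le.mp hyM
  have gx1 : (g : ℝ) * x ≤ G := by rw [hG]; gcongr; exact bx.2
  have gx2 : -G ≤ (g : ℝ) * x := by
    rw [hG, ← mul_neg]
    exact mul_le_mul_of_nonneg_left bx.1 (by linarith)
  have gy1 : (g : ℝ) * y ≤ G := by rw [hG]; gcongr; exact bY.2
  have gy2 : -G ≤ (g : ℝ) * y := by
    rw [hG, ← mul_neg]
    exact mul_le_mul_of_nonneg_left bY.1 (by linarith)
  have hr : |(r : ℝ)| ≤ G := by rw [abs_le]; constructor <;> linarith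
  have hs : |(s : ℝ)| ≤ G := by rw [abs_le]; constructor <;> linarith
  have ht : |(t : ℝ)| ≤ G := by rw [abs_le]; constructor <;> linarith
  have ha : |(a : ℝ)| ≤ 3 * G ^ 2 := by
    have : (a : ℝ) = -((r : ℝ) * s + r * t + s * t) := by
      have : a = -(r * s + r * t + s * t) := by linarith
      exact_mod_cast this
    rw [this, abs_neg]
    calc |(r : ℝ) * s + r * t + s * t| ≤ |(r : ℝ) * s| + |(r : ℝ) * t| + |(s : ℝ) * t| :=
          abs_add_three _ _ _
      _ = |(r : ℝ)| * |(s : ℝ)| + |(r : ℝ)| * |(t : ℝ)| + |(s : ℝ)| * |(t : ℝ)| := by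
          rw [abs_mul, abs_mul, abs_mul]
      _ ≤ G * G + G * G + G * G := by gcongr
      _ = _ := by ring
  have hb : (b : ℝ) ^ 2 ≤ G ^ 6 := by
    have : (b : ℝ) = (r : ℝ) * s * t := by exact_mod_cast h3.symm
    rw [← sq_abs, this, abs_mul, abs_mul]
    calc (|(r : ℝ)| * |(s : ℝ)| * |(t : ℝ)|) ^ 2 ≤ (G * G * G) ^ 2 := by gcongr
      _ = _ := by ring
  have hH : Hs a b ≤ 108 * G ^ 6 := by
    unfold Hs
    refine max_le ?_ ?_
    · calc 4 * |(a : ℝ)| ^ 3 ≤ 4 * (3 * G ^ 2) ^ 3 := by gcongr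
        _ = _ := by ring
    · have : 0 ≤ G ^ 6 := by positivity
      linarith
  have hH2 : Hs a b ≤ 108 * C ^ 6 * ((6 : ℝ) ^ 3) ^ (6 * l) * N6 a b ^ (6 * l) := by
    calc Hs a b ≤ 108 * G ^ 6 := hH
      _ ≤ 108 * (C * (6 ^ 3 * N6 a b) ^ l) ^ 6 := by gcongr
      _ = 108 * C ^ 6 * ((6 ^ 3 * N6 a b) ^ l) ^ 6 := by ring
      _ = 108 * C ^ 6 * (6 ^ 3 * N6 a b) ^ (6 * l) := by
          rw [← Real.rpow_natCast ((6 ^ 3 * N6 a b) ^ l) 6, ← Real.rpow_mul (by positivity)]
          congr 2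
          push_cast
          ring
      _ = _ := by
          rw [Real.mul_rpow (by positivity) (by linarith)]
          ring
  have hH1 := hs_one hD
  have h9 := Real.log_le_log (by linarith) hH2
  rw [Real.log_mul (by positivity) (by positivity), Real.log_rpow (by linarith)] at h9
  linarith

/-- large abc triples give limit points -/
theorem full_reach {l : ℝ} (hl : 1 / 2 < l) (h : ¬ AbcExp l) :
    LimPt Hs N6 FullTwoTorsion (6 * l) := by
  refine reach_up' size_hs tc_full (by linarith) fun K => ?_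
  unfold AbcExp at h
  push Not at h
  obtain ⟨A, B, c, hA, hB, hc, hco, hlt⟩ := h (Real.exp (K / 6))
  subst hc
  have hcop : IsCoprime (A : ℤ) (B : ℤ) := Nat.isCoprime_iff_coprime.mpr hco
  have hne : (A : ℤ) * B * ((A : ℤ) + B) ≠ 0 := by
    have : (0 : ℤ) < A := by exact_mod_cast hA
    have : (0 : ℤ) < B := by exact_mod_cast hB
    positivity
  obtain ⟨hc1, -⟩ := tri_cond hco hA hB
  have hN1 := N6_one (ta A B) (tb A B)
  have hmin := tri_min hcop hne
  refine ⟨ta A B, tb A B, hmin, tri_full _ _, ?_⟩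
  have hAR : (0 : ℝ) < A := by exact_mod_cast hA
  have hBR : (0 : ℝ) < B := by exact_mod_cast hB
  have hR : (0 : ℝ) < (rad (A * B * (A + B)) : ℝ) := by exact_mod_cast rad_pos _
  have hN : N6 (ta A B) (tb A B) ≤ (rad (A * B * (A + B)) : ℝ) := by
    unfold N6 rad
    exact_mod_cast hc1
  have hlogN := Real.log_le_log (by linarith) hN
  have h1 := Real.log_le_log (by positivity) hlt.le
  rw [Real.log_mul (Real.exp_pos _).ne' (by positivity), Real.log_exp, Real.log_rpow hR] at h1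
  have hH : ((A + B : ℕ) : ℝ) ^ 6 ≤ Hs (ta A B) (tb A B) := by
    refine le_trans ?_ (le_max_left _ _)
    unfold ta
    push_cast
    rw [abs_of_nonneg (by positivity)]
    have e1 : ((A : ℝ) + B) ^ 2 ≤ 3 * ((A : ℝ) ^ 2 + A * B + B ^ 2) := by nlinarith
    calc ((A : ℝ) + B) ^ 6 = (((A : ℝ) + B) ^ 2) ^ 3 := by ring
      _ ≤ (3 * ((A : ℝ) ^ 2 + A * B + B ^ 2)) ^ 3 := by gcongr
      _ ≤ 4 * (3 * ((A : ℝ) ^ 2 + A * B + B ^ 2)) ^ 3 := by
          have : 0 ≤ (3 * ((A : ℝ) ^ 2 + A * B + B ^ 2)) ^ 3 := by positivity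
          linarith
  have hAB : (0 : ℝ) < ((A + B : ℕ) : ℝ) := by push_cast; positivity
  have h2 := Real.log_le_log (by positivity) hH
  rw [Real.log_pow] at h2
  push_cast at h1 h2
  have h3 : l * Real.log (N6 (ta A B) (tb A B)) ≤ l * Real.log (rad (A * B * (A + B)) : ℝ) := by
    gcongr
  linarith

theorem lim_sixH {P : ℤ → ℤ → Prop} (hP : TwistClosed P)
    (hPF : ∀ a b, FullTwoTorsion a b → P a b) : LimPt Hs N6 P 6 := by
  refine reach_up size_hs hP (by norm_num) (ex_of' (c := Real.log 2) fun M => ?_)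
  obtain ⟨a, b, h1, h2, h3, h4⟩ := ex_six M
  refine ⟨a, b, h1, hPF a b h2, h3, ?_⟩
  have := log_absD_le a b h1
  linarith

/-- all curves -/
theorem lim_allH : ∃ S : EReal, 6 ≤ S ∧ ∀ x : ℝ, LimPt Hs N6 (fun _ _ => True) x ↔
    1 ≤ x ∧ (x : EReal) ≤ S := by
  obtain ⟨S, -, h⟩ := interval_lo size_hs tc_all (lo := 1) zero_le_one (by norm_num)
    ⟨Real.log 2, fun a b hmin _ => by
      have := lowH_all a b hmin
      linarith⟩ (ex_of (c := Real.log 27) fun M => by
      obtain ⟨b, h1, h2, h3⟩ := ex_zero 1 le_rfl (by norm_num) M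
      refine ⟨0, b, h1, trivial, h2, ?_⟩
      rw [hs_zero, h3]
      push_cast
      linarith)
  refine ⟨S, ?_, h⟩
  exact_mod_cast ((h 6).mp (lim_sixH tc_all fun _ _ _ => trivial)).2

/-- curves with a rational point of order two -/
theorem lim_twoH : ∃ S : EReal, 6 ≤ S ∧ ∀ x : ℝ, LimPt Hs N6 TwoTorsion x ↔
    3 / 2 ≤ x ∧ (x : EReal) ≤ S := by
  obtain ⟨S, -, h⟩ := interval_lo size_hs tc_two (lo := 3 / 2) (by norm_num) (by norm_num)
    ⟨_, fun a b hmin hf => lowH_two a b hmin hf⟩ (ex_of fun M => ex_twoH M)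
  refine ⟨S, ?_, h⟩
  exact_mod_cast ((h 6).mp (lim_sixH tc_two fun _ _ => full_two)).2

/-- full rational 2-torsion -/
theorem lim_fullH (x : ℝ) : LimPt Hs N6 FullTwoTorsion x ↔
    2 ≤ x ∧ ∀ l : ℝ, 1 ≤ l → AbcExp l → x ≤ 6 * l := by
  obtain ⟨S, -, h⟩ := interval_lo size_hs tc_full (lo := 2) (by norm_num) (by norm_num)
    ⟨_, fun a b hmin hf => lowH_full a b hmin hf⟩ (ex_of fun M => ex_fullH M)
  have h6 : ((6 : ℝ) : EReal) ≤ S := ((h 6).mp (lim_sixH tc_full fun _ _ h => h)).2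
  constructor
  · intro hx
    exact ⟨((h x).mp hx).1, fun l hl habc => lim_le (full_up hl habc) hx⟩
  · rintro ⟨h1, h2⟩
    refine (h x).mpr ⟨h1, ?_⟩
    by_contra hcon
    push Not at hcon
    obtain ⟨y, hy1, hy2⟩ := EReal.lt_iff_exists_real_btwn.mp hcon
    have hy2' : y < x := by exact_mod_cast hy2
    have hy6 : 6 < y := by
      have : ((6 : ℝ) : EReal) < y := lt_of_le_of_lt h6 hy1
      exact_mod_cast this
    have hno : ¬ AbcExp (y / 6) := by
      intro hc
      have := h2 (y / 6) (by linarith) hc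
      linarith
    have h3 := full_reach (by linarith) hno
    rw [show 6 * (y / 6) = y by ring] at h3
    exact absurd ((h y).mp h3).2 (not_le.mpr hy1)

end Pool.Agent.Q272.LP
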