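import Pool.Agent.Q265.BM.B
import Pool.Agent.H58P.Rad

/-! # Finite places and norms -/

set_option autoImplicit false

open NumberField Height Function

namespace Pool.Agent.Q272.LP

open Q241.AK Q265.NF Q265.BM

variable {K : Type*} [Field K] [NumberField K]

/-- the absolute value of the norm -/
noncomputable def nm (x : K) : ℝ := ∏ w : InfinitePlace K, w x ^ w.mult

lemma nm_pos {x : K} (hx : x ≠ 0) : 0 < nm x :=
  Finset.prod_pos fun _ _ => pow_pos (InfinitePlace.pos_iff.2 hx) _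

lemma nm_nat (n : ℕ) : nm (n : K) = (n : ℝ) ^ Module.finrank ℚ K := by
  unfold nm
  rw [← InfinitePlace.sum_mult_eq, ← Finset.prod_pow_eq_pow_sum]
  refine Finset.prod_congr rfl fun w _ => ?_
  congr 1
  have := w.norm_embedding_eq (n : K)
  rw [← this, map_natCast]
  simp

omit [NumberField K] in
lemma w_nat (w : InfinitePlace K) (n : ℕ) : w (n : K) = n := by
  have := w.norm_embedding_eq (n : K)
  rw [← this, map_natCast]
  simp

lemma nm_mul (x y : K) : nm (x * y) = nm x * nm y := by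
  unfold nm
  rw [← Finset.prod_mul_distrib]
  refine Finset.prod_congr rfl fun w _ => ?_
  rw [map_mul, mul_pow]

lemma nm_le {x : K} {B : ℝ} (hx : ∀ w : InfinitePlace K, w x ≤ B) :
    nm x ≤ B ^ Module.finrank ℚ K := by
  unfold nm
  rw [← InfinitePlace.sum_mult_eq, ← Finset.prod_pow_eq_pow_sum]
  exact Finset.prod_le_prod (fun w _ => by positivity)
    fun w _ => pow_le_pow_left₀ (by positivity) (hx w) _

lemma le_nm {x : K} {B : ℝ} (hB : 0 ≤ B) (hx : ∀ w : InfinitePlace K, B ≤ w x) :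
    B ^ Module.finrank ℚ K ≤ nm x := by
  unfold nm
  rw [← InfinitePlace.sum_mult_eq, ← Finset.prod_pow_eq_pow_sum]
  exact Finset.prod_le_prod (fun w _ => by positivity)
    fun w _ => pow_le_pow_left₀ hB (hx w) _

lemma finprod_eq {x : K} (hx : x ≠ 0) : ∏ᶠ v : FinitePlace K, v x = (nm x)⁻¹ :=
  eq_inv_of_mul_eq_one_right (NumberField.prod_abs_eq_one hx)

lemma nm_eq {x : K} (hx : x ≠ 0) : nm x = ∏ᶠ v : FinitePlace K, (v x)⁻¹ := by
  rw [finprod_inv_distrib, finprod_eq hx, inv_inv]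

lemma supp_inv {x : K} (hx : x ≠ 0) :
    HasFiniteMulSupport (fun v : FinitePlace K => (v x)⁻¹) := by
  refine (FinitePlace.hasFiniteMulSupport hx).subset fun v hv => ?_
  rw [mem_mulSupport] at hv ⊢
  intro h
  apply hv
  rw [h, inv_one]

lemma supp_fin (A : Finset (FinitePlace K)) (f : FinitePlace K → ℝ) :
    HasFiniteMulSupport (fun v : FinitePlace K => open Classical in if v ∈ A then f v else 1) := by
  refine A.finite_toSet.subset fun v hv => ?_
  rw [mem_mulSupport] at hv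
  by_contra h
  apply hv
  exact if_neg (fun h' => h (by exact_mod_cast h'))

lemma finprod_fin (A : Finset (FinitePlace K)) (f : FinitePlace K → ℝ) :
    (∏ᶠ v : FinitePlace K, open Classical in if v ∈ A then f v else 1) = ∏ v ∈ A, f v := by
  classical
  rw [← finprod_mem_coe_finset, finprod_mem_def]
  refine finprod_congr fun v => ?_
  by_cases h : v ∈ A
  · rw [if_pos h, Set.mulIndicator_of_mem (by exact_mod_cast h)]
  · rw [if_neg h, Set.mulIndicator_of_notMem (by exact_mod_cast h)]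

lemma prod_le_nm {x : K} (hx : x ≠ 0) (h1 : ∀ v : FinitePlace K, v x ≤ 1)
    (A : Finset (FinitePlace K)) : ∏ v ∈ A, (v x)⁻¹ ≤ nm x := by
  classical
  rw [nm_eq hx, ← finprod_fin A]
  refine finprod_le_finprod (supp_fin A _) (fun v => ?_) (supp_inv hx) fun v => ?_
  · show (0 : ℝ) ≤ if v ∈ A then (v x)⁻¹ else 1
    split_ifs
    · positivity
    · exact zero_le_one
  · show (if v ∈ A then (v x)⁻¹ else 1) ≤ (v x)⁻¹
    split_ifs
    · exact le_rfl
    · exact (one_le_inv₀ (FinitePlace.pos_iff.2 hx)).2 (h1 v)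

lemma inv_le_nm {x : K} (hx : x ≠ 0) (h1 : ∀ v : FinitePlace K, v x ≤ 1) (v : FinitePlace K) :
    (v x)⁻¹ ≤ nm x := by
  have := prod_le_nm hx h1 {v}
  rwa [Finset.prod_singleton] at this

/-- the norm of the prime -/
noncomputable def Nn (v : FinitePlace K) : ℕ := Ideal.absNorm v.maximalIdeal.asIdeal

lemma N_eq (v : FinitePlace K) : N v = (Nn v : ℝ) := rfl

lemma lt_one_iff (v : FinitePlace K) (x : 𝓞 K) :
    v (x : K) < 1 ↔ x ∈ v.maximalIdeal.asIdeal := by
  rw [← FinitePlace.norm_embedding_eq]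
  exact FinitePlace.norm_lt_one_iff_mem K v.maximalIdeal x

lemma gap_one (v : FinitePlace K) {x : K} (hx : x ≠ 0) (h : v x < 1) : N v * v x ≤ 1 := by
  have := gap v hx one_ne_zero (by rwa [map_one])
  rwa [map_one] at this

lemma v_le_inv (v : FinitePlace K) {x : K} (hx : x ≠ 0) (h : v x < 1) : v x ≤ (N v)⁻¹ := by
  have hN : 0 < N v := lt_trans one_pos (one_lt_N v)
  rw [inv_eq_one_div, le_div_iff₀ hN, mul_comm]
  exact gap_one v hx h

lemma card_norm_le (A : Finset (FinitePlace K)) (n : ℕ) (h : ∀ v ∈ A, Nn v = n) :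
    A.card ≤ Module.finrank ℚ K := by
  rcases A.eq_empty_or_nonempty with rfl | ⟨v0, hv0⟩
  · simp
  have hn : 1 < n := by
    have := one_lt_N v0
    rw [N_eq, h v0 hv0] at this
    exact_mod_cast this
  have hn0 : (n : K) ≠ 0 := by
    have : n ≠ 0 := by omega
    exact_mod_cast this
  have h1 : ∀ v : FinitePlace K, v (n : K) ≤ 1 := by
    intro v
    have := int_le_one v (n : 𝓞 K)
    simpa using this
  have h2 := prod_le_nm hn0 h1 A
  rw [nm_nat] at h2
  have h3 : (n : ℝ) ^ A.card ≤ ∏ v ∈ A, (v (n : K))⁻¹ := by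
    rw [← Finset.prod_const]
    refine Finset.prod_le_prod (fun v _ => by positivity) fun v hv => ?_
    have hlt : v (n : K) < 1 := by
      have hm : (n : 𝓞 K) ∈ v.maximalIdeal.asIdeal := by
        rw [← h v hv]
        exact Ideal.absNorm_mem _
      have := (lt_one_iff v _).2 hm
      simpa using this
    have h4 := gap_one v hn0 hlt
    rw [N_eq, h v hv] at h4
    have h5 : 0 < v (n : K) := FinitePlace.pos_iff.2 hn0
    rw [inv_eq_one_div, le_div_iff₀ h5]
    exact h4
  have h6 : (n : ℝ) ^ A.card ≤ (n : ℝ) ^ Module.finrank ℚ K := h3.trans h2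
  exact (pow_le_pow_iff_right₀ (by exact_mod_cast hn)).1 h6

lemma finite_norm_le (T : ℕ) : {v : FinitePlace K | Nn v ≤ T}.Finite := by
  have h1 : {v : FinitePlace K | Nn v ≤ T} ⊆ ⋃ n ∈ Finset.Icc 1 T,
      mulSupport (fun v : FinitePlace K => v ((n : ℕ) : K)) := by
    intro v hv
    have hv1 : 1 < Nn v := by
      have := one_lt_N v
      rw [N_eq] at this
      exact_mod_cast this
    rw [Set.mem_iUnion₂]
    refine ⟨Nn v, Finset.mem_Icc.2 ⟨hv1.le, hv⟩, ?_⟩
    rw [mem_mulSupport]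
    have hm : ((Nn v : ℕ) : 𝓞 K) ∈ v.maximalIdeal.asIdeal := Ideal.absNorm_mem _
    have := (lt_one_iff v _).2 hm
    have h2 : v ((Nn v : ℕ) : K) < 1 := by simpa using this
    exact h2.ne
  refine Set.Finite.subset (Set.Finite.biUnion (Finset.finite_toSet _) fun n hn => ?_) h1
  have hn0 : (n : K) ≠ 0 := by
    have := (Finset.mem_Icc.1 hn).1
    have : n ≠ 0 := by omega
    exact_mod_cast this
  exact FinitePlace.hasFiniteMulSupport hn0

/-- sums over finite sets of places -/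
lemma sum_places (A : Finset (FinitePlace K)) (f : ℕ → ℝ) (hf : ∀ n, 0 ≤ f n) (T Z : ℕ)
    (hA : ∀ v ∈ A, T < Nn v ∧ Nn v ≤ Z) :
    ∑ v ∈ A, f (Nn v) ≤ Module.finrank ℚ K * ∑ n ∈ Finset.Ioc T Z, f n := by
  classical
  have hmaps : ∀ v ∈ A, Nn v ∈ Finset.Ioc T Z := fun v hv => Finset.mem_Ioc.2 (hA v hv)
  rw [← Finset.sum_fiberwise_of_maps_to hmaps, Finset.mul_sum]
  refine Finset.sum_le_sum fun n _ => ?_
  have h1 : ∑ v ∈ A with Nn v = n, f (Nn v) = ((A.filter fun v => Nn v = n).card : ℝ) * f n := by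
    rw [Finset.sum_congr rfl (fun v hv => by rw [(Finset.mem_filter.1 hv).2]),
      Finset.sum_const, nsmul_eq_mul]
  rw [h1]
  have h2 := card_norm_le (A.filter fun v => Nn v = n) n fun v hv => (Finset.mem_filter.1 hv).2
  exact mul_le_mul_of_nonneg_right (by exact_mod_cast h2) (hf n)

lemma sum_sq (T Z : ℕ) (hT : 1 ≤ T) :
    ∑ n ∈ Finset.Ioc T Z, 1 / (n : ℝ) ^ 2 ≤ (1 : ℝ) / (T : ℝ) := by
  have h : ∀ Z : ℕ, T ≤ Z →
      ∑ n ∈ Finset.Ioc T Z, 1 / (n : ℝ) ^ 2 ≤ (1 : ℝ) / (T : ℝ) - (1 : ℝ) / (Z : ℝ) := by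
    intro Z hZ
    induction Z, hZ using Nat.le_induction with
    | base => simp
    | succ k hk ih =>
      rw [Finset.sum_Ioc_succ_top hk]
      have hk0 : (0 : ℝ) < k := by exact_mod_cast (by omega : 0 < k)
      have h1 : 1 / ((k + 1 : ℕ) : ℝ) ^ 2 ≤ 1 / k - 1 / ((k + 1 : ℕ) : ℝ) := by
        push_cast
        rw [div_sub_div _ _ hk0.ne' (by positivity), div_le_div_iff₀ (by positivity) (by positivity)]
        nlinarith
      linarith
  rcases le_total T Z with hZ | hZ
  · have h1 := h Z hZ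
    have h2 : (0 : ℝ) ≤ 1 / Z := by positivity
    linarith
  · rw [Finset.Ioc_eq_empty (by omega)]
    simp

end Pool.Agent.Q272.LP
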