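import Pool.Agent.Q272.LP.A

/-! # Boxes of algebraic integers -/

set_option autoImplicit false

open NumberField Height Function

namespace Pool.Agent.Q272.LP

open Q241.AK Q265.NF Q265.BM

variable (K : Type*) [Field K] [NumberField K]

/-- the index set of the integral basis -/
abbrev Ix := Module.Free.ChooseBasisIndex ℤ (𝓞 K)

/-- the cube -/
noncomputable def cube (Y : ℕ) : Finset (Ix K → ℤ) :=
  open Classical in Fintype.piFinset (fun _ => Finset.Ico 0 (Y : ℤ))

variable {K}

/-- the integer with given coordinates -/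
noncomputable def el (n : Ix K → ℤ) : 𝓞 K := (RingOfIntegers.basis K).equivFun.symm n

lemma el_sub (n m : Ix K → ℤ) : el (n - m) = el n - el m := by
  unfold el
  rw [map_sub]

lemma el_add (n m : Ix K → ℤ) : el (n + m) = el n + el m := by
  unfold el
  rw [map_add]

lemma el_smul (c : ℤ) (n : Ix K → ℤ) : el (c • n) = c * el n := by
  unfold el
  rw [map_smul, zsmul_eq_mul]

lemma el_inj {n m : Ix K → ℤ} (h : el n = el m) : n = m := by
  unfold el at h
  exact (RingOfIntegers.basis K).equivFun.symm.injective h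

lemma el_surj (x : 𝓞 K) : ∃ n : Ix K → ℤ, el n = x := by
  unfold el
  exact (RingOfIntegers.basis K).equivFun.symm.surjective x

lemma el_sum (n : Ix K → ℤ) : el n = ∑ i, n i * RingOfIntegers.basis K i := by
  unfold el
  rw [Module.Basis.equivFun_symm_apply]
  refine Finset.sum_congr rfl fun i _ => ?_
  rw [zsmul_eq_mul]

lemma card_Ix : Fintype.card (Ix K) = Module.finrank ℚ K := by
  rw [← RingOfIntegers.rank, Module.finrank_eq_card_chooseBasisIndex]

lemma exists_W (K : Type*) [Field K] [NumberField K] : ∃ W : ℝ, 1 ≤ W ∧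
    ∀ (w : InfinitePlace K) (n : Ix K → ℤ) (s : ℝ), (∀ i, |(n i : ℝ)| ≤ s) →
      w (el n : K) ≤ W * s := by
  classical
  refine ⟨1 + ∑ w : InfinitePlace K, ∑ i, w (RingOfIntegers.basis K i : K), ?_,
    fun w n s hs => ?_⟩
  · have : 0 ≤ ∑ w : InfinitePlace K, ∑ i, w (RingOfIntegers.basis K i : K) :=
      Finset.sum_nonneg fun w _ => Finset.sum_nonneg fun i _ => by positivity
    linarith
  · have hs0 : 0 ≤ s := by
      have hne : Nonempty (Ix K) := by
        rw [← Fintype.card_pos_iff, card_Ix]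
        exact Module.finrank_pos
      exact (abs_nonneg _).trans (hs (Classical.arbitrary _))
    have e : (el n : K) = ∑ i, (n i : K) * (RingOfIntegers.basis K i : K) := by
      rw [el_sum]
      push_cast
      rfl
    rw [e]
    have h1 : w (∑ i, (n i : K) * (RingOfIntegers.basis K i : K)) ≤
        ∑ i, w ((n i : K) * (RingOfIntegers.basis K i : K)) :=
      IsAbsoluteValue.abv_sum w.val _ _
    refine h1.trans ?_
    have h2 : ∑ i, w ((n i : K) * (RingOfIntegers.basis K i : K)) ≤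
        ∑ i, s * w (RingOfIntegers.basis K i : K) := by
      refine Finset.sum_le_sum fun i _ => ?_
      rw [map_mul]
      have h3 : w (n i : K) = |(n i : ℝ)| := by
        rw [← w.norm_embedding_eq, map_intCast]
        exact Complex.norm_intCast _
      rw [h3]
      exact mul_le_mul_of_nonneg_right (hs i) (by positivity)
    refine h2.trans ?_
    rw [← Finset.mul_sum]
    have h4 : ∑ i, w (RingOfIntegers.basis K i : K) ≤
        ∑ w : InfinitePlace K, ∑ i, w (RingOfIntegers.basis K i : K) :=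
      Finset.single_le_sum (f := fun w : InfinitePlace K => ∑ i, w (RingOfIntegers.basis K i : K))
        (fun w _ => Finset.sum_nonneg fun i _ => by positivity) (Finset.mem_univ w)
    rw [mul_comm]
    gcongr
    linarith

lemma card_cube (Y : ℕ) : (cube K Y).card = Y ^ Module.finrank ℚ K := by
  classical
  unfold cube
  rw [Fintype.card_piFinset]
  simp only [Int.card_Ico, sub_zero, Int.toNat_natCast, Finset.prod_const, Finset.card_univ]
  rw [card_Ix]

lemma mem_cube {Y : ℕ} {n : Ix K → ℤ} : n ∈ cube K Y ↔ ∀ i, 0 ≤ n i ∧ n i < Y := by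
  classical
  unfold cube
  simp only [Fintype.mem_piFinset, Finset.mem_Ico]

lemma box_count {W : ℝ} (hW0 : 1 ≤ W)
    (hW : ∀ (w : InfinitePlace K) (n : Ix K → ℤ) (s : ℝ), (∀ i, |(n i : ℝ)| ≤ s) →
      w (el n : K) ≤ W * s)
    (v : FinitePlace K) {Y : ℕ} {A : Finset (Ix K → ℤ)} (hA : A ⊆ cube K Y) {M : ℝ}
    (hM : ∀ n ∈ A, ∀ n' ∈ A, n ≠ n' → M * v ((el n : K) - (el n' : K)) ≤ 1) {s : ℕ} (hs : 1 ≤ s)
    (hsM : (W * s) ^ Module.finrank ℚ K < M) : A.card ≤ (Y / s + 1) ^ Module.finrank ℚ K := by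
  classical
  rw [← card_cube]
  refine Finset.card_le_card_of_injOn (fun n i => n i / (s : ℤ)) ?_ ?_
  · intro n hn
    have h1 := mem_cube.1 (hA hn)
    rw [Finset.mem_coe, mem_cube]
    intro i
    refine ⟨Int.ediv_nonneg (h1 i).1 (by positivity), ?_⟩
    have h2 : n i / (s : ℤ) ≤ (Y : ℤ) / (s : ℤ) := Int.ediv_le_ediv (by positivity) (h1 i).2.le
    push_cast
    omega
  · intro n hn n' hn' h
    by_contra hne
    have hd : ∀ i, |((n - n') i : ℝ)| ≤ s := by
      intro i
      have h1 : n i / (s : ℤ) = n' i / (s : ℤ) := congrFun h i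
      have h2 := Int.emod_add_mul_ediv (n i) s
      have h3 := Int.emod_add_mul_ediv (n' i) s
      have hs' : (0 : ℤ) < s := by exact_mod_cast hs
      have h4 := Int.emod_nonneg (n i) hs'.ne'
      have h5 := Int.emod_nonneg (n' i) hs'.ne'
      have h6 := Int.emod_lt_of_pos (n i) hs'
      have h7 := Int.emod_lt_of_pos (n' i) hs'
      have h8 : |(n - n') i| ≤ (s : ℤ) := by
        rw [Pi.sub_apply, abs_le]
        rw [h1] at h2
        constructor <;> linarith
      exact_mod_cast h8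
    have hne0 : el (n - n') ≠ 0 := by
      rw [el_sub, sub_ne_zero]
      exact fun h => hne (el_inj h)
    have hK : (el (n - n') : K) ≠ 0 := by exact_mod_cast hne0
    have h1 := inv_le_nm hK (fun v => int_le_one v _) v
    have h2 := nm_le (fun w => hW w (n - n') s hd)
    have h3 := hM n hn n' hn' hne
    have h4 : 0 < v (el (n - n') : K) := FinitePlace.pos_iff.2 hK
    have e : (el n : K) - (el n' : K) = (el (n - n') : K) := by
      rw [el_sub]
      push_cast
      rfl
    rw [e] at h3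
    have h5 : M ≤ (v (el (n - n') : K))⁻¹ := by
      rw [inv_eq_one_div, le_div_iff₀ h4]
      exact h3
    linarith

/-- the upper bound for the number of elements of a class modulo a divisor of norm `M` in a box -/
lemma box_real {W : ℝ} (hW0 : 1 ≤ W)
    (hW : ∀ (w : InfinitePlace K) (n : Ix K → ℤ) (s : ℝ), (∀ i, |(n i : ℝ)| ≤ s) →
      w (el n : K) ≤ W * s)
    (v : FinitePlace K) {Y : ℕ} {A : Finset (Ix K → ℤ)} (hA : A ⊆ cube K Y) {M : ℝ} (hM0 : 0 < M)
    (hM : ∀ n ∈ A, ∀ n' ∈ A, n ≠ n' → M * v ((el n : K) - (el n' : K)) ≤ 1) :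
    (A.card : ℝ) ≤ (4 * W) ^ Module.finrank ℚ K * (1 + (Y : ℝ) ^ Module.finrank ℚ K / M) := by
  obtain ⟨d, hd⟩ : ∃ d, d = Module.finrank ℚ K := ⟨_, rfl⟩
  have hd1 : 1 ≤ d := by rw [hd]; exact Module.finrank_pos
  rw [← hd]
  rcases le_or_gt M ((2 * W) ^ d) with h | h
  · have h1 : (A.card : ℝ) ≤ (Y : ℝ) ^ d := by
      have := Finset.card_le_card hA
      rw [card_cube, ← hd] at this
      exact_mod_cast this
    have h2 : (Y : ℝ) ^ d ≤ (2 * W) ^ d * ((Y : ℝ) ^ d / M) := by
      rw [← mul_div_assoc, le_div_iff₀ hM0, mul_comm]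
      exact mul_le_mul_of_nonneg_right h (by positivity)
    have h3 : (2 * W) ^ d ≤ (4 * W) ^ d := by gcongr; norm_num
    calc (A.card : ℝ) ≤ (2 * W) ^ d * ((Y : ℝ) ^ d / M) := h1.trans h2
      _ ≤ (4 * W) ^ d * ((Y : ℝ) ^ d / M) := by gcongr
      _ ≤ (4 * W) ^ d * (1 + (Y : ℝ) ^ d / M) := by gcongr; linarith
  · -- the root
    obtain ⟨R, hR⟩ : ∃ R : ℝ, R = M ^ (1 / (d : ℝ)) := ⟨_, rfl⟩
    have hd0 : (0 : ℝ) < d := by exact_mod_cast hd1
    have hR0 : 0 < R := by rw [hR]; positivity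
    have hRd : R ^ d = M := by
      rw [hR, ← Real.rpow_natCast, ← Real.rpow_mul hM0.le, one_div, inv_mul_cancel₀ hd0.ne',
        Real.rpow_one]
    have hR2 : 2 * W < R := by
      by_contra hcon
      push Not at hcon
      have := pow_le_pow_left₀ hR0.le hcon d
      rw [hRd] at this
      linarith
    obtain ⟨s, hs⟩ : ∃ s : ℕ, s = ⌈R / W⌉₊ - 1 := ⟨_, rfl⟩
    have hW1 : 0 < W := by linarith
    have hRW : 2 < R / W := by rw [lt_div_iff₀ hW1]; exact hR2
    have hceil : 2 < ⌈R / W⌉₊ := by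
      have := Nat.le_ceil (R / W)
      have h3 : (2 : ℝ) < ⌈R / W⌉₊ := by linarith
      exact_mod_cast h3
    have hs1 : 1 ≤ s := by omega
    have hsc : (s : ℝ) = ⌈R / W⌉₊ - 1 := by
      rw [hs, Nat.cast_sub (by omega)]
      simp
    have hslt : (s : ℝ) < R / W := by
      have := Nat.ceil_lt_add_one (a := R / W) (by positivity)
      rw [hsc]
      linarith
    have hsge : R / (2 * W) ≤ s := by
      have := Nat.le_ceil (R / W)
      rw [hsc]
      have h3 : R / (2 * W) = (R / W) / 2 := by field_simp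
      rw [h3]
      linarith
    have hsM : (W * s) ^ Module.finrank ℚ K < M := by
      rw [← hd, ← hRd]
      refine pow_lt_pow_left₀ ?_ (by positivity) (by omega)
      rw [lt_div_iff₀ hW1] at hslt
      linarith
    have h1 := box_count hW0 hW v hA hM hs1 hsM
    rw [← hd] at h1
    have h2 : (A.card : ℝ) ≤ ((Y : ℝ) / s + 1) ^ d := by
      have h3 : (A.card : ℝ) ≤ (((Y / s : ℕ) : ℝ) + 1) ^ d := by exact_mod_cast h1
      have h4 : ((Y / s : ℕ) : ℝ) ≤ (Y : ℝ) / s := Nat.cast_div_le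
      exact h3.trans (by gcongr)
    have hs0 : (0 : ℝ) < s := by exact_mod_cast hs1
    have h5 : ((Y : ℝ) / s + 1) ^ d ≤ 2 ^ d * (1 + ((Y : ℝ) / s) ^ d) := by
      rcases le_total ((Y : ℝ) / s) 1 with h6 | h6
      · calc ((Y : ℝ) / s + 1) ^ d ≤ 2 ^ d := by gcongr; linarith
          _ ≤ 2 ^ d * (1 + ((Y : ℝ) / s) ^ d) :=
            le_mul_of_one_le_right (by positivity) (by linarith [pow_nonneg (div_nonneg (Nat.cast_nonneg Y) hs0.le) d])
      · calc ((Y : ℝ) / s + 1) ^ d ≤ (2 * ((Y : ℝ) / s)) ^ d := by gcongr; linarith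
          _ = 2 ^ d * ((Y : ℝ) / s) ^ d := mul_pow _ _ _
          _ ≤ 2 ^ d * (1 + ((Y : ℝ) / s) ^ d) := by gcongr; linarith
    have h6 : ((Y : ℝ) / s) ^ d ≤ (2 * W) ^ d * ((Y : ℝ) ^ d / M) := by
      have h7 : (Y : ℝ) / s ≤ (2 * W) * (Y / R) := by
        rw [div_le_iff₀ hs0]
        rw [div_le_iff₀ (by positivity)] at hsge
        have h8 : 2 * W * (Y / R) * s = (Y / R) * (s * (2 * W)) := by ring
        rw [h8]
        calc (Y : ℝ) = (Y / R) * R := by field_simp
          _ ≤ (Y / R) * (s * (2 * W)) := by gcongr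
      calc ((Y : ℝ) / s) ^ d ≤ ((2 * W) * (Y / R)) ^ d := by gcongr
        _ = (2 * W) ^ d * ((Y : ℝ) ^ d / M) := by rw [mul_pow, div_pow, hRd]
    calc (A.card : ℝ) ≤ 2 ^ d * (1 + ((Y : ℝ) / s) ^ d) := h2.trans h5
      _ ≤ 2 ^ d * (1 + (2 * W) ^ d * ((Y : ℝ) ^ d / M)) := by gcongr
      _ ≤ 2 ^ d * ((2 * W) ^ d * 1 + (2 * W) ^ d * ((Y : ℝ) ^ d / M)) := by
          gcongr
          rw [mul_one]
          exact one_le_pow₀ (by linarith)
      _ = (4 * W) ^ d * (1 + (Y : ℝ) ^ d / M) := by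
          rw [← mul_add, ← mul_assoc, ← mul_pow]
          congr 2
          ring

end Pool.Agent.Q272.LP
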