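import Mathlib

/-!
# Minimal short models, their twists, and primes in short ranges
-/

set_option autoImplicit false

namespace Pool.Agent.Q272.LP

open Finset

/-- the discriminant `D = 4a³ - 27b²` of the model `y² = x³ - a x - b` -/
def Disc (a b : ℤ) : ℤ := 4 * a ^ 3 - 27 * b ^ 2

/-- the model `y² = x³ - a x - b` is an elliptic curve (`D ≠ 0`) and it is minimal: `|D|` is
smallest among the integral models `y² = x³ - a' x - b'`, `a' = u⁴ a`, `b' = u⁶ b`, `u ∈ ℚ^×` -/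
def IsMinimal (a b : ℤ) : Prop :=
  Disc a b ≠ 0 ∧ ∀ (u : ℚ) (a' b' : ℤ), u ≠ 0 → (a' : ℚ) = u ^ 4 * a → (b' : ℚ) = u ^ 6 * b →
    |Disc a b| ≤ |Disc a' b'|

/-- the prime-to-6 part of the conductor of a minimal model: the product over the primes `p ≥ 5`
dividing `D` of `p` (node: `p ∤ a`) or `p²` (cusp: `p ∣ a`) -/
def Cond6 (a b : ℤ) : ℕ :=
  ∏ p ∈ (Disc a b).natAbs.primeFactors.filter (fun p => 5 ≤ p), if (p : ℤ) ∣ a then p ^ 2 else p

theorem cond6_pos (a b : ℤ) : 0 < Cond6 a b := by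
  unfold Cond6
  refine prod_pos fun p hp => ?_
  have h := (Nat.prime_of_mem_primeFactors (mem_filter.mp hp).1).pos
  split_ifs <;> positivity

/-- the criterion for minimality -/
theorem isMinimal_iff (a b : ℤ) : IsMinimal a b ↔ Disc a b ≠ 0 ∧
    ∀ p : ℕ, p.Prime → ¬ ((p : ℤ) ^ 4 ∣ a ∧ (p : ℤ) ^ 6 ∣ b) := by
  constructor
  · rintro ⟨h0, h⟩
    refine ⟨h0, fun p hp => ?_⟩
    rintro ⟨⟨a', ha⟩, ⟨b', hb⟩⟩
    have hp0 : (p : ℚ) ≠ 0 := by exact_mod_cast hp.ne_zero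
    have h1 := h (1 / p) a' b' (by positivity) (by rw [ha]; push_cast; field_simp)
      (by rw [hb]; push_cast; field_simp)
    have h2 : Disc a b = (p : ℤ) ^ 12 * Disc a' b' := by
      rw [ha, hb]; unfold Disc; ring
    have h3 : Disc a' b' ≠ 0 := by
      intro h3
      rw [h2, h3, mul_zero] at h0
      exact h0 rfl
    rw [h2, abs_mul, abs_of_nonneg (by positivity : (0 : ℤ) ≤ (p : ℤ) ^ 12)] at h1
    have h4 : 0 < |Disc a' b'| := abs_pos.mpr h3
    have h5 : (1 : ℤ) < (p : ℤ) ^ 12 := by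
      have : (1 : ℤ) < p := by exact_mod_cast hp.one_lt
      exact one_lt_pow₀ this (by norm_num)
    nlinarith
  · rintro ⟨h0, h⟩
    refine ⟨h0, fun u a' b' hu ha hb => ?_⟩
    have hcop : IsCoprime u.num (u.den : ℤ) := u.isCoprime_num_den
    have hd0 : (u.den : ℚ) ≠ 0 := by exact_mod_cast u.den_nz
    have hud : u * u.den = u.num := Rat.mul_den_eq_num u
    have e1 : (u.den : ℤ) ^ 4 * a' = u.num ^ 4 * a := by
      have : (u.den : ℚ) ^ 4 * (a' : ℚ) = (u.num : ℚ) ^ 4 * a := by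
        rw [ha, ← hud]; ring
      exact_mod_cast this
    have e2 : (u.den : ℤ) ^ 6 * b' = u.num ^ 6 * b := by
      have : (u.den : ℚ) ^ 6 * (b' : ℚ) = (u.num : ℚ) ^ 6 * b := by
        rw [hb, ← hud]; ring
      exact_mod_cast this
    have d1 : (u.den : ℤ) ^ 4 ∣ a :=
      (hcop.symm.pow (m := 4) (n := 4)).dvd_of_dvd_mul_left ⟨_, e1.symm⟩
    have d2 : (u.den : ℤ) ^ 6 ∣ b :=
      (hcop.symm.pow (m := 6) (n := 6)).dvd_of_dvd_mul_left ⟨_, e2.symm⟩
    have d3 : u.den = 1 := by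
      by_contra hne
      obtain ⟨p, hp, hpd⟩ := Nat.exists_prime_and_dvd hne
      have hpd' : (p : ℤ) ∣ (u.den : ℤ) := by exact_mod_cast hpd
      exact h p hp ⟨(pow_dvd_pow_of_dvd hpd' 4).trans d1, (pow_dvd_pow_of_dvd hpd' 6).trans d2⟩
    rw [d3] at e1 e2
    simp only [Nat.cast_one, one_pow, one_mul] at e1 e2
    have h2 : Disc a' b' = u.num ^ 12 * Disc a b := by
      rw [e1, e2]; unfold Disc; ring
    have hn0 : u.num ≠ 0 := Rat.num_ne_zero.mpr hu
    have h5 : 1 ≤ |u.num| := Int.one_le_abs hn0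
    have h6 : (1 : ℤ) ≤ |u.num| ^ 12 := one_le_pow₀ h5
    rw [h2, abs_mul, abs_pow]
    nlinarith [abs_nonneg (Disc a b)]

theorem disc_twist (a b : ℤ) (l : ℕ) :
    Disc ((l : ℤ) ^ 2 * a) ((l : ℤ) ^ 3 * b) = (l : ℤ) ^ 6 * Disc a b := by
  unfold Disc; ring

/-- the twist of a minimal model by a prime `l ∤ 6 D` is minimal -/
theorem twist_min {a b : ℤ} (h : IsMinimal a b) {l : ℕ} (hl : l.Prime)
    (hD : ¬ (l : ℤ) ∣ Disc a b) : IsMinimal ((l : ℤ) ^ 2 * a) ((l : ℤ) ^ 3 * b) := by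
  rw [isMinimal_iff] at h ⊢
  obtain ⟨h0, h1⟩ := h
  have hl0 : (l : ℤ) ≠ 0 := by exact_mod_cast hl.ne_zero
  refine ⟨by rw [disc_twist]; exact mul_ne_zero (pow_ne_zero _ hl0) h0, fun p hp hcon => ?_⟩
  obtain ⟨c1, c2⟩ := hcon
  by_cases hpl : p = l
  · rw [hpl] at c1 c2
    have c3 : (l : ℤ) ^ 2 ∣ a := by
      have : (l : ℤ) ^ 2 * (l : ℤ) ^ 2 ∣ (l : ℤ) ^ 2 * a := by
        rw [← pow_add]; exact c1
      exact (mul_dvd_mul_iff_left (pow_ne_zero 2 hl0)).mp this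
    have c4 : (l : ℤ) ^ 3 ∣ b := by
      have : (l : ℤ) ^ 3 * (l : ℤ) ^ 3 ∣ (l : ℤ) ^ 3 * b := by
        rw [← pow_add]; exact c2
      exact (mul_dvd_mul_iff_left (pow_ne_zero 3 hl0)).mp this
    apply hD
    unfold Disc
    refine dvd_sub (Dvd.dvd.mul_left ?_ _) (Dvd.dvd.mul_left ?_ _)
    · exact dvd_pow ((dvd_pow_self _ (by norm_num)).trans c3) (by norm_num)
    · exact dvd_pow ((dvd_pow_self _ (by norm_num)).trans c4) (by norm_num)
  · have hcop : IsCoprime ((p : ℤ)) ((l : ℤ)) := by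
      rw [Int.isCoprime_iff_gcd_eq_one]
      have := (Nat.coprime_primes hp hl).mpr hpl
      simpa using this
    exact h1 p hp ⟨(hcop.pow (m := 4) (n := 2)).dvd_of_dvd_mul_left c1,
      (hcop.pow (m := 6) (n := 3)).dvd_of_dvd_mul_left c2⟩

/-- the conductor of the twist -/
theorem twist_cond {a b : ℤ} (h0 : Disc a b ≠ 0) {l : ℕ} (hl : l.Prime) (h5 : 5 ≤ l)
    (hD : ¬ (l : ℤ) ∣ Disc a b) :
    Cond6 ((l : ℤ) ^ 2 * a) ((l : ℤ) ^ 3 * b) = l ^ 2 * Cond6 a b := by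
  unfold Cond6
  have hl0 : l ≠ 0 := hl.ne_zero
  have hDn : (Disc a b).natAbs ≠ 0 := Int.natAbs_ne_zero.mpr h0
  have e1 : (Disc ((l : ℤ) ^ 2 * a) ((l : ℤ) ^ 3 * b)).natAbs.primeFactors.filter
      (fun p => 5 ≤ p) =
      insert l ((Disc a b).natAbs.primeFactors.filter (fun p => 5 ≤ p)) := by
    rw [disc_twist, Int.natAbs_mul, Int.natAbs_pow, Int.natAbs_natCast,
      Nat.primeFactors_mul (pow_ne_zero _ hl0) hDn, Nat.primeFactors_pow _ (by norm_num),
      hl.primeFactors, filter_union, filter_singleton, if_pos h5]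
    rfl
  have hnot : l ∉ (Disc a b).natAbs.primeFactors.filter (fun p => 5 ≤ p) := by
    intro hm
    exact hD (Int.natCast_dvd.mpr (Nat.dvd_of_mem_primeFactors (mem_filter.mp hm).1))
  rw [e1, prod_insert hnot]
  congr 1
  · rw [if_pos]
    exact Dvd.dvd.mul_right (dvd_pow_self _ (by norm_num)) _
  · refine prod_congr rfl fun p hp => ?_
    have hp' := Nat.prime_of_mem_primeFactors (mem_filter.mp hp).1
    have hpl : p ≠ l := by
      rintro rfl
      exact hnot hp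
    have hcop : IsCoprime ((p : ℤ)) ((l : ℤ)) := by
      rw [Int.isCoprime_iff_gcd_eq_one]
      have := (Nat.coprime_primes hp' hl).mpr hpl
      simpa using this
    have : (p : ℤ) ∣ (l : ℤ) ^ 2 * a ↔ (p : ℤ) ∣ a :=
      ⟨fun h => (hcop.pow_right (n := 2)).dvd_of_dvd_mul_left h, fun h => Dvd.dvd.mul_left h _⟩
    simp only [this]

/-- primes not dividing `D` in a short range -/
theorem exists_prime (D : ℕ) (hD : 0 < D) (m k : ℕ) (hm : 1 ≤ m)
    (hk : Real.log D ≤ k * Real.log m) :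
    ∃ l : ℕ, l.Prime ∧ m < l ∧ l ≤ 2 ^ (k + 1) * m ∧ ¬ l ∣ D := by
  have hb : ∀ i : ℕ, ∃ p : ℕ, p.Prime ∧ 2 ^ i * m < p ∧ p ≤ 2 ^ (i + 1) * m := by
    intro i
    obtain ⟨p, hp, h1, h2⟩ := Nat.exists_prime_lt_and_le_two_mul (2 ^ i * m) (by positivity)
    exact ⟨p, hp, h1, by rw [pow_succ]; linarith⟩
  choose p hp h1 h2 using hb
  have hmono : StrictMono p := by
    refine strictMono_nat_of_lt_succ fun i => ?_
    exact lt_of_le_of_lt (h2 i) (h1 (i + 1))
  by_contra hcon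
  push Not at hcon
  have hdiv : ∀ i ∈ range (k + 1), p i ∣ D := by
    intro i hi
    have hik : i ≤ k := by
      have := mem_range.mp hi
      omega
    refine hcon (p i) (hp i) ?_ ((h2 i).trans ?_)
    · refine lt_of_le_of_lt ?_ (h1 i)
      exact Nat.le_mul_of_pos_left _ (by positivity)
    · gcongr
      · norm_num
  have hprod : ∏ i ∈ range (k + 1), p i ∣ D := by
    refine Finset.prod_dvd_of_isRelPrime ?_ hdiv
    intro i _ j _ hij
    have h3 := (Nat.coprime_primes (hp i) (hp j)).mpr (fun h => hij (hmono.injective h))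
    exact Nat.coprime_iff_isRelPrime.mp h3
  have h4 : m ^ (k + 1) < D := by
    have h5 : ∏ i ∈ range (k + 1), p i ≤ D := Nat.le_of_dvd hD hprod
    refine lt_of_lt_of_le ?_ h5
    calc m ^ (k + 1) = ∏ _i ∈ range (k + 1), m := by simp
      _ < ∏ i ∈ range (k + 1), p i := by
          refine prod_lt_prod_of_nonempty (fun i _ => by omega) (fun i _ => ?_) ⟨0, by simp⟩
          refine lt_of_le_of_lt ?_ (h1 i)
          exact Nat.le_mul_of_pos_left _ (by positivity)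
  have h6 : ((k : ℝ) + 1) * Real.log m < Real.log D := by
    have h7 : ((m ^ (k + 1) : ℕ) : ℝ) < (D : ℝ) := by exact_mod_cast h4
    have h8 := Real.log_lt_log (by positivity) h7
    push_cast at h8
    rw [Real.log_pow] at h8
    push_cast at h8
    exact h8
  have h9 : 0 ≤ Real.log m := Real.log_natCast_nonneg m
  nlinarith

end Pool.Agent.Q272.LP
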