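import Pool.Agent.Q272.LP.B

/-! # Selection of elements with nearly squarefree values -/

set_option autoImplicit false

open NumberField Height Function

namespace Pool.Agent.Q272.LP

open Q241.AK Q265.NF Q265.BM

variable {K : Type*} [Field K] [NumberField K]

lemma fsub (v : FinitePlace K) (x y : K) : v (x - y) ≤ max (v x) (v y) := by
  have := FinitePlace.add_le v x (-y)
  rwa [fneg', ← sub_eq_add_neg] at this

lemma v_sq (v : FinitePlace K) {x : K} (hx : x ≠ 0) (h : v x < (N v)⁻¹) : N v ^ 2 * v x ≤ 1 := by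
  have hN := one_lt_N v
  have hN0 : 0 < N v := by linarith
  obtain ⟨k, hk⟩ := val_zpow v hx
  rw [hk] at h ⊢
  rw [← zpow_neg_one] at h
  have h1 : k < -1 := (zpow_lt_zpow_iff_right₀ hN).1 h
  have e : N v ^ 2 * N v ^ k = N v ^ (2 + k) := by
    rw [zpow_add₀ hN0.ne']
    norm_cast
  rw [e]
  have h2 : N v ^ (2 + k) ≤ N v ^ (0 : ℤ) := (zpow_le_zpow_iff_right₀ hN).2 (by omega)
  rwa [zpow_zero] at h2

theorem select {W : ℝ} (hW0 : 1 ≤ W)
    (hW : ∀ (w : InfinitePlace K) (n : Ix K → ℤ) (s : ℝ), (∀ i, |(n i : ℝ)| ≤ s) →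
      w (el n : K) ≤ W * s)
    (r Y Z T L : ℕ) (κ : ℝ) (E G : Finset (FinitePlace K)) (y : Fin r → (Ix K → ℤ) → K)
    (Q : Fin r → K) (hT : 1 ≤ T) (hL : 1 ≤ L) (hκ : 0 < κ)
    (hE : ∀ v, Nn v ≤ T → v ∈ E) (hQ : ∀ j, ∀ v ∉ E, v (Q j) = 1)
    (hG : ∀ v ∈ G, v ∉ E ∧ L ≤ Nn v) (hGc : G.card ≤ Module.finrank ℚ K)
    (hint : ∀ j, ∀ n ∈ cube K Y, ∀ v : FinitePlace K, v (y j n) ≤ 1)
    (hne : ∀ j, ∀ n ∈ cube K Y, y j n ≠ 0)
    (hdiff : ∀ j n n', y j n - y j n' = Q j * ((el n : K) - (el n' : K)))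
    (hnm : ∀ j, ∀ n ∈ cube K Y, nm (y j n) ≤ (Z : ℝ) ^ 2)
    (hnum : (r : ℝ) * ((4 * W) ^ Module.finrank ℚ K * ((Module.finrank ℚ K * (Z : ℝ) +
      Module.finrank ℚ K * ((Y : ℝ) ^ Module.finrank ℚ K / T)) +
      E.card * (1 + (Y : ℝ) ^ Module.finrank ℚ K * κ) +
      Module.finrank ℚ K * (1 + (Y : ℝ) ^ Module.finrank ℚ K / L))) <
      (Y : ℝ) ^ Module.finrank ℚ K) :
    ∃ n ∈ cube K Y, ∀ j, (∀ v ∉ E, (N v)⁻¹ ≤ v (y j n)) ∧
      (∀ v ∈ E, v (Q j) = 1 → κ ≤ v (y j n)) ∧ ∀ v ∈ G, v (y j n) = 1 := by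
  classical
  obtain ⟨d, hd⟩ : ∃ d, d = Module.finrank ℚ K := ⟨_, rfl⟩
  rw [← hd] at hnum hGc
  by_contra hcon
  push Not at hcon
  obtain ⟨P, hP⟩ : ∃ P : Finset (FinitePlace K), P =
      ((finite_norm_le (K := K) Z).toFinset.filter fun v => v ∉ E) := ⟨_, rfl⟩
  obtain ⟨A, hA⟩ : ∃ A : Fin r → FinitePlace K → Finset (Ix K → ℤ), A = fun j v =>
      (cube K Y).filter fun n => v (y j n) < (N v)⁻¹ := ⟨_, rfl⟩
  obtain ⟨B, hB⟩ : ∃ B : Fin r → FinitePlace K → Finset (Ix K → ℤ), B = fun j v =>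
      (cube K Y).filter fun n => v (Q j) = 1 ∧ v (y j n) < κ := ⟨_, rfl⟩
  obtain ⟨D, hD⟩ : ∃ D : Fin r → FinitePlace K → Finset (Ix K → ℤ), D = fun j v =>
      (cube K Y).filter fun n => v (y j n) < 1 := ⟨_, rfl⟩
  -- covering
  have hcov : cube K Y ⊆ Finset.univ.biUnion fun j => (P.biUnion (A j) ∪ E.biUnion (B j)) ∪
      G.biUnion (D j) := by
    intro n hn
    obtain ⟨j, hj⟩ := hcon n hn
    rw [Finset.mem_biUnion]
    refine ⟨j, Finset.mem_univ j, ?_⟩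
    rw [Finset.mem_union, Finset.mem_union, Finset.mem_biUnion, Finset.mem_biUnion,
      Finset.mem_biUnion]
    by_cases h1 : ∀ v ∉ E, (N v)⁻¹ ≤ v (y j n)
    · by_cases h2 : ∀ v ∈ E, v (Q j) = 1 → κ ≤ v (y j n)
      · obtain ⟨v, hv1, hv2⟩ := hj h1 h2
        right
        refine ⟨v, hv1, ?_⟩
        rw [hD]
        exact Finset.mem_filter.2 ⟨hn, lt_of_le_of_ne (hint j n hn v) hv2⟩
      · push Not at h2
        obtain ⟨v, hv1, hv2, hv3⟩ := h2
        left; right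
        refine ⟨v, hv1, ?_⟩
        rw [hB]
        exact Finset.mem_filter.2 ⟨hn, hv2, hv3⟩
    · push Not at h1
      obtain ⟨v, hv1, hv2⟩ := h1
      left; left
      refine ⟨v, ?_, ?_⟩
      · rw [hP, Finset.mem_filter, Set.Finite.mem_toFinset]
        refine ⟨?_, hv1⟩
        show Nn v ≤ Z
        have h3 := v_sq v (hne j n hn) hv2
        have h4 := inv_le_nm (hne j n hn) (hint j n hn) v
        have h5 := hnm j n hn
        have h6 : 0 < v (y j n) := FinitePlace.pos_iff.2 (hne j n hn)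
        have h7 : N v ^ 2 ≤ (v (y j n))⁻¹ := by
          rw [inv_eq_one_div, le_div_iff₀ h6]
          exact h3
        have h8 : N v ^ 2 ≤ (Z : ℝ) ^ 2 := by linarith
        have h9 := one_lt_N v
        have h10 : N v ≤ (Z : ℝ) := by
          exact (sq_le_sq₀ (by linarith) (Nat.cast_nonneg Z)).1 h8
        rw [N_eq] at h10
        exact_mod_cast h10
      · rw [hA]
        exact Finset.mem_filter.2 ⟨hn, hv2⟩
  -- the bounds
  have hdv : ∀ (j : Fin r) (v : FinitePlace K), v (Q j) = 1 → ∀ n n', ∀ c : ℝ, v (y j n) ≤ c →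
      v (y j n') ≤ c → v ((el n : K) - (el n' : K)) ≤ c := by
    intro j v hv n n' c h1 h2
    have h3 := fsub v (y j n) (y j n')
    rw [hdiff, map_mul, hv, one_mul] at h3
    exact h3.trans (max_le h1 h2)
  obtain ⟨C0, hC0⟩ : ∃ C0 : ℝ, C0 = (4 * W) ^ d := ⟨_, rfl⟩
  have hC0p : 0 < C0 := by rw [hC0]; positivity
  rw [← hC0] at hnum
  have cA : ∀ j, ∀ v ∈ P, ((A j v).card : ℝ) ≤ C0 * (1 + (Y : ℝ) ^ d / (Nn v : ℝ) ^ 2) := by
    intro j v hv
    have hvE : v ∉ E := by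
      rw [hP, Finset.mem_filter] at hv
      exact hv.2
    have hN0 : 0 < N v := lt_trans one_pos (one_lt_N v)
    have := box_real hW0 hW v (A := A j v) (Y := Y) (M := N v ^ 2) (by rw [hA]; exact Finset.filter_subset _ _)
      (by positivity) (by
        intro n hn n' hn' _
        rw [hA] at hn hn'
        obtain ⟨hn1, hn2⟩ := Finset.mem_filter.1 hn
        obtain ⟨hn1', hn2'⟩ := Finset.mem_filter.1 hn'
        have g1 := v_sq v (hne j n hn1) hn2
        have g2 := v_sq v (hne j n' hn1') hn2'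
        have g3 := hdv j v (hQ j v hvE) n n' ((N v ^ 2)⁻¹)
          (by rw [inv_eq_one_div, le_div_iff₀ (by positivity), mul_comm]; exact g1)
          (by rw [inv_eq_one_div, le_div_iff₀ (by positivity), mul_comm]; exact g2)
        rw [inv_eq_one_div, le_div_iff₀ (by positivity), mul_comm] at g3
        exact g3)
    rw [← hd, ← hC0, N_eq] at this
    exact this
  have cB : ∀ j, ∀ v ∈ E, ((B j v).card : ℝ) ≤ C0 * (1 + (Y : ℝ) ^ d * κ) := by
    intro j v _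
    have := box_real hW0 hW v (A := B j v) (Y := Y) (M := κ⁻¹) (by rw [hB]; exact Finset.filter_subset _ _)
      (by positivity) (by
        intro n hn n' hn' _
        rw [hB] at hn hn'
        obtain ⟨hn1, hn2, hn3⟩ := Finset.mem_filter.1 hn
        obtain ⟨hn1', hn2', hn3'⟩ := Finset.mem_filter.1 hn'
        have g3 := hdv j v hn2 n n' κ hn3.le hn3'.le
        rw [inv_mul_le_iff₀ hκ, mul_one]
        exact g3)
    rw [← hd, ← hC0, div_inv_eq_mul] at this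
    exact this
  have cD : ∀ j, ∀ v ∈ G, ((D j v).card : ℝ) ≤ C0 * (1 + (Y : ℝ) ^ d / L) := by
    intro j v hv
    obtain ⟨hvE, hvL⟩ := hG v hv
    have hN0 : 0 < N v := lt_trans one_pos (one_lt_N v)
    have := box_real hW0 hW v (A := D j v) (Y := Y) (M := N v) (by rw [hD]; exact Finset.filter_subset _ _)
      hN0 (by
        intro n hn n' hn' _
        rw [hD] at hn hn'
        obtain ⟨hn1, hn2⟩ := Finset.mem_filter.1 hn
        obtain ⟨hn1', hn2'⟩ := Finset.mem_filter.1 hn'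
        have g1 := v_le_inv v (hne j n hn1) hn2
        have g2 := v_le_inv v (hne j n' hn1') hn2'
        have g3 := hdv j v (hQ j v hvE) n n' _ g1 g2
        rw [inv_eq_one_div, le_div_iff₀ hN0, mul_comm] at g3
        exact g3)
    rw [← hd, ← hC0] at this
    refine this.trans ?_
    have hL0 : (0 : ℝ) < L := by exact_mod_cast hL
    have h3 : (L : ℝ) ≤ N v := by rw [N_eq]; exact_mod_cast hvL
    gcongr
  -- the sum
  have hcard : (Y : ℝ) ^ d ≤ ∑ j : Fin r, ((∑ v ∈ P, C0 * (1 + (Y : ℝ) ^ d / (Nn v : ℝ) ^ 2) +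
      ∑ v ∈ E, C0 * (1 + (Y : ℝ) ^ d * κ)) + ∑ v ∈ G, C0 * (1 + (Y : ℝ) ^ d / L)) := by
    have h1 := Finset.card_le_card hcov
    rw [card_cube, ← hd] at h1
    have h2 : (Y : ℝ) ^ d ≤ ((Finset.univ.biUnion fun j => (P.biUnion (A j) ∪ E.biUnion (B j)) ∪
      G.biUnion (D j)).card : ℝ) := by exact_mod_cast h1
    refine h2.trans ?_
    have h3 : ((Finset.univ.biUnion fun j => (P.biUnion (A j) ∪ E.biUnion (B j)) ∪
      G.biUnion (D j)).card : ℝ) ≤ ∑ j : Fin r,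
        (((P.biUnion (A j) ∪ E.biUnion (B j)) ∪ G.biUnion (D j)).card : ℝ) := by
      have := Finset.card_biUnion_le (s := Finset.univ)
        (t := fun j => (P.biUnion (A j) ∪ E.biUnion (B j)) ∪ G.biUnion (D j))
      exact_mod_cast this
    refine h3.trans (Finset.sum_le_sum fun j _ => ?_)
    have h4 : (((P.biUnion (A j) ∪ E.biUnion (B j)) ∪ G.biUnion (D j)).card : ℝ) ≤
        (((P.biUnion (A j)).card : ℝ) + (E.biUnion (B j)).card) + (G.biUnion (D j)).card := by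
      have g1 := Finset.card_union_le (P.biUnion (A j) ∪ E.biUnion (B j)) (G.biUnion (D j))
      have g2 := Finset.card_union_le (P.biUnion (A j)) (E.biUnion (B j))
      have g3 : ((P.biUnion (A j) ∪ E.biUnion (B j)) ∪ G.biUnion (D j)).card ≤
        ((P.biUnion (A j)).card + (E.biUnion (B j)).card) + (G.biUnion (D j)).card := by omega
      exact_mod_cast g3
    refine h4.trans ?_
    have k1 : ((P.biUnion (A j)).card : ℝ) ≤ ∑ v ∈ P, C0 * (1 + (Y : ℝ) ^ d / (Nn v : ℝ) ^ 2) := by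
      have g : ((P.biUnion (A j)).card : ℝ) ≤ ∑ v ∈ P, ((A j v).card : ℝ) := by
        have := Finset.card_biUnion_le (s := P) (t := A j)
        exact_mod_cast this
      exact g.trans (Finset.sum_le_sum (cA j))
    have k2 : ((E.biUnion (B j)).card : ℝ) ≤ ∑ v ∈ E, C0 * (1 + (Y : ℝ) ^ d * κ) := by
      have g : ((E.biUnion (B j)).card : ℝ) ≤ ∑ v ∈ E, ((B j v).card : ℝ) := by
        have := Finset.card_biUnion_le (s := E) (t := B j)
        exact_mod_cast this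
      exact g.trans (Finset.sum_le_sum (cB j))
    have k3 : ((G.biUnion (D j)).card : ℝ) ≤ ∑ v ∈ G, C0 * (1 + (Y : ℝ) ^ d / L) := by
      have g : ((G.biUnion (D j)).card : ℝ) ≤ ∑ v ∈ G, ((D j v).card : ℝ) := by
        have := Finset.card_biUnion_le (s := G) (t := D j)
        exact_mod_cast this
      exact g.trans (Finset.sum_le_sum (cD j))
    linarith
  rw [Finset.sum_const, Finset.card_univ, Fintype.card_fin, nsmul_eq_mul, Finset.sum_const,
    Finset.sum_const, nsmul_eq_mul, nsmul_eq_mul] at hcard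
  have hPs : ∑ v ∈ P, C0 * (1 + (Y : ℝ) ^ d / (Nn v : ℝ) ^ 2) ≤
      C0 * (d * (Z : ℝ) + d * ((Y : ℝ) ^ d / T)) := by
    rw [← Finset.mul_sum]
    refine mul_le_mul_of_nonneg_left ?_ hC0p.le
    rw [Finset.sum_add_distrib]
    have hPm : ∀ v ∈ P, T < Nn v ∧ Nn v ≤ Z := by
      intro v hv
      rw [hP, Finset.mem_filter, Set.Finite.mem_toFinset] at hv
      refine ⟨?_, hv.1⟩
      by_contra hc
      exact hv.2 (hE v (by omega))
    have g1 := sum_places P (fun _ => 1) (fun _ => zero_le_one) T Z hPm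
    have g2 := sum_places P (fun n => (Y : ℝ) ^ d / (n : ℝ) ^ 2) (fun n => by positivity) T Z hPm
    rw [← hd] at g1 g2
    have g3 : ∑ n ∈ Finset.Ioc T Z, (1 : ℝ) ≤ Z := by
      rw [Finset.sum_const, Nat.card_Ioc, nsmul_eq_mul, mul_one]
      exact_mod_cast Nat.sub_le Z T
    have g4 : ∑ n ∈ Finset.Ioc T Z, (Y : ℝ) ^ d / (n : ℝ) ^ 2 ≤ (Y : ℝ) ^ d / T := by
      have e : ∀ n : ℕ, (Y : ℝ) ^ d / (n : ℝ) ^ 2 = (Y : ℝ) ^ d * (1 / (n : ℝ) ^ 2) := by
        intro n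
        rw [mul_one_div]
      simp_rw [e]
      rw [← Finset.mul_sum, ← mul_one_div ((Y : ℝ) ^ d) (T : ℝ)]
      exact mul_le_mul_of_nonneg_left (sum_sq T Z hT) (by positivity)
    have hd0 : (0 : ℝ) ≤ d := Nat.cast_nonneg d
    exact add_le_add (g1.trans (mul_le_mul_of_nonneg_left g3 hd0))
      (g2.trans (mul_le_mul_of_nonneg_left g4 hd0))
  have hGs : (G.card : ℝ) * (C0 * (1 + (Y : ℝ) ^ d / L)) ≤ d * (C0 * (1 + (Y : ℝ) ^ d / L)) := by
    have : (G.card : ℝ) ≤ d := by exact_mod_cast hGc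
    exact mul_le_mul_of_nonneg_right this (by positivity)
  have hfin : (r : ℝ) * ((∑ v ∈ P, C0 * (1 + (Y : ℝ) ^ d / (Nn v : ℝ) ^ 2) +
      E.card * (C0 * (1 + (Y : ℝ) ^ d * κ))) + G.card * (C0 * (1 + (Y : ℝ) ^ d / L))) ≤
      (r : ℝ) * (C0 * ((d * (Z : ℝ) + d * ((Y : ℝ) ^ d / T)) +
      E.card * (1 + (Y : ℝ) ^ d * κ) + d * (1 + (Y : ℝ) ^ d / L))) := by
    refine mul_le_mul_of_nonneg_left ?_ (Nat.cast_nonneg r)
    have e : C0 * ((d * (Z : ℝ) + d * ((Y : ℝ) ^ d / T)) +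
      E.card * (1 + (Y : ℝ) ^ d * κ) + d * (1 + (Y : ℝ) ^ d / L)) =
      C0 * (d * (Z : ℝ) + d * ((Y : ℝ) ^ d / T)) + E.card * (C0 * (1 + (Y : ℝ) ^ d * κ)) +
      d * (C0 * (1 + (Y : ℝ) ^ d / L)) := by ring
    rw [e]
    linarith
  linarith

end Pool.Agent.Q272.LP
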