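import Pool.Agent.Q272.LP.Transfer

/-!
# Classes of global minimal equations and of short minimal models
-/

set_option autoImplicit false

namespace Pool.Agent.Q272.LP

open Finset
open Pool.Agent.H39R3 (GMin condW shortW FullT iso_short)
open Pool.Agent.Q272.TR (ht AbcExp SzExp)

/-- there is a rational point of order two -/
def TwoT (W : WeierstrassCurve ℤ) : Prop :=
  ∃ r : ℚ, 4 * r ^ 3 + W.b₂ * r ^ 2 + 2 * W.b₄ * r + W.b₆ = 0

/-- the relation between the cubic polynomials -/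
theorem cubic_rel (W : WeierstrassCurve ℤ) (x : ℚ) :
    (36 * x + 3 * W.b₂) ^ 3 - (27 * W.c₄ : ℚ) * (36 * x + 3 * W.b₂) - 54 * W.c₆ =
      11664 * (4 * x ^ 3 + W.b₂ * x ^ 2 + 2 * W.b₄ * x + W.b₆) := by
  unfold WeierstrassCurve.c₄ WeierstrassCurve.c₆
  push_cast
  ring

theorem relQ {W : WeierstrassCurve ℤ} {a b u : ℤ} (h : Rel W a b u) :
    (27 * W.c₄ : ℚ) = (u : ℚ) ^ 4 * a ∧ (54 * W.c₆ : ℚ) = (u : ℚ) ^ 6 * b ∧ (u : ℚ) ≠ 0 := by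
  refine ⟨by exact_mod_cast h.c4, by exact_mod_cast h.c6, by exact_mod_cast h.ne⟩

theorem two_iff (W : WeierstrassCurve ℤ) (a b u : ℤ) (h : Rel W a b u) :
    TwoT W ↔ TwoTorsion a b := by
  obtain ⟨h4, h6, hu⟩ := relQ h
  have hu2 : (u : ℚ) ^ 2 ≠ 0 := pow_ne_zero _ hu
  have hu6 : (u : ℚ) ^ 6 ≠ 0 := pow_ne_zero _ hu
  constructor
  · rintro ⟨r, hr⟩
    refine ⟨(36 * r + 3 * W.b₂) / (u : ℚ) ^ 2, ?_⟩
    have h1 := cubic_rel W r
    rw [hr, mul_zero, h4, h6] at h1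
    have e : ((36 * r + 3 * W.b₂) / (u : ℚ) ^ 2) ^ 3 - a * ((36 * r + 3 * W.b₂) / (u : ℚ) ^ 2) - b =
        ((36 * r + 3 * W.b₂) ^ 3 - (u : ℚ) ^ 4 * a * (36 * r + 3 * W.b₂) - (u : ℚ) ^ 6 * b) /
          (u : ℚ) ^ 6 := by
      field_simp
    rw [e, h1, zero_div]
  · rintro ⟨x, hx⟩
    refine ⟨((u : ℚ) ^ 2 * x - 3 * W.b₂) / 36, ?_⟩
    have h1 := cubic_rel W (((u : ℚ) ^ 2 * x - 3 * W.b₂) / 36)
    have e : 36 * (((u : ℚ) ^ 2 * x - 3 * W.b₂) / 36) + 3 * (W.b₂ : ℚ) = (u : ℚ) ^ 2 * x := by ring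
    rw [e, h4, h6] at h1
    have e2 : ((u : ℚ) ^ 2 * x) ^ 3 - (u : ℚ) ^ 4 * a * ((u : ℚ) ^ 2 * x) - (u : ℚ) ^ 6 * b =
        (u : ℚ) ^ 6 * (x ^ 3 - a * x - b) := by ring
    rw [e2, hx, mul_zero] at h1
    linarith

theorem full_iff (W : WeierstrassCurve ℤ) (a b u : ℤ) (h : Rel W a b u) :
    FullT W ↔ FullTwoTorsion a b := by
  obtain ⟨h4, h6, hu⟩ := relQ h
  have hu2 : (u : ℚ) ^ 2 ≠ 0 := pow_ne_zero _ hu
  have hu6 : (u : ℚ) ^ 6 ≠ 0 := pow_ne_zero _ hu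
  constructor
  · rintro ⟨r₁, r₂, r₃, hr⟩
    refine ⟨(36 * r₁ + 3 * W.b₂) / (u : ℚ) ^ 2, (36 * r₂ + 3 * W.b₂) / (u : ℚ) ^ 2,
      (36 * r₃ + 3 * W.b₂) / (u : ℚ) ^ 2, fun x => ?_⟩
    have h1 := cubic_rel W (((u : ℚ) ^ 2 * x - 3 * W.b₂) / 36)
    have e : 36 * (((u : ℚ) ^ 2 * x - 3 * W.b₂) / 36) + 3 * (W.b₂ : ℚ) = (u : ℚ) ^ 2 * x := by ring
    rw [e, h4, h6, hr] at h1
    have e2 : ((u : ℚ) ^ 2 * x) ^ 3 - (u : ℚ) ^ 4 * a * ((u : ℚ) ^ 2 * x) - (u : ℚ) ^ 6 * b =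
        (u : ℚ) ^ 6 * (x ^ 3 - a * x - b) := by ring
    rw [e2] at h1
    have h2 : x ^ 3 - a * x - b = 11664 * (4 * (((u : ℚ) ^ 2 * x - 3 * W.b₂) / 36 - r₁) *
        (((u : ℚ) ^ 2 * x - 3 * W.b₂) / 36 - r₂) * (((u : ℚ) ^ 2 * x - 3 * W.b₂) / 36 - r₃)) /
          (u : ℚ) ^ 6 := by
      rw [← h1]
      field_simp
    rw [h2]
    field_simp
    ring
  · rintro ⟨r₁, r₂, r₃, hr⟩
    refine ⟨((u : ℚ) ^ 2 * r₁ - 3 * W.b₂) / 36, ((u : ℚ) ^ 2 * r₂ - 3 * W.b₂) / 36,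
      ((u : ℚ) ^ 2 * r₃ - 3 * W.b₂) / 36, fun x => ?_⟩
    have h1 := cubic_rel W x
    have h2 := hr ((36 * x + 3 * W.b₂) / (u : ℚ) ^ 2)
    have e : ((36 * x + 3 * W.b₂) / (u : ℚ) ^ 2) ^ 3 - a * ((36 * x + 3 * W.b₂) / (u : ℚ) ^ 2) - b =
        ((36 * x + 3 * W.b₂) ^ 3 - (u : ℚ) ^ 4 * a * (36 * x + 3 * W.b₂) - (u : ℚ) ^ 6 * b) /
          (u : ℚ) ^ 6 := by
      field_simp
    rw [e, ← h4, ← h6, h1] at h2
    have h3 : 4 * x ^ 3 + (W.b₂ : ℚ) * x ^ 2 + 2 * W.b₄ * x + W.b₆ = (u : ℚ) ^ 6 / 11664 *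
        (((36 * x + 3 * W.b₂) / (u : ℚ) ^ 2 - r₁) * ((36 * x + 3 * W.b₂) / (u : ℚ) ^ 2 - r₂) *
          ((36 * x + 3 * W.b₂) / (u : ℚ) ^ 2 - r₃)) := by
      rw [← h2]
      field_simp
    rw [h3]
    field_simp
    ring

theorem j_iff (j : ℚ) (W : WeierstrassCurve ℤ) (a b u : ℤ) (h : Rel W a b u) :
    (W.c₄ : ℚ) ^ 3 = j * W.Δ ↔ HasJ j a b := by
  obtain ⟨h4, -, hu⟩ := relQ h
  have hd : (78732 * 1728 * W.Δ : ℚ) = (u : ℚ) ^ 12 * Disc a b := by exact_mod_cast rel_disc h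
  have hu12 : (u : ℚ) ^ 12 ≠ 0 := pow_ne_zero _ hu
  unfold HasJ
  have e4 : (W.c₄ : ℚ) ^ 3 = (u : ℚ) ^ 12 * (a : ℚ) ^ 3 / 19683 := by
    have : (W.c₄ : ℚ) = (u : ℚ) ^ 4 * a / 27 := by rw [← h4]; ring
    rw [this]
    ring
  have ed : (W.Δ : ℚ) = (u : ℚ) ^ 12 * Disc a b / (78732 * 1728) := by rw [← hd]; ring
  rw [e4, ed]
  constructor
  · intro h1
    have h2 : (u : ℚ) ^ 12 * (6912 * (a : ℚ) ^ 3) = (u : ℚ) ^ 12 * (j * Disc a b) := by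
      linear_combination (78732 * 1728 : ℚ) * h1
    exact mul_left_cancel₀ hu12 h2
  · intro h1
    have h2 : (u : ℚ) ^ 12 * (6912 * (a : ℚ) ^ 3) = (u : ℚ) ^ 12 * (j * Disc a b) := by rw [h1]
    linear_combination h2 / (78732 * 1728)

/-- closed under quadratic twists -/
def TwistW (P : WeierstrassCurve ℤ → Prop) : Prop :=
  ∀ (W W' : WeierstrassCurve ℤ) (d : ℚ), W.Δ ≠ 0 → d ≠ 0 → (W'.c₄ : ℚ) = d ^ 2 * W.c₄ →
    (W'.c₆ : ℚ) = d ^ 3 * W.c₆ → P W → P W'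

theorem twist_iff {P : WeierstrassCurve ℤ → Prop} (hP : TwistW P) (W : WeierstrassCurve ℤ)
    (a b u : ℤ) (h : Rel W a b u) : P W ↔ P (shortW a b) := by
  obtain ⟨h4, h6, hu⟩ := relQ h
  have hΔ : (shortW a b).Δ ≠ 0 := by
    rw [Pool.Agent.H39R3.shortW_Δ]
    exact mul_ne_zero (by norm_num) h.min.1
  constructor
  · refine hP W (shortW a b) (36 / (u : ℚ) ^ 2) h.gmin.1
      (div_ne_zero (by norm_num) (pow_ne_zero _ hu)) ?_ ?_
    · rw [Pool.Agent.H39R3.shortW_c4]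
      push_cast
      field_simp
      linear_combination (-48 : ℚ) * h4
    · rw [Pool.Agent.H39R3.shortW_c6]
      push_cast
      field_simp
      linear_combination (-864 : ℚ) * h6
  · refine hP (shortW a b) W ((u : ℚ) ^ 2 / 36) hΔ
      (div_ne_zero (pow_ne_zero _ hu) (by norm_num)) ?_ ?_
    · rw [Pool.Agent.H39R3.shortW_c4]
      push_cast
      linear_combination h4 / 27
    · rw [Pool.Agent.H39R3.shortW_c6]
      push_cast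
      linear_combination h6 / 54

theorem tc_short {P : WeierstrassCurve ℤ → Prop} (hP : TwistW P) :
    TwistClosed (fun a b => P (shortW a b)) := by
  intro a b l hl _ hlD hab
  have hD : Disc a b ≠ 0 := by
    intro h0
    rw [h0] at hlD
    exact hlD (dvd_zero _)
  have hΔ : (shortW a b).Δ ≠ 0 := by
    rw [Pool.Agent.H39R3.shortW_Δ]
    exact mul_ne_zero (by norm_num) hD
  have hl0 : (l : ℚ) ≠ 0 := by exact_mod_cast hl.ne_zero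
  refine hP _ _ (l : ℚ) hΔ hl0 ?_ ?_ hab
  · rw [Pool.Agent.H39R3.shortW_c4, Pool.Agent.H39R3.shortW_c4]
    push_cast
    ring
  · rw [Pool.Agent.H39R3.shortW_c6, Pool.Agent.H39R3.shortW_c6]
    push_cast
    ring

/-- a fixed `j`-invariant -/
theorem lim_jH {j : ℚ} (h0 : j ≠ 0) (h1728 : j ≠ 1728) (x : ℝ) :
    LimPt Hs N6 (HasJ j) x ↔ x = 3 := by
  rw [← lim_j h0 h1728 x]
  set c : ℝ := max |(j : ℝ)| |(j : ℝ) - 1728| / 1728 with hc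
  have hc0 : 0 < c := by
    have : (0 : ℝ) < |(j : ℝ)| := abs_pos.mpr (by exact_mod_cast h0)
    have : (0 : ℝ) < max |(j : ℝ)| |(j : ℝ) - 1728| := lt_max_of_lt_left this
    positivity
  have key : ∀ a b : ℤ, HasJ j a b → Hs a b = c * absD a b := by
    intro a b h
    have h1 : 6912 * (a : ℝ) ^ 3 = (j : ℝ) * (Disc a b : ℝ) := by
      unfold HasJ at h
      exact_mod_cast h
    have h2 : 27 * (b : ℝ) ^ 2 = ((j : ℝ) - 1728) * (Disc a b : ℝ) / 1728 := by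
      have h3 : ((Disc a b : ℤ) : ℝ) = 4 * (a : ℝ) ^ 3 - 27 * (b : ℝ) ^ 2 := by
        unfold Disc; push_cast; ring
      rw [h3] at h1 ⊢
      linarith
    have e1 : 4 * |(a : ℝ)| ^ 3 = |(j : ℝ)| * absD a b / 1728 := by
      have h4 := congrArg abs h1
      rw [abs_mul, abs_mul, abs_pow, abs_of_pos (by norm_num : (0 : ℝ) < 6912)] at h4
      unfold absD
      linarith
    have e2 : 27 * (b : ℝ) ^ 2 = |(j : ℝ) - 1728| * absD a b / 1728 := by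
      have h4 := congrArg abs h2
      rw [abs_div, abs_mul, abs_mul, abs_of_pos (by norm_num : (0 : ℝ) < 27),
        abs_of_pos (by norm_num : (0 : ℝ) < 1728), abs_of_nonneg (sq_nonneg (b : ℝ))] at h4
      unfold absD
      exact h4
    unfold Hs
    have hD : 0 ≤ absD a b := abs_nonneg _
    rw [e1, e2, hc, max_div_div_right (by norm_num : (0 : ℝ) ≤ 1728),
      ← max_mul_of_nonneg _ _ hD]
    ring
  have hlog : ∀ a b : ℤ, IsMinimal a b → HasJ j a b →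
      |Real.log (Hs a b) - Real.log (absD a b)| ≤ |Real.log c| := by
    intro a b hm h
    have hD : 0 < absD a b := abs_pos.mpr (by exact_mod_cast hm.1)
    rw [key a b h, Real.log_mul hc0.ne' hD.ne']
    simp
  constructor
  · intro hx
    have h := lim_transfer (α := ℤ × ℤ) (β := ℤ × ℤ) (Fα := fun q => Hs q.1 q.2)
      (Nα := fun q => N6 q.1 q.2) (Fβ := fun q => absD q.1 q.2) (Nβ := fun q => N6 q.1 q.2)
      (Pα := fun q => IsMinimal q.1 q.2 ∧ HasJ j q.1 q.2)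
      (Pβ := fun q => IsMinimal q.1 q.2 ∧ HasJ j q.1 q.2) (abs_nonneg (Real.log c))
      (fun q hq => ⟨q, hq, N6_one _ _, N6_one _ _, by
        rw [abs_sub_comm]; exact hlog _ _ hq.1 hq.2, by simp⟩) (x := x) (by
        intro ε M hε
        obtain ⟨a, b, h1, h2, h3, h4⟩ := hx ε M hε
        exact ⟨(a, b), ⟨h1, h2⟩, h3, h4⟩)
    intro ε M hε
    obtain ⟨q, ⟨h1, h2⟩, h3, h4⟩ := h ε M hε
    exact ⟨q.1, q.2, h1, h2, h3, h4⟩
  · intro hx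
    have h := lim_transfer (α := ℤ × ℤ) (β := ℤ × ℤ) (Fα := fun q => absD q.1 q.2)
      (Nα := fun q => N6 q.1 q.2) (Fβ := fun q => Hs q.1 q.2) (Nβ := fun q => N6 q.1 q.2)
      (Pα := fun q => IsMinimal q.1 q.2 ∧ HasJ j q.1 q.2)
      (Pβ := fun q => IsMinimal q.1 q.2 ∧ HasJ j q.1 q.2) (abs_nonneg (Real.log c))
      (fun q hq => ⟨q, hq, N6_one _ _, N6_one _ _, hlog _ _ hq.1 hq.2, by simp⟩) (x := x) (by
        intro ε M hε
        obtain ⟨a, b, h1, h2, h3, h4⟩ := hx ε M hε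
        exact ⟨(a, b), ⟨h1, h2⟩, h3, h4⟩)
    intro ε M hε
    obtain ⟨q, ⟨h1, h2⟩, h3, h4⟩ := h ε M hε
    exact ⟨q.1, q.2, h1, h2, h3, h4⟩

theorem limH_zero (x : ℝ) : LimPt Hs N6 (fun a _ => a = 0) x ↔ 1 ≤ x ∧ x ≤ 5 := by
  rw [← lim_zero x]
  refine lim_congr (fun a b _ h => ?_) x
  have h0 : a = 0 := h
  rw [h0]
  exact hs_zero b

theorem limH_zero' (x : ℝ) : LimPt Hs N6 (fun _ b => b = 0) x ↔ 3 / 2 ≤ x ∧ x ≤ 9 / 2 := by
  rw [← lim_zero' x]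
  refine lim_congr (fun a b _ h => ?_) x
  have h0 : b = 0 := h
  rw [h0]
  exact hs_zero' a

/-- the inequality with the prime-to-6 part of the conductor implies the one with `N` -/
theorem ineq_of_sz {N : WeierstrassCurve ℤ → ℝ} (hN : ∀ W, GMin W → (condW W : ℝ) ≤ N W) {κ : ℝ}
    (h : SzExp (fun _ => True) κ) (hκ : 0 ≤ κ) :
    ∃ C : ℝ, ∀ W, GMin W → (fun _ : WeierstrassCurve ℤ => True) W → ht W ≤ C * N W ^ κ := by
  obtain ⟨C, hC⟩ := h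
  refine ⟨max C 0, fun W hW _ => (hC W hW trivial).trans ?_⟩
  have hc1 : (1 : ℝ) ≤ condW W := by exact_mod_cast Pool.Agent.Q272.TR.condW_pos W
  have h1 : (condW W : ℝ) ^ κ ≤ N W ^ κ := Real.rpow_le_rpow (by linarith) (hN W hW) hκ
  calc C * (condW W : ℝ) ^ κ ≤ max C 0 * (condW W : ℝ) ^ κ := by
        gcongr
        exact le_max_left _ _
    _ ≤ max C 0 * N W ^ κ := by
        have : 0 ≤ max C 0 := le_max_right _ _
        gcongr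

end Pool.Agent.Q272.LP
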