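import Pool.Agent.Q272.LP.C

/-! # Rational primes, heights of fractions -/

set_option autoImplicit false

open NumberField Height Function

namespace Pool.Agent.Q272.LP

open Q241.AK Q265.NF Q265.BM

variable {K : Type*} [Field K] [NumberField K]

lemma v_nat_le (v : FinitePlace K) (n : ℕ) : v (n : K) ≤ 1 := by
  have := int_le_one v (n : 𝓞 K)
  simpa using this

lemma v_int_le (v : FinitePlace K) (n : ℤ) : v (n : K) ≤ 1 := by
  have := int_le_one v (n : 𝓞 K)
  simpa using this

lemma coprime_places (v : FinitePlace K) {m n : ℕ} (h : Nat.Coprime m n) :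
    ¬ (v (m : K) < 1 ∧ v (n : K) < 1) := by
  rintro ⟨h1, h2⟩
  obtain ⟨a, b, hab⟩ := Nat.isCoprime_iff_coprime.2 h
  have e : (a : K) * (m : K) + (b : K) * (n : K) = 1 := by exact_mod_cast congrArg (Int.cast : ℤ → K) hab
  have h3 := FinitePlace.add_le v ((a : K) * (m : K)) ((b : K) * (n : K))
  rw [e, map_one, map_mul, map_mul] at h3
  have h4 : v (a : K) * v (m : K) < 1 :=
    lt_of_le_of_lt (mul_le_of_le_one_left (by positivity) (v_int_le v a)) h1
  have h5 : v (b : K) * v (n : K) < 1 :=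
    lt_of_le_of_lt (mul_le_of_le_one_left (by positivity) (v_int_le v b)) h2
  exact absurd (lt_of_le_of_lt h3 (max_lt h4 h5)) (lt_irrefl _)

lemma v_Nn (v : FinitePlace K) : v ((Nn v : ℕ) : K) < 1 := by
  have hm : ((Nn v : ℕ) : 𝓞 K) ∈ v.maximalIdeal.asIdeal := Ideal.absNorm_mem _
  have := (lt_one_iff v _).2 hm
  simpa using this

lemma Nn_pos (v : FinitePlace K) : 1 < Nn v := by
  have := one_lt_N v
  rw [N_eq] at this
  exact_mod_cast this

lemma le_Nn (v : FinitePlace K) {l : ℕ} (hl : l.Prime) (h : v (l : K) < 1) : l ≤ Nn v := by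
  have h1 : ¬ Nat.Coprime l (Nn v) := fun hc => coprime_places v hc ⟨h, v_Nn v⟩
  have h2 : l ∣ Nn v := by
    by_contra hc
    exact h1 ((Nat.Prime.coprime_iff_not_dvd hl).2 hc)
  exact Nat.le_of_dvd (by have := Nn_pos v; omega) h2

lemma card_over {l : ℕ} (hl : l.Prime) (G : Finset (FinitePlace K))
    (hG : ∀ v ∈ G, v (l : K) < 1) : G.card ≤ Module.finrank ℚ K := by
  have hl0 : (l : K) ≠ 0 := by exact_mod_cast hl.ne_zero
  have h2 := prod_le_nm hl0 (fun v => v_nat_le v l) G
  rw [nm_nat] at h2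
  have h3 : (l : ℝ) ^ G.card ≤ ∏ v ∈ G, (v (l : K))⁻¹ := by
    rw [← Finset.prod_const]
    refine Finset.prod_le_prod (fun v _ => by positivity) fun v hv => ?_
    have h4 := gap_one v hl0 (hG v hv)
    have h5 : 0 < v (l : K) := FinitePlace.pos_iff.2 hl0
    have h6 : (l : ℝ) ≤ N v := by
      rw [N_eq]
      exact_mod_cast le_Nn v hl (hG v hv)
    rw [inv_eq_one_div, le_div_iff₀ h5]
    nlinarith
  have h6 : (l : ℝ) ^ G.card ≤ (l : ℝ) ^ Module.finrank ℚ K := h3.trans h2
  exact (pow_le_pow_iff_right₀ (by exact_mod_cast hl.one_lt)).1 h6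

lemma unram {l : ℕ} (hl : l.Prime) (hd : ¬ (l : ℤ) ∣ discr K) (v : FinitePlace K)
    (h : v (l : K) < 1) : v (l : K) = (N v)⁻¹ := by
  have hl0 : (l : 𝓞 K) ≠ 0 := by exact_mod_cast hl.ne_zero
  have h1 := FinitePlace.apply_mul_absNorm_pow_eq_one v hl0
  have hsq := H58P.squarefree_span l hl hd
  have hmem : (l : 𝓞 K) ∈ v.maximalIdeal.asIdeal := by
    have h' : v ((l : 𝓞 K) : K) < 1 := by simpa using h
    exact (lt_one_iff v _).1 h'
  have hm1 : multiplicity v.maximalIdeal.asIdeal (Ideal.span {(l : 𝓞 K)}) = 1 := by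
    have hnu : ¬ IsUnit v.maximalIdeal.asIdeal := by
      rw [Ideal.isUnit_iff]
      exact v.maximalIdeal.isPrime.ne_top
    have hspan : Ideal.span {(l : 𝓞 K)} ≠ 0 := by
      rw [Ne, Ideal.zero_eq_bot, Ideal.span_singleton_eq_bot]
      exact hl0
    refine multiplicity_eq_of_dvd_of_not_dvd ?_ ?_
    · rw [pow_one]
      exact Ideal.dvd_span_singleton.2 hmem
    · intro hc
      rw [pow_succ, pow_one] at hc
      exact hnu (hsq _ hc)
  rw [hm1, pow_one] at h1
  have hN : 0 < N v := lt_trans one_pos (one_lt_N v)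
  have h2 : v (l : K) * N v = 1 := by
    have e : ((l : 𝓞 K) : K) = (l : K) := by simp
    rw [e] at h1
    exact h1
  rw [inv_eq_one_div, eq_div_iff hN.ne']
  exact h2

/-- the height of a fraction -/
lemma height_frac {u V b : K} (hu : u ≠ 0) (hb : b ≠ 0) (h1 : ∀ v : FinitePlace K, v u ≤ 1)
    (h2 : ∀ v : FinitePlace K, v V ≤ 1) (h3 : ∀ w : InfinitePlace K, w V ≤ w u)
    (h4 : ∀ v : FinitePlace K, v b ≤ max (v u) (v V)) :
    Real.log (nm u) - Real.log (nm b) ≤ logHeight₁ (u / V) ∧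
      logHeight₁ (u / V) ≤ Real.log (nm u) := by
  have hz : (![u, V] : Fin 2 → K) ≠ 0 := by
    intro h
    exact hu (congrFun h 0)
  rw [logHeight₁_div_eq_logHeight, logHeight_eq_log_mulHeight]
  have hinf : ∏ w : InfinitePlace K, (⨆ i, w (![u, V] i)) ^ w.mult = nm u := by
    unfold nm
    refine Finset.prod_congr rfl fun w _ => ?_
    rw [iSup2]
    congr 1
    exact max_eq_left (h3 w)
  have hmul : mulHeight ![u, V] = nm u * ∏ᶠ v : FinitePlace K, (⨆ i, v (![u, V] i)) := by
    rw [NumberField.mulHeight_eq hz, hinf]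
  have hup : ∏ᶠ v : FinitePlace K, (⨆ i, v (![u, V] i)) ≤ 1 := by
    have := finprod_le_finprod (supp2 hz) (fun v => by
      show (0 : ℝ) ≤ ⨆ i, v (![u, V] i)
      rw [iSup2]
      positivity) (g := fun _ : FinitePlace K => (1 : ℝ)) (by
        refine Set.finite_empty.subset fun v hv => ?_
        rw [mem_mulSupport] at hv
        exact hv rfl) (fun v => by
      show (⨆ i, v (![u, V] i)) ≤ 1
      rw [iSup2]
      exact max_le (h1 v) (h2 v))
    rwa [finprod_one] at this
  have hlow : (nm b)⁻¹ ≤ ∏ᶠ v : FinitePlace K, (⨆ i, v (![u, V] i)) := by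
    rw [← finprod_eq hb]
    refine finprod_le_finprod (FinitePlace.hasFiniteMulSupport hb) (fun v => by positivity)
      (supp2 hz) fun v => ?_
    show v b ≤ ⨆ i, v (![u, V] i)
    rw [iSup2]
    exact h4 v
  have p1 := nm_pos hu
  have p2 := nm_pos hb
  rw [hmul]
  constructor
  · rw [← Real.log_div p1.ne' p2.ne']
    refine Real.log_le_log (by positivity) ?_
    rw [div_eq_mul_inv]
    exact mul_le_mul_of_nonneg_left hlow p1.le
  · refine Real.log_le_log ?_ ?_
    · exact mul_pos p1 (lt_of_lt_of_le (inv_pos.2 p2) hlow)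
    · exact mul_le_of_le_one_right p1.le hup

/-- comparison of the radical with the norm -/
lemma rad_est {y : K} (hy : y ≠ 0) (h1 : ∀ v : FinitePlace K, v y ≤ 1)
    (E : Finset (FinitePlace K)) {κ : ℝ} (hκ : 0 < κ) (hκ1 : κ ≤ 1)
    (hE : ∀ v ∉ E, (N v)⁻¹ ≤ v y) (hE' : ∀ v ∈ E, κ ≤ v y) :
    Real.log (nm y) - E.card * Real.log κ⁻¹ ≤
      Real.log (PP {v : FinitePlace K | v ∉ E ∧ v y < 1}) ∧
    Real.log (PP {v : FinitePlace K | v ∉ E ∧ v y < 1}) ≤ Real.log (nm y) := by
  classical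
  obtain ⟨Zs, hZs⟩ : ∃ Zs : Set (FinitePlace K), Zs = {v : FinitePlace K | v ∉ E ∧ v y < 1} :=
    ⟨_, rfl⟩
  have hZf : Zs.Finite := by
    refine (FinitePlace.hasFiniteMulSupport hy).subset fun v hv => ?_
    rw [hZs] at hv
    rw [mem_mulSupport]
    exact hv.2.ne
  rw [← hZs]
  have p1 := nm_pos hy
  have p2 := one_le_PP Zs
  constructor
  · have hk : nm y ≤ PP Zs * ∏ v ∈ E, κ⁻¹ := by
      rw [nm_eq hy, ← finprod_fin E (fun _ => κ⁻¹)]
      unfold PP
      rw [← finprod_mul_distrib (pr_fin hZf) (supp_fin E _)]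
      refine finprod_le_finprod (supp_inv hy) (fun v => by positivity)
        ((pr_fin hZf).mul (supp_fin E _)) fun v => ?_
      have hv0 : 0 < v y := FinitePlace.pos_iff.2 hy
      show (v y)⁻¹ ≤ pr Zs v * (if v ∈ E then κ⁻¹ else 1)
      by_cases hv : v ∈ E
      · rw [if_pos hv]
        have g1 := one_le_pr Zs v
        have g2 : (v y)⁻¹ ≤ κ⁻¹ := inv_anti₀ hκ (hE' v hv)
        calc (v y)⁻¹ ≤ κ⁻¹ := g2
          _ ≤ pr Zs v * κ⁻¹ := le_mul_of_one_le_left (by positivity) g1
      · rw [if_neg hv, mul_one]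
        rcases lt_or_ge (v y) 1 with h | h
        · have hm : v ∈ Zs := by rw [hZs]; exact ⟨hv, h⟩
          have e : pr Zs v = N v := if_pos hm
          rw [e]
          have hN : 0 < N v := lt_trans one_pos (one_lt_N v)
          have := inv_anti₀ (inv_pos.2 hN) (hE v hv)
          rwa [inv_inv] at this
        · have e : v y = 1 := le_antisymm (h1 v) h
          rw [e, inv_one]
          exact one_le_pr Zs v
    rw [Finset.prod_const] at hk
    have := Real.log_le_log p1 hk
    rw [Real.log_mul (by linarith) (by positivity), Real.log_pow] at this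
    linarith
  · refine Real.log_le_log (by linarith) ?_
    rw [nm_eq hy]
    unfold PP
    refine finprod_le_finprod (pr_fin hZf) (fun v => zero_le_one.trans (one_le_pr _ v))
      (supp_inv hy) fun v => ?_
    have hv0 : 0 < v y := FinitePlace.pos_iff.2 hy
    by_cases hv : v ∈ Zs
    · have e : pr Zs v = N v := if_pos hv
      rw [e]
      rw [hZs] at hv
      have := gap_one v hy hv.2
      rw [inv_eq_one_div, le_div_iff₀ hv0]
      exact this
    · have e : pr Zs v = 1 := if_neg hv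
      rw [e]
      exact (one_le_inv₀ hv0).2 (h1 v)

lemma PP_mono {A B : Set (FinitePlace K)} (hB : B.Finite) (h : A ⊆ B) :
    Real.log (PP A) ≤ Real.log (PP B) := by
  have h1 := PP_log hB Set.finite_empty (h.trans Set.subset_union_left)
  have h2 : Real.log (PP (∅ : Set (FinitePlace K))) = 0 := by
    unfold PP
    have h1 : ∀ v : FinitePlace K, pr ∅ v = 1 := fun v => if_neg (Set.notMem_empty v)
    simp [h1]
  linarith

/-- two sets of places which coincide outside a finite set -/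
lemma PP_close {A B : Set (FinitePlace K)} (hA : A.Finite) (hB : B.Finite)
    (E : Finset (FinitePlace K)) (h1 : B ⊆ A) (h2 : A ⊆ B ∪ E) :
    |Real.log (PP A) - Real.log (PP B)| ≤ Real.log (PP (E : Set (FinitePlace K))) := by
  have g1 := PP_mono hA h1
  have g2 := PP_log hB E.finite_toSet h2
  rw [abs_le]
  have g3 := log_PP_nonneg (E : Set (FinitePlace K))
  constructor <;> linarith

end Pool.Agent.Q272.LP
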