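import Pool.Agent.Q272.LP.D

/-! # The construction of the points -/

set_option autoImplicit false

open NumberField Height Function

namespace Pool.Agent.Q272.LP

open Q241.AK Q265.NF Q265.BM

variable {K : Type*} [Field K] [NumberField K]

lemma crt {W : ℝ} (hW0 : 1 ≤ W)
    (hW : ∀ (w : InfinitePlace K) (n : Ix K → ℤ) (s : ℝ), (∀ i, |(n i : ℝ)| ≤ s) →
      w (el n : K) ≤ W * s)
    {r : ℕ} (q : Fin r → ℕ) (hq : ∀ j, (q j).Prime) (hinj : Injective q) (k : Fin r → ℕ)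
    (c : Fin r → 𝓞 K) :
    ∃ u : 𝓞 K, (∀ j, ((q j : 𝓞 K) ^ k j) ∣ u - c j) ∧
      ∀ w : InfinitePlace K, w (u : K) ≤ W * (∏ j, q j ^ k j : ℕ) := by
  classical
  have hcop : ∀ i j, i ≠ j → IsCoprime (Ideal.span {((q i : 𝓞 K) ^ k i)})
      (Ideal.span {((q j : 𝓞 K) ^ k j)}) := by
    intro i j hij
    rw [Ideal.isCoprime_span_singleton_iff]
    apply IsCoprime.pow
    have h1 : Nat.Coprime (q i) (q j) :=
      (Nat.coprime_primes (hq i) (hq j)).2 fun h => hij (hinj h)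
    have h2 := (Nat.isCoprime_iff_coprime.2 h1).map (Int.castRingHom (𝓞 K))
    simpa using h2
  obtain ⟨y, hy⟩ := Ideal.exists_forall_sub_mem_ideal
    (I := fun j => Ideal.span {((q j : 𝓞 K) ^ k j)}) (fun i j hij => hcop i j hij) c
  obtain ⟨Qd, hQd⟩ : ∃ Qd : ℕ, Qd = ∏ j, q j ^ k j := ⟨_, rfl⟩
  have hQd0 : 0 < Qd := by
    rw [hQd]
    exact Finset.prod_pos fun j _ => pow_pos (hq j).pos _
  obtain ⟨m, hm⟩ := el_surj y
  obtain ⟨m1, hm1⟩ : ∃ m1 : Ix K → ℤ, m1 = fun i => m i % (Qd : ℤ) := ⟨_, rfl⟩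
  obtain ⟨m2, hm2⟩ : ∃ m2 : Ix K → ℤ, m2 = fun i => m i / (Qd : ℤ) := ⟨_, rfl⟩
  have hmm : m = m1 + (Qd : ℤ) • m2 := by
    funext i
    rw [hm1, hm2]
    simp only [Pi.add_apply, Pi.smul_apply, smul_eq_mul]
    exact (Int.emod_add_mul_ediv (m i) Qd).symm
  refine ⟨el m1, fun j => ?_, fun w => ?_⟩
  · have h1 : ((q j : 𝓞 K) ^ k j) ∣ y - c j := by
      have := hy j
      rwa [Ideal.mem_span_singleton] at this
    have h2 : y = el m1 + (Qd : 𝓞 K) * el m2 := by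
      rw [← hm, hmm, el_add, el_smul, Int.cast_natCast]
    have h3 : ((q j : 𝓞 K) ^ k j) ∣ (Qd : 𝓞 K) * el m2 := by
      refine Dvd.dvd.mul_right ?_ _
      have h4 : q j ^ k j ∣ Qd := by
        rw [hQd]
        exact Finset.dvd_prod_of_mem (fun j => q j ^ k j) (Finset.mem_univ j)
      have := Nat.cast_dvd_cast (α := 𝓞 K) h4
      simpa using this
    have h5 : el m1 - c j = (y - c j) - (Qd : 𝓞 K) * el m2 := by
      rw [h2]
      ring
    rw [h5]
    exact dvd_sub h1 h3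
  · have h1 := hW w m1 Qd (fun i => by
      rw [hm1]
      have g1 : (0 : ℤ) < Qd := by exact_mod_cast hQd0
      have g2 := Int.emod_nonneg (m i) g1.ne'
      have g3 := Int.emod_lt_of_pos (m i) g1
      have g4 : |m i % (Qd : ℤ)| ≤ (Qd : ℤ) := by
        rw [abs_of_nonneg g2]
        exact g3.le
      exact_mod_cast g4)
    rw [← hQd]
    exact h1

end Pool.Agent.Q272.LP
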