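import Mathlib

/-!
# Three linear forms that are squarefree (away from 2) at the same time
-/

set_option autoImplicit false

namespace Pool.Agent.Q272.LP

open Finset

theorem card_one (α β d X : ℕ) (hd : 0 < d) (hc : Nat.Coprime α d) :
    ((range X).filter (fun k => d ∣ α * k + β)).card ≤ X / d + 1 := by
  have h1 : Set.InjOn (fun k => k / d) ((range X).filter (fun k => d ∣ α * k + β)) := by
    intro k hk k' hk' hkk
    have h2 := (mem_filter.mp (mem_coe.mp hk)).2
    have h3 := (mem_filter.mp (mem_coe.mp hk')).2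
    have h4 : α * k + β ≡ α * k' + β [MOD d] :=
      ((Nat.modEq_zero_iff_dvd).mpr h2).trans ((Nat.modEq_zero_iff_dvd).mpr h3).symm
    have h5 : α * k ≡ α * k' [MOD d] := Nat.ModEq.add_right_cancel' β h4
    have h6 : k ≡ k' [MOD d] := Nat.ModEq.cancel_left_of_coprime hc.symm h5
    have h7 : k % d = k' % d := h6
    have h8 : k / d = k' / d := hkk
    rw [← Nat.div_add_mod k d, ← Nat.div_add_mod k' d, h7, h8]
  have h2 : ((range X).filter (fun k => d ∣ α * k + β)).image (fun k => k / d) ⊆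
      range (X / d + 1) := by
    intro m hm
    obtain ⟨k, hk, rfl⟩ := mem_image.mp hm
    have h3 := mem_range.mp (mem_filter.mp hk).1
    exact mem_range.mpr (Nat.lt_succ_of_le (Nat.div_le_div_right h3.le))
  calc ((range X).filter (fun k => d ∣ α * k + β)).card =
      (((range X).filter (fun k => d ∣ α * k + β)).image (fun k => k / d)).card :=
        (card_image_of_injOn h1).symm
    _ ≤ (range (X / d + 1)).card := card_le_card h2
    _ = X / d + 1 := card_range _

theorem sum_odd (J : ℕ) : ∑ j ∈ range J, (1 : ℝ) / (2 * ((j : ℝ) + 1) + 1) ^ 2 ≤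
    1 / 4 - 1 / (4 * ((J : ℝ) + 1)) := by
  induction J with
  | zero => norm_num
  | succ n ih =>
    rw [sum_range_succ]
    push_cast
    have h1 : (1 : ℝ) / (2 * ((n : ℝ) + 1) + 1) ^ 2 ≤
        1 / (4 * ((n : ℝ) + 1)) - 1 / (4 * ((n : ℝ) + 1 + 1)) := by
      have e : (1 : ℝ) / (4 * ((n : ℝ) + 1)) - 1 / (4 * ((n : ℝ) + 1 + 1)) =
          1 / (4 * ((n : ℝ) + 1) * ((n : ℝ) + 2)) := by
        field_simp
        ring
      rw [e]
      apply one_div_le_one_div_of_le
      · positivity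
      · nlinarith
    linarith

/-- the bad set of one form -/
theorem card_bad (α β X J : ℕ) (hc : ∀ j, Nat.Coprime α (2 * j + 1)) :
    ((((range X).filter (fun k => ∃ j < J, (2 * (j + 1) + 1) ^ 2 ∣ α * k + β)).card : ℕ) : ℝ) ≤
      X / 4 + J := by
  have h1 : (range X).filter (fun k => ∃ j < J, (2 * (j + 1) + 1) ^ 2 ∣ α * k + β) ⊆
      (range J).biUnion fun j =>
        (range X).filter (fun k => (2 * (j + 1) + 1) ^ 2 ∣ α * k + β) := by
    intro k hk
    obtain ⟨hk1, j, hj, hk2⟩ := mem_filter.mp hk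
    exact mem_biUnion.mpr ⟨j, mem_range.mpr hj, mem_filter.mpr ⟨hk1, hk2⟩⟩
  have h2 := (card_le_card h1).trans card_biUnion_le
  calc ((((range X).filter (fun k => ∃ j < J, (2 * (j + 1) + 1) ^ 2 ∣ α * k + β)).card : ℕ) : ℝ)
      ≤ ((∑ j ∈ range J, ((range X).filter
        (fun k => (2 * (j + 1) + 1) ^ 2 ∣ α * k + β)).card : ℕ) : ℝ) := by exact_mod_cast h2
    _ = ∑ j ∈ range J, ((((range X).filter
        (fun k => (2 * (j + 1) + 1) ^ 2 ∣ α * k + β)).card : ℕ) : ℝ) := by push_cast; rfl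
    _ ≤ ∑ j ∈ range J, ((X : ℝ) * (1 / (2 * ((j : ℝ) + 1) + 1) ^ 2) + 1) := by
        refine sum_le_sum fun j _ => ?_
        have h3 := card_one α β ((2 * (j + 1) + 1) ^ 2) X (by positivity)
          ((hc (j + 1)).pow_right 2)
        have h4 : (((X / (2 * (j + 1) + 1) ^ 2 : ℕ)) : ℝ) ≤
            (X : ℝ) / (((2 * (j + 1) + 1) ^ 2 : ℕ) : ℝ) := Nat.cast_div_le
        have h5 : ((((range X).filter
          (fun k => (2 * (j + 1) + 1) ^ 2 ∣ α * k + β)).card : ℕ) : ℝ) ≤
            (((X / (2 * (j + 1) + 1) ^ 2 : ℕ)) : ℝ) + 1 := by exact_mod_cast h3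
        refine h5.trans ?_
        push_cast at h4
        rw [mul_one_div]
        linarith
    _ = X * ∑ j ∈ range J, (1 : ℝ) / (2 * ((j : ℝ) + 1) + 1) ^ 2 + J := by
        rw [sum_add_distrib, ← mul_sum]
        simp
    _ ≤ X * (1 / 4) + J := by
        have h6 := sum_odd J
        have h7 : (0 : ℝ) ≤ 1 / (4 * ((J : ℝ) + 1)) := by positivity
        have h8 : ∑ j ∈ range J, (1 : ℝ) / (2 * ((j : ℝ) + 1) + 1) ^ 2 ≤ 1 / 4 := by linarith
        gcongr
    _ = _ := by ring

/-- three linear forms without odd square factors -/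
theorem sieve3 (α β : Fin 3 → ℕ) (hc : ∀ i j, Nat.Coprime (α i) (2 * j + 1))
    (hβ : ∀ i, 0 < β i) (M : ℕ) :
    ∃ k, M ≤ k ∧ ∀ i, ∀ d, 3 ≤ d → Odd d → ¬ d ^ 2 ∣ α i * k + β i := by
  obtain ⟨c, hc1, hc2⟩ : ∃ c : ℕ, (∀ i, α i ≤ c) ∧ (∀ i, β i ≤ c) :=
    ⟨∑ i, (α i + β i), fun i => (Nat.le_add_right _ _).trans
      (single_le_sum (f := fun i => α i + β i) (fun _ _ => Nat.zero_le _) (mem_univ i)),
      fun i => (Nat.le_add_left _ _).trans
      (single_le_sum (f := fun i => α i + β i) (fun _ _ => Nat.zero_le _) (mem_univ i))⟩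
  set n := 15 * c + M + 1 with hn
  set X := 4 * n ^ 2 with hX
  set J := 5 * c * n with hJ
  by_contra hcon
  push Not at hcon
  have hsub : range X ⊆ range M ∪ (univ : Finset (Fin 3)).biUnion fun i =>
      (range X).filter (fun k => ∃ j < J, (2 * (j + 1) + 1) ^ 2 ∣ α i * k + β i) := by
    intro k hk
    by_cases hkM : k < M
    · exact mem_union_left _ (mem_range.mpr hkM)
    · push Not at hkM
      obtain ⟨i, d, hd3, hodd, hdv⟩ := hcon k hkM
      refine mem_union_right _ (mem_biUnion.mpr ⟨i, mem_univ _, mem_filter.mpr ⟨hk, ?_⟩⟩)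
      obtain ⟨m, hm⟩ := hodd
      obtain ⟨j, rfl⟩ : ∃ j, m = j + 1 := ⟨m - 1, by omega⟩
      rw [hm] at hdv
      refine ⟨j, ?_, hdv⟩
      have h1 : (2 * (j + 1) + 1) ^ 2 ≤ α i * k + β i :=
        Nat.le_of_dvd (by have := hβ i; omega) hdv
      have h2 : α i * k + β i ≤ c * k + c := by
        have := hc1 i
        have := hc2 i
        gcongr
      have hkX := mem_range.mp hk
      have h3 : c * k + c ≤ c * X := by
        have : k + 1 ≤ X := hkX
        calc c * k + c = c * (k + 1) := by ring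
          _ ≤ c * X := by gcongr
      by_contra hj
      push Not at hj
      have h4 : (5 * c * n) ^ 2 ≤ j ^ 2 := Nat.pow_le_pow_left hj 2
      have h5 : j ^ 2 < (2 * (j + 1) + 1) ^ 2 := by nlinarith
      have h6 : c * X ≤ (5 * c * n) ^ 2 := by
        rw [hX]
        have h7 : c ≤ c ^ 2 := by
          rcases Nat.eq_zero_or_pos c with h | h
          · rw [h]; norm_num
          · nlinarith
        calc c * (4 * n ^ 2) ≤ c ^ 2 * (25 * n ^ 2) := by gcongr; norm_num
          _ = _ := by ring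
      omega
  have h1 := card_le_card hsub
  have h2 := h1.trans ((card_union_le _ _).trans (Nat.add_le_add_left card_biUnion_le _))
  rw [card_range, card_range] at h2
  have h3 : (X : ℝ) ≤ M + ∑ i : Fin 3, ((((range X).filter
      (fun k => ∃ j < J, (2 * (j + 1) + 1) ^ 2 ∣ α i * k + β i)).card : ℕ) : ℝ) := by
    exact_mod_cast h2
  have h4 : ∑ i : Fin 3, ((((range X).filter
      (fun k => ∃ j < J, (2 * (j + 1) + 1) ^ 2 ∣ α i * k + β i)).card : ℕ) : ℝ) ≤
      ∑ _i : Fin 3, ((X : ℝ) / 4 + J) := sum_le_sum fun i _ => card_bad _ _ _ _ (hc i)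
  simp only [sum_const, card_univ, Fintype.card_fin, nsmul_eq_mul] at h4
  have h5 : (X : ℝ) / 4 ≤ M + 3 * J := by
    push_cast at h4
    linarith
  rw [hX, hJ] at h5
  have h6 : ((n : ℝ)) ^ 2 ≤ M + 15 * c * n := by
    push_cast at h5
    linarith
  have h7 : (n : ℝ) = 15 * c + M + 1 := by rw [hn]; push_cast; ring
  have h8 : (0 : ℝ) ≤ M := Nat.cast_nonneg _
  have h9 : (0 : ℝ) ≤ c := Nat.cast_nonneg _
  nlinarith [mul_nonneg h8 h9, mul_nonneg h8 h8]

end Pool.Agent.Q272.LP
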