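import Pool.Agent.Q272.LP.Cond
import Pool.Agent.Q272.LP.Sieve

/-!
# Examples: the curve of an abc-triple, and curves with a nearly squarefree discriminant
-/

set_option autoImplicit false

namespace Pool.Agent.Q272.LP

open Finset

/-- all 2-torsion points are rational -/
def FullTwoTorsion (a b : ℤ) : Prop :=
  ∃ r₁ r₂ r₃ : ℚ, ∀ x : ℚ, x ^ 3 - a * x - b = (x - r₁) * (x - r₂) * (x - r₃)

/-- there is a rational point of order two -/
def TwoTorsion (a b : ℤ) : Prop := ∃ r : ℚ, r ^ 3 - a * r - b = 0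

theorem full_two {a b : ℤ} (h : FullTwoTorsion a b) : TwoTorsion a b := by
  obtain ⟨r, s, t, h⟩ := h
  exact ⟨r, by rw [h r]; ring⟩

theorem int_root (a b : ℤ) (r : ℚ) (h : r ^ 3 - a * r - b = 0) : ∃ z : ℤ, (z : ℚ) = r := by
  have hm : (Polynomial.X ^ 3 - Polynomial.C a * Polynomial.X - Polynomial.C b :
      Polynomial ℤ).Monic := by
    monicity!
  have := isInteger_of_is_root_of_monic hm (r := r) (by simpa using h)
  obtain ⟨z, hz⟩ := this
  exact ⟨z, by simpa using hz⟩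

theorem full_int {a b : ℤ} (h : FullTwoTorsion a b) : ∃ r s t : ℤ, r + s + t = 0 ∧
    r * s + r * t + s * t = -a ∧ r * s * t = b := by
  obtain ⟨r₁, r₂, r₃, hr⟩ := h
  have h0 := hr 0
  have h1 := hr 1
  have h2 := hr (-1)
  have c0 : (b : ℚ) = r₁ * r₂ * r₃ := by linear_combination -h0
  have c2 : r₁ + r₂ + r₃ = 0 := by linear_combination (-1 / 2 : ℚ) * (-(h1 + h2)) - h0
  have c1 : -(a : ℚ) = r₁ * r₂ + r₁ * r₃ + r₂ * r₃ := by
    linear_combination (h1 - h2) / 2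
  obtain ⟨r, hr1⟩ := int_root a b r₁ (by rw [hr r₁]; ring)
  obtain ⟨s, hs1⟩ := int_root a b r₂ (by rw [hr r₂]; ring)
  obtain ⟨t, ht1⟩ := int_root a b r₃ (by rw [hr r₃]; ring)
  refine ⟨r, s, t, ?_, ?_, ?_⟩
  · have : ((r + s + t : ℤ) : ℚ) = ((0 : ℤ) : ℚ) := by
      push_cast; rw [hr1, hs1, ht1, c2]
    exact_mod_cast this
  · have : ((r * s + r * t + s * t : ℤ) : ℚ) = ((-a : ℤ) : ℚ) := by
      push_cast; rw [hr1, hs1, ht1, c1]
    exact_mod_cast this
  · have : ((r * s * t : ℤ) : ℚ) = ((b : ℤ) : ℚ) := by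
      push_cast; rw [hr1, hs1, ht1, c0]
    exact_mod_cast this

/-- the curve of the triple `(A, B, A + B)` -/
def ta (A B : ℤ) : ℤ := 3 * (A ^ 2 + A * B + B ^ 2)

/-- the curve of the triple `(A, B, A + B)` -/
def tb (A B : ℤ) : ℤ := (B - A) * (2 * A + B) * (-A - 2 * B)

theorem tri_disc (A B : ℤ) : Disc (ta A B) (tb A B) = 729 * (A * B * (A + B)) ^ 2 := by
  unfold Disc ta tb; ring

theorem tri_full (A B : ℤ) : FullTwoTorsion (ta A B) (tb A B) := by
  refine ⟨(B - A : ℤ), (2 * A + B : ℤ), (-A - 2 * B : ℤ), fun x => ?_⟩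
  unfold ta tb
  push_cast
  ring

/-- a prime divides at most one of `A² + A B + B²` and `A B (A + B)` -/
theorem tri_cop {A B : ℤ} (h : IsCoprime A B) {p : ℕ} (hp : p.Prime)
    (h1 : (p : ℤ) ∣ A ^ 2 + A * B + B ^ 2) (h2 : (p : ℤ) ∣ A * B * (A + B)) : False := by
  have hpp := Nat.prime_iff_prime_int.mp hp
  have hno : ¬ ((p : ℤ) ∣ A ∧ (p : ℤ) ∣ B) := by
    rintro ⟨h3, h4⟩
    have := h.isUnit_of_dvd' h3 h4
    exact hpp.not_isUnit this
  rcases hpp.dvd_or_dvd h2 with h3 | h3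
  · rcases hpp.dvd_or_dvd h3 with h4 | h4
    · apply hno
      refine ⟨h4, hpp.dvd_of_dvd_pow (n := 2) ?_⟩
      have : B ^ 2 = (A ^ 2 + A * B + B ^ 2) - A * (A + B) := by ring
      rw [this]
      exact dvd_sub h1 (Dvd.dvd.mul_right h4 _)
    · apply hno
      refine ⟨hpp.dvd_of_dvd_pow (n := 2) ?_, h4⟩
      have : A ^ 2 = (A ^ 2 + A * B + B ^ 2) - B * (A + B) := by ring
      rw [this]
      exact dvd_sub h1 (Dvd.dvd.mul_right h4 _)
  · have h5 : (p : ℤ) ∣ A ^ 2 := by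
      have : A ^ 2 = (A ^ 2 + A * B + B ^ 2) - B * (A + B) := by ring
      rw [this]
      exact dvd_sub h1 (Dvd.dvd.mul_left h3 _)
    have h6 : (p : ℤ) ∣ A := hpp.dvd_of_dvd_pow h5
    apply hno
    refine ⟨h6, ?_⟩
    have : B = (A + B) - A := by ring
    rw [this]
    exact dvd_sub h3 h6

theorem tri_min {A B : ℤ} (h : IsCoprime A B) (h0 : A * B * (A + B) ≠ 0) :
    IsMinimal (ta A B) (tb A B) := by
  rw [isMinimal_iff, tri_disc]
  refine ⟨mul_ne_zero (by norm_num) (pow_ne_zero _ h0), fun p hp => ?_⟩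
  rintro ⟨h4, h6⟩
  have hpp := Nat.prime_iff_prime_int.mp hp
  by_cases h3 : p = 3
  · rw [h3] at h4
    unfold ta at h4
    have h5 : (9 : ℤ) ∣ A ^ 2 + A * B + B ^ 2 := by
      obtain ⟨c, hc⟩ := h4
      have : A ^ 2 + A * B + B ^ 2 = 27 * c := by
        have : (((3 : ℕ) : ℤ)) ^ 4 = 81 := by norm_num
        rw [this] at hc
        linarith
      rw [this]
      exact ⟨3 * c, by ring⟩
    have h7 : (3 : ℤ) ∣ (A - B) ^ 2 := by
      have e : (A - B) ^ 2 = (A ^ 2 + A * B + B ^ 2) - 3 * (A * B) := by ring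
      rw [e]
      exact dvd_sub ((by norm_num : (3 : ℤ) ∣ 9).trans h5) (Dvd.intro _ rfl)
    have h8 : (3 : ℤ) ∣ A - B := Int.prime_three.dvd_of_dvd_pow h7
    have h9 : (9 : ℤ) ∣ 3 * (A * B) := by
      have e : 3 * (A * B) = (A ^ 2 + A * B + B ^ 2) - (A - B) ^ 2 := by ring
      rw [e]
      refine dvd_sub h5 ?_
      have := pow_dvd_pow_of_dvd h8 2
      norm_num at this
      exact this
    have h10 : (3 : ℤ) ∣ A * B := by
      obtain ⟨c, hc⟩ := h9
      exact ⟨c, by linarith⟩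
    have hno : ¬ ((3 : ℤ) ∣ A ∧ (3 : ℤ) ∣ B) := by
      rintro ⟨h3, h4⟩
      have := h.isUnit_of_dvd' h3 h4
      exact Int.prime_three.not_isUnit this
    rcases Int.prime_three.dvd_or_dvd h10 with h11 | h11
    · exact hno ⟨h11, by
        have : B = A - (A - B) := by ring
        rw [this]; exact dvd_sub h11 h8⟩
    · exact hno ⟨by
        have : A = (A - B) + B := by ring
        rw [this]; exact dvd_add h8 h11, h11⟩
  · have hne3 : ¬ (p : ℤ) ∣ 3 := by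
      intro hc
      have hc' : p ∣ 3 := by exact_mod_cast hc
      exact h3 ((Nat.prime_dvd_prime_iff_eq hp Nat.prime_three).mp hc')
    have h5 : (p : ℤ) ∣ A ^ 2 + A * B + B ^ 2 := by
      have h7 : (p : ℤ) ∣ 3 * (A ^ 2 + A * B + B ^ 2) :=
        (dvd_pow_self _ (by norm_num)).trans h4
      exact (hpp.dvd_or_dvd h7).resolve_left hne3
    have h8 : (p : ℤ) ∣ 729 * (A * B * (A + B)) ^ 2 := by
      rw [← tri_disc]
      unfold Disc
      refine dvd_sub (Dvd.dvd.mul_left ?_ _) (Dvd.dvd.mul_left ?_ _)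
      · exact dvd_pow ((dvd_pow_self _ (by norm_num)).trans h4) (by norm_num)
      · exact dvd_pow ((dvd_pow_self _ (by norm_num)).trans h6) (by norm_num)
    rcases hpp.dvd_or_dvd h8 with h9 | h9
    · apply hne3
      have : (729 : ℤ) = 3 ^ 6 := by norm_num
      rw [this] at h9
      exact hpp.dvd_of_dvd_pow h9
    · exact tri_cop h hp h5 (hpp.dvd_of_dvd_pow h9)

/-- the conductor of the curve of a triple -/
theorem tri_cond {A B : ℕ} (h : Nat.Coprime A B) (hA : 0 < A) (hB : 0 < B) :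
    Cond6 (ta A B) (tb A B) ≤ ∏ p ∈ (A * B * (A + B)).primeFactors, p ∧
      ∀ q : ℕ, q.Prime → 5 ≤ q → q ∣ A → q ≤ Cond6 (ta A B) (tb A B) := by
  have hcop : IsCoprime (A : ℤ) (B : ℤ) := Nat.isCoprime_iff_coprime.mpr h
  have h0 : A * B * (A + B) ≠ 0 := by positivity
  have h0' : (A : ℤ) * B * (A + B) ≠ 0 := by exact_mod_cast h0
  have hD : Disc (ta A B) (tb A B) ≠ 0 := (tri_min hcop h0').1
  have hmem : ∀ p ∈ (Disc (ta A B) (tb A B)).natAbs.primeFactors.filter (fun p => 5 ≤ p),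
      p.Prime ∧ p ∣ A * B * (A + B) ∧ ¬ (p : ℤ) ∣ ta A B := by
    intro p hp
    obtain ⟨h1, h2⟩ := mem_filter.mp hp
    have hp' := Nat.prime_of_mem_primeFactors h1
    have hpp := Nat.prime_iff_prime_int.mp hp'
    have h3 : (p : ℤ) ∣ 729 * ((A : ℤ) * B * (A + B)) ^ 2 := by
      rw [← tri_disc]
      exact Int.natCast_dvd.mpr (Nat.dvd_of_mem_primeFactors h1)
    have hne3 : ¬ (p : ℤ) ∣ 3 := by
      intro hc
      have hc' : p ∣ 3 := by exact_mod_cast hc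
      have := Nat.le_of_dvd (by norm_num) hc'
      omega
    have h4 : (p : ℤ) ∣ (A : ℤ) * B * (A + B) := by
      rcases hpp.dvd_or_dvd h3 with h9 | h9
      · exfalso
        apply hne3
        have : (729 : ℤ) = 3 ^ 6 := by norm_num
        rw [this] at h9
        exact hpp.dvd_of_dvd_pow h9
      · exact hpp.dvd_of_dvd_pow h9
    refine ⟨hp', by exact_mod_cast h4, fun hc => ?_⟩
    unfold ta at hc
    exact tri_cop hcop hp' ((hpp.dvd_or_dvd hc).resolve_left hne3) h4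
  constructor
  · have e : Cond6 (ta A B) (tb A B) =
        ∏ p ∈ (Disc (ta A B) (tb A B)).natAbs.primeFactors.filter (fun p => 5 ≤ p), p := by
      unfold Cond6
      refine prod_congr rfl fun p hp => ?_
      rw [if_neg (hmem p hp).2.2]
    rw [e]
    refine prod_le_prod_of_subset_of_one_le' ?_ ?_
    · intro p hp
      exact Nat.mem_primeFactors.mpr ⟨(hmem p hp).1, (hmem p hp).2.1, h0⟩
    · intro p hp _
      exact (Nat.prime_of_mem_primeFactors hp).one_lt.le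
  · intro q hq h5 hqA
    have hqD : (q : ℤ) ∣ Disc (ta A B) (tb A B) := by
      rw [tri_disc]
      refine Dvd.dvd.mul_left (dvd_pow ?_ (by norm_num)) _
      exact ((Int.natCast_dvd_natCast.mpr hqA).mul_right _).mul_right _
    have h1 : q ∈ (Disc (ta A B) (tb A B)).natAbs.primeFactors.filter (fun p => 5 ≤ p) :=
      mem_filter.mpr ⟨Nat.mem_primeFactors.mpr ⟨hq, Int.natCast_dvd.mp hqD,
        Int.natAbs_ne_zero.mpr hD⟩, h5⟩
    have h2 : q ∣ Cond6 (ta A B) (tb A B) := by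
      unfold Cond6
      refine dvd_trans ?_ (dvd_prod_of_mem _ h1)
      rw [if_neg (hmem q h1).2.2]
    exact Nat.le_of_dvd (cond6_pos _ _) h2

theorem sqf_of (f : ℕ) (hodd : Odd f) (h : ∀ d, 3 ≤ d → Odd d → ¬ d ^ 2 ∣ f) : Squarefree f := by
  rw [Nat.squarefree_iff_prime_squarefree]
  intro p hp hpf
  have hpodd : Odd p := by
    rcases hp.eq_two_or_odd' with h2 | h2
    · exfalso
      rw [h2] at hpf
      obtain ⟨m, hm⟩ := hodd
      obtain ⟨c, hc⟩ := hpf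
      omega
    · exact h2
  have h3 : 3 ≤ p := by
    have := hp.two_le
    obtain ⟨m, hm⟩ := hpodd
    omega
  exact h p h3 hpodd (by rw [sq]; exact hpf)

/-- curves with full 2-torsion and a nearly smallest discriminant -/
theorem ex_full (M : ℕ) : ∃ n : ℕ, M ≤ n ∧ 0 < n ∧ Squarefree (n * (n + 1) * (n + (n + 1))) := by
  obtain ⟨k, hk, h⟩ := sieve3 ![4, 2, 8] ![1, 1, 3] (by
    intro i j
    have hodd : Odd (2 * j + 1) := ⟨j, rfl⟩
    fin_cases i
    · exact (Nat.Coprime.pow_left 2 (Nat.coprime_two_left.mpr hodd) : Nat.Coprime (2 ^ 2) _)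
    · exact Nat.coprime_two_left.mpr hodd
    · exact (Nat.Coprime.pow_left 3 (Nat.coprime_two_left.mpr hodd) : Nat.Coprime (2 ^ 3) _)) (by
    intro i
    fin_cases i <;> norm_num) M
  refine ⟨4 * k + 1, by omega, by omega, ?_⟩
  have h0 : Squarefree (4 * k + 1) := sqf_of _ ⟨2 * k, by ring⟩ (fun d h3 hd => by
    simpa using h 0 d h3 hd)
  have h1 : Squarefree (2 * k + 1) := sqf_of _ ⟨k, by ring⟩ (fun d h3 hd => by
    simpa using h 1 d h3 hd)
  have h2 : Squarefree (8 * k + 3) := sqf_of _ ⟨4 * k + 1, by ring⟩ (fun d h3 hd => by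
    simpa using h 2 d h3 hd)
  have e1 : 4 * k + 1 + 1 = 2 * (2 * k + 1) := by ring
  have e2 : 4 * k + 1 + (4 * k + 1 + 1) = 8 * k + 3 := by ring
  rw [e2, e1]
  have g1 : Squarefree (2 * (2 * k + 1)) := by
    rw [Nat.squarefree_mul (Nat.coprime_two_left.mpr ⟨k, rfl⟩)]
    exact ⟨Nat.prime_two.squarefree, h1⟩
  have c1 : Nat.Coprime (4 * k + 1) (2 * (2 * k + 1)) := by
    rw [show 2 * (2 * k + 1) = 4 * k + 1 + 1 by ring]
    simp
  have g2 : Squarefree ((4 * k + 1) * (2 * (2 * k + 1))) := by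
    rw [Nat.squarefree_mul c1]
    exact ⟨h0, g1⟩
  have c2 : Nat.Coprime ((4 * k + 1) * (2 * (2 * k + 1))) (8 * k + 3) := by
    refine Nat.Coprime.mul_left ?_ ?_
    · rw [show 8 * k + 3 = (4 * k + 1) * 2 + 1 by ring]
      simp
    · rw [show 8 * k + 3 = 2 * (2 * k + 1) + (4 * k + 1) by ring, Nat.coprime_self_add_right]
      exact c1.symm
  rw [Nat.squarefree_mul c2]
  exact ⟨g2, h2⟩

/-- values `n (n + 4)` -/
theorem ex_two (M : ℕ) : ∃ k : ℕ, M ≤ k ∧ Squarefree ((4 * k + 1) * (4 * k + 5)) := by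
  obtain ⟨k, hk, h⟩ := sieve3 ![4, 4, 4] ![1, 5, 1] (by
    intro i j
    have hodd : Odd (2 * j + 1) := ⟨j, rfl⟩
    have h4 : Nat.Coprime 4 (2 * j + 1) :=
      (Nat.Coprime.pow_left 2 (Nat.coprime_two_left.mpr hodd) : Nat.Coprime (2 ^ 2) _)
    fin_cases i <;> exact h4) (by
    intro i
    fin_cases i <;> norm_num) M
  refine ⟨k, hk, ?_⟩
  have h0 : Squarefree (4 * k + 1) := sqf_of _ ⟨2 * k, by ring⟩ (fun d h3 hd => by
    simpa using h 0 d h3 hd)
  have h1 : Squarefree (4 * k + 5) := sqf_of _ ⟨2 * k + 2, by ring⟩ (fun d h3 hd => by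
    simpa using h 1 d h3 hd)
  have c1 : Nat.Coprime (4 * k + 1) (4 * k + 5) := by
    rw [show 4 * k + 5 = (4 * k + 1) + 4 by ring, Nat.coprime_self_add_right]
    have hodd : Odd (4 * k + 1) := ⟨2 * k, by ring⟩
    exact (Nat.Coprime.pow_right 2 (Nat.coprime_two_right.mpr hodd) :
      Nat.Coprime _ (2 ^ 2))
  rw [Nat.squarefree_mul c1]
  exact ⟨h0, h1⟩

/-- the curve `y² = x (x² + s x + 1)` -/
theorem two_disc (s : ℤ) : Disc (3 * (s ^ 2 - 3)) (9 * s - 2 * s ^ 3) = 729 * (s ^ 2 - 4) := by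
  unfold Disc; ring

theorem two_min {s : ℤ} (hs : s ^ 2 ≠ 4) : IsMinimal (3 * (s ^ 2 - 3)) (9 * s - 2 * s ^ 3) := by
  rw [isMinimal_iff, two_disc]
  refine ⟨mul_ne_zero (by norm_num) (sub_ne_zero.mpr hs), fun p hp => ?_⟩
  rintro ⟨h4, h6⟩
  have hpp := Nat.prime_iff_prime_int.mp hp
  by_cases h3 : p = 3
  · rw [h3] at h4
    have h5 : (9 : ℤ) ∣ s ^ 2 - 3 := by
      obtain ⟨c, hc⟩ := h4
      have : s ^ 2 - 3 = 27 * c := by
        have : (((3 : ℕ) : ℤ)) ^ 4 = 81 := by norm_num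
        rw [this] at hc
        linarith
      rw [this]
      exact ⟨3 * c, by ring⟩
    have h7 : (3 : ℤ) ∣ s ^ 2 := by
      have e : s ^ 2 = (s ^ 2 - 3) + 3 := by ring
      rw [e]
      exact dvd_add ((by norm_num : (3 : ℤ) ∣ 9).trans h5) dvd_rfl
    have h8 : (3 : ℤ) ∣ s := Int.prime_three.dvd_of_dvd_pow h7
    have h9 : (9 : ℤ) ∣ s ^ 2 := by
      have := pow_dvd_pow_of_dvd h8 2
      norm_num at this
      exact this
    have h10 : (9 : ℤ) ∣ 3 := by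
      have e : (3 : ℤ) = s ^ 2 - (s ^ 2 - 3) := by ring
      rw [e]
      exact dvd_sub h9 h5
    norm_num at h10
  · have hne3 : ¬ (p : ℤ) ∣ 3 := by
      intro hc
      have hc' : p ∣ 3 := by exact_mod_cast hc
      exact h3 ((Nat.prime_dvd_prime_iff_eq hp Nat.prime_three).mp hc')
    have h5 : (p : ℤ) ∣ s ^ 2 - 3 := by
      have h7 : (p : ℤ) ∣ 3 * (s ^ 2 - 3) := (dvd_pow_self _ (by norm_num)).trans h4
      exact (hpp.dvd_or_dvd h7).resolve_left hne3
    have h8 : (p : ℤ) ∣ 729 * (s ^ 2 - 4) := by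
      rw [← two_disc]
      unfold Disc
      refine dvd_sub (Dvd.dvd.mul_left ?_ _) (Dvd.dvd.mul_left ?_ _)
      · exact dvd_pow ((dvd_pow_self _ (by norm_num)).trans h4) (by norm_num)
      · exact dvd_pow ((dvd_pow_self _ (by norm_num)).trans h6) (by norm_num)
    rcases hpp.dvd_or_dvd h8 with h9 | h9
    · apply hne3
      have : (729 : ℤ) = 3 ^ 6 := by norm_num
      rw [this] at h9
      exact hpp.dvd_of_dvd_pow h9
    · apply hpp.not_isUnit
      refine isUnit_of_dvd_one ?_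
      have e : (1 : ℤ) = (s ^ 2 - 3) - (s ^ 2 - 4) := by ring
      rw [e]
      exact dvd_sub h5 h9

theorem two_tors (s : ℤ) : TwoTorsion (3 * (s ^ 2 - 3)) (9 * s - 2 * s ^ 3) :=
  ⟨s, by push_cast; ring⟩

/-- `y² = x³ - p ^ k` -/
theorem zero_min {p k : ℕ} (hp : p.Prime) (hk : k ≤ 5) : IsMinimal 0 ((p : ℤ) ^ k) := by
  have hp0 : (p : ℤ) ≠ 0 := by exact_mod_cast hp.ne_zero
  rw [isMinimal_iff]
  refine ⟨?_, fun q hq => ?_⟩
  · unfold Disc
    have : (p : ℤ) ^ k ≠ 0 := pow_ne_zero _ hp0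
    simp [this]
  · rintro ⟨-, h⟩
    have hqp : q = p := by
      have h1 : (q : ℤ) ∣ (p : ℤ) ^ k := (dvd_pow_self _ (by norm_num)).trans h
      have h2 : (q : ℤ) ∣ (p : ℤ) := (Nat.prime_iff_prime_int.mp hq).dvd_of_dvd_pow h1
      have h3 : q ∣ p := by exact_mod_cast h2
      exact (Nat.prime_dvd_prime_iff_eq hq hp).mp h3
    rw [hqp] at h
    have h4 : p ^ 6 ∣ p ^ k := by exact_mod_cast h
    have := (Nat.pow_dvd_pow_iff_le_right hp.one_lt).mp h4
    omega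

/-- `y² = x³ - p ^ k x` -/
theorem zero_min' {p k : ℕ} (hp : p.Prime) (hk : k ≤ 3) : IsMinimal ((p : ℤ) ^ k) 0 := by
  have hp0 : (p : ℤ) ≠ 0 := by exact_mod_cast hp.ne_zero
  rw [isMinimal_iff]
  refine ⟨?_, fun q hq => ?_⟩
  · unfold Disc
    have : (p : ℤ) ^ k ≠ 0 := pow_ne_zero _ hp0
    simp [this]
  · rintro ⟨h, -⟩
    have hqp : q = p := by
      have h1 : (q : ℤ) ∣ (p : ℤ) ^ k := (dvd_pow_self _ (by norm_num)).trans h
      have h2 : (q : ℤ) ∣ (p : ℤ) := (Nat.prime_iff_prime_int.mp hq).dvd_of_dvd_pow h1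
      have h3 : q ∣ p := by exact_mod_cast h2
      exact (Nat.prime_dvd_prime_iff_eq hq hp).mp h3
    rw [hqp] at h
    have h4 : p ^ 4 ∣ p ^ k := by exact_mod_cast h
    have := (Nat.pow_dvd_pow_iff_le_right hp.one_lt).mp h4
    omega

theorem cond_prime {a b : ℤ} {p : ℕ} (hp : p.Prime) (h5 : 5 ≤ p) (hD : Disc a b ≠ 0)
    (hpD : (p : ℤ) ∣ Disc a b) (ha : (p : ℤ) ∣ a)
    (honly : ∀ q : ℕ, q.Prime → 5 ≤ q → (q : ℤ) ∣ Disc a b → q = p) : Cond6 a b = p ^ 2 := by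
  have e : (Disc a b).natAbs.primeFactors.filter (fun p => 5 ≤ p) = {p} := by
    ext q
    rw [mem_filter, Nat.mem_primeFactors, mem_singleton]
    constructor
    · rintro ⟨⟨h1, h2, -⟩, h3⟩
      exact honly q h1 h3 (Int.natCast_dvd.mpr h2)
    · rintro rfl
      exact ⟨⟨hp, Int.natCast_dvd.mp hpD, Int.natAbs_ne_zero.mpr hD⟩, h5⟩
  unfold Cond6
  rw [e, prod_singleton, if_pos ha]

theorem zero_cond {p k : ℕ} (hp : p.Prime) (h5 : 5 ≤ p) (hk : 1 ≤ k) :
    Cond6 0 ((p : ℤ) ^ k) = p ^ 2 := by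
  have hp0 : (p : ℤ) ≠ 0 := by exact_mod_cast hp.ne_zero
  have e : Disc 0 ((p : ℤ) ^ k) = -27 * ((p : ℤ) ^ k) ^ 2 := by unfold Disc; ring
  refine cond_prime hp h5 ?_ ?_ (dvd_zero _) ?_
  · rw [e]
    exact mul_ne_zero (by norm_num) (pow_ne_zero _ (pow_ne_zero _ hp0))
  · rw [e]
    exact Dvd.dvd.mul_left (dvd_pow (dvd_pow_self _ (by omega)) (by norm_num)) _
  · intro q hq hq5 hqD
    rw [e] at hqD
    have hqq := Nat.prime_iff_prime_int.mp hq
    rcases hqq.dvd_or_dvd hqD with h1 | h1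
    · exfalso
      have h2 : (q : ℤ) ∣ 3 ^ 3 := by
        have : (3 : ℤ) ^ 3 = -(-27) := by norm_num
        rw [this]
        exact (dvd_neg).mpr h1
      have h3 : (q : ℤ) ∣ 3 := hqq.dvd_of_dvd_pow h2
      have h4 : q ∣ 3 := by exact_mod_cast h3
      have := Nat.le_of_dvd (by norm_num) h4
      omega
    · have h2 : (q : ℤ) ∣ (p : ℤ) := hqq.dvd_of_dvd_pow (hqq.dvd_of_dvd_pow h1)
      have h3 : q ∣ p := by exact_mod_cast h2
      exact (Nat.prime_dvd_prime_iff_eq hq hp).mp h3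

theorem zero_cond' {p k : ℕ} (hp : p.Prime) (h5 : 5 ≤ p) (hk : 1 ≤ k) :
    Cond6 ((p : ℤ) ^ k) 0 = p ^ 2 := by
  have hp0 : (p : ℤ) ≠ 0 := by exact_mod_cast hp.ne_zero
  have e : Disc ((p : ℤ) ^ k) 0 = 4 * ((p : ℤ) ^ k) ^ 3 := by unfold Disc; ring
  refine cond_prime hp h5 ?_ ?_ (dvd_pow_self _ (by omega)) ?_
  · rw [e]
    exact mul_ne_zero (by norm_num) (pow_ne_zero _ (pow_ne_zero _ hp0))
  · rw [e]
    exact Dvd.dvd.mul_left (dvd_pow (dvd_pow_self _ (by omega)) (by norm_num)) _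
  · intro q hq hq5 hqD
    rw [e] at hqD
    have hqq := Nat.prime_iff_prime_int.mp hq
    rcases hqq.dvd_or_dvd hqD with h1 | h1
    · exfalso
      have h2 : (q : ℤ) ∣ 2 ^ 2 := by
        have : (2 : ℤ) ^ 2 = 4 := by norm_num
        rw [this]
        exact h1
      have h3 : (q : ℤ) ∣ 2 := hqq.dvd_of_dvd_pow h2
      have h4 : q ∣ 2 := by exact_mod_cast h3
      have := Nat.le_of_dvd (by norm_num) h4
      omega
    · have h2 : (q : ℤ) ∣ (p : ℤ) := hqq.dvd_of_dvd_pow (hqq.dvd_of_dvd_pow h1)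
      have h3 : q ∣ p := by exact_mod_cast h2
      exact (Nat.prime_dvd_prime_iff_eq hq hp).mp h3

end Pool.Agent.Q272.LP
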