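import Pool.Agent.Q272.LP.E

/-! # The construction of the points: deterministic part -/

set_option autoImplicit false

open NumberField Height Function

namespace Pool.Agent.Q272.LP

open Q241.AK Q265.NF Q265.BM

variable {K : Type*} [Field K] [NumberField K]

omit [NumberField K] in
lemma wadd (w : InfinitePlace K) (x y : K) : w (x + y) ≤ w x + w y := w.val.add_le x y

omit [NumberField K] in
lemma wneg (w : InfinitePlace K) (x : K) : w (-x) = w x := w.val.map_neg x

omit [NumberField K] in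
lemma wadd_ge (w : InfinitePlace K) (x y : K) : w x - w y ≤ w (x + y) := by
  have := wadd w (x + y) (-y)
  rw [wneg, add_neg_cancel_right] at this
  linarith

theorem core {W : ℝ} (hW0 : 1 ≤ W)
    (hW : ∀ (w : InfinitePlace K) (n : Ix K → ℤ) (s : ℝ), (∀ i, |(n i : ℝ)| ≤ s) →
      w (el n : K) ≤ W * s)
    {r : ℕ} (hr : 0 < r) (q : Fin r → ℕ) (hq : ∀ j, (q j).Prime) (hinj : Injective q)
    (k : Fin r → ℕ) (α : Fin r → 𝓞 K) (b : 𝓞 K) (hb : b ≠ 0)
    (E S : Finset (FinitePlace K)) (hSE : S ⊆ E) (hEb : ∀ v ∉ E, v (b : K) = 1)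
    (hEq : ∀ j, ∀ v ∉ E, v (q j : K) = 1)
    (T L Z Y M l : ℕ) (κ : ℝ) (hT : 1 ≤ T) (hL : 1 ≤ L) (hY : 1 ≤ Y)
    (hET : ∀ v : FinitePlace K, Nn v ≤ T → v ∈ E) (hl : l.Prime)
    (hld : ¬ (l : ℤ) ∣ discr K) (hlL : L ≤ l) (hlE : ∀ v ∈ E, Nn v < l)
    (Qd : ℕ) (hQd : Qd = ∏ j, q j ^ k j) (hM : 2 * W + 2 ≤ M)
    (hsα : ∀ (w : InfinitePlace K) (j : Fin r), w (α j : K) * l ≤ Qd * Y)
    (hsb : ∀ w : InfinitePlace K, w (b : K) * l ≤ Qd * Y)
    (hκ : 0 < κ) (hκ1 : κ ≤ 1) (hκα : ∀ v ∈ E, ∀ i j, i ≠ j → κ ≤ v ((α i : K) - α j))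
    (hκq : ∀ v ∈ E, ∀ i, v (q i : K) < 1 → v (q i : K) ^ k i < κ)
    (C1 : ℝ) (hC1 : C1 = M + 2 * W + 1)
    (hZ : ∀ j, (C1 * ((Qd : ℝ) * Y / (q j : ℝ) ^ k j)) ^ Module.finrank ℚ K ≤ (Z : ℝ) ^ 2)
    (hnum : (r : ℝ) * ((4 * W) ^ Module.finrank ℚ K * ((Module.finrank ℚ K * (Z : ℝ) +
      Module.finrank ℚ K * ((Y : ℝ) ^ Module.finrank ℚ K / T)) +
      E.card * (1 + (Y : ℝ) ^ Module.finrank ℚ K * κ) +
      Module.finrank ℚ K * (1 + (Y : ℝ) ^ Module.finrank ℚ K / L))) <
      (Y : ℝ) ^ Module.finrank ℚ K) :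
    ∃ x : K, (∀ j, x ≠ α j / b) ∧
      (Module.finrank ℚ K * Real.log ((Qd : ℝ) * Y) - Real.log (nm (b : K)) ≤ logHeight₁ x ∧
        logHeight₁ x ≤ Module.finrank ℚ K * Real.log (C1 * ((Qd : ℝ) * Y))) ∧
      (∀ j, Module.finrank ℚ K * Real.log ((Qd : ℝ) * Y / (q j : ℝ) ^ k j) -
          E.card * Real.log κ⁻¹ - Real.log (PP (E : Set (FinitePlace K))) ≤
          Real.log (PP (Ms S (α j / b) x)) ∧
        Real.log (PP (Ms S (α j / b) x)) ≤
          Module.finrank ℚ K * Real.log (C1 * ((Qd : ℝ) * Y / (q j : ℝ) ^ k j)) +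
          Real.log (PP (E : Set (FinitePlace K)))) ∧
      |Real.log (PP (Mi S x)) - Module.finrank ℚ K * Real.log l| ≤
        Real.log (PP (E : Set (FinitePlace K))) := by
  classical
  obtain ⟨d, hd⟩ : ∃ d, d = Module.finrank ℚ K := ⟨_, rfl⟩
  have hQd0 : 0 < Qd := by
    rw [hQd]
    exact Finset.prod_pos fun j _ => pow_pos (hq j).pos _
  have hQdr : (0 : ℝ) < Qd := by exact_mod_cast hQd0
  have hYr : (1 : ℝ) ≤ Y := by exact_mod_cast hY
  have hC1p : 1 ≤ C1 := by rw [hC1]; linarith [(Nat.cast_nonneg M : (0 : ℝ) ≤ M)]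
  -- the residue
  obtain ⟨u1, hu1, hu1w⟩ := crt hW0 hW q hq hinj k (fun j => α j * l)
  rw [← hQd] at hu1w
  choose e he using hu1
  -- the cofactor
  obtain ⟨Q', hQ'⟩ : ∃ Q' : Fin r → ℕ, Q' = fun j => ∏ i ∈ Finset.univ.erase j, q i ^ k i :=
    ⟨_, rfl⟩
  have hQQ : ∀ j, Qd = q j ^ k j * Q' j := by
    intro j
    rw [hQd, hQ']
    exact (Finset.mul_prod_erase Finset.univ (fun i => q i ^ k i) (Finset.mem_univ j)).symm
  obtain ⟨u, hu⟩ : ∃ u : (Ix K → ℤ) → 𝓞 K, u = fun n =>
      u1 + (Qd : 𝓞 K) * (((M * Y : ℕ) : 𝓞 K) + el n) := ⟨_, rfl⟩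
  obtain ⟨yO, hyO⟩ : ∃ yO : Fin r → (Ix K → ℤ) → 𝓞 K, yO = fun j n =>
      e j + (Q' j : 𝓞 K) * (((M * Y : ℕ) : 𝓞 K) + el n) := ⟨_, rfl⟩
  have hzy : ∀ j n, u n - α j * l = (q j : 𝓞 K) ^ k j * yO j n := by
    intro j n
    have h1 : (Qd : 𝓞 K) = (q j : 𝓞 K) ^ k j * (Q' j : 𝓞 K) := by
      rw [hQQ j]
      push_cast
      ring
    rw [hu, hyO]
    simp only
    rw [h1]
    linear_combination he j
  have hzyK : ∀ j n, (u n : K) - (α j : K) * l = (q j : K) ^ k j * (yO j n : K) := by
    intro j n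
    have := congrArg (fun t : 𝓞 K => (t : K)) (hzy j n)
    simpa using this
  -- sizes
  have hwel : ∀ (w : InfinitePlace K), ∀ n ∈ cube K Y, w (el n : K) ≤ W * Y := by
    intro w n hn
    refine hW w n Y fun i => ?_
    have h1 := mem_cube.1 hn i
    have h2 : |n i| ≤ (Y : ℤ) := by
      rw [abs_of_nonneg h1.1]
      exact h1.2.le
    exact_mod_cast h2
  have huK : ∀ n, (u n : K) = (Qd : K) * ((M * Y : ℕ) : K) + ((Qd : K) * (el n : K) + (u1 : K)) := by
    intro n
    rw [hu]
    push_cast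
    ring
  have hwu : ∀ (w : InfinitePlace K), ∀ n ∈ cube K Y,
      2 * ((Qd : ℝ) * Y) ≤ w (u n : K) ∧ w (u n : K) ≤ (M + 2 * W) * ((Qd : ℝ) * Y) := by
    intro w n hn
    have h1 := hwel w n hn
    have h2 := hu1w w
    have h3 : w ((Qd : K) * ((M * Y : ℕ) : K)) = Qd * (M * Y) := by
      rw [map_mul, w_nat, w_nat]
      push_cast
      ring
    have h4 : w ((Qd : K) * (el n : K)) ≤ Qd * (W * Y) := by
      rw [map_mul, w_nat]
      exact mul_le_mul_of_nonneg_left h1 hQdr.le
    have h5 := wadd w ((Qd : K) * (el n : K)) (u1 : K)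
    have h6 := wadd w ((Qd : K) * ((M * Y : ℕ) : K)) ((Qd : K) * (el n : K) + (u1 : K))
    have h7 := wadd_ge w ((Qd : K) * ((M * Y : ℕ) : K)) ((Qd : K) * (el n : K) + (u1 : K))
    rw [← huK n, h3] at h6 h7
    have h8 : W * (Qd : ℝ) ≤ W * (Qd * Y) := by
      refine mul_le_mul_of_nonneg_left ?_ (by linarith)
      exact le_mul_of_one_le_right hQdr.le hYr
    have h9 : (0 : ℝ) < Qd * Y := by positivity
    have h10 : (2 * W + 2) * ((Qd : ℝ) * Y) ≤ M * (Qd * Y) :=
      mul_le_mul_of_nonneg_right hM h9.le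
    constructor <;> nlinarith
  have hwz : ∀ (w : InfinitePlace K), ∀ j, ∀ n ∈ cube K Y,
      (Qd : ℝ) * Y ≤ w ((u n : K) - (α j : K) * l) ∧
        w ((u n : K) - (α j : K) * l) ≤ C1 * ((Qd : ℝ) * Y) := by
    intro w j n hn
    obtain ⟨h1, h2⟩ := hwu w n hn
    have h3 := hsα w j
    have h4 : w (-((α j : K) * l)) = w (α j : K) * l := by
      rw [wneg, map_mul, w_nat]
    have h5 := wadd w (u n : K) (-((α j : K) * l))
    have h6 := wadd_ge w (u n : K) (-((α j : K) * l))
    rw [h4, ← sub_eq_add_neg] at h5 h6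
    rw [hC1]
    constructor
    · linarith
    · nlinarith
  have hqr : ∀ j, (0 : ℝ) < (q j : ℝ) ^ k j := by
    intro j
    have : (0 : ℝ) < q j := by exact_mod_cast (hq j).pos
    positivity
  have hwy : ∀ (w : InfinitePlace K), ∀ j, ∀ n ∈ cube K Y,
      (Qd : ℝ) * Y / (q j : ℝ) ^ k j ≤ w (yO j n : K) ∧
        w (yO j n : K) ≤ C1 * ((Qd : ℝ) * Y / (q j : ℝ) ^ k j) := by
    intro w j n hn
    obtain ⟨h1, h2⟩ := hwz w j n hn
    rw [hzyK, map_mul, map_pow, w_nat] at h1 h2
    constructor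
    · rw [div_le_iff₀ (hqr j), mul_comm (w _)]
      exact h1
    · rw [← mul_div_assoc, le_div_iff₀ (hqr j), mul_comm]
      exact h2
  have hRj : ∀ j, (0 : ℝ) < (Qd : ℝ) * Y / (q j : ℝ) ^ k j := by
    intro j
    have := hqr j
    positivity
  have hyne : ∀ j, ∀ n ∈ cube K Y, (yO j n : K) ≠ 0 := by
    intro j n hn h
    obtain ⟨w⟩ : Nonempty (InfinitePlace K) := inferInstance
    have := (hwy w j n hn).1
    rw [h, map_zero] at this
    linarith [hRj j]
  -- the places over l
  have hl0 : (l : K) ≠ 0 := by exact_mod_cast hl.ne_zero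
  have hGf : {v : FinitePlace K | v (l : K) < 1}.Finite := by
    refine (FinitePlace.hasFiniteMulSupport hl0).subset fun v hv => ?_
    rw [mem_mulSupport]
    exact ne_of_lt hv
  obtain ⟨G, hG⟩ : ∃ G : Finset (FinitePlace K), G = hGf.toFinset := ⟨_, rfl⟩
  have hGm : ∀ v, v ∈ G ↔ v (l : K) < 1 := by
    intro v
    rw [hG, Set.Finite.mem_toFinset]
    rfl
  have hGE : ∀ v ∈ G, v ∉ E := by
    intro v hv hvE
    have h1 := le_Nn v hl ((hGm v).1 hv)
    have h2 := hlE v hvE
    omega
  have hQ1 : ∀ j, ∀ v : FinitePlace K, (∀ i, i ≠ j → v (q i : K) = 1) → v (Q' j : K) = 1 := by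
    intro j v hv
    rw [hQ']
    push_cast
    rw [map_prod]
    refine Finset.prod_eq_one fun i hi => ?_
    rw [map_pow, hv i (Finset.ne_of_mem_erase hi), one_pow]
  obtain ⟨n, hn, hsel⟩ := select hW0 hW r Y Z T L κ E G (fun j n => (yO j n : K))
    (fun j => (Q' j : K)) hT hL hκ hET (fun j v hv => hQ1 j v fun i _ => hEq i v hv)
    (fun v hv => ⟨hGE v hv, hlL.trans (le_Nn v hl ((hGm v).1 hv))⟩)
    (card_over hl G fun v hv => (hGm v).1 hv)
    (fun j n _ v => int_le_one v _) hyne
    (by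
      intro j n n'
      show (yO j n : K) - (yO j n' : K) = (Q' j : K) * ((el n : K) - (el n' : K))
      rw [hyO]
      push_cast
      ring)
    (by
      intro j n hn
      refine (nm_le fun w => (hwy w j n hn).2).trans (hZ j))
    hnum
  obtain ⟨x, hx⟩ : ∃ x : K, x = (u n : K) / ((b : K) * l) := ⟨_, rfl⟩
  have hbK : (b : K) ≠ 0 := by exact_mod_cast hb
  have hbl : (b : K) * l ≠ 0 := mul_ne_zero hbK hl0
  have hun : (u n : K) ≠ 0 := by
    intro h
    obtain ⟨w⟩ : Nonempty (InfinitePlace K) := inferInstance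
    have := (hwu w n hn).1
    rw [h, map_zero] at this
    have : (0 : ℝ) < Qd * Y := by positivity
    linarith
  have hxa : ∀ j, x - α j / b = (q j : K) ^ k j * (yO j n : K) / ((b : K) * l) := by
    intro j
    rw [← hzyK, hx]
    field_simp
  have hvq : ∀ v ∉ E, ∀ j, v ((q j : K) ^ k j) = 1 := by
    intro v hv j
    rw [map_pow, hEq j v hv, one_pow]
  -- the value of u at the places over l
  have hvu : ∀ v ∈ G, v (u n : K) = 1 := by
    intro v hv
    refine le_antisymm (int_le_one v _) ?_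
    by_contra hcon
    push Not at hcon
    have h1 := (hsel ⟨0, hr⟩).2.2 v hv
    have h2 := hzyK ⟨0, hr⟩ n
    have h3 : v ((u n : K) - (α ⟨0, hr⟩ : K) * l) = 1 := by
      rw [h2, map_mul, hvq v (hGE v hv), one_mul]
      exact h1
    have h4 := fsub v (u n : K) ((α ⟨0, hr⟩ : K) * l)
    rw [h3, map_mul] at h4
    have h5 : v (α ⟨0, hr⟩ : K) * v (l : K) < 1 :=
      lt_of_le_of_lt (mul_le_of_le_one_left (by positivity) (int_le_one v _)) ((hGm v).1 hv)
    exact absurd (lt_of_le_of_lt h4 (max_lt hcon h5)) (lt_irrefl _)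
  -- the bound at the places of E
  have hEκ : ∀ j, ∀ v ∈ E, κ ≤ v (yO j n : K) := by
    intro j v hv
    by_cases hex : ∃ i, i ≠ j ∧ v (q i : K) < 1
    · obtain ⟨i, hij, hi⟩ := hex
      have hqj : v (q j : K) = 1 := by
        refine le_antisymm (v_nat_le v _) ?_
        by_contra hc
        push Not at hc
        have hcop : Nat.Coprime (q i) (q j) :=
          (Nat.coprime_primes (hq i) (hq j)).2 fun h => hij (hinj h)
        exact coprime_places v hcop ⟨hi, hc⟩
      have hvl : v (l : K) = 1 := by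
        refine le_antisymm (v_nat_le v _) ?_
        by_contra hc
        push Not at hc
        have h1 := le_Nn v hl hc
        have h2 := hlE v hv
        omega
      have h1 : (α i : K) - α j = ((q j : K) ^ k j * (yO j n : K) -
          (q i : K) ^ k i * (yO i n : K)) / l := by
        rw [← hzyK, ← hzyK]
        field_simp
        ring
      have h2 := hκα v hv i j hij
      have h3 := fsub v ((q j : K) ^ k j * (yO j n : K)) ((q i : K) ^ k i * (yO i n : K))
      rw [h1, map_div₀, hvl, div_one] at h2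
      have h4 : v ((q i : K) ^ k i * (yO i n : K)) < κ := by
        rw [map_mul, map_pow]
        exact lt_of_le_of_lt (mul_le_of_le_one_right (by positivity) (int_le_one v _))
          (hκq v hv i hi)
      have h5 : v ((q j : K) ^ k j * (yO j n : K)) = v (yO j n : K) := by
        rw [map_mul, map_pow, hqj, one_pow, one_mul]
      rw [h5] at h3
      rcases le_total (v (yO j n : K)) (v ((q i : K) ^ k i * (yO i n : K))) with h6 | h6
      · rw [max_eq_right h6] at h3
        linarith
      · rw [max_eq_left h6] at h3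
        linarith
    · push Not at hex
      refine (hsel j).2.1 v hv (hQ1 j v fun i hi => ?_)
      exact le_antisymm (v_nat_le v _) (hex i hi)
  refine ⟨x, fun j h => ?_, ?_, fun j => ?_, ?_⟩
  · have h1 := hxa j
    rw [h, sub_self] at h1
    have h2 : (q j : K) ^ k j * (yO j n : K) / ((b : K) * l) ≠ 0 := by
      refine div_ne_zero (mul_ne_zero (pow_ne_zero _ ?_) (hyne j n hn)) hbl
      exact_mod_cast (hq j).ne_zero
    exact h2 h1.symm
  · -- height
    have h1 := height_frac (V := (b : K) * l) hun hbK (fun v => int_le_one v _)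
      (fun v => by
        rw [map_mul]
        exact mul_le_one₀ (int_le_one v b) (by positivity) (v_nat_le v l))
      (fun w => by
        rw [map_mul, w_nat]
        have := hsb w
        have h2 := (hwu w n hn).1
        have h3 : (0 : ℝ) < Qd * Y := by positivity
        linarith)
      (fun v => by
        by_cases hv : v ∈ G
        · rw [hvu v hv]
          exact (int_le_one v b).trans (le_max_left _ _)
        · have hvl : v (l : K) = 1 :=
            le_antisymm (v_nat_le v _) (not_lt.1 fun h => hv ((hGm v).2 h))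
          rw [map_mul, hvl, mul_one]
          exact le_max_right _ _)
    rw [← hx] at h1
    have hQY : (0 : ℝ) < Qd * Y := by positivity
    have h2 : ((Qd : ℝ) * Y) ^ d ≤ nm (u n : K) := by
      rw [hd]
      exact le_nm hQY.le fun w => by
        have := (hwu w n hn).1
        linarith
    have h3 : nm (u n : K) ≤ (C1 * ((Qd : ℝ) * Y)) ^ d := by
      rw [hd]
      refine nm_le fun w => ?_
      have := (hwu w n hn).2
      rw [hC1]
      nlinarith
    have p := nm_pos hun
    have g1 := Real.log_le_log (by positivity) h2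
    have g2 := Real.log_le_log p h3
    rw [Real.log_pow] at g1 g2
    rw [← hd]
    constructor
    · linarith [h1.1]
    · linarith [h1.2]
  · -- the point α j / b
    obtain ⟨B, hB⟩ : ∃ B : Set (FinitePlace K), B = {v | v ∉ E ∧ v (yO j n : K) < 1} := ⟨_, rfl⟩
    have hBf : B.Finite := by
      refine (FinitePlace.hasFiniteMulSupport (hyne j n hn)).subset fun v hv => ?_
      rw [hB] at hv
      rw [mem_mulSupport]
      exact hv.2.ne
    have hne : x ≠ α j / b := by
      intro h
      have h1 := hxa j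
      rw [h, sub_self] at h1
      have h2 : (q j : K) ^ k j * (yO j n : K) / ((b : K) * l) ≠ 0 := by
        refine div_ne_zero (mul_ne_zero (pow_ne_zero _ ?_) (hyne j n hn)) hbl
        exact_mod_cast (hq j).ne_zero
      exact h2 h1.symm
    have hcl := PP_close (Ms_fin S hne) hBf E
      (by
        intro v hv
        rw [hB] at hv
        obtain ⟨hv1, hv2⟩ := hv
        have hvl : v (l : K) = 1 := by
          refine le_antisymm (v_nat_le v _) (not_lt.1 fun h => ?_)
          have := (hsel j).2.2 v ((hGm v).2 h)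
          linarith
        refine ⟨fun h => hv1 (hSE h), ?_⟩
        unfold Meets
        rw [hxa, map_div₀, map_mul, map_mul, hvq v hv1, hEb v hv1, hvl, one_mul, one_mul, div_one]
        calc v (yO j n : K) < 1 := hv2
          _ ≤ max (v x) 1 * max (v (α j / b : K)) 1 :=
            one_le_mul_of_one_le_of_one_le (le_max_right _ _) (le_max_right _ _))
      (by
        intro v hv
        by_cases hvE : v ∈ E
        · exact Or.inr hvE
        left
        rw [hB]
        refine ⟨hvE, ?_⟩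
        have h1 := hv.2
        unfold Meets at h1
        have hvα : v (α j / b : K) ≤ 1 := by
          rw [map_div₀, hEb v hvE, div_one]
          exact int_le_one v _
        have hvl0 : 0 < v (l : K) := FinitePlace.pos_iff.2 hl0
        rw [max_eq_right hvα, mul_one, hxa, map_div₀, map_mul, map_mul, hvq v hvE, hEb v hvE,
          one_mul, one_mul, div_lt_iff₀ hvl0, hx, map_div₀, map_mul, hEb v hvE, one_mul] at h1
        have h2 : max (v (u n : K) / v (l : K)) 1 * v (l : K) ≤ 1 := by
          rw [max_mul_of_nonneg _ _ hvl0.le, div_mul_cancel₀ _ hvl0.ne', one_mul]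
          exact max_le (int_le_one v _) (v_nat_le v _)
        linarith)
    rw [abs_le] at hcl
    have hre := rad_est (hyne j n hn) (fun v => int_le_one v _) E hκ hκ1
      (hsel j).1 (hEκ j)
    rw [← hB] at hre
    have h2 : ((Qd : ℝ) * Y / (q j : ℝ) ^ k j) ^ d ≤ nm (yO j n : K) := by
      rw [hd]
      exact le_nm (hRj j).le fun w => (hwy w j n hn).1
    have h3 : nm (yO j n : K) ≤ (C1 * ((Qd : ℝ) * Y / (q j : ℝ) ^ k j)) ^ d := by
      rw [hd]
      exact nm_le fun w => (hwy w j n hn).2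
    have p := nm_pos (hyne j n hn)
    have hR := hRj j
    have g1 := Real.log_le_log (by positivity) h2
    have g2 := Real.log_le_log p h3
    rw [Real.log_pow] at g1 g2
    rw [← hd]
    constructor
    · linarith [hcl.1, hre.1]
    · linarith [hcl.2, hre.2]
  · -- infinity
    have hcl := PP_close (Mi_fin S x) G.finite_toSet E
      (by
        intro v hv
        have hv' : v ∈ G := hv
        have h1 := (hGm v).1 hv'
        have hvl0 : 0 < v (l : K) := FinitePlace.pos_iff.2 hl0
        refine ⟨fun h => hGE v hv' (hSE h), ?_⟩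
        rw [hx, map_div₀, map_mul, hvu v hv', hEb v (hGE v hv'), one_mul, lt_div_iff₀ hvl0, one_mul]
        exact h1)
      (by
        intro v hv
        by_cases hvE : v ∈ E
        · exact Or.inr hvE
        left
        have h1 := hv.2
        have hvl0 : 0 < v (l : K) := FinitePlace.pos_iff.2 hl0
        rw [hx, map_div₀, map_mul, hEb v hvE, one_mul, lt_div_iff₀ hvl0, one_mul] at h1
        exact (hGm v).2 (lt_of_lt_of_le h1 (int_le_one v _)))
    have hPG : Real.log (PP (G : Set (FinitePlace K))) = Module.finrank ℚ K * Real.log l := by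
      have h1 : PP (G : Set (FinitePlace K)) = nm (l : K) := by
        rw [nm_eq hl0]
        unfold PP
        refine finprod_congr fun v => ?_
        by_cases hv : v ∈ G
        · have e1 : pr (G : Set (FinitePlace K)) v = N v := if_pos hv
          rw [e1, unram hl hld v ((hGm v).1 hv), inv_inv]
        · have e1 : pr (G : Set (FinitePlace K)) v = 1 := if_neg hv
          have hvl : v (l : K) = 1 :=
            le_antisymm (v_nat_le v _) (not_lt.1 fun h => hv ((hGm v).2 h))
          rw [e1, hvl, inv_one]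
      rw [h1, nm_nat, Real.log_pow]
    rw [hPG] at hcl
    exact hcl

end Pool.Agent.Q272.LP
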