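import Pool.Agent.Q272.LP.Jinv
import Pool.Agent.W270.Szp.Core2

/-!
# Large discriminants: the limit point 6, and the final statements
-/

set_option autoImplicit false

namespace Pool.Agent.Q272.LP

open Finset

theorem choose_eps0 : ∃ ε : ℝ, 0 < ε ∧ ε ≤ 1 / 4 ∧
    (0 : ℝ) ^ 2 * (1 + 2 * ε) * Real.exp (3 * ε) * 18 * Real.exp (-(44 / 15)) ≤
      (2 - ε) ^ 4 * Real.exp 1 * (1 - ε) := by
  refine ⟨1 / 4, by norm_num, le_rfl, ?_⟩
  have h1 := Real.exp_pos (1 : ℝ)
  have : (0 : ℝ) ^ 2 * (1 + 2 * (1 / 4)) * Real.exp (3 * (1 / 4)) * 18 *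
      Real.exp (-(44 / 15)) = 0 := by ring
  rw [this]
  positivity

/-- full 2-torsion and `D` at least `N ^ 6` -/
theorem ex_six (M : ℝ) : ∃ a b : ℤ, IsMinimal a b ∧ FullTwoTorsion a b ∧ M < N6 a b ∧
    6 * Real.log (N6 a b) ≤ Real.log (absD a b) + 0 := by
  obtain ⟨ε, h1, h2, h3⟩ := choose_eps0
  obtain ⟨A, B, C, q, habc, -, hq, hqA, hX, hlt⟩ :=
    Pool.Agent.W270.Szp.core2 h1 h2 le_rfl h3 (max |M| (Real.log 5))
  obtain ⟨hA, hB, hC, hsum, hAB, -, -⟩ := id habc
  have hq0 : (0 : ℝ) < q := by exact_mod_cast hq.pos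
  have hXq1 : |M| < Real.log q := lt_of_le_of_lt (le_max_left _ _) hX
  have hXq2 : Real.log 5 < Real.log q := lt_of_le_of_lt (le_max_right _ _) hX
  have hq5 : 5 ≤ q := by
    have : (5 : ℝ) < q := (Real.log_lt_log_iff (by norm_num) hq0).mp hXq2
    exact_mod_cast this.le
  have hlogq : Real.log q ≤ q := (Real.log_le_sub_one_of_pos hq0).trans (by linarith)
  have hcop : IsCoprime (A : ℤ) (B : ℤ) := Nat.isCoprime_iff_coprime.mpr hAB
  have hne : (A : ℤ) * B * ((A : ℤ) + B) ≠ 0 := by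
    have : (0 : ℤ) < A := by exact_mod_cast hA
    have : (0 : ℤ) < B := by exact_mod_cast hB
    positivity
  obtain ⟨hc1, hc2⟩ := tri_cond hAB hA hB
  have hN0 : (0 : ℝ) < N6 (ta A B) (tb A B) := by
    have := N6_one (ta A B) (tb A B)
    linarith
  refine ⟨ta A B, tb A B, tri_min hcop hne, tri_full _ _, ?_, ?_⟩
  · have h4 := hc2 q hq hq5 hqA
    have h5 : (q : ℝ) ≤ N6 (ta A B) (tb A B) := by
      unfold N6
      exact_mod_cast h4
    have := le_abs_self M
    linarith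
  · have hAR : (0 : ℝ) < A := by exact_mod_cast hA
    have hBR : (0 : ℝ) < B := by exact_mod_cast hB
    have hCR : (0 : ℝ) < C := by exact_mod_cast hC
    have e : absD (ta A B) (tb A B) = 729 * ((A : ℝ) * B * C) ^ 2 := by
      unfold absD
      rw [tri_disc, ← hsum]
      push_cast
      rw [abs_of_nonneg (by positivity)]
    have hrad : Real.log (N6 (ta A B) (tb A B)) ≤
        Real.log (Pool.Agent.H390R2.rad (A * B * C)) := by
      refine Real.log_le_log hN0 ?_
      unfold N6 Pool.Agent.H390R2.rad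
      rw [← hsum]
      exact_mod_cast hc1
    have h0 : (0 : ℝ) * √(Real.log C) / Real.log (Real.log C) = 0 := by
      rw [zero_mul, zero_div]
    rw [h0] at hlt
    rw [e, Real.log_mul (by norm_num) (by positivity), Real.log_pow,
      Real.log_mul (by positivity) hCR.ne', Real.log_mul hAR.ne' hBR.ne']
    have h729 : 0 ≤ Real.log 729 := Real.log_nonneg (by norm_num)
    push_cast
    linarith

theorem lim_six {P : ℤ → ℤ → Prop} (hP : TwistClosed P) (hPF : ∀ a b, FullTwoTorsion a b → P a b) :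
    LimPt absD N6 P 6 := by
  refine reach_up size_absD hP (by norm_num) (ex_of' (c := 0) fun M => ?_)
  obtain ⟨a, b, h1, h2, h3, h4⟩ := ex_six M
  exact ⟨a, b, h1, hPF a b h2, h3, h4⟩

/-- all curves -/
theorem lim_all : ∃ S : EReal, 6 ≤ S ∧ ∀ x : ℝ, LimPt absD N6 (fun _ _ => True) x ↔
    1 ≤ x ∧ (x : EReal) ≤ S := by
  obtain ⟨S, -, h⟩ := interval_lo size_absD tc_all (lo := 1) zero_le_one (by norm_num)
    ⟨0, fun a b hmin _ => by
      have := low_all a b hmin
      linarith⟩ (ex_of (c := Real.log 27) fun M => by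
      obtain ⟨b, h1, h2, h3⟩ := ex_zero 1 le_rfl (by norm_num) M
      refine ⟨0, b, h1, trivial, h2, ?_⟩
      rw [h3]
      push_cast
      linarith)
  refine ⟨S, ?_, h⟩
  exact_mod_cast ((h 6).mp (lim_six tc_all fun _ _ _ => trivial)).2

/-- curves with a rational point of order two -/
theorem lim_two : ∃ S : EReal, 6 ≤ S ∧ ∀ x : ℝ, LimPt absD N6 TwoTorsion x ↔
    1 ≤ x ∧ (x : EReal) ≤ S := by
  obtain ⟨S, -, h⟩ := interval_lo size_absD tc_two (lo := 1) zero_le_one (by norm_num)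
    ⟨0, fun a b hmin _ => by
      have := low_all a b hmin
      linarith⟩ (ex_of fun M => ex_two_lo M)
  refine ⟨S, ?_, h⟩
  exact_mod_cast ((h 6).mp (lim_six tc_two fun _ _ => full_two)).2

/-- curves with full rational 2-torsion -/
theorem lim_full : ∃ S : EReal, 6 ≤ S ∧ ∀ x : ℝ, LimPt absD N6 FullTwoTorsion x ↔
    2 ≤ x ∧ (x : EReal) ≤ S := by
  obtain ⟨S, -, h⟩ := interval_lo size_absD tc_full (lo := 2) (by norm_num) (by norm_num)
    ⟨0, fun a b hmin hf => by
      have := low_full a b hmin hf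
      linarith⟩ (ex_of fun M => ex_full_lo M)
  refine ⟨S, ?_, h⟩
  exact_mod_cast ((h 6).mp (lim_six tc_full fun _ _ h => h)).2

/-- integral `j` -/
theorem lim_int (x : ℝ) : LimPt absD N6 IntegralJ x ↔ 1 ≤ x ∧ x ≤ 5 := by
  refine interval_both size_absD tc_int zero_le_one (by norm_num) (by norm_num)
    ⟨0, fun a b hmin _ => by
      have := low_all a b hmin
      linarith⟩ ⟨_, fun a b hmin hj => up_int a b hmin hj⟩
    (ex_of (c := Real.log 27) fun M => ?_) (ex_of' (c := 0) fun M => ?_) x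
  · obtain ⟨b, h1, h2, h3⟩ := ex_zero 1 le_rfl (by norm_num) M
    refine ⟨0, b, h1, zero_int b, h2, ?_⟩
    rw [h3]
    push_cast
    linarith
  · obtain ⟨b, h1, h2, h3⟩ := ex_zero 5 (by norm_num) le_rfl M
    refine ⟨0, b, h1, zero_int b, h2, ?_⟩
    have : 0 ≤ Real.log 27 := Real.log_nonneg (by norm_num)
    rw [h3]
    push_cast
    linarith

/-- `j = 0` -/
theorem lim_zero (x : ℝ) : LimPt absD N6 (fun a _ => a = 0) x ↔ 1 ≤ x ∧ x ≤ 5 := by
  refine interval_both size_absD tc_zero zero_le_one (by norm_num) (by norm_num)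
    ⟨0, fun a b hmin _ => by
      have := low_all a b hmin
      linarith⟩ ⟨_, fun a b hmin hj => up_int a b hmin (by
        have h0 : a = 0 := hj
        rw [h0]
        exact zero_int b)⟩
    (ex_of (c := Real.log 27) fun M => ?_) (ex_of' (c := 0) fun M => ?_) x
  · obtain ⟨b, h1, h2, h3⟩ := ex_zero 1 le_rfl (by norm_num) M
    refine ⟨0, b, h1, rfl, h2, ?_⟩
    rw [h3]
    push_cast
    linarith
  · obtain ⟨b, h1, h2, h3⟩ := ex_zero 5 (by norm_num) le_rfl M
    refine ⟨0, b, h1, rfl, h2, ?_⟩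
    have : 0 ≤ Real.log 27 := Real.log_nonneg (by norm_num)
    rw [h3]
    push_cast
    linarith

/-- `j = 1728` -/
theorem lim_zero' (x : ℝ) : LimPt absD N6 (fun _ b => b = 0) x ↔ 3 / 2 ≤ x ∧ x ≤ 9 / 2 := by
  refine interval_both size_absD tc_zero' (by norm_num) (by norm_num) (by norm_num)
    ⟨0, fun a b hmin hb => by
      have h0 : b = 0 := hb
      rw [h0] at hmin ⊢
      have := (both_zero' a hmin).1
      linarith⟩ ⟨_, fun a b hmin hb => by
      have h0 : b = 0 := hb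
      rw [h0] at hmin ⊢
      exact (both_zero' a hmin).2⟩
    (ex_of (c := Real.log 4) fun M => ?_) (ex_of' (c := 0) fun M => ?_) x
  · obtain ⟨a, h1, h2, h3⟩ := ex_zero' 1 le_rfl (by norm_num) M
    refine ⟨a, 0, h1, rfl, h2, ?_⟩
    rw [h3]
    push_cast
    linarith
  · obtain ⟨a, h1, h2, h3⟩ := ex_zero' 3 (by norm_num) le_rfl M
    refine ⟨a, 0, h1, rfl, h2, ?_⟩
    have : 0 ≤ Real.log 4 := Real.log_nonneg (by norm_num)
    rw [h3]
    push_cast
    linarith

/-- above the interval the inequality holds -/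
theorem szpiro_above {Φ : ℤ → ℤ → ℝ} {c : ℝ} (hΦ : Size Φ c) {P : ℤ → ℤ → Prop}
    (hP : TwistClosed P) {S : EReal} (hS : 3 ≤ S)
    (h : ∀ x : ℝ, LimPt Φ N6 P x → (x : EReal) ≤ S) (κ : ℝ) (hκ : S < κ) :
    ∃ M : ℝ, ∀ a b, IsMinimal a b → P a b → M < N6 a b → Φ a b ≤ N6 a b ^ κ := by
  by_contra hcon
  push Not at hcon
  have h3 : (3 : ℝ) < κ := by
    have : ((3 : ℝ) : EReal) < κ := lt_of_le_of_lt (by exact_mod_cast hS) hκ
    exact_mod_cast this
  have h4 : LimPt Φ N6 P κ := by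
    refine reach_up hΦ hP h3 fun ε M hε => ?_
    obtain ⟨a, b, g1, g2, g3, g4⟩ := hcon M
    refine ⟨a, b, g1, g2, g3, ?_⟩
    have hN1 := N6_one a b
    have hN0 : 0 < N6 a b := by linarith
    have g5 := Real.log_le_log (Real.rpow_pos_of_pos hN0 κ) g4.le
    rw [Real.log_rpow hN0] at g5
    have : 0 ≤ Real.log (N6 a b) := Real.log_nonneg hN1
    nlinarith
  exact absurd (h κ h4) (not_le.mpr hκ)

end Pool.Agent.Q272.LP
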