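import Pool.Agent.Q272.LP.F

/-! # The construction of the points: choice of the parameters -/

set_option autoImplicit false

open NumberField Height Function Filter

namespace Pool.Agent.Q272.LP

open Q241.AK Q265.NF Q265.BM

variable {K : Type*} [Field K] [NumberField K]

lemma pos_lower {ι : Type*} (s : Finset ι) (f : ι → ℝ) (hf : ∀ i ∈ s, 0 < f i) :
    ∃ κ : ℝ, 0 < κ ∧ ∀ i ∈ s, κ ≤ f i := by
  classical
  induction s using Finset.induction_on with
  | empty => exact ⟨1, one_pos, fun i hi => absurd hi (Finset.notMem_empty i)⟩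
  | insert j s hj ih =>
    obtain ⟨κ, hκ, h⟩ := ih fun i hi => hf i (Finset.mem_insert_of_mem hi)
    refine ⟨min κ (f j), lt_min hκ (hf j (Finset.mem_insert_self j s)), fun i hi => ?_⟩
    rcases Finset.mem_insert.1 hi with rfl | hi
    · exact min_le_right _ _
    · exact (min_le_left _ _).trans (h i hi)

lemma ev_pow (c1 c2 c3 p s : ℝ) (hc3 : 0 < c3) (hps : p < s) (hs : 0 < s) :
    ∀ᶠ B : ℝ in atTop, c1 * B ^ p + c2 ≤ c3 * B ^ s := by
  have h1 := (tendsto_rpow_atTop (sub_pos.2 hps)).eventually (eventually_ge_atTop (2 * |c1| / c3))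
  have h2 := (tendsto_rpow_atTop hs).eventually (eventually_ge_atTop (2 * c2 / c3))
  filter_upwards [h1, h2, eventually_gt_atTop (0 : ℝ)] with B h1 h2 hB
  have e : B ^ s = B ^ (s - p) * B ^ p := by
    rw [← Real.rpow_add hB]
    congr 1
    ring
  have hp : 0 < B ^ p := Real.rpow_pos_of_pos hB p
  have h3 : c1 * B ^ p ≤ c3 / 2 * B ^ s := by
    rw [div_le_iff₀ hc3] at h1
    rw [e]
    have h4 : c1 ≤ |c1| := le_abs_self c1
    have h5 : |c1| ≤ c3 / 2 * B ^ (s - p) := by linarith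
    calc c1 * B ^ p ≤ (c3 / 2 * B ^ (s - p)) * B ^ p :=
        mul_le_mul_of_nonneg_right (h4.trans h5) hp.le
      _ = c3 / 2 * (B ^ (s - p) * B ^ p) := by ring
  have h4 : c2 ≤ c3 / 2 * B ^ s := by
    rw [div_le_iff₀ hc3] at h2
    linarith
  linarith

theorem build {r : ℕ} (hr : 0 < r) (a : Fin r → K) (ha : Injective a)
    (S : Finset (FinitePlace K)) (θ : Fin r → ℝ) (τ : ℝ) (hθ : ∀ j, 0 < θ j ∧ θ j < 1)
    (hτ : 0 < τ ∧ τ < 1) (hσ : ∀ j, θ j / 2 < (∑ i, θ i) - (r - 1)) :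
    ∃ C : ℝ, ∀ᶠ B : ℝ in atTop, ∃ x : K, (∀ j, x ≠ a j) ∧
      |logHeight₁ x - Module.finrank ℚ K * Real.log B| ≤ C ∧
      (∀ j, |Real.log (PP (Ms S (a j) x)) - Module.finrank ℚ K * (θ j * Real.log B)| ≤ C) ∧
      |Real.log (PP (Mi S x)) - Module.finrank ℚ K * (τ * Real.log B)| ≤ C := by
  classical
  obtain ⟨d, hd⟩ : ∃ d, d = Module.finrank ℚ K := ⟨_, rfl⟩
  have hd1 : 1 ≤ d := by rw [hd]; exact Module.finrank_pos
  have hd0 : (0 : ℝ) < d := by exact_mod_cast hd1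
  obtain ⟨W, hW0, hW⟩ := exists_W K
  obtain ⟨M, hM⟩ : ∃ M : ℕ, 2 * W + 2 ≤ M := exists_nat_ge _
  obtain ⟨C1, hC1⟩ : ∃ C1 : ℝ, C1 = M + 2 * W + 1 := ⟨_, rfl⟩
  have hC1p : 1 ≤ C1 := by rw [hC1]; linarith [(Nat.cast_nonneg M : (0 : ℝ) ≤ M)]
  obtain ⟨q, hqdef⟩ : ∃ q : Fin r → ℕ, q = fun j : Fin r => Nat.nth Nat.Prime (j : ℕ) := ⟨_, rfl⟩
  have hq : ∀ j, (q j).Prime := by
    intro j
    rw [hqdef]
    exact Nat.prime_nth_prime j
  have hinj : Injective q := by
    intro i j hij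
    rw [hqdef] at hij
    exact Fin.ext (Nat.nth_injective Nat.infinite_setOfPred_prime hij)
  -- common denominator
  obtain ⟨b', hb'⟩ := IsLocalization.exist_integer_multiples_of_finset (nonZeroDivisors (𝓞 K))
    (Finset.univ.image a)
  obtain ⟨b, hbdef⟩ : ∃ b : 𝓞 K, b = b' := ⟨_, rfl⟩
  have hb : b ≠ 0 := by rw [hbdef]; exact nonZeroDivisors.ne_zero b'.2
  have hbK : (b : K) ≠ 0 := by exact_mod_cast hb
  have hα' : ∀ j, ∃ α : 𝓞 K, (α : K) = b * a j := by
    intro j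
    obtain ⟨α, hα⟩ := hb' (a j) (Finset.mem_image_of_mem a (Finset.mem_univ j))
    refine ⟨α, ?_⟩
    rw [hbdef]
    exact hα.trans (Algebra.smul_def _ _)
  choose α hα using hα'
  have haα : ∀ j, (α j : K) / b = a j := by
    intro j
    rw [hα]
    field_simp
  have hαne : ∀ i j, i ≠ j → (α i : K) - α j ≠ 0 := by
    intro i j hij h
    rw [hα, hα, ← mul_sub] at h
    rcases mul_eq_zero.1 h with h | h
    · exact hbK h
    · exact hij (ha (sub_eq_zero.1 h))
  -- exponents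
  obtain ⟨σ, hσdef⟩ : ∃ σ : ℝ, σ = (∑ i, θ i) - (r - 1) := ⟨_, rfl⟩
  rw [← hσdef] at hσ
  have : Nonempty (Fin r) := ⟨⟨0, hr⟩⟩
  obtain ⟨j0, hj0⟩ := Finite.exists_max θ
  obtain ⟨ρ, hρ⟩ : ∃ ρ : ℝ, ρ = θ j0 / 2 := ⟨_, rfl⟩
  have hρσ : ρ < σ := by rw [hρ]; exact hσ j0
  have hρ0 : 0 < ρ := by rw [hρ]; linarith [(hθ j0).1]
  have hσ0 : 0 < σ := by linarith
  have hθρ : ∀ j, θ j ≤ 2 * ρ := by
    intro j
    rw [hρ]
    linarith [hj0 j]
  -- constants
  obtain ⟨C0, hC0⟩ : ∃ C0 : ℝ, C0 = (4 * W) ^ d := ⟨_, rfl⟩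
  have hC0p : 0 < C0 := by rw [hC0]; positivity
  obtain ⟨T, hT⟩ : ∃ T : ℕ, 8 * (r * C0 * d) + 1 ≤ T := exists_nat_ge _
  have hrC : 0 ≤ r * C0 * d := by positivity
  have hT1 : 1 ≤ T := by
    have : (1 : ℝ) ≤ T := by linarith
    exact_mod_cast this
  have hT0 : (0 : ℝ) < T := by exact_mod_cast hT1
  have hbf : {v : FinitePlace K | v (b : K) ≠ 1}.Finite := FinitePlace.hasFiniteMulSupport hbK
  have hqf : ∀ j, {v : FinitePlace K | v (q j : K) ≠ 1}.Finite := fun j =>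
    FinitePlace.hasFiniteMulSupport (by exact_mod_cast (hq j).ne_zero)
  obtain ⟨E, hE⟩ : ∃ E : Finset (FinitePlace K), E = (((finite_norm_le (K := K) T).toFinset ∪ S) ∪
      hbf.toFinset) ∪ Finset.univ.biUnion fun j => (hqf j).toFinset := ⟨_, rfl⟩
  have hSE : S ⊆ E := by
    intro v hv
    rw [hE]
    simp only [Finset.mem_union]
    exact Or.inl (Or.inl (Or.inr hv))
  have hET : ∀ v : FinitePlace K, Nn v ≤ T → v ∈ E := by
    intro v hv
    rw [hE]
    simp only [Finset.mem_union, Set.Finite.mem_toFinset]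
    exact Or.inl (Or.inl (Or.inl hv))
  have hEb : ∀ v ∉ E, v (b : K) = 1 := by
    intro v hv
    by_contra h
    apply hv
    rw [hE]
    simp only [Finset.mem_union, Set.Finite.mem_toFinset]
    exact Or.inl (Or.inr h)
  have hEq : ∀ j, ∀ v ∉ E, v (q j : K) = 1 := by
    intro j v hv
    by_contra h
    apply hv
    rw [hE]
    simp only [Finset.mem_union, Finset.mem_biUnion, Set.Finite.mem_toFinset]
    exact Or.inr ⟨j, Finset.mem_univ j, h⟩
  obtain ⟨κ', hκ'0, hκ'⟩ := pos_lower (E ×ˢ (Finset.univ : Finset (Fin r × Fin r)))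
    (fun p => if p.2.1 = p.2.2 then 1 else p.1 ((α p.2.1 : K) - α p.2.2)) (by
      intro p _
      show 0 < if p.2.1 = p.2.2 then (1 : ℝ) else p.1 ((α p.2.1 : K) - α p.2.2)
      split_ifs with h
      · exact one_pos
      · exact FinitePlace.pos_iff.2 (hαne _ _ h))
  obtain ⟨κ, hκdef⟩ : ∃ κ : ℝ, κ = min (min κ' 1) (1 / (8 * (r * C0 * (E.card + 1)))) := ⟨_, rfl⟩
  have hr0 : (0 : ℝ) < r := by exact_mod_cast hr
  have hκ0 : 0 < κ := by
    rw [hκdef]
    exact lt_min (lt_min hκ'0 one_pos) (by positivity)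
  have hκ1 : κ ≤ 1 := by
    rw [hκdef]
    exact (min_le_left _ _).trans (min_le_right _ _)
  have hκE : r * C0 * (E.card * κ) ≤ 1 / 8 := by
    have h1 : κ ≤ 1 / (8 * (r * C0 * (E.card + 1))) := by rw [hκdef]; exact min_le_right _ _
    rw [le_div_iff₀ (by positivity)] at h1
    have h2 : 0 ≤ r * C0 * κ := by positivity
    linarith only [h1, h2]
  have hκα : ∀ v ∈ E, ∀ i j, i ≠ j → κ ≤ v ((α i : K) - α j) := by
    intro v hv i j hij
    have h1 := hκ' (v, (i, j)) (Finset.mem_product.2 ⟨hv, Finset.mem_univ _⟩)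
    simp only [if_neg hij] at h1
    have h2 : κ ≤ κ' := by
      rw [hκdef]
      exact (min_le_left _ _).trans (min_le_left _ _)
    exact h2.trans h1
  obtain ⟨ks, hks⟩ : ∃ ks : ℕ, (1 / 2 : ℝ) ^ ks < κ := exists_pow_lt_of_lt_one hκ0 (by norm_num)
  obtain ⟨NB, hNB⟩ : ∃ NB : ℕ, ∀ v ∈ E, Nn v ≤ NB := ⟨E.sup Nn, fun v hv => Finset.le_sup hv⟩
  obtain ⟨A0, hA0⟩ : ∃ A0 : ℝ, A0 = 1 + ∑ w : InfinitePlace K, (w (b : K) + ∑ j, w (α j : K)) :=
    ⟨_, rfl⟩
  have hA0b : ∀ w : InfinitePlace K, w (b : K) ≤ A0 ∧ ∀ j, w (α j : K) ≤ A0 := by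
    intro w
    have h1 : w (b : K) + ∑ j, w (α j : K) ≤
        ∑ w : InfinitePlace K, (w (b : K) + ∑ j, w (α j : K)) :=
      Finset.single_le_sum (f := fun w : InfinitePlace K => w (b : K) + ∑ j, w (α j : K))
        (fun w _ => by positivity) (Finset.mem_univ w)
    have h2 : 0 ≤ w (b : K) := by positivity
    have h3 : 0 ≤ ∑ j, w (α j : K) := Finset.sum_nonneg fun j _ => by positivity
    refine ⟨by linarith, fun j => ?_⟩
    have h4 : w (α j : K) ≤ ∑ j, w (α j : K) :=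
      Finset.single_le_sum (f := fun j => w (α j : K)) (fun j _ => by positivity) (Finset.mem_univ j)
    linarith
  have hA0p : 0 < A0 := by
    have h3 : 0 ≤ ∑ w : InfinitePlace K, (w (b : K) + ∑ j, w (α j : K)) :=
      Finset.sum_nonneg fun w _ => by positivity
    linarith
  obtain ⟨Pq, hPq⟩ : ∃ Pq : ℝ, Pq = ∏ j, (q j : ℝ) := ⟨_, rfl⟩
  have hq1 : ∀ j, (1 : ℝ) < q j := fun j => by exact_mod_cast (hq j).one_lt
  have hqPq : ∀ j, (q j : ℝ) ≤ Pq := by
    intro j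
    rw [hPq, ← Finset.mul_prod_erase Finset.univ (fun j => (q j : ℝ)) (Finset.mem_univ j)]
    refine le_mul_of_one_le_right (by linarith [hq1 j]) ?_
    have h1 : ∏ _j ∈ Finset.univ.erase j, (1 : ℝ) ≤ ∏ j ∈ Finset.univ.erase j, (q j : ℝ) :=
      Finset.prod_le_prod (fun _ _ => zero_le_one) fun i _ => (hq1 i).le
    rwa [Finset.prod_const_one] at h1
  have hPq1 : 1 ≤ Pq := (hq1 ⟨0, hr⟩).le.trans (hqPq _)
  obtain ⟨C3, hC3⟩ : ∃ C3 : ℝ, C3 = (C1 * Pq) ^ d := ⟨_, rfl⟩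
  have hC3p : 1 ≤ C3 := by
    rw [hC3]
    exact one_le_pow₀ (one_le_mul_of_one_le_of_one_le hC1p hPq1)
  -- the constant
  obtain ⟨C, hC⟩ : ∃ C : ℝ, C = d * Real.log 4 + |Real.log (nm (b : K))| + d * Real.log C1 +
    d * Real.log Pq + E.card * Real.log κ⁻¹ + Real.log (PP (E : Set (FinitePlace K))) := ⟨_, rfl⟩
  refine ⟨C, ?_⟩
  -- eventual conditions
  have e2 := (tendsto_rpow_atTop hσ0).eventually (eventually_ge_atTop (2 : ℝ))
  have e3 := (tendsto_rpow_atTop hτ.1).eventually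
    (eventually_ge_atTop ((NB + T + (discr K).natAbs + 1 : ℕ) : ℝ))
  have e4 := (tendsto_rpow_atTop (sub_pos.2 hτ.2)).eventually (eventually_ge_atTop (8 * A0))
  have e5 : ∀ᶠ B : ℝ in atTop, ∀ i, (ks : ℝ) ≤ (1 - θ i) * Real.log B / Real.log (q i) := by
    rw [eventually_all]
    intro i
    have h1 : 0 < (1 - θ i) / Real.log (q i) := div_pos (by linarith [(hθ i).2])
      (Real.log_pos (hq1 i))
    have h2 := (Real.tendsto_log_atTop.const_mul_atTop h1).eventually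
      (eventually_ge_atTop (ks : ℝ))
    filter_upwards [h2] with B h2
    have e : (1 - θ i) / Real.log (q i) * Real.log B = (1 - θ i) * Real.log B / Real.log (q i) := by
      ring
    rwa [e] at h2
  have e6 := ev_pow (r * C0 * (d * C3)) (r * C0 * (d + E.card + d)) (1 / 2 * (1 / 2) ^ d)
    (d * ρ) (d * σ) (by positivity) (mul_lt_mul_of_pos_left hρσ hd0) (by positivity)
  filter_upwards [eventually_gt_atTop (1 : ℝ), e2, e3, e4, e5, e6] with B hB1 e2 e3 e4 e5 e6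
  have hB0 : 0 < B := by linarith
  have hlogB : 0 < Real.log B := Real.log_pos hB1
  -- the exponents
  obtain ⟨k, hk⟩ : ∃ k : Fin r → ℕ, k = fun j => ⌊(1 - θ j) * Real.log B / Real.log (q j)⌋₊ :=
    ⟨_, rfl⟩
  have hk1 : ∀ j, (q j : ℝ) ^ k j ≤ B ^ (1 - θ j) := by
    intro j
    have hlq := Real.log_pos (hq1 j)
    have h1 : (k j : ℝ) ≤ (1 - θ j) * Real.log B / Real.log (q j) := by
      rw [hk]
      exact Nat.floor_le (div_nonneg (mul_nonneg (by linarith [(hθ j).2]) hlogB.le) hlq.le)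
    rw [le_div_iff₀ hlq] at h1
    rw [← Real.log_le_log_iff (by have := hq1 j; positivity) (by positivity), Real.log_pow,
      Real.log_rpow hB0]
    exact h1
  have hk2 : ∀ j, B ^ (1 - θ j) ≤ (q j : ℝ) ^ k j * q j := by
    intro j
    have hlq := Real.log_pos (hq1 j)
    have h1 : (1 - θ j) * Real.log B / Real.log (q j) ≤ k j + 1 := by
      rw [hk]
      exact (Nat.lt_floor_add_one _).le
    rw [div_le_iff₀ hlq] at h1
    rw [← pow_succ, ← Real.log_le_log_iff (by positivity) (by have := hq1 j; positivity),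
      Real.log_pow, Real.log_rpow hB0]
    push_cast
    exact h1
  obtain ⟨Qd, hQd⟩ : ∃ Qd : ℕ, Qd = ∏ j, q j ^ k j := ⟨_, rfl⟩
  have hQd0 : 0 < Qd := by
    rw [hQd]
    exact Finset.prod_pos fun j _ => pow_pos (hq j).pos _
  have hQdr : (0 : ℝ) < Qd := by exact_mod_cast hQd0
  have hQdB : (Qd : ℝ) ≤ B ^ (1 - σ) := by
    have h1 : (Qd : ℝ) ≤ ∏ j, B ^ (1 - θ j) := by
      rw [hQd]
      push_cast
      exact Finset.prod_le_prod (fun j _ => by positivity) fun j _ => hk1 j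
    have h2 : ∏ j, B ^ (1 - θ j) = B ^ (1 - σ) := by
      rw [← Real.rpow_sum_of_pos hB0]
      congr 1
      rw [Finset.sum_sub_distrib, Finset.sum_const, Finset.card_univ, Fintype.card_fin, hσdef]
      simp
      ring
    rwa [h2] at h1
  have hBB : B ^ (1 - σ) * B ^ σ = B := by
    rw [← Real.rpow_add hB0, sub_add_cancel, Real.rpow_one]
  have hBs0 : 0 < B ^ (1 - σ) := by positivity
  obtain ⟨Y, hY⟩ : ∃ Y : ℕ, Y = ⌊B / Qd⌋₊ := ⟨_, rfl⟩
  have hY1 : (Y : ℝ) ≤ B / Qd := by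
    rw [hY]
    exact Nat.floor_le (by positivity)
  have hY2 : B / Qd - 1 < Y := by
    rw [hY]
    linarith [Nat.lt_floor_add_one (B / Qd)]
  have hQY1 : (Qd : ℝ) * Y ≤ B := by
    rw [le_div_iff₀ hQdr] at hY1
    linarith
  have hQY2 : B / 2 ≤ (Qd : ℝ) * Y := by
    have h1 : B - Qd < Qd * Y := by
      have := mul_lt_mul_of_pos_left hY2 hQdr
      rw [mul_sub, mul_one, mul_div_cancel₀ _ hQdr.ne'] at this
      exact this
    have h2 : 2 * (Qd : ℝ) ≤ B := by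
      rw [← hBB]
      calc 2 * (Qd : ℝ) ≤ B ^ σ * B ^ (1 - σ) := by gcongr
        _ = _ := mul_comm _ _
    linarith
  have hBQ : B ^ σ ≤ B / Qd := by
    rw [le_div_iff₀ hQdr]
    calc B ^ σ * Qd ≤ B ^ σ * B ^ (1 - σ) := by gcongr
      _ = B := by rw [mul_comm]; exact hBB
  have hYσ : B ^ σ / 2 ≤ Y := by linarith
  have hY1' : 1 ≤ Y := by
    have : (1 : ℝ) ≤ Y := by linarith
    exact_mod_cast this
  -- the prime
  obtain ⟨l, hl, hl1, hl2⟩ := Nat.exists_prime_lt_and_le_two_mul ⌈B ^ τ⌉₊ (by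
    have : 0 < ⌈B ^ τ⌉₊ := Nat.ceil_pos.2 (by positivity)
    omega)
  have hlB1 : B ^ τ ≤ l := by
    have h1 := Nat.le_ceil (B ^ τ)
    have h2 : ((⌈B ^ τ⌉₊ : ℕ) : ℝ) ≤ l := by exact_mod_cast hl1.le
    linarith
  have hBτ1 : 1 ≤ B ^ τ := by
    refine le_trans ?_ e3
    push_cast
    have : (0 : ℝ) ≤ NB + T + ((discr K).natAbs : ℝ) := by positivity
    linarith
  have hlB2 : (l : ℝ) ≤ 4 * B ^ τ := by
    have h1 := Nat.ceil_lt_add_one (a := B ^ τ) (by positivity)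
    have h2 : (l : ℝ) ≤ 2 * ((⌈B ^ τ⌉₊ : ℕ) : ℝ) := by exact_mod_cast hl2
    linarith
  have hlbig : NB + T + (discr K).natAbs + 1 ≤ l := by
    have : ((NB + T + (discr K).natAbs + 1 : ℕ) : ℝ) ≤ l := e3.trans hlB1
    exact_mod_cast this
  have hld : ¬ (l : ℤ) ∣ discr K := by
    intro h
    have h1 := Int.natAbs_dvd_natAbs.2 h
    rw [Int.natAbs_natCast] at h1
    have h2 := Nat.le_of_dvd (Int.natAbs_pos.2 (discr_ne_zero K)) h1
    omega
  have hsz : A0 * l ≤ Qd * Y := by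
    have h1 : 8 * A0 * B ^ τ ≤ B := by
      have h2 : B ^ (1 - τ) * B ^ τ = B := by
        rw [← Real.rpow_add hB0, sub_add_cancel, Real.rpow_one]
      calc 8 * A0 * B ^ τ ≤ B ^ (1 - τ) * B ^ τ := by gcongr
        _ = B := h2
    have h2 : A0 * l ≤ A0 * (4 * B ^ τ) := by gcongr
    linarith
  have hl0r : (0 : ℝ) ≤ l := Nat.cast_nonneg l
  -- the size of the values
  have hval : ∀ j, (Qd : ℝ) * Y / (q j : ℝ) ^ k j ≤ q j * B ^ θ j := by
    intro j
    have hqk : (0 : ℝ) < (q j : ℝ) ^ k j := by have := hq1 j; positivity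
    rw [div_le_iff₀ hqk]
    have h1 : B ^ θ j * B ^ (1 - θ j) = B := by
      rw [← Real.rpow_add hB0]
      simp
    have h2 : 0 < B ^ θ j := by positivity
    calc (Qd : ℝ) * Y ≤ B ^ θ j * B ^ (1 - θ j) := by rw [h1]; exact hQY1
      _ ≤ B ^ θ j * ((q j : ℝ) ^ k j * q j) := by gcongr; exact hk2 j
      _ = _ := by ring
  have hval' : ∀ j, B ^ θ j / 2 ≤ (Qd : ℝ) * Y / (q j : ℝ) ^ k j := by
    intro j
    have hqk : (0 : ℝ) < (q j : ℝ) ^ k j := by have := hq1 j; positivity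
    rw [le_div_iff₀ hqk]
    have h1 : B ^ θ j * B ^ (1 - θ j) = B := by
      rw [← Real.rpow_add hB0]
      simp
    have h2 : 0 < B ^ θ j := by positivity
    calc B ^ θ j / 2 * (q j : ℝ) ^ k j ≤ B ^ θ j / 2 * B ^ (1 - θ j) := by gcongr; exact hk1 j
      _ = (B ^ θ j * B ^ (1 - θ j)) / 2 := by ring
      _ = B / 2 := by rw [h1]
      _ ≤ _ := hQY2
  obtain ⟨Z, hZ⟩ : ∃ Z : ℕ, Z = ⌈C3 * B ^ (d * ρ)⌉₊ := ⟨_, rfl⟩
  have hZ1 : C3 * B ^ (d * ρ) ≤ Z := by rw [hZ]; exact Nat.le_ceil _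
  have hZ2 : (Z : ℝ) ≤ C3 * B ^ (d * ρ) + 1 := by
    rw [hZ]
    exact (Nat.ceil_lt_add_one (by positivity)).le
  obtain ⟨x, hx1, ⟨hx2, hx3⟩, hx4, hx5⟩ := core hW0 hW hr q hq hinj k α b hb E S hSE hEb hEq T T Z Y
    M l κ hT1 hT1 hY1' hET hl hld (by omega) (fun v hv => by have := hNB v hv; omega) Qd hQd hM
    (fun w j => by
      have := (hA0b w).2 j
      exact (mul_le_mul_of_nonneg_right this hl0r).trans hsz)
    (fun w => by
      have := (hA0b w).1
      exact (mul_le_mul_of_nonneg_right this hl0r).trans hsz)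
    hκ0 hκ1 hκα
    (by
      intro v hv i hvi
      have hne : (q i : K) ≠ 0 := by exact_mod_cast (hq i).ne_zero
      have h1 := v_le_inv v hne hvi
      have h2 : (N v)⁻¹ ≤ 1 / 2 := by
        have h3 : (2 : ℝ) ≤ N v := by
          rw [N_eq]
          exact_mod_cast Nn_pos v
        rw [one_div]
        exact inv_anti₀ (by norm_num) h3
      have h3 : ks ≤ k i := by
        rw [hk]
        exact Nat.le_floor (e5 i)
      calc v (q i : K) ^ k i ≤ (1 / 2 : ℝ) ^ k i :=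
            pow_le_pow_left₀ (by positivity) (h1.trans h2) _
        _ ≤ (1 / 2 : ℝ) ^ ks := pow_le_pow_of_le_one (by norm_num) (by norm_num) h3
        _ < κ := hks)
    C1 hC1
    (by
      intro j
      have h1 : C1 * ((Qd : ℝ) * Y / (q j : ℝ) ^ k j) ≤ C1 * Pq * B ^ (2 * ρ) := by
        rw [mul_assoc]
        refine mul_le_mul_of_nonneg_left ?_ (by linarith)
        refine (hval j).trans ?_
        have h2 : B ^ θ j ≤ B ^ (2 * ρ) := Real.rpow_le_rpow_of_exponent_le hB1.le (hθρ j)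
        exact mul_le_mul (hqPq j) h2 (by positivity) (by linarith)
      have h0 : 0 ≤ C1 * ((Qd : ℝ) * Y / (q j : ℝ) ^ k j) := by positivity
      rw [← hd]
      calc (C1 * ((Qd : ℝ) * Y / (q j : ℝ) ^ k j)) ^ d ≤ (C1 * Pq * B ^ (2 * ρ)) ^ d :=
            pow_le_pow_left₀ h0 h1 d
        _ = C3 * (B ^ (d * ρ)) ^ 2 := by
            rw [mul_pow, ← hC3]
            congr 1
            rw [← Real.rpow_natCast (B ^ (2 * ρ)), ← Real.rpow_natCast (B ^ (d * ρ)),
              ← Real.rpow_mul hB0.le, ← Real.rpow_mul hB0.le]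
            congr 1
            push_cast
            ring
        _ ≤ C3 ^ 2 * (B ^ (d * ρ)) ^ 2 := by
            refine mul_le_mul_of_nonneg_right ?_ (by positivity)
            rw [sq]
            exact le_mul_of_one_le_left (zero_le_one.trans hC3p) hC3p
        _ = (C3 * B ^ (d * ρ)) ^ 2 := by ring
        _ ≤ (Z : ℝ) ^ 2 := by gcongr)
    (by
      rw [← hd, ← hC0]
      have hYd : (0 : ℝ) < (Y : ℝ) ^ d := by
        have : (0 : ℝ) < Y := by exact_mod_cast hY1'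
        positivity
      have hYd2 : (1 / 2) ^ d * B ^ (d * σ) ≤ (Y : ℝ) ^ d := by
        have h1 : (B ^ σ / 2) ^ d ≤ (Y : ℝ) ^ d := pow_le_pow_left₀ (by positivity) hYσ d
        have h2 : (B ^ σ / 2) ^ d = (1 / 2) ^ d * B ^ (d * σ) := by
          rw [div_eq_mul_one_div, mul_pow, mul_comm, ← Real.rpow_natCast (B ^ σ),
            ← Real.rpow_mul hB0.le]
          congr 2
          ring
        rwa [h2] at h1
      have t1 : r * C0 * (d * ((Y : ℝ) ^ d / T)) ≤ (Y : ℝ) ^ d / 8 := by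
        have h1 : r * C0 * d / T ≤ 1 / 8 := by
          rw [div_le_div_iff₀ hT0 (by norm_num)]
          linarith
        calc r * C0 * (d * ((Y : ℝ) ^ d / T)) = (r * C0 * d / T) * (Y : ℝ) ^ d := by ring
          _ ≤ 1 / 8 * (Y : ℝ) ^ d := by gcongr
          _ = _ := by ring
      have t2 : r * C0 * (E.card * ((Y : ℝ) ^ d * κ)) ≤ (Y : ℝ) ^ d / 8 := by
        calc r * C0 * (E.card * ((Y : ℝ) ^ d * κ)) = (r * C0 * (E.card * κ)) * (Y : ℝ) ^ d := by ring
          _ ≤ 1 / 8 * (Y : ℝ) ^ d := mul_le_mul_of_nonneg_right hκE hYd.le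
          _ = _ := by ring
      have t3 : r * C0 * (d * Z + E.card + d) ≤ (Y : ℝ) ^ d / 2 := by
        have h1 : r * C0 * (d * Z + E.card + d) ≤
            r * C0 * (d * (C3 * B ^ (d * ρ) + 1) + E.card + d) := by gcongr
        have h2 : r * C0 * (d * (C3 * B ^ (d * ρ) + 1) + E.card + d) =
            r * C0 * (d * C3) * B ^ (d * ρ) + r * C0 * (d + E.card + d) := by ring
        rw [h2] at h1
        have h3 := h1.trans e6
        have h4 : 1 / 2 * (1 / 2) ^ d * B ^ (d * σ) ≤ (Y : ℝ) ^ d / 2 := by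
          have : 1 / 2 * (1 / 2) ^ d * B ^ (d * σ) = 1 / 2 * ((1 / 2) ^ d * B ^ (d * σ)) := by ring
          rw [this]
          linarith
        exact h3.trans h4
      have e : (r : ℝ) * (C0 * (((d : ℝ) * Z + d * ((Y : ℝ) ^ d / T)) +
          E.card * (1 + (Y : ℝ) ^ d * κ) + d * (1 + (Y : ℝ) ^ d / T))) =
          r * C0 * (d * Z + E.card + d) + r * C0 * (d * ((Y : ℝ) ^ d / T)) +
          r * C0 * (E.card * ((Y : ℝ) ^ d * κ)) + r * C0 * (d * ((Y : ℝ) ^ d / T)) := by ring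
      rw [e]
      linarith)
  rw [← hd] at hx2 hx3 hx4 hx5
  have hlog2 : 0 ≤ Real.log 2 := Real.log_nonneg (by norm_num)
  have hlog4 : Real.log 4 = 2 * Real.log 2 := by
    rw [show (4 : ℝ) = 2 ^ 2 by norm_num, Real.log_pow]
    push_cast
    ring
  have hlC1 : 0 ≤ Real.log C1 := Real.log_nonneg hC1p
  have hlPq : 0 ≤ Real.log Pq := Real.log_nonneg hPq1
  have hlκ : 0 ≤ Real.log κ⁻¹ := Real.log_nonneg ((one_le_inv₀ hκ0).2 hκ1)
  have hlPE := log_PP_nonneg (E : Set (FinitePlace K))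
  have hEκ : 0 ≤ (E.card : ℝ) * Real.log κ⁻¹ := by positivity
  have hQY0 : (0 : ℝ) < Qd * Y := by linarith
  have hlQY1 : Real.log ((Qd : ℝ) * Y) ≤ Real.log B := Real.log_le_log hQY0 hQY1
  have hlQY2 : Real.log B - Real.log 2 ≤ Real.log ((Qd : ℝ) * Y) := by
    rw [← Real.log_div hB0.ne' (by norm_num)]
    exact Real.log_le_log (by positivity) hQY2
  have hdC1 : 0 ≤ (d : ℝ) * Real.log C1 := by positivity
  have hdPq : 0 ≤ (d : ℝ) * Real.log Pq := by positivity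
  have hd2 : 0 ≤ (d : ℝ) * Real.log 2 := by positivity
  have hab := le_abs_self (Real.log (nm (b : K)))
  have hab0 := abs_nonneg (Real.log (nm (b : K)))
  refine ⟨x, fun j => by rw [← haα j]; exact hx1 j, ?_, fun j => ?_, ?_⟩
  · rw [← hd, abs_le, hC, hlog4]
    rw [Real.log_mul (by linarith) hQY0.ne'] at hx3
    have g1 := mul_le_mul_of_nonneg_left hlQY1 hd0.le
    have g2 := mul_le_mul_of_nonneg_left hlQY2 hd0.le
    constructor
    · linarith only [g2, hx2, hab, hdC1, hdPq, hEκ, hlPE, hd2]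
    · linarith only [g1, hx3, hab0, hdC1, hdPq, hEκ, hlPE, hd2]
  · obtain ⟨h1, h2⟩ := hx4 j
    rw [haα j] at h1 h2
    have hqk : (0 : ℝ) < (q j : ℝ) ^ k j := by have := hq1 j; positivity
    have hR0 : (0 : ℝ) < (Qd : ℝ) * Y / (q j : ℝ) ^ k j := by positivity
    have hBθ : 0 < B ^ θ j := by positivity
    have g1 : Real.log ((Qd : ℝ) * Y / (q j : ℝ) ^ k j) ≤ Real.log Pq + θ j * Real.log B := by
      have h3 := Real.log_le_log hR0 ((hval j).trans
        (mul_le_mul_of_nonneg_right (hqPq j) hBθ.le))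
      rwa [Real.log_mul (by linarith) hBθ.ne', Real.log_rpow hB0] at h3
    have g2 : θ j * Real.log B - Real.log 2 ≤ Real.log ((Qd : ℝ) * Y / (q j : ℝ) ^ k j) := by
      have h3 := Real.log_le_log (by positivity) (hval' j)
      rwa [Real.log_div hBθ.ne' (by norm_num), Real.log_rpow hB0] at h3
    rw [Real.log_mul (by linarith) hR0.ne'] at h2
    have g3 := mul_le_mul_of_nonneg_left g1 hd0.le
    have g4 := mul_le_mul_of_nonneg_left g2 hd0.le
    rw [← hd, abs_le, hC, hlog4]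
    constructor
    · linarith only [g4, h1, hab0, hdC1, hdPq, hEκ, hlPE, hd2]
    · linarith only [g3, h2, hab0, hdC1, hdPq, hEκ, hlPE, hd2]
  · have hl0 : (0 : ℝ) < l := by linarith
    have hBτ : 0 < B ^ τ := by positivity
    have g1 : τ * Real.log B ≤ Real.log l := by
      have := Real.log_le_log hBτ hlB1
      rwa [Real.log_rpow hB0] at this
    have g2 : Real.log l ≤ 2 * Real.log 2 + τ * Real.log B := by
      have := Real.log_le_log hl0 hlB2
      rwa [Real.log_mul (by norm_num) hBτ.ne', Real.log_rpow hB0, hlog4] at this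
    have g3 := mul_le_mul_of_nonneg_left g1 hd0.le
    have g4 := mul_le_mul_of_nonneg_left g2 hd0.le
    rw [abs_le] at hx5
    rw [← hd, abs_le, hC, hlog4]
    constructor
    · linarith only [g3, hx5.1, hab0, hdC1, hdPq, hEκ, hlPE, hd2]
    · linarith only [g4, hx5.2, hab0, hdC1, hdPq, hEκ, hlPE, hd2]

end Pool.Agent.Q272.LP
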