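import Pool.Agent.Q272.LP.G

/-! # Joint limit points -/

set_option autoImplicit false

open NumberField Height Function Filter

namespace Pool.Agent.Q272.LP

open Q241.AK Q265.NF Q265.BM

variable {K : Type*} [Field K] [NumberField K]

/-- joint limit points -/
def JL {r : ℕ} (S : Finset (FinitePlace K)) (a : Fin r → K) (θ : Fin r → ℝ) (τ : ℝ) : Prop :=
  ∀ η : ℝ, 0 < η → ∀ H : ℝ, ∃ x : K, (∀ j, x ≠ a j) ∧ H < logHeight₁ x ∧
    (∀ j, |Real.log (PP (Ms S (a j) x)) - θ j * logHeight₁ x| ≤ η * logHeight₁ x) ∧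
    |Real.log (PP (Mi S x)) - τ * logHeight₁ x| ≤ η * logHeight₁ x

/-- limit points of the total counting function -/
def LL {r : ℕ} (S : Finset (FinitePlace K)) (a : Fin r → K) (s : ℝ) : Prop :=
  ∀ η : ℝ, 0 < η → ∀ H : ℝ, ∃ x : K, (∀ j, x ≠ a j) ∧ H < logHeight₁ x ∧
    |Cn S a x - s * logHeight₁ x| ≤ η * logHeight₁ x

theorem joint {r : ℕ} (hr : 0 < r) (a : Fin r → K) (ha : Injective a)
    (S : Finset (FinitePlace K)) (θ : Fin r → ℝ) (τ : ℝ) (hθ : ∀ j, 0 ≤ θ j ∧ θ j ≤ 1)
    (hτ : 0 ≤ τ ∧ τ ≤ 1) (hσ : ∀ j, (r - 1) + θ j / 2 ≤ ∑ i, θ i) : JL S a θ τ := by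
  intro η hη H
  obtain ⟨d, hd⟩ : ∃ d, d = Module.finrank ℚ K := ⟨_, rfl⟩
  have hd1 : 1 ≤ d := by rw [hd]; exact Module.finrank_pos
  have hd0 : (0 : ℝ) < d := by exact_mod_cast hd1
  have hr1 : (1 : ℝ) ≤ r := by exact_mod_cast hr
  obtain ⟨c, hc⟩ : ∃ c : ℝ, c = 1 - 1 / (4 * r) := ⟨_, rfl⟩
  have hcr : r * c = r - 1 / 4 := by rw [hc]; field_simp
  have hc1 : c < 1 := by
    rw [hc]
    have : (0 : ℝ) < 1 / (4 * r) := by positivity
    linarith
  have hc0 : 0 < c := by
    rw [hc]
    have : 1 / (4 * (r : ℝ)) ≤ 1 / 4 := by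
      rw [div_le_div_iff₀ (by positivity) (by norm_num)]
      linarith
    linarith
  obtain ⟨δ, hδ⟩ : ∃ δ : ℝ, δ = min (η / 2) (1 / 2) := ⟨_, rfl⟩
  have hδ0 : 0 < δ := by rw [hδ]; exact lt_min (by linarith) (by norm_num)
  have hδη : δ ≤ η / 2 := by rw [hδ]; exact min_le_left _ _
  have hδ1 : δ ≤ 1 / 2 := by rw [hδ]; exact min_le_right _ _
  obtain ⟨θ', hθ'⟩ : ∃ θ' : Fin r → ℝ, θ' = fun j => (1 - δ) * θ j + δ * c := ⟨_, rfl⟩
  obtain ⟨τ', hτ'⟩ : ∃ τ' : ℝ, τ' = (1 - δ) * τ + δ * (1 / 2) := ⟨_, rfl⟩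
  have hsum : ∑ i, θ' i = (1 - δ) * (∑ i, θ i) + δ * (r * c) := by
    rw [hθ', Finset.sum_add_distrib, ← Finset.mul_sum, Finset.sum_const, Finset.card_univ,
      Fintype.card_fin, nsmul_eq_mul]
    ring
  obtain ⟨C, hC⟩ := build hr a ha S θ' τ'
    (fun j => by
      have h1 := (hθ j).1
      have h2 := (hθ j).2
      rw [hθ']
      have g1 : 0 ≤ (1 - δ) * θ j := mul_nonneg (by linarith) h1
      have g2 : (1 - δ) * θ j ≤ (1 - δ) * 1 := mul_le_mul_of_nonneg_left h2 (by linarith)
      have g3 : 0 < δ * c := mul_pos hδ0 hc0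
      have g4 : δ * c < δ * 1 := mul_lt_mul_of_pos_left hc1 hδ0
      constructor
      · linarith
      · linarith)
    (by
      rw [hτ']
      have g1 : 0 ≤ (1 - δ) * τ := mul_nonneg (by linarith) hτ.1
      have g2 : (1 - δ) * τ ≤ (1 - δ) * 1 := mul_le_mul_of_nonneg_left hτ.2 (by linarith)
      constructor
      · linarith
      · linarith)
    (fun j => by
      rw [hsum, hcr, hθ']
      have h1 := mul_le_mul_of_nonneg_left (hσ j) (by linarith : (0 : ℝ) ≤ 1 - δ)
      have g4 : δ * c < δ * 1 := mul_lt_mul_of_pos_left hc1 hδ0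
      show ((1 - δ) * θ j + δ * c) / 2 < _
      linarith)
  have hlog := (Real.tendsto_log_atTop.const_mul_atTop hd0).eventually
    (eventually_gt_atTop (|C| + |H| + 4 * |C| / η))
  obtain ⟨B, ⟨x, hx1, hx2, hx3, hx4⟩, hB⟩ := (hC.and hlog).exists
  rw [← hd] at hx2 hx3 hx4
  have hC0 := abs_nonneg C
  have hCC := le_abs_self C
  have hHH := le_abs_self H
  have hH0 := abs_nonneg H
  have hη0 : 0 ≤ 4 * |C| / η := by positivity
  rw [abs_le] at hx2
  have hht : |H| + 4 * |C| / η < logHeight₁ x := by linarith [hx2.1]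
  have hh0 : 0 < logHeight₁ x := by linarith
  have h4C : 4 * |C| ≤ η * logHeight₁ x := by
    have h1 : 4 * |C| / η ≤ logHeight₁ x := by linarith
    rw [div_le_iff₀ hη] at h1
    linarith
  have hδh : δ * logHeight₁ x ≤ η / 2 * logHeight₁ x := by gcongr
  -- generic estimate
  have gen : ∀ (L t t' : ℝ), 0 ≤ t' → t' ≤ 1 → |t' - t| ≤ δ →
      |L - d * (t' * Real.log B)| ≤ C → |L - t * logHeight₁ x| ≤ η * logHeight₁ x := by
    intro L t t' h0 h1 h2 h3
    rw [abs_le] at h2 h3
    have g1 : |t' * (d * Real.log B - logHeight₁ x)| ≤ |C| := by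
      rw [abs_mul, abs_of_nonneg h0]
      have : |d * Real.log B - logHeight₁ x| ≤ |C| := by
        rw [abs_le]
        constructor <;> linarith [hx2.1, hx2.2]
      calc t' * |d * Real.log B - logHeight₁ x| ≤ 1 * |C| := by gcongr
        _ = |C| := one_mul _
    rw [abs_le] at g1
    have g2 : (t' - t) * logHeight₁ x ≤ δ * logHeight₁ x :=
      mul_le_mul_of_nonneg_right h2.2 hh0.le
    have g3 : -δ * logHeight₁ x ≤ (t' - t) * logHeight₁ x :=
      mul_le_mul_of_nonneg_right h2.1 hh0.le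
    rw [abs_le]
    constructor
    · linarith [g1.1, h3.1]
    · linarith [g1.2, h3.2]
  refine ⟨x, hx1, by linarith, fun j => ?_, ?_⟩
  · refine gen _ (θ j) (θ' j) ?_ ?_ ?_ (hx3 j)
    · rw [hθ']
      exact add_nonneg (mul_nonneg (by linarith) (hθ j).1) (by positivity)
    · rw [hθ']
      have g2 : (1 - δ) * θ j ≤ (1 - δ) * 1 := mul_le_mul_of_nonneg_left (hθ j).2 (by linarith)
      have g4 : δ * c < δ * 1 := mul_lt_mul_of_pos_left hc1 hδ0
      show (1 - δ) * θ j + δ * c ≤ 1
      linarith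
    · have e : θ' j - θ j = δ * (c - θ j) := by rw [hθ']; ring
      rw [e, abs_mul, abs_of_pos hδ0]
      have : |c - θ j| ≤ 1 := by
        rw [abs_le]
        constructor <;> linarith [(hθ j).1, (hθ j).2]
      exact mul_le_of_le_one_right hδ0.le this
  · refine gen _ τ τ' ?_ ?_ ?_ hx4
    · rw [hτ']
      exact add_nonneg (mul_nonneg (by linarith) hτ.1) (by positivity)
    · rw [hτ']
      have g2 : (1 - δ) * τ ≤ (1 - δ) * 1 := mul_le_mul_of_nonneg_left hτ.2 (by linarith)
      linarith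
    · have e : τ' - τ = δ * (1 / 2 - τ) := by rw [hτ']; ring
      rw [e, abs_mul, abs_of_pos hδ0]
      have : |1 / 2 - τ| ≤ 1 := by
        rw [abs_le]
        constructor <;> linarith [hτ.1, hτ.2]
      exact mul_le_of_le_one_right hδ0.le this

theorem JL.total {r : ℕ} {S : Finset (FinitePlace K)} {a : Fin r → K} {θ : Fin r → ℝ} {τ : ℝ}
    (h : JL S a θ τ) : LL S a ((∑ i, θ i) + τ) := by
  intro η hη H
  have hr0 : (0 : ℝ) ≤ r := Nat.cast_nonneg r
  obtain ⟨x, h1, h2, h3, h4⟩ := h (η / (r + 1)) (by positivity) (max H 0)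
  have hh : 0 < logHeight₁ x := lt_of_le_of_lt (le_max_right _ _) h2
  refine ⟨x, h1, lt_of_le_of_lt (le_max_left _ _) h2, ?_⟩
  have e : Cn S a x - ((∑ i, θ i) + τ) * logHeight₁ x =
      (∑ i, (Real.log (PP (Ms S (a i) x)) - θ i * logHeight₁ x)) +
      (Real.log (PP (Mi S x)) - τ * logHeight₁ x) := by
    unfold Cn
    rw [Finset.sum_sub_distrib, ← Finset.sum_mul]
    ring
  rw [e]
  refine (abs_add_le _ _).trans ?_
  have g1 : |∑ i, (Real.log (PP (Ms S (a i) x)) - θ i * logHeight₁ x)| ≤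
      r * (η / (r + 1) * logHeight₁ x) := by
    refine (Finset.abs_sum_le_sum_abs _ _).trans ?_
    have := Finset.sum_le_sum (s := Finset.univ) fun i (_ : i ∈ Finset.univ) => h3 i
    rw [Finset.sum_const, Finset.card_univ, Fintype.card_fin, nsmul_eq_mul] at this
    exact this
  have e2 : r * (η / (r + 1) * logHeight₁ x) + η / (r + 1) * logHeight₁ x =
      η * logHeight₁ x := by
    field_simp
  linarith

/-- the range of the totals -/
theorem range {r : ℕ} (hr : 0 < r) (a : Fin r → K) (ha : Injective a)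
    (S : Finset (FinitePlace K)) (s : ℝ) (h1 : 2 * r * (r - 1) / (2 * r - 1) ≤ s)
    (h2 : s ≤ r + 1) : LL S a s := by
  have hr1 : (1 : ℝ) ≤ r := by exact_mod_cast hr
  have hd : (0 : ℝ) < 2 * r - 1 := by linarith
  have key : ∀ c τ : ℝ, 0 ≤ c → c ≤ 1 → 0 ≤ τ → τ ≤ 1 → (r - 1) + c / 2 ≤ r * c →
      LL S a (r * c + τ) := by
    intro c τ hc0 hc1 ht0 ht1 hc
    have e : r * c = ∑ _i : Fin r, c := by
      rw [Finset.sum_const, Finset.card_univ, Fintype.card_fin, nsmul_eq_mul]
    have := (joint hr a ha S (fun _ => c) τ (fun _ => ⟨hc0, hc1⟩) ⟨ht0, ht1⟩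
      (fun _ => by rw [← e]; exact hc)).total
    rwa [← e] at this
  rcases le_or_gt s r with hs | hs
  · have hs0 : 0 ≤ s := le_trans (div_nonneg (by nlinarith) hd.le) h1
    have := key (s / r) 0 (by positivity) (by rw [div_le_one (by linarith)]; exact hs) le_rfl
      zero_le_one (by
        rw [mul_div_cancel₀ _ (by linarith : (r : ℝ) ≠ 0)]
        rw [div_le_iff₀ hd] at h1
        have h3 : (r - 1) * r + s / 2 ≤ s * r := by nlinarith
        have h4 : (r - 1) + s / r / 2 = ((r - 1) * r + s / 2) / r := by field_simp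
        rw [h4, div_le_iff₀ (by linarith)]
        exact h3)
    rwa [mul_div_cancel₀ _ (by linarith : (r : ℝ) ≠ 0), add_zero] at this
  · have := key 1 (s - r) zero_le_one le_rfl (by linarith) (by linarith) (by linarith)
    rwa [mul_one, add_sub_cancel] at this

/-! ### Disjointness -/

/-- the primes at which `x` meets one of the points -/
def UU {r : ℕ} (S : Finset (FinitePlace K)) (a : Fin r → K) (x : K) : Set (FinitePlace K) :=
  (⋃ j, Ms S (a j) x) ∪ Mi S x

lemma PP_disjU {m : ℕ} (f : Fin m → Set (FinitePlace K)) (hf : ∀ i, (f i).Finite)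
    (hd : ∀ i j, i ≠ j → Disjoint (f i) (f j)) :
    ∑ i, Real.log (PP (f i)) ≤ Real.log (PP (⋃ i, f i)) := by
  induction m with
  | zero =>
    rw [Finset.univ_eq_empty, Finset.sum_empty]
    exact log_PP_nonneg _
  | succ m ih =>
    rw [Fin.sum_univ_succ]
    have h1 := ih (fun i => f i.succ) (fun i => hf i.succ)
      (fun i j hij => hd _ _ fun h => hij (Fin.succ_injective _ h))
    have h2 : Disjoint (f 0) (⋃ i : Fin m, f i.succ) := by
      rw [Set.disjoint_iUnion_right]
      exact fun i => hd _ _ (Fin.succ_ne_zero i).symm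
    have h3 := PP_disj (hf 0) (Set.finite_iUnion fun i : Fin m => hf i.succ) h2
    have h4 : (f 0 ∪ ⋃ i : Fin m, f i.succ) = ⋃ i, f i := by
      ext v
      simp only [Set.mem_union, Set.mem_iUnion]
      constructor
      · rintro (h | ⟨i, h⟩)
        · exact ⟨0, h⟩
        · exact ⟨i.succ, h⟩
      · rintro ⟨i, h⟩
        refine Fin.cases (fun h => Or.inl h) (fun i h => Or.inr ⟨i, h⟩) i h
    rw [h4] at h3
    linarith

lemma PP_close2 {A B : Set (FinitePlace K)} (hA : A.Finite) (hB : B.Finite)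
    (E : Finset (FinitePlace K)) (h1 : ∀ v ∉ E, (v ∈ A ↔ v ∈ B)) :
    |Real.log (PP A) - Real.log (PP B)| ≤ Real.log (PP (E : Set (FinitePlace K))) := by
  have g1 := PP_log (T := A) hB E.finite_toSet (fun v hv => by
    by_cases hE : v ∈ E
    · exact Or.inr hE
    · exact Or.inl ((h1 v hE).1 hv))
  have g2 := PP_log (T := B) hA E.finite_toSet (fun v hv => by
    by_cases hE : v ∈ E
    · exact Or.inr hE
    · exact Or.inl ((h1 v hE).2 hv))
  rw [abs_le]
  constructor <;> linarith

lemma exc {r : ℕ} (a : Fin r → K) (ha : Injective a) : ∃ E : Finset (FinitePlace K),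
    (∀ v ∉ E, ∀ i, v (a i) ≤ 1) ∧ ∀ v ∉ E, ∀ i j, i ≠ j → v (a i - a j) = 1 := by
  classical
  have h1 : ∀ i, {v : FinitePlace K | 1 < v (a i)}.Finite := by
    intro i
    refine (suppM (a i)).subset fun v hv => ?_
    rw [mem_mulSupport]
    have h2 : 1 < v (a i) := hv
    rw [max_eq_left h2.le]
    exact h2.ne'
  have h2 : ∀ p : Fin r × Fin r, {v : FinitePlace K | p.1 ≠ p.2 ∧ v (a p.1 - a p.2) ≠ 1}.Finite := by
    intro p
    by_cases hp : p.1 = p.2
    · refine Set.finite_empty.subset fun v hv => ?_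
      exact absurd hp hv.1
    · exact (FinitePlace.hasFiniteMulSupport (sub_ne_zero.2 fun h => hp (ha h))).subset
        fun v hv => hv.2
  refine ⟨(Finset.univ.biUnion fun i => (h1 i).toFinset) ∪
    Finset.univ.biUnion fun p => (h2 p).toFinset, fun v hv i => ?_, fun v hv i j hij => ?_⟩
  · by_contra hc
    push Not at hc
    apply hv
    simp only [Finset.mem_union, Finset.mem_biUnion, Set.Finite.mem_toFinset]
    exact Or.inl ⟨i, Finset.mem_univ i, hc⟩
  · by_contra hc
    apply hv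
    simp only [Finset.mem_union, Finset.mem_biUnion, Set.Finite.mem_toFinset]
    exact Or.inr ⟨(i, j), Finset.mem_univ _, hij, hc⟩

lemma UU_fin {r : ℕ} (S : Finset (FinitePlace K)) {a : Fin r → K} {x : K} (hx : ∀ j, x ≠ a j) :
    (UU S a x).Finite :=
  (Set.finite_iUnion fun j => Ms_fin S (hx j)).union (Mi_fin S x)

lemma meets_good (v : FinitePlace K) {a x : K} (ha : v a ≤ 1) :
    Meets v a x ↔ v (x - a) < 1 := by
  unfold Meets
  rw [max_eq_right ha, mul_one]
  constructor
  · intro h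
    have hx : v x ≤ 1 := by
      by_contra hc
      push Not at hc
      rw [max_eq_left hc.le] at h
      have h1 := FinitePlace.add_le v (x - a) a
      rw [sub_add_cancel] at h1
      rcases le_total (v (x - a)) (v a) with h2 | h2
      · rw [max_eq_right h2] at h1
        linarith
      · rw [max_eq_left h2] at h1
        linarith
    rwa [max_eq_right hx] at h
  · intro h
    exact lt_of_lt_of_le h (le_max_right _ _)

theorem union_est {r : ℕ} (S : Finset (FinitePlace K)) (a : Fin r → K) (ha : Injective a) :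
    ∃ C : ℝ, ∀ x : K, (∀ j, x ≠ a j) → |Cn S a x - Real.log (PP (UU S a x))| ≤ C := by
  classical
  obtain ⟨E, hE1, hE2⟩ := exc a ha
  obtain ⟨e, he⟩ : ∃ e : ℝ, e = Real.log (PP (E : Set (FinitePlace K))) := ⟨_, rfl⟩
  have he0 : 0 ≤ e := by rw [he]; exact log_PP_nonneg _
  refine ⟨(r + 1) * e, fun x hx => ?_⟩
  have hup : Real.log (PP (UU S a x)) ≤ Cn S a x := by
    have h1 := PP_log (T := UU S a x) (Set.finite_iUnion fun j => Ms_fin S (hx j)) (Mi_fin S x)
      subset_rfl
    have h2 := PP_biUnion (fun j => Ms S (a j) x) (fun j => Ms_fin S (hx j))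
    unfold Cn
    linarith
  have hlow : Cn S a x ≤ Real.log (PP (UU S a x)) + (r + 1) * e := by
    have h1 : ∀ j, Real.log (PP (Ms S (a j) x)) ≤ Real.log (PP (Ms S (a j) x \ E)) + e := by
      intro j
      rw [he]
      refine PP_log ((Ms_fin S (hx j)).subset Set.sdiff_subset) E.finite_toSet fun v hv => ?_
      by_cases h : v ∈ E
      · exact Or.inr h
      · exact Or.inl ⟨hv, h⟩
    have h2 : Real.log (PP (Mi S x)) ≤ Real.log (PP (Mi S x \ E)) + e := by
      rw [he]
      refine PP_log ((Mi_fin S x).subset Set.sdiff_subset) E.finite_toSet fun v hv => ?_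
      by_cases h : v ∈ E
      · exact Or.inr h
      · exact Or.inl ⟨hv, h⟩
    have h3 := PP_disjU (fun j => Ms S (a j) x \ E)
      (fun j => (Ms_fin S (hx j)).subset Set.sdiff_subset) (by
        intro i j hij
        rw [Set.disjoint_left]
        rintro v ⟨hv1, hvE⟩ ⟨hv2, -⟩
        have g1 := (meets_good v (hE1 v hvE i)).1 hv1.2
        have g2 := (meets_good v (hE1 v hvE j)).1 hv2.2
        have g3 := fsub v (x - a j) (x - a i)
        rw [show x - a j - (x - a i) = a i - a j by ring, hE2 v hvE i j hij] at g3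
        exact absurd (lt_of_le_of_lt g3 (max_lt g2 g1)) (lt_irrefl _))
    have h4 := PP_disj (A := ⋃ j, (Ms S (a j) x \ (E : Set (FinitePlace K)))) (B := Mi S x \ E)
      (Set.finite_iUnion fun j => (Ms_fin S (hx j)).subset Set.sdiff_subset)
      ((Mi_fin S x).subset Set.sdiff_subset) (by
        rw [Set.disjoint_left]
        rintro v hv ⟨hv2, hvE⟩
        rw [Set.mem_iUnion] at hv
        obtain ⟨j, hv1, -⟩ := hv
        have g1 := (meets_good v (hE1 v hvE j)).1 hv1.2
        have g2 := hv2.2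
        have g3 := FinitePlace.add_le v (x - a j) (a j)
        rw [sub_add_cancel] at g3
        have g4 := hE1 v hvE j
        have := max_le g1.le g4
        linarith)
    have h5 : Real.log (PP ((⋃ j, (Ms S (a j) x \ (E : Set (FinitePlace K)))) ∪ (Mi S x \ E))) ≤
        Real.log (PP (UU S a x)) := by
      refine PP_mono (UU_fin S hx) ?_
      refine Set.union_subset_union ?_ Set.sdiff_subset
      exact Set.iUnion_mono fun j => Set.sdiff_subset
    have h6 := Finset.sum_le_sum (s := Finset.univ) fun j (_ : j ∈ Finset.univ) => h1 j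
    rw [Finset.sum_add_distrib, Finset.sum_const, Finset.card_univ, Fintype.card_fin,
      nsmul_eq_mul] at h6
    unfold Cn
    linarith
  rw [abs_le]
  have : 0 ≤ ((r : ℝ) + 1) * e := by positivity
  constructor <;> linarith

end Pool.Agent.Q272.LP
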