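import Pool.Agent.Q272.LP.Lim2

/-!
# The height `max (4 |a|³) (27 b²)`: size axioms, bounds and examples
-/

set_option autoImplicit false

namespace Pool.Agent.Q272.LP

open Finset

/-- the height of the model `y² = x³ - a x - b` -/
noncomputable def Hs (a b : ℤ) : ℝ := max (4 * |(a : ℝ)| ^ 3) (27 * (b : ℝ) ^ 2)

theorem hs_nonneg (a b : ℤ) : 0 ≤ Hs a b := le_max_of_le_left (by positivity)

theorem absD_le (a b : ℤ) : absD a b ≤ 2 * Hs a b := by
  unfold absD Disc Hs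
  push_cast
  calc |4 * (a : ℝ) ^ 3 - 27 * (b : ℝ) ^ 2| ≤ |4 * (a : ℝ) ^ 3| + |27 * (b : ℝ) ^ 2| := abs_sub _ _
    _ = 4 * |(a : ℝ)| ^ 3 + 27 * (b : ℝ) ^ 2 := by
        rw [abs_mul, abs_mul, abs_pow, abs_of_nonneg (sq_nonneg (b : ℝ))]
        norm_num
    _ ≤ _ := by
        have h1 := le_max_left (4 * |(a : ℝ)| ^ 3) (27 * (b : ℝ) ^ 2)
        have h2 := le_max_right (4 * |(a : ℝ)| ^ 3) (27 * (b : ℝ) ^ 2)
        linarith

theorem hs_one {a b : ℤ} (h : Disc a b ≠ 0) : 1 ≤ Hs a b := by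
  have h1 : (1 : ℝ) ≤ absD a b := by
    rw [absD_eq]
    exact_mod_cast Int.natAbs_pos.mpr h
  by_cases ha : a = 0
  · have hb : b ≠ 0 := by
      rintro rfl
      apply h
      rw [ha]
      unfold Disc
      norm_num
    have h2 : (1 : ℝ) ≤ (b : ℝ) ^ 2 := by
      have : 1 ≤ b ^ 2 := by
        have := sq_pos_of_ne_zero hb
        omega
      exact_mod_cast this
    exact (by linarith : (1 : ℝ) ≤ 27 * (b : ℝ) ^ 2).trans (le_max_right _ _)
  · have h2 : (1 : ℝ) ≤ |(a : ℝ)| := by exact_mod_cast Int.one_le_abs ha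
    have h3 : (1 : ℝ) ≤ |(a : ℝ)| ^ 3 := one_le_pow₀ h2
    exact (by linarith : (1 : ℝ) ≤ 4 * |(a : ℝ)| ^ 3).trans (le_max_left _ _)

theorem size_hs : Size Hs (Real.log 2) where
  one := fun a b h => hs_one h.1
  twist := by
    intro a b l
    unfold Hs
    push_cast
    rw [abs_mul, abs_of_nonneg (by positivity : (0 : ℝ) ≤ (l : ℝ) ^ 2),
      mul_max_of_nonneg _ _ (by positivity : (0 : ℝ) ≤ (l : ℝ) ^ 6)]
    congr 1 <;> ring
  disc := by
    intro a b h
    have h1 : (1 : ℝ) ≤ absD a b := by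
      rw [absD_eq]
      exact_mod_cast Int.natAbs_pos.mpr h.1
    have h2 := Real.log_le_log (by linarith) (absD_le a b)
    rw [Real.log_mul (by norm_num) (by have := hs_one h.1; linarith)] at h2
    unfold absD at h2
    linarith
  c0 := Real.log_nonneg (by norm_num)

theorem hs_zero (b : ℤ) : Hs 0 b = absD 0 b := by
  unfold Hs absD Disc
  push_cast
  norm_num
  exact sq_nonneg _

theorem hs_zero' (a : ℤ) : Hs a 0 = absD a 0 := by
  unfold Hs absD Disc
  push_cast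
  norm_num

theorem lim_congr {Φ Ψ N : ℤ → ℤ → ℝ} {P : ℤ → ℤ → Prop}
    (h : ∀ a b, IsMinimal a b → P a b → Φ a b = Ψ a b) (x : ℝ) :
    LimPt Φ N P x ↔ LimPt Ψ N P x := by
  constructor
  · intro hx ε M hε
    obtain ⟨a, b, h1, h2, h3, h4⟩ := hx ε M hε
    exact ⟨a, b, h1, h2, h3, by rwa [← h a b h1 h2]⟩
  · intro hx ε M hε
    obtain ⟨a, b, h1, h2, h3, h4⟩ := hx ε M hε
    exact ⟨a, b, h1, h2, h3, by rwa [h a b h1 h2]⟩

/-- bounds for the height from below -/
theorem log_absD_le (a b : ℤ) (h : IsMinimal a b) :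
    Real.log (absD a b) ≤ Real.log (Hs a b) + Real.log 2 := size_hs.disc a b h

theorem lowH_all (a b : ℤ) (h : IsMinimal a b) :
    Real.log (N6 a b) ≤ Real.log (Hs a b) + Real.log 2 :=
  (low_all a b h).trans (log_absD_le a b h)

theorem lowH_full (a b : ℤ) (h : IsMinimal a b) (hf : FullTwoTorsion a b) :
    2 * Real.log (N6 a b) ≤ Real.log (Hs a b) + Real.log 2 :=
  (low_full a b h hf).trans (log_absD_le a b h)

/-- the discriminant with a rational point of order two -/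
theorem cond_two_dvd {a b r : ℤ} (hD : Disc a b ≠ 0) (hr : r ^ 3 - a * r - b = 0) :
    Cond6 a b ∣ ((3 * r ^ 2 - a) * (4 * a - 3 * r ^ 2)).natAbs := by
  have e : Disc a b = (3 * r ^ 2 - a) ^ 2 * (4 * a - 3 * r ^ 2) := by
    have hb : b = r ^ 3 - a * r := by linarith
    rw [hb]
    unfold Disc
    ring
  have hA : 3 * r ^ 2 - a ≠ 0 := by
    intro h0
    apply hD
    rw [e, h0]
    ring
  have hB : 4 * a - 3 * r ^ 2 ≠ 0 := by
    intro h0
    apply hD
    rw [e, h0]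
    ring
  have hAB : (3 * r ^ 2 - a) * (4 * a - 3 * r ^ 2) ≠ 0 := mul_ne_zero hA hB
  rw [← Nat.factorization_prime_le_iff_dvd (cond6_ne a b) (Int.natAbs_ne_zero.mpr hAB)]
  intro p hp
  have hpp := Nat.prime_iff_prime_int.mp hp
  rw [fact_cond hD hp]
  change _ ≤ V p ((3 * r ^ 2 - a) * (4 * a - 3 * r ^ 2))
  split_ifs with h5 h6
  · have hb := dvd_b hp h5.1 h5.2 h6
    have hrp : (p : ℤ) ∣ r := by
      refine hpp.dvd_of_dvd_pow (n := 3) ?_
      have : r ^ 3 = a * r + b := by linarith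
      rw [this]
      exact dvd_add (Dvd.dvd.mul_right h6 _) hb
    rw [← V_pow_dvd hp hAB, pow_two]
    refine mul_dvd_mul (dvd_sub (Dvd.dvd.mul_left (dvd_pow hrp (by norm_num)) _) h6)
      (dvd_sub (Dvd.dvd.mul_left h6 _) (Dvd.dvd.mul_left (dvd_pow hrp (by norm_num)) _))
  · rw [← V_dvd hp hAB]
    have h7 := h5.2
    rw [e] at h7
    rcases hpp.dvd_or_dvd h7 with h8 | h8
    · exact Dvd.dvd.mul_right (hpp.dvd_of_dvd_pow h8) _
    · exact Dvd.dvd.mul_left h8 _
  · exact Nat.zero_le _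

theorem root_le {a b r : ℝ} (hr : r ^ 3 - a * r - b = 0) :
    (r ^ 2) ^ 3 ≤ 4 * (4 * |a| ^ 3 + 27 * b ^ 2) := by
  -- `r³ = a r + b`
  by_cases h : r ^ 2 ≤ 2 * |a|
  · have h1 : (r ^ 2) ^ 3 ≤ (2 * |a|) ^ 3 := by gcongr
    have h2 : 0 ≤ |a| ^ 3 := by positivity
    nlinarith [sq_nonneg b]
  · push Not at h
    have h1 : r ^ 2 * |r| = |a * r + b| := by
      have : a * r + b = r ^ 3 := by linarith
      rw [this, abs_pow, ← sq_abs]
      ring
    have h2 : |a * r + b| ≤ |a| * |r| + |b| := by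
      rw [← abs_mul]
      exact abs_add_le _ _
    have h3 : |a| * |r| ≤ r ^ 2 / 2 * |r| := by
      gcongr
      linarith
    have h4 : r ^ 2 * |r| ≤ 2 * |b| := by linarith
    have h5 : (r ^ 2 * |r|) ^ 2 ≤ (2 * |b|) ^ 2 := by gcongr
    have e1 : (r ^ 2 * |r|) ^ 2 = (r ^ 2) ^ 3 := by
      rw [mul_pow, sq_abs]
      ring
    have e2 : (2 * |b|) ^ 2 = 4 * b ^ 2 := by
      rw [mul_pow, sq_abs]
      ring
    rw [e1, e2] at h5
    have h6 : 0 ≤ |a| ^ 3 := by positivity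
    nlinarith [sq_nonneg b]

theorem lowH_two (a b : ℤ) (h : IsMinimal a b) (ht : TwoTorsion a b) :
    3 / 2 * Real.log (N6 a b) ≤ Real.log (Hs a b) + Real.log (100 ^ 3) / 2 := by
  obtain ⟨q, hq⟩ := ht
  obtain ⟨r, hr⟩ := int_root a b q hq
  rw [← hr] at hq
  have hrZ : r ^ 3 - a * r - b = 0 := by exact_mod_cast hq
  have hrR : (r : ℝ) ^ 3 - a * r - b = 0 := by exact_mod_cast hrZ
  have h1 := cond_two_dvd h.1 hrZ
  have hH1 := hs_one h.1
  have hN1 := N6_one a b
  set H := Hs a b with hH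
  -- `|a|³ ≤ H`, `(r²)³ ≤ 8 H`
  have ha3 : |(a : ℝ)| ^ 3 ≤ H := by
    have : 4 * |(a : ℝ)| ^ 3 ≤ H := le_max_left _ _
    have h0 : 0 ≤ |(a : ℝ)| ^ 3 := by positivity
    linarith
  have hr3 : ((r : ℝ) ^ 2) ^ 3 ≤ 8 * H := by
    have h2 := root_le hrR
    have h3 : 4 * |(a : ℝ)| ^ 3 ≤ H := le_max_left _ _
    have h4 : 27 * (b : ℝ) ^ 2 ≤ H := le_max_right _ _
    linarith
  -- cube roots
  obtain ⟨c, hc0, hc⟩ : ∃ c : ℝ, 0 ≤ c ∧ c ^ 3 = H := by
    refine ⟨H ^ ((1 : ℝ) / 3), by positivity, ?_⟩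
    rw [← Real.rpow_natCast, ← Real.rpow_mul (by linarith)]
    norm_num
  have ha' : |(a : ℝ)| ≤ c := by
    refine le_of_pow_le_pow_left₀ (n := 3) (by norm_num) hc0 ?_
    rw [hc]; exact ha3
  have hr' : (r : ℝ) ^ 2 ≤ 2 * c := by
    refine le_of_pow_le_pow_left₀ (n := 3) (by norm_num) (by positivity) ?_
    rw [mul_pow, hc]
    linarith
  have hAB : ((3 * r ^ 2 - a) * (4 * a - 3 * r ^ 2)).natAbs ≠ 0 := by
    intro h0
    rw [h0] at h1
    rw [Int.natAbs_eq_zero] at h0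
    apply h.1
    have e : Disc a b = (3 * r ^ 2 - a) * ((3 * r ^ 2 - a) * (4 * a - 3 * r ^ 2)) := by
      have hb : b = r ^ 3 - a * r := by linarith
      rw [hb]
      unfold Disc
      ring
    rw [e, h0, mul_zero]
  have h2 : N6 a b ≤ (((3 * r ^ 2 - a) * (4 * a - 3 * r ^ 2)).natAbs : ℝ) := by
    unfold N6
    exact_mod_cast Nat.le_of_dvd (Nat.pos_of_ne_zero hAB) h1
  have h3 : (((3 * r ^ 2 - a) * (4 * a - 3 * r ^ 2)).natAbs : ℝ) ≤ 7 * c * (10 * c) := by
    rw [Nat.cast_natAbs, Int.cast_abs]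
    push_cast
    rw [abs_mul]
    have hr0 : 0 ≤ (r : ℝ) ^ 2 := sq_nonneg _
    have e1 : |3 * (r : ℝ) ^ 2 - a| ≤ 7 * c := by
      rw [abs_le]
      have := abs_le.mp ha'
      constructor <;> linarith
    have e2 : |4 * (a : ℝ) - 3 * r ^ 2| ≤ 10 * c := by
      rw [abs_le]
      have := abs_le.mp ha'
      constructor <;> linarith
    gcongr
  have h4 : N6 a b ≤ 100 * c ^ 2 := by nlinarith
  have hc1 : 0 < c := by
    rcases hc0.eq_or_lt with h0 | h0
    · rw [← h0] at hc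
      norm_num at hc
      linarith
    · exact h0
  have h5 : N6 a b ^ 3 ≤ 100 ^ 3 * H ^ 2 := by
    calc N6 a b ^ 3 ≤ (100 * c ^ 2) ^ 3 := by gcongr
      _ = 100 ^ 3 * (c ^ 3) ^ 2 := by ring
      _ = _ := by rw [hc]
  have h6 := Real.log_le_log (by positivity) h5
  rw [Real.log_pow, Real.log_mul (by norm_num) (by positivity), Real.log_pow (n := 2)] at h6
  obtain ⟨Z, hZ⟩ : ∃ Z, Z = Real.log ((100 : ℝ) ^ 3) := ⟨_, rfl⟩
  rw [← hZ] at h6 ⊢
  push_cast at h6
  linarith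

/-! ### examples -/

/-- full 2-torsion, height nearly `N²` -/
theorem ex_fullH (M : ℝ) : ∃ a b : ℤ, IsMinimal a b ∧ FullTwoTorsion a b ∧ M < N6 a b ∧
    Real.log (Hs a b) ≤ 2 * Real.log (N6 a b) + (Real.log 37044 + 2 * Real.log 6) := by
  obtain ⟨m, hm⟩ := exists_nat_gt (6 * |M|)
  obtain ⟨n, hn, hn0, hsq⟩ := ex_full m
  set P : ℕ := n * (n + 1) * (n + (n + 1)) with hP
  have hcop : IsCoprime (n : ℤ) ((n : ℤ) + 1) := ⟨-1, 1, by ring⟩
  have hne : (n : ℤ) * ((n : ℤ) + 1) * ((n : ℤ) + ((n : ℤ) + 1)) ≠ 0 := by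
    have : (0 : ℤ) < n := by exact_mod_cast hn0
    positivity
  have hmin := tri_min hcop hne
  have hD := hmin.1
  have hdisc := tri_disc (n : ℤ) ((n : ℤ) + 1)
  have hPD : (P : ℤ) ∣ Disc (ta n ((n : ℤ) + 1)) (tb n ((n : ℤ) + 1)) := by
    rw [hdisc, hP]
    push_cast
    exact Dvd.dvd.mul_left (dvd_pow_self _ (by norm_num)) _
  have hle := sqfree_le hD hsq hPD
  have hleR : (P : ℝ) ≤ 6 * N6 (ta n ((n : ℤ) + 1)) (tb n ((n : ℤ) + 1)) := by
    unfold N6
    exact_mod_cast hle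
  have hN1 := N6_one (ta n ((n : ℤ) + 1)) (tb n ((n : ℤ) + 1))
  have hn1 : (1 : ℝ) ≤ n := by exact_mod_cast hn0
  have hPn3 : (n : ℝ) ^ 3 ≤ P := by
    rw [hP]
    push_cast
    nlinarith [mul_nonneg (by linarith : (0 : ℝ) ≤ n) (by linarith : (0 : ℝ) ≤ n)]
  have hPn : (n : ℝ) ≤ P := by
    have : (n : ℝ) ≤ (n : ℝ) ^ 3 := le_self_pow₀ hn1 (by norm_num)
    linarith
  have hP0 : (0 : ℝ) < P := by linarith
  refine ⟨_, _, hmin, tri_full _ _, ?_, ?_⟩
  · have h1 : (m : ℝ) ≤ n := by exact_mod_cast hn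
    have h2 := le_abs_self M
    linarith
  · have hta : |((ta n ((n : ℤ) + 1) : ℤ) : ℝ)| ≤ 21 * (n : ℝ) ^ 2 := by
      unfold ta
      push_cast
      rw [abs_of_nonneg (by positivity)]
      nlinarith
    have htb : ((tb n ((n : ℤ) + 1) : ℤ) : ℝ) ^ 2 ≤ 1296 * ((n : ℝ) ^ 3) ^ 2 := by
      have e1 : |((tb n ((n : ℤ) + 1) : ℤ) : ℝ)| ≤ 36 * (n : ℝ) ^ 3 := by
        unfold tb
        push_cast
        have e2 : ((n : ℝ) + 1 - n) * (2 * n + (n + 1)) * (-n - 2 * (n + 1)) =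
            -((3 * n + 1) * (3 * n + 2)) := by ring
        rw [e2, abs_neg, abs_of_nonneg (by positivity)]
        have : (n : ℝ) ^ 2 ≤ (n : ℝ) ^ 3 := pow_le_pow_right₀ hn1 (by norm_num)
        nlinarith
      calc ((tb n ((n : ℤ) + 1) : ℤ) : ℝ) ^ 2 = |((tb n ((n : ℤ) + 1) : ℤ) : ℝ)| ^ 2 :=
            (sq_abs _).symm
        _ ≤ (36 * (n : ℝ) ^ 3) ^ 2 := by gcongr
        _ = _ := by ring
    have hH : Hs (ta n ((n : ℤ) + 1)) (tb n ((n : ℤ) + 1)) ≤ 37044 * (P : ℝ) ^ 2 := by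
      have e3 : ((n : ℝ) ^ 3) ^ 2 ≤ (P : ℝ) ^ 2 := by gcongr
      unfold Hs
      refine max_le ?_ ?_
      · calc 4 * |((ta n ((n : ℤ) + 1) : ℤ) : ℝ)| ^ 3 ≤ 4 * (21 * (n : ℝ) ^ 2) ^ 3 := by gcongr
          _ = 37044 * ((n : ℝ) ^ 3) ^ 2 := by ring
          _ ≤ _ := by gcongr
      · calc 27 * ((tb n ((n : ℤ) + 1) : ℤ) : ℝ) ^ 2 ≤ 27 * (1296 * ((n : ℝ) ^ 3) ^ 2) := by gcongr
          _ ≤ 37044 * ((n : ℝ) ^ 3) ^ 2 := by
              have : 0 ≤ ((n : ℝ) ^ 3) ^ 2 := by positivity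
              linarith
          _ ≤ _ := by gcongr
    have h0 := hs_one hD
    have h2 := Real.log_le_log (by linarith) hH
    rw [Real.log_mul (by norm_num) (by positivity), Real.log_pow] at h2
    have h1 := Real.log_le_log hP0 hleR
    rw [Real.log_mul (by norm_num) (by linarith)] at h1
    push_cast at h2
    linarith

/-- three forms -/
theorem ex_twoH0 (M : ℕ) : ∃ n : ℕ, M ≤ n ∧ 5 ≤ n ∧ Squarefree n ∧ Squarefree (2 * n + 1) ∧
    Squarefree (n - 4) := by
  obtain ⟨k, hk, h⟩ := sieve3 ![2, 4, 2] ![5, 11, 1] (by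
    intro i j
    have hodd : Odd (2 * j + 1) := ⟨j, rfl⟩
    fin_cases i
    · exact Nat.coprime_two_left.mpr hodd
    · exact (Nat.Coprime.pow_left 2 (Nat.coprime_two_left.mpr hodd) : Nat.Coprime (2 ^ 2) _)
    · exact Nat.coprime_two_left.mpr hodd) (by
    intro i
    fin_cases i <;> norm_num) M
  refine ⟨2 * k + 5, by omega, by omega, ?_, ?_, ?_⟩
  · exact sqf_of _ ⟨k + 2, by ring⟩ (fun d h3 hd => by simpa using h 0 d h3 hd)
  · rw [show 2 * (2 * k + 5) + 1 = 4 * k + 11 by ring]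
    exact sqf_of _ ⟨2 * k + 5, by ring⟩ (fun d h3 hd => by simpa using h 1 d h3 hd)
  · rw [show 2 * k + 5 - 4 = 2 * k + 1 by omega]
    exact sqf_of _ ⟨k, by ring⟩ (fun d h3 hd => by simpa using h 2 d h3 hd)

/-- a rational point of order two, height nearly `N ^ (3/2)` -/
theorem ex_twoH (M : ℝ) : ∃ a b : ℤ, IsMinimal a b ∧ TwoTorsion a b ∧ M < N6 a b ∧
    Real.log (Hs a b) ≤ 3 / 2 * Real.log (N6 a b) + (Real.log 27 + 3 / 2 * Real.log (6 ^ 4)) := by
  obtain ⟨m, hm⟩ := exists_nat_gt (1296 * |M|)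
  obtain ⟨n, hn, hn5, hs1, hs2, hs3⟩ := ex_twoH0 (m + 25)
  obtain ⟨w, hw⟩ : ∃ w : ℕ, n = w + 4 := ⟨n - 4, by omega⟩
  have hw' : n - 4 = w := by omega
  rw [hw'] at hs3
  set a : ℤ := (n : ℤ) ^ 2 - n with ha
  set b : ℤ := (n : ℤ) ^ 2 with hb
  have hDe : Disc a b = (n : ℤ) ^ 3 * (2 * (n : ℤ) + 1) ^ 2 * w := by
    have : (w : ℤ) = n - 4 := by rw [hw]; push_cast; ring
    rw [ha, hb, this]
    unfold Disc
    ring
  have hn0 : (0 : ℤ) < n := by exact_mod_cast (by omega : 0 < n)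
  have hw0 : (0 : ℤ) < w := by exact_mod_cast (by omega : 0 < w)
  have hD : Disc a b ≠ 0 := by
    rw [hDe]
    positivity
  have hmin : IsMinimal a b := by
    rw [isMinimal_iff]
    refine ⟨hD, fun p hp => ?_⟩
    rintro ⟨-, h6⟩
    have h7 : (p : ℤ) ^ 3 ∣ n := by
      have h8 : ((p : ℤ) ^ 3) ^ 2 ∣ (n : ℤ) ^ 2 := by
        rw [← pow_mul]
        exact h6
      exact (Int.pow_dvd_pow_iff (by norm_num)).mp h8
    have h8 : p * p ∣ n := by
      have : p ^ 3 ∣ n := by exact_mod_cast h7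
      exact (Dvd.intro p (by ring)).trans this
    exact (Nat.squarefree_iff_prime_squarefree.mp hs1) p hp h8
  have htwo : TwoTorsion a b := by
    refine ⟨n, ?_⟩
    rw [ha, hb]
    push_cast
    ring
  -- the conductor
  have hcd : n ^ 2 * ((2 * n + 1) * w) ∣ 6 ^ 4 * Cond6 a b := by
    have hne : n ^ 2 * ((2 * n + 1) * w) ≠ 0 := by
      have : 0 < n := by omega
      have : 0 < w := by omega
      positivity
    rw [← Nat.factorization_prime_le_iff_dvd hne (mul_ne_zero (by norm_num) (cond6_ne a b))]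
    intro p hp
    rw [Nat.factorization_mul (by norm_num) (cond6_ne a b), Finsupp.add_apply, fact_cond hD hp,
      Nat.factorization_mul (by have : 0 < n := by omega
                                positivity) (by have : 0 < w := by omega
                                                positivity), Finsupp.add_apply,
      Nat.factorization_mul (by omega) (by omega), Finsupp.add_apply, Nat.factorization_pow,
      Finsupp.smul_apply, smul_eq_mul]
    have f1 : n.factorization p ≤ 1 := hs1.natFactorization_le_one p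
    have f2 : (2 * n + 1).factorization p ≤ 1 := hs2.natFactorization_le_one p
    have f3 : w.factorization p ≤ 1 := hs3.natFactorization_le_one p
    by_cases h5 : 5 ≤ p
    · -- `p` divides at most one of the three
      have hno2 : ¬ p ∣ 4 := by
        intro hc
        have := Nat.le_of_dvd (by norm_num) hc
        interval_cases p <;> omega
      have hno3 : ¬ p ∣ 9 := by
        intro hc
        have h9 : p ∣ 3 ^ 2 := by exact_mod_cast hc
        have := Nat.le_of_dvd (by norm_num) (hp.dvd_of_dvd_pow h9)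
        omega
      have c12 : p ∣ n → ¬ p ∣ 2 * n + 1 := by
        intro h1 h2
        have : p ∣ 1 := (Nat.dvd_add_right (h1.mul_left 2)).mp h2
        have := Nat.le_of_dvd one_pos this
        omega
      have c13 : p ∣ n → ¬ p ∣ w := by
        intro h1 h2
        rw [hw] at h1
        exact hno2 ((Nat.dvd_add_right h2).mp h1)
      have c23 : p ∣ 2 * n + 1 → ¬ p ∣ w := by
        intro h1 h2
        rw [hw, show 2 * (w + 4) + 1 = 2 * w + 9 by ring] at h1
        exact hno3 ((Nat.dvd_add_right (h2.mul_left 2)).mp h1)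
      by_cases g1 : p ∣ n
      · have hpa : (p : ℤ) ∣ a := by
          rw [ha]
          have h1 : (p : ℤ) ∣ n := by exact_mod_cast g1
          exact dvd_sub (dvd_pow h1 (by norm_num)) h1
        have hpD : (p : ℤ) ∣ Disc a b := by
          rw [hDe]
          have h1 : (p : ℤ) ∣ n := by exact_mod_cast g1
          exact Dvd.dvd.mul_right (Dvd.dvd.mul_right (dvd_pow h1 (by norm_num)) _) _
        rw [if_pos ⟨h5, hpD⟩, if_pos hpa, Nat.factorization_eq_zero_of_not_dvd (c12 g1),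
          Nat.factorization_eq_zero_of_not_dvd (c13 g1)]
        omega
      · rw [Nat.factorization_eq_zero_of_not_dvd g1]
        by_cases g2 : p ∣ 2 * n + 1
        · have hpD : (p : ℤ) ∣ Disc a b := by
            rw [hDe]
            have h1 : (p : ℤ) ∣ 2 * (n : ℤ) + 1 := by exact_mod_cast g2
            exact Dvd.dvd.mul_right (Dvd.dvd.mul_left (dvd_pow h1 (by norm_num)) _) _
          rw [if_pos ⟨h5, hpD⟩, Nat.factorization_eq_zero_of_not_dvd (c23 g2)]
          split_ifs <;> omega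
        · rw [Nat.factorization_eq_zero_of_not_dvd g2]
          by_cases g3 : p ∣ w
          · have hpD : (p : ℤ) ∣ Disc a b := by
              rw [hDe]
              have h1 : (p : ℤ) ∣ (w : ℤ) := by exact_mod_cast g3
              exact Dvd.dvd.mul_left h1 _
            rw [if_pos ⟨h5, hpD⟩]
            split_ifs <;> omega
          · rw [Nat.factorization_eq_zero_of_not_dvd g3]
            omega
    · push Not at h5
      rw [f6 hp h5]
      omega
  have hle : n ^ 2 * ((2 * n + 1) * w) ≤ 6 ^ 4 * Cond6 a b :=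
    Nat.le_of_dvd (by have := cond6_pos a b; positivity) hcd
  have hn1 : (1 : ℝ) ≤ n := by exact_mod_cast (by omega : 1 ≤ n)
  have hN1 := N6_one a b
  have hw5 : (n : ℝ) ≤ 2 * w := by
    have : n ≤ 2 * w := by omega
    exact_mod_cast this
  have hleR : (n : ℝ) ^ 4 ≤ 6 ^ 4 * N6 a b := by
    have h1 : (n : ℝ) ^ 2 * ((2 * n + 1) * w) ≤ 6 ^ 4 * N6 a b := by
      unfold N6
      exact_mod_cast hle
    refine le_trans ?_ h1
    calc (n : ℝ) ^ 4 = (n : ℝ) ^ 2 * (n * n) := by ring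
      _ ≤ (n : ℝ) ^ 2 * (n * (2 * w)) := by gcongr
      _ = (n : ℝ) ^ 2 * ((2 * n) * w) := by ring
      _ ≤ (n : ℝ) ^ 2 * ((2 * n + 1) * w) := by gcongr; linarith
  refine ⟨a, b, hmin, htwo, ?_, ?_⟩
  · have h1 : (m : ℝ) ≤ n := by exact_mod_cast (by omega : m ≤ n)
    have h2 : (n : ℝ) ≤ (n : ℝ) ^ 4 := le_self_pow₀ hn1 (by norm_num)
    have h3 := le_abs_self M
    norm_num at hleR
    linarith
  · have hH : Hs a b ≤ 27 * (n : ℝ) ^ 6 := by
      unfold Hs
      refine max_le ?_ ?_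
      · have e1 : |((a : ℤ) : ℝ)| ≤ (n : ℝ) ^ 2 := by
          have e2 : ((a : ℤ) : ℝ) = (n : ℝ) ^ 2 - n := by
            rw [ha, hb]
            push_cast
            ring
          rw [e2, abs_of_nonneg (by nlinarith)]
          linarith
        calc 4 * |((a : ℤ) : ℝ)| ^ 3 ≤ 4 * ((n : ℝ) ^ 2) ^ 3 := by gcongr
          _ = 4 * (n : ℝ) ^ 6 := by ring
          _ ≤ _ := by
              have : 0 ≤ (n : ℝ) ^ 6 := by positivity
              linarith
      · have e1 : ((b : ℤ) : ℝ) ^ 2 = (n : ℝ) ^ 4 := by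
          rw [hb]
          push_cast
          ring
        rw [e1]
        have : (n : ℝ) ^ 4 ≤ (n : ℝ) ^ 6 := pow_le_pow_right₀ hn1 (by norm_num)
        linarith
    have h0 := hs_one hD
    have h2 := Real.log_le_log (by linarith) hH
    rw [Real.log_mul (by norm_num) (by positivity), Real.log_pow] at h2
    have h1 := Real.log_le_log (by positivity) hleR
    rw [Real.log_mul (by norm_num) (by linarith), Real.log_pow (x := (n : ℝ))] at h1
    obtain ⟨Z, hZ⟩ : ∃ Z, Z = Real.log ((6 : ℝ) ^ 4) := ⟨_, rfl⟩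
    rw [← hZ] at h1 ⊢
    push_cast at h1 h2
    linarith

end Pool.Agent.Q272.LP
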