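import Pool.Agent.Q272.LP.H

/-! # The power map -/

set_option autoImplicit false

open NumberField Height Function Filter

namespace Pool.Agent.Q272.LP

open Q241.AK Q265.NF Q265.BM

section

open Polynomial

lemma prod_roots {F : Type*} [Field F] {n : ℕ} (hn : 1 ≤ n) (β : Fin n → F) (hβ : Injective β)
    (c : F) (h : ∀ k, β k ^ n = c) (x : F) : x ^ n - c = ∏ k, (x - β k) := by
  have hP : (X ^ n - C c : F[X]).Monic := monic_X_pow_sub_C c (by omega)
  have hD : (∏ k, (X - C (β k)) : F[X]).Monic := monic_prod_of_monic _ _ fun k _ => monic_X_sub_C _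
  have hdvd : (∏ k, (X - C (β k)) : F[X]) ∣ X ^ n - C c := by
    refine Finset.prod_dvd_of_coprime (fun i _ j _ hij => ?_) (fun i _ => ?_)
    · exact isCoprime_X_sub_C_of_isUnit_sub (sub_ne_zero.2 (fun h => hij (hβ h))).isUnit
    · rw [dvd_iff_isRoot, IsRoot.def]
      simp [h i]
  have hdeg : (X ^ n - C c : F[X]).natDegree ≤ (∏ k, (X - C (β k)) : F[X]).natDegree := by
    rw [natDegree_X_pow_sub_C, natDegree_prod_of_monic _ _ (fun i _ => monic_X_sub_C (β i))]
    simp
  have e := eq_of_monic_of_dvd_of_natDegree_le hD hP hdvd hdeg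
  have := congrArg (Polynomial.eval x) e
  rw [eval_prod] at this
  simpa using this

end

variable {K : Type*} [Field K] [NumberField K]

lemma prod_lt_iff {n : ℕ} (v : FinitePlace K) (f : Fin n → K) (hf : ∀ k, v (f k) ≤ 1) :
    v (∏ k, f k) < 1 ↔ ∃ k, v (f k) < 1 := by
  classical
  rw [map_prod]
  constructor
  · intro h
    by_contra hc
    push Not at hc
    have : ∏ k, v (f k) = 1 := Finset.prod_eq_one fun k _ => le_antisymm (hf k) (hc k)
    linarith
  · rintro ⟨k, hk⟩
    rw [← Finset.mul_prod_erase Finset.univ (fun k => v (f k)) (Finset.mem_univ k)]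
    have h1 : ∏ x ∈ Finset.univ.erase k, v (f x) ≤ 1 :=
      Finset.prod_le_one (fun i _ => by positivity) fun i _ => hf i
    exact lt_of_le_of_lt (mul_le_of_le_one_right (by positivity) h1) hk

theorem power {m n : ℕ} (hn : 1 ≤ n) (a : Fin (m + 1) → K) (ha : Injective a)
    (S : Finset (FinitePlace K))
    (hroot : ∀ i, a i ≠ a 0 → ∃ β : Fin n → K, Injective β ∧ ∀ k, β k ^ n = a i - a 0)
    (s : ℝ) (h1 : m + m / (2 * n * m + 1) ≤ s) (h2 : s ≤ m + 2 / n) : LL S a s := by
  classical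
  have hn0 : (0 : ℝ) < n := by exact_mod_cast hn
  have hm0 : (0 : ℝ) ≤ m := Nat.cast_nonneg m
  have hroot' : ∀ i : Fin m, ∃ β : Fin n → K, Injective β ∧ ∀ k, β k ^ n = a i.succ - a 0 :=
    fun i => hroot i.succ fun h => Fin.succ_ne_zero i (ha h)
  choose β hβ1 hβ2 using hroot'
  have hne0 : ∀ i : Fin m, a i.succ - a 0 ≠ 0 := fun i =>
    sub_ne_zero.2 fun h => Fin.succ_ne_zero i (ha h)
  obtain ⟨R0, hR0⟩ : ∃ R0 : Finset K, R0 =
      Finset.univ.biUnion fun i : Fin m => Finset.univ.image (β i) := ⟨_, rfl⟩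
  obtain ⟨R, hR⟩ : ∃ R : Finset K, R = insert 0 R0 := ⟨_, rfl⟩
  have hR00 : (0 : K) ∉ R0 := by
    rw [hR0]
    simp only [Finset.mem_biUnion, Finset.mem_image]
    rintro ⟨i, -, k, -, hk⟩
    apply hne0 i
    rw [← hβ2 i k, hk, zero_pow (by omega)]
  have hcard : R.card = m * n + 1 := by
    rw [hR, Finset.card_insert_of_notMem hR00, hR0, Finset.card_biUnion]
    · congr 1
      have : ∀ i : Fin m, (Finset.univ.image (β i)).card = n := by
        intro i
        rw [Finset.card_image_of_injective _ (hβ1 i), Finset.card_univ, Fintype.card_fin]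
      simp_rw [this]
      simp
    · intro i _ j _ hij
      rw [Function.onFun, Finset.disjoint_left]
      intro y hy1 hy2
      obtain ⟨k1, -, hk1⟩ := Finset.mem_image.1 hy1
      obtain ⟨k2, -, hk2⟩ := Finset.mem_image.1 hy2
      apply hij
      have e1 := hβ2 i k1
      have e2 := hβ2 j k2
      rw [hk1] at e1
      rw [hk2, e1] at e2
      exact Fin.succ_injective _ (ha (sub_left_injective e2))
  obtain ⟨a', ha'⟩ : ∃ a' : Fin R.card → K, a' = fun i => (R.equivFin.symm i : K) := ⟨_, rfl⟩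
  have ha'inj : Injective a' := by
    intro i j hij
    rw [ha'] at hij
    exact R.equivFin.symm.injective (Subtype.ext hij)
  have ha'mem : ∀ i, a' i ∈ R := by
    intro i
    rw [ha']
    exact (R.equivFin.symm i).2
  have ha'surj : ∀ y ∈ R, ∃ i, a' i = y := by
    intro y hy
    refine ⟨R.equivFin ⟨y, hy⟩, ?_⟩
    rw [ha']
    simp
  have hrc : (R.card : ℝ) = m * n + 1 := by
    rw [hcard]
    push_cast
    ring
  have hLL : LL S a' (n * s) := by
    refine range (by rw [hcard]; omega) a' ha'inj S (n * s) ?_ ?_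
    · rw [hrc]
      have hd : (0 : ℝ) < 2 * n * m + 1 := by positivity
      have e : 2 * ((m : ℝ) * n + 1) * (m * n + 1 - 1) / (2 * (m * n + 1) - 1) =
          n * (m + m / (2 * n * m + 1)) := by
        have e1 : 2 * ((m : ℝ) * n + 1) - 1 = 2 * n * m + 1 := by ring
        rw [e1]
        field_simp
        ring
      rw [e]
      exact mul_le_mul_of_nonneg_left h1 hn0.le
    · rw [hrc]
      have := mul_le_mul_of_nonneg_left h2 hn0.le
      rw [mul_add, mul_div_cancel₀ _ hn0.ne'] at this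
      linarith
  obtain ⟨E1, hE1, hE1'⟩ := exc a ha
  obtain ⟨E2, hE2, hE2'⟩ := exc a' ha'inj
  obtain ⟨C1, hC1⟩ := union_est S a ha
  obtain ⟨C2, hC2⟩ := union_est S a' ha'inj
  obtain ⟨E, hE⟩ : ∃ E : Finset (FinitePlace K), E = E1 ∪ E2 := ⟨_, rfl⟩
  have hEa : ∀ v ∉ E, ∀ i, v (a i) ≤ 1 := fun v hv i => hE1 v (fun h => hv (by
    rw [hE]; exact Finset.mem_union_left _ h)) i
  have hEa' : ∀ v ∉ E, ∀ i, v (a' i) ≤ 1 := fun v hv i => hE2 v (fun h => hv (by
    rw [hE]; exact Finset.mem_union_right _ h)) i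
  obtain ⟨C3, hC3⟩ : ∃ C3 : ℝ, C3 = Real.log (PP (E : Set (FinitePlace K))) := ⟨_, rfl⟩
  obtain ⟨C4, hC4⟩ : ∃ C4 : ℝ, C4 = totalWeight K * Real.log 2 + logHeight₁ (a 0) := ⟨_, rfl⟩
  have hC40 : 0 ≤ C4 := by
    rw [hC4]
    have h1 := zero_le_logHeight₁ (a 0)
    have h2 : 0 ≤ Real.log 2 := Real.log_nonneg (by norm_num)
    positivity
  -- the points
  have hpt : ∀ x : K, (∀ j, x ≠ a' j) → ∀ i, a 0 + x ^ n ≠ a i := by
    intro x hx i h
    refine Fin.cases (fun h => ?_) (fun i h => ?_) i h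
    · have h3 : x ^ n = 0 := by
        have : a 0 + x ^ n - a 0 = 0 := by rw [h, sub_self]
        rwa [add_sub_cancel_left] at this
      have h4 : x = 0 := pow_eq_zero_iff (by omega) |>.1 h3
      obtain ⟨j, hj⟩ := ha'surj 0 (by rw [hR]; exact Finset.mem_insert_self _ _)
      exact hx j (by rw [h4, hj])
    · have h3 := prod_roots hn (β i) (hβ1 i) _ (hβ2 i) x
      have h4 : x ^ n - (a i.succ - a 0) = 0 := by
        rw [← h]
        ring
      rw [h4] at h3
      obtain ⟨k, -, hk⟩ := Finset.prod_eq_zero_iff.1 h3.symm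
      obtain ⟨j, hj⟩ := ha'surj (β i k) (by
        rw [hR, hR0]
        refine Finset.mem_insert_of_mem ?_
        simp only [Finset.mem_biUnion, Finset.mem_image]
        exact ⟨i, Finset.mem_univ i, k, Finset.mem_univ k, rfl⟩)
      exact hx j (by rw [hj]; exact sub_eq_zero.1 hk)
  have hUU : ∀ x : K, ∀ v ∉ E, (v ∈ UU S a (a 0 + x ^ n) ↔ v ∈ UU S a' x) := by
    intro x v hv
    have hm1 : ∀ t : K, (v ∈ UU S a t ↔ v ∉ S ∧ ((∃ i, v (t - a i) < 1) ∨ 1 < v t)) := by
      intro t
      unfold UU Ms Mi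
      simp only [Set.mem_union, Set.mem_iUnion, Set.mem_ofPred_eq]
      constructor
      · rintro (⟨i, h3, h4⟩ | ⟨h3, h4⟩)
        · exact ⟨h3, Or.inl ⟨i, (meets_good v (hEa v hv i)).1 h4⟩⟩
        · exact ⟨h3, Or.inr h4⟩
      · rintro ⟨h3, ⟨i, h4⟩ | h4⟩
        · exact Or.inl ⟨i, h3, (meets_good v (hEa v hv i)).2 h4⟩
        · exact Or.inr ⟨h3, h4⟩
    have hm2 : ∀ t : K, (v ∈ UU S a' t ↔ v ∉ S ∧ ((∃ i, v (t - a' i) < 1) ∨ 1 < v t)) := by
      intro t
      unfold UU Ms Mi
      simp only [Set.mem_union, Set.mem_iUnion, Set.mem_ofPred_eq]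
      constructor
      · rintro (⟨i, h3, h4⟩ | ⟨h3, h4⟩)
        · exact ⟨h3, Or.inl ⟨i, (meets_good v (hEa' v hv i)).1 h4⟩⟩
        · exact ⟨h3, Or.inr h4⟩
      · rintro ⟨h3, ⟨i, h4⟩ | h4⟩
        · exact Or.inl ⟨i, h3, (meets_good v (hEa' v hv i)).2 h4⟩
        · exact Or.inr ⟨h3, h4⟩
    rw [hm1, hm2]
    refine and_congr_right fun _ => ?_
    rcases lt_or_ge 1 (v x) with hx | hx
    · refine iff_of_true (Or.inr ?_) (Or.inr hx)
      by_contra hc
      push Not at hc
      have h3 : 1 < v (x ^ n) := by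
        rw [map_pow]
        exact one_lt_pow₀ hx (by omega)
      have h4 := fsub v (a 0 + x ^ n) (a 0)
      rw [add_sub_cancel_left] at h4
      have h5 := max_le hc (hEa v hv 0)
      linarith
    · have hxn : v (x ^ n) ≤ 1 := by
        rw [map_pow]
        exact pow_le_one₀ (by positivity) hx
      have ht : ¬ 1 < v (a 0 + x ^ n) := by
        rw [not_lt]
        exact (FinitePlace.add_le v _ _).trans (max_le (hEa v hv 0) hxn)
      have hx' : ¬ 1 < v x := not_lt.2 hx
      rw [or_iff_left ht, or_iff_left hx']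
      have hfac : ∀ (i : Fin m) (k : Fin n), v (x - β i k) ≤ 1 := by
        intro i k
        obtain ⟨j, hj⟩ := ha'surj (β i k) (by
          rw [hR, hR0]
          refine Finset.mem_insert_of_mem ?_
          simp only [Finset.mem_biUnion, Finset.mem_image]
          exact ⟨i, Finset.mem_univ i, k, Finset.mem_univ k, rfl⟩)
        refine (fsub v _ _).trans (max_le hx ?_)
        rw [← hj]
        exact hEa' v hv j
      have hsucc : ∀ i : Fin m, a 0 + x ^ n - a i.succ = ∏ k, (x - β i k) := by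
        intro i
        rw [← prod_roots hn (β i) (hβ1 i) _ (hβ2 i) x]
        ring
      constructor
      · rintro ⟨i, hi⟩
        refine Fin.cases (fun hi => ?_) (fun i hi => ?_) i hi
        · rw [add_sub_cancel_left, map_pow] at hi
          obtain ⟨j, hj⟩ := ha'surj 0 (by rw [hR]; exact Finset.mem_insert_self _ _)
          refine ⟨j, ?_⟩
          rw [hj, sub_zero]
          by_contra hc
          push Not at hc
          exact absurd (lt_of_le_of_lt (one_le_pow₀ hc) hi) (lt_irrefl _)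
        · rw [hsucc, prod_lt_iff v _ (hfac i)] at hi
          obtain ⟨k, hk⟩ := hi
          obtain ⟨j, hj⟩ := ha'surj (β i k) (by
            rw [hR, hR0]
            refine Finset.mem_insert_of_mem ?_
            simp only [Finset.mem_biUnion, Finset.mem_image]
            exact ⟨i, Finset.mem_univ i, k, Finset.mem_univ k, rfl⟩)
          exact ⟨j, by rw [hj]; exact hk⟩
      · rintro ⟨j, hj⟩
        have hmem := ha'mem j
        rw [hR, hR0] at hmem
        rcases Finset.mem_insert.1 hmem with h0 | h0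
        · refine ⟨0, ?_⟩
          rw [h0, sub_zero] at hj
          rw [add_sub_cancel_left, map_pow]
          exact pow_lt_one₀ (by positivity) hj (by omega)
        · simp only [Finset.mem_biUnion, Finset.mem_image] at h0
          obtain ⟨i, -, k, -, hk⟩ := h0
          refine ⟨i.succ, ?_⟩
          rw [hsucc, prod_lt_iff v _ (hfac i)]
          exact ⟨k, by rw [hk]; exact hj⟩
  -- heights
  have hht : ∀ x : K, |logHeight₁ (a 0 + x ^ n) - n * logHeight₁ x| ≤ C4 := by
    intro x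
    have g1 := logHeight₁_add_le (a 0) (x ^ n)
    have g2 := logHeight₁_sub_le (a 0 + x ^ n) (a 0)
    rw [add_sub_cancel_left] at g2
    rw [logHeight₁_pow] at g1 g2
    rw [hC4, abs_le]
    constructor <;> linarith
  intro η hη H
  obtain ⟨x, hx1, hx2, hx3⟩ := hLL (η / 2) (by linarith)
    (|H| + C4 + 2 * (|C1| + |C2| + |C3| + |s| * C4 + η * C4) / η)
  have hH0 := abs_nonneg H
  have hHH := le_abs_self H
  have hs0 := abs_nonneg s
  have c1 := abs_nonneg C1
  have c2 := abs_nonneg C2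
  have c3 := abs_nonneg C3
  have d1 := le_abs_self C1
  have d2 := le_abs_self C2
  have d3 := le_abs_self C3
  have hbig : 0 ≤ 2 * (|C1| + |C2| + |C3| + |s| * C4 + η * C4) / η := by positivity
  have hxh : 2 * (|C1| + |C2| + |C3| + |s| * C4 + η * C4) ≤ logHeight₁ x * η := by
    rw [← div_le_iff₀ hη]
    linarith
  have hx0 : 0 ≤ logHeight₁ x := zero_le_logHeight₁ x
  have hn1 : (1 : ℝ) ≤ n := by exact_mod_cast hn
  have hh := hht x
  have hnx : logHeight₁ x ≤ n * logHeight₁ x := le_mul_of_one_le_left hx0 hn1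
  have hh' := hh
  rw [abs_le] at hh'
  refine ⟨a 0 + x ^ n, hpt x hx1, by linarith [hh'.1], ?_⟩
  have k1 := hC1 (a 0 + x ^ n) (hpt x hx1)
  have k2 := hC2 x hx1
  have k3 := PP_close2 (UU_fin S (hpt x hx1)) (UU_fin S hx1) E (hUU x)
  rw [← hC3] at k3
  have k4 : |s * (n * logHeight₁ x - logHeight₁ (a 0 + x ^ n))| ≤ |s| * C4 := by
    rw [abs_mul]
    refine mul_le_mul_of_nonneg_left ?_ hs0
    rw [abs_sub_comm]
    exact hh
  rw [abs_le] at k1 k2 k3 k4 hx3 ⊢
  have k5 : η * (logHeight₁ x - C4) ≤ η * logHeight₁ (a 0 + x ^ n) :=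
    mul_le_mul_of_nonneg_left (by linarith [hh'.1]) hη.le
  constructor
  · linarith [k1.1, k2.1, k3.1, k4.1, hx3.1]
  · linarith [k1.2, k2.2, k3.2, k4.2, hx3.2]

end Pool.Agent.Q272.LP
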