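import Pool.Agent.Q272.LP.I

/-! # Upper bounds, the conjecture in terms of limit points, extensions -/

set_option autoImplicit false

open NumberField Height Function Filter

namespace Pool.Agent.Q272.LP

open Q241.AK Q265.NF Q265.BM

variable {K : Type*} [Field K] [NumberField K]

lemma max_val (v : FinitePlace K) (t : K) : ∃ s : K, s ≠ 0 ∧ max (v t) 1 = v s := by
  rcases le_or_gt (v t) 1 with h1 | h1
  · exact ⟨1, one_ne_zero, by rw [map_one]; exact max_eq_right h1⟩
  · refine ⟨t, ?_, max_eq_left h1.le⟩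
    rintro rfl
    rw [map_zero] at h1
    linarith

lemma Ms_le (S : Finset (FinitePlace K)) {a t : K} (h : t ≠ a) :
    Real.log (PP (Ms S a t)) ≤
      logHeight₁ t + (logHeight₁ a + Module.finrank ℚ K * Real.log 2) := by
  have ht : t - a ≠ 0 := sub_ne_zero.2 h
  have hfy : HasFiniteMulSupport (fun v : FinitePlace K => v (t - a)) :=
    FinitePlace.hasFiniteMulSupport ht
  have hfx := (suppM t).mul (suppM a)
  have hpt : ∀ v : FinitePlace K, pr (Ms S a t) v ≤ max (v t) 1 * max (v a) 1 / v (t - a) := by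
    intro v
    have hv0 : 0 < v (t - a) := FinitePlace.pos_iff.2 ht
    obtain ⟨s1, hs1, e1⟩ := max_val v t
    obtain ⟨s2, hs2, e2⟩ := max_val v a
    rw [le_div_iff₀ hv0]
    by_cases hv : v ∈ Ms S a t
    · have e : pr (Ms S a t) v = N v := if_pos hv
      have h2 := hv.2
      unfold Meets at h2
      rw [e]
      rw [e1, e2, ← map_mul] at h2 ⊢
      exact gap v ht (mul_ne_zero hs1 hs2) h2
    · have e : pr (Ms S a t) v = 1 := if_neg hv
      rw [e, one_mul]
      have h2 := fsub v t a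
      have h3 : 1 ≤ max (v t) 1 := le_max_right _ _
      have h4 : 1 ≤ max (v a) 1 := le_max_right _ _
      refine h2.trans (max_le ?_ ?_)
      · exact (le_max_left _ _).trans (le_mul_of_one_le_right (by linarith) h4)
      · exact (le_max_left _ _).trans (le_mul_of_one_le_left (by linarith) h3)
  have hle : PP (Ms S a t) ≤ ∏ᶠ v : FinitePlace K, max (v t) 1 * max (v a) 1 / v (t - a) :=
    finprod_le_finprod (pr_fin (Ms_fin S h)) (fun v => zero_le_one.trans (one_le_pr _ v))
    (hfx.div hfy) hpt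
  have hpf : ∏ᶠ v : FinitePlace K, v (t - a) = (nm (t - a))⁻¹ := finprod_eq ht
  have e3 : ∏ᶠ v : FinitePlace K, max (v t) 1 * max (v a) 1 =
      (∏ᶠ v : FinitePlace K, max (v t) 1) * ∏ᶠ v : FinitePlace K, max (v a) 1 :=
    finprod_mul_distrib (suppM t) (suppM a)
  have hmul : PP (Ms S a t) ≤ 2 ^ Module.finrank ℚ K * (mulHeight₁ t * mulHeight₁ a) := by
    refine hle.trans ?_
    have e4 : ∏ᶠ v : FinitePlace K, max (v t) 1 * max (v a) 1 / v (t - a) =
        (∏ᶠ v : FinitePlace K, max (v t) 1 * max (v a) 1) / ∏ᶠ v : FinitePlace K, v (t - a) :=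
      finprod_div_distrib hfx hfy
    rw [e4, hpf, div_inv_eq_mul, e3, NumberField.mulHeight₁_eq, NumberField.mulHeight₁_eq]
    have n1 : 0 ≤ ∏ᶠ v : FinitePlace K, max (v t) 1 := finprod_nonneg fun v => by positivity
    have n2 : 0 ≤ ∏ᶠ v : FinitePlace K, max (v a) 1 := finprod_nonneg fun v => by positivity
    have h5 : nm (t - a) ≤ 2 ^ Module.finrank ℚ K *
        ((∏ w : InfinitePlace K, max (w t) 1 ^ w.mult) *
          ∏ w : InfinitePlace K, max (w a) 1 ^ w.mult) := by
      unfold nm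
      rw [← InfinitePlace.sum_mult_eq, ← Finset.prod_pow_eq_pow_sum, ← Finset.prod_mul_distrib,
        ← Finset.prod_mul_distrib]
      refine Finset.prod_le_prod (fun w _ => by positivity) fun w _ => ?_
      rw [← mul_pow, ← mul_pow]
      refine pow_le_pow_left₀ (by positivity) ?_ _
      have g1 : w (t - a) ≤ w t + w a := by
        have := wadd w t (-a)
        rwa [wneg, ← sub_eq_add_neg] at this
      have g2 : 1 ≤ max (w t) 1 := le_max_right _ _
      have g3 : 1 ≤ max (w a) 1 := le_max_right _ _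
      have g4 : w t ≤ max (w t) 1 * max (w a) 1 :=
        (le_max_left _ _).trans (le_mul_of_one_le_right (by linarith) g3)
      have g5 : w a ≤ max (w t) 1 * max (w a) 1 :=
        (le_max_left _ _).trans (le_mul_of_one_le_left (by linarith) g2)
      linarith
    calc (∏ᶠ v : FinitePlace K, max (v t) 1) * (∏ᶠ v : FinitePlace K, max (v a) 1) * nm (t - a) ≤
          (∏ᶠ v : FinitePlace K, max (v t) 1) * (∏ᶠ v : FinitePlace K, max (v a) 1) *
          (2 ^ Module.finrank ℚ K * ((∏ w : InfinitePlace K, max (w t) 1 ^ w.mult) *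
          ∏ w : InfinitePlace K, max (w a) 1 ^ w.mult)) :=
          mul_le_mul_of_nonneg_left h5 (mul_nonneg n1 n2)
      _ = _ := by ring
  have h3 := Real.log_le_log (lt_of_lt_of_le one_pos (one_le_PP _)) hmul
  have p1 := mulHeight₁_pos t
  have p2 := mulHeight₁_pos a
  rw [Real.log_mul (by positivity) (by positivity), Real.log_pow,
    Real.log_mul p1.ne' p2.ne', ← logHeight₁_eq_log_mulHeight₁,
    ← logHeight₁_eq_log_mulHeight₁] at h3
  linarith

lemma Mi_le (S : Finset (FinitePlace K)) (t : K) :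
    Real.log (PP (Mi S t)) ≤ logHeight₁ t := by
  have hpt : ∀ v : FinitePlace K, pr (Mi S t) v ≤ max (v t) 1 := by
    intro v
    by_cases hv : v ∈ Mi S t
    · have e : pr (Mi S t) v = N v := if_pos hv
      rw [e]
      have h1 := hv.2
      have ht0 : t ≠ 0 := by
        rintro rfl
        rw [map_zero] at h1
        linarith
      have h2 := gap v one_ne_zero ht0 (by rwa [map_one])
      rw [map_one, mul_one] at h2
      exact h2.trans (le_max_left _ _)
    · have e : pr (Mi S t) v = 1 := if_neg hv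
      rw [e]
      exact le_max_right _ _
  have hle : PP (Mi S t) ≤ ∏ᶠ v : FinitePlace K, max (v t) 1 :=
    finprod_le_finprod (pr_fin (Mi_fin S t)) (fun v => zero_le_one.trans (one_le_pr _ v))
    (suppM t) hpt
  have hmul : PP (Mi S t) ≤ mulHeight₁ t := by
    rw [NumberField.mulHeight₁_eq]
    have h1 : 1 ≤ ∏ w : InfinitePlace K, max (w t) 1 ^ w.mult := by
      have := Finset.prod_le_prod (s := Finset.univ) (f := fun _ : InfinitePlace K => (1 : ℝ))
        (g := fun w : InfinitePlace K => max (w t) 1 ^ w.mult) (fun _ _ => zero_le_one)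
        (fun w _ => one_le_pow₀ (le_max_right _ _))
      rwa [Finset.prod_const_one] at this
    have n1 : 0 ≤ ∏ᶠ v : FinitePlace K, max (v t) 1 := finprod_nonneg fun v => by positivity
    exact hle.trans (le_mul_of_one_le_left n1 h1)
  have h3 := Real.log_le_log (lt_of_lt_of_le one_pos (one_le_PP _)) hmul
  rwa [← logHeight₁_eq_log_mulHeight₁] at h3

lemma Cn_le {r : ℕ} (S : Finset (FinitePlace K)) (a : Fin r → K) : ∃ C : ℝ, 0 ≤ C ∧
    ∀ t : K, (∀ j, t ≠ a j) → Cn S a t ≤ (r + 1) * logHeight₁ t + C := by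
  have hl2 : 0 ≤ Real.log 2 := Real.log_nonneg (by norm_num)
  refine ⟨∑ i, (logHeight₁ (a i) + Module.finrank ℚ K * Real.log 2),
    Finset.sum_nonneg fun i _ => by positivity, fun t ht => ?_⟩
  have h1 := Finset.sum_le_sum (s := Finset.univ) fun i (_ : i ∈ Finset.univ) => Ms_le S (ht i)
  have h2 := Mi_le S t
  rw [Finset.sum_add_distrib, Finset.sum_const, Finset.card_univ, Fintype.card_fin,
    nsmul_eq_mul] at h1
  unfold Cn
  linarith

lemma LL.bounds {r : ℕ} {S : Finset (FinitePlace K)} {a : Fin r → K} {s : ℝ} (h : LL S a s) :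
    0 ≤ s ∧ s ≤ r + 1 := by
  constructor
  · by_contra hc
    push Not at hc
    obtain ⟨x, -, h2, h3⟩ := h (-s / 2) (by linarith) 0
    have h4 := Cn_nonneg S a x
    rw [abs_le] at h3
    nlinarith [h3.2]
  · by_contra hc
    push Not at hc
    obtain ⟨C, hC0, hC⟩ := Cn_le S a
    obtain ⟨η, hη⟩ : ∃ η : ℝ, η = (s - (r + 1)) / 2 := ⟨_, rfl⟩
    have hη0 : 0 < η := by rw [hη]; linarith
    obtain ⟨x, h1, h2, h3⟩ := h η hη0 (C / η)
    have h4 := hC x h1
    rw [abs_le] at h3
    rw [div_lt_iff₀ hη0] at h2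
    have h5 : s = r + 1 + 2 * η := by rw [hη]; ring
    rw [h5] at h3
    nlinarith [h3.1]

theorem q1_iff {r : ℕ} (S : Finset (FinitePlace K)) (a : Fin r → K) (m : ℝ) (hm : 0 ≤ m) :
    (∀ ε : ℝ, 0 < ε → ∃ C : ℝ, ∀ t : K, (∀ j, t ≠ a j) →
      (m - ε) * logHeight₁ t ≤ Cn S a t + C) ↔ ∀ s, LL S a s → m ≤ s := by
  constructor
  · intro H s hs
    by_contra hc
    push Not at hc
    obtain ⟨η, hη⟩ : ∃ η : ℝ, η = (m - s) / 3 := ⟨_, rfl⟩
    have hη0 : 0 < η := by rw [hη]; linarith
    obtain ⟨C, hC⟩ := H η hη0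
    obtain ⟨x, h1, h2, h3⟩ := hs η hη0 (C / η)
    have h4 := hC x h1
    rw [abs_le] at h3
    rw [div_lt_iff₀ hη0] at h2
    have h5 : m = s + 3 * η := by rw [hη]; ring
    rw [h5] at h4
    nlinarith [h3.2]
  · intro H ε hε
    by_contra hc
    push Not at hc
    have hc' : ∀ k : ℕ, ∃ t : K, (∀ j, t ≠ a j) ∧ Cn S a t + k < (m - ε) * logHeight₁ t :=
      fun k => hc k
    choose t ht1 ht2 using hc'
    have hpos : ∀ k, 0 < (m - ε) * logHeight₁ (t k) := by
      intro k
      have h1 := Cn_nonneg S a (t k)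
      have h2 := ht2 k
      have h3 : (0 : ℝ) ≤ k := Nat.cast_nonneg k
      linarith
    have hmε : 0 < m - ε := by
      by_contra h
      push Not at h
      have h1 := hpos 0
      have h2 := zero_le_logHeight₁ (t 0)
      nlinarith
    have hh : ∀ k, 0 < logHeight₁ (t k) := fun k => (pos_iff_pos_of_mul_pos (hpos k)).1 hmε
    obtain ⟨ρ, hρ⟩ : ∃ ρ : ℕ → ℝ, ρ = fun k => Cn S a (t k) / logHeight₁ (t k) := ⟨_, rfl⟩
    have hρ1 : ∀ k, ρ k ∈ Set.Icc 0 (m - ε) := by
      intro k
      rw [hρ]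
      refine ⟨div_nonneg (Cn_nonneg S a _) (hh k).le, ?_⟩
      rw [div_le_iff₀ (hh k)]
      have h2 := ht2 k
      have h3 : (0 : ℝ) ≤ k := Nat.cast_nonneg k
      linarith
    obtain ⟨s, hs, φ, hφ, hlim⟩ := isCompact_Icc.tendsto_subseq hρ1
    have hsm : m ≤ s := by
      refine H s fun η hη Hh => ?_
      rw [Metric.tendsto_atTop] at hlim
      obtain ⟨k0, hk0⟩ := hlim η hη
      obtain ⟨k1, hk1⟩ := exists_nat_gt (Hh * (m - ε))
      obtain ⟨k, hk⟩ : ∃ k, k = max k0 k1 := ⟨_, rfl⟩
      have g1 := hk0 k (by rw [hk]; exact le_max_left _ _)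
      rw [Real.dist_eq] at g1
      refine ⟨t (φ k), ht1 _, ?_, ?_⟩
      · have g2 := ht2 (φ k)
        have g3 := Cn_nonneg S a (t (φ k))
        have g4 : (k1 : ℝ) ≤ φ k := by
          have : k1 ≤ φ k := (by rw [hk]; exact le_max_right _ _ : k1 ≤ k).trans (hφ.id_le k)
          exact_mod_cast this
        have g5 : (m - ε) * Hh < (m - ε) * logHeight₁ (t (φ k)) := by linarith
        exact lt_of_mul_lt_mul_left g5 hmε.le
      · have hp := hh (φ k)
        have e : Cn S a (t (φ k)) - s * logHeight₁ (t (φ k)) =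
            (ρ (φ k) - s) * logHeight₁ (t (φ k)) := by
          rw [hρ]
          field_simp
        rw [e, abs_mul, abs_of_pos hp]
        exact mul_le_mul_of_nonneg_right g1.le hp.le
    have := hs.2
    linarith

/-! ### Extensions -/

section

open Polynomial

lemma exists_split (K : Type) [Field K] (P : K[X]) :
    ∃ (L : Type) (_ : Field L) (_ : Algebra K L), IsSplittingField K L P :=
  ⟨P.SplittingField, inferInstance, inferInstance, inferInstance⟩

lemma roots_of_splits {K L : Type} [Field K] [CharZero K] [Field L] [Algebra K L] {c : K}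
    (hc : c ≠ 0) {n : ℕ} (hn : 1 ≤ n)
    (hs : Splits ((X ^ n - C c : K[X]).map (algebraMap K L))) :
    ∃ β : Fin n → L, Function.Injective β ∧ ∀ k, β k ^ n = algebraMap K L c := by
  have hsep : (X ^ n - C c : K[X]).Separable :=
    separable_X_pow_sub_C c (by
      have : n ≠ 0 := by omega
      exact_mod_cast this) hc
  have hcard := card_rootSet_eq_natDegree hsep hs
  rw [natDegree_X_pow_sub_C] at hcard
  let e : Fin n ≃ (X ^ n - C c : K[X]).rootSet L := (Fintype.equivFinOfCardEq hcard).symm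
  refine ⟨fun k => (e k : L), fun k k' h => e.injective (Subtype.ext h), fun k => ?_⟩
  have h4 := (mem_rootSet.1 (e k).2).2
  rw [map_sub, map_pow, aeval_X, aeval_C] at h4
  exact sub_eq_zero.1 h4

/-- a finite extension with many roots -/
theorem exists_ext (K : Type) [Field K] [NumberField K] (n : ℕ) {m : ℕ} (c : Fin m → K)
    (hc : ∀ i, c i ≠ 0) : ∃ (L : Type) (_ : Field L) (_ : NumberField L) (_ : Algebra K L),
      ∀ i, ∀ n', 1 ≤ n' → n' ≤ n → ∃ β : Fin n' → L, Function.Injective β ∧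
        ∀ k, β k ^ n' = algebraMap K L (c i) := by
  obtain ⟨P, hP⟩ : ∃ P : K[X], P = ∏ n' ∈ Finset.Icc 1 n, ∏ i, (X ^ n' - C (c i)) := ⟨_, rfl⟩
  have hP0 : P ≠ 0 := by
    rw [hP]
    refine Finset.prod_ne_zero_iff.2 fun n' hn' => Finset.prod_ne_zero_iff.2 fun i _ => ?_
    exact X_pow_sub_C_ne_zero (by have := (Finset.mem_Icc.1 hn').1; omega) _
  obtain ⟨L, iF, iA, hL⟩ := exists_split K P
  have hfd : FiniteDimensional K L := IsSplittingField.finiteDimensional L P
  have hNF : NumberField L := NumberField.of_module_finite K L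
  refine ⟨L, iF, hNF, iA, fun i n' h1 h2 => ?_⟩
  have hsplit := IsSplittingField.splits L P
  refine roots_of_splits (hc i) h1 (hsplit.of_dvd (Polynomial.map_ne_zero hP0)
    (Polynomial.map_dvd _ ?_))
  rw [hP]
  exact (Finset.dvd_prod_of_mem (fun i => X ^ n' - C (c i)) (Finset.mem_univ i)).trans
    (Finset.dvd_prod_of_mem (fun n' => ∏ i, (X ^ n' - C (c i))) (Finset.mem_Icc.2 ⟨h1, h2⟩))

end

end Pool.Agent.Q272.LP
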