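import Pool.Agent.Q272.LP.J

/-! # Inversion -/

set_option autoImplicit false

open NumberField Height Function Filter

namespace Pool.Agent.Q272.LP

open Q241.AK Q265.NF Q265.BM

variable {K : Type*} [Field K] [NumberField K]

theorem JL.inv {r : ℕ} {S : Finset (FinitePlace K)} {a : Fin r → K} (ha : Injective a) (k : Fin r)
    {θ : Fin r → ℝ} {τ : ℝ}
    (h : JL S (fun j => (a j - a k)⁻¹) (Function.update θ k τ) (θ k)) : JL S a θ τ := by
  classical
  obtain ⟨a', ha'⟩ : ∃ a' : Fin r → K, a' = fun j => (a j - a k)⁻¹ := ⟨_, rfl⟩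
  rw [← ha'] at h
  have hk0 : a' k = 0 := by rw [ha']; simp
  have hne : ∀ j, j ≠ k → a j - a k ≠ 0 := fun j hj => sub_ne_zero.2 fun h => hj (ha h)
  obtain ⟨E, hE1, hE2⟩ := exc a ha
  obtain ⟨C3, hC3⟩ : ∃ C3 : ℝ, C3 = Real.log (PP (E : Set (FinitePlace K))) := ⟨_, rfl⟩
  have hC30 : 0 ≤ C3 := by rw [hC3]; exact log_PP_nonneg _
  obtain ⟨C4, hC4⟩ : ∃ C4 : ℝ, C4 = totalWeight K * Real.log 2 + logHeight₁ (a k) := ⟨_, rfl⟩
  have hC40 : 0 ≤ C4 := by
    rw [hC4]
    have h1 := zero_le_logHeight₁ (a k)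
    have h2 : 0 ≤ Real.log 2 := Real.log_nonneg (by norm_num)
    positivity
  have hv1 : ∀ v ∉ E, ∀ j, j ≠ k → v (a j - a k) = 1 := fun v hv j hj => hE2 v hv j k hj
  have hv2 : ∀ v ∉ E, ∀ j, j ≠ k → v (a' j) = 1 := by
    intro v hv j hj
    rw [ha', map_inv₀, hv1 v hv j hj, inv_one]
  have hv3 : ∀ v ∉ E, ∀ j, v (a' j) ≤ 1 := by
    intro v hv j
    by_cases hj : j = k
    · rw [hj, hk0, map_zero]
      exact zero_le_one
    · exact (hv2 v hv j hj).le
  have hfac : ∀ y : K, y ≠ 0 → ∀ j, j ≠ k → a k + y⁻¹ - a j = (a j - a k) * (a' j - y) / y := by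
    intro y hy j hj
    have := hne j hj
    rw [ha']
    field_simp
    ring
  have hmi : ∀ y : K, y ≠ 0 → ∀ v ∉ E, (v ∈ Mi S (a k + y⁻¹) ↔ v ∈ Ms S (a' k) y) := by
    intro y hy v hv
    unfold Ms Mi
    rw [Set.mem_ofPred_eq, Set.mem_ofPred_eq]
    refine and_congr_right fun _ => ?_
    rw [meets_good v (hv3 v hv k), hk0, sub_zero]
    have hy0 : 0 < v y := FinitePlace.pos_iff.2 hy
    have hyi : v y⁻¹ = (v y)⁻¹ := map_inv₀ v y
    have h3 := fsub v (a k + y⁻¹) (a k)
    rw [add_sub_cancel_left, hyi] at h3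
    have h4 := FinitePlace.add_le v (a k) y⁻¹
    rw [hyi] at h4
    have h5 := hE1 v hv k
    constructor
    · intro h6
      have h7 : 1 < (v y)⁻¹ := by
        by_contra hc
        push Not at hc
        have := max_le h5 hc
        linarith
      exact (one_lt_inv₀ hy0).1 h7
    · intro h6
      have h7 : 1 < (v y)⁻¹ := (one_lt_inv₀ hy0).2 h6
      by_contra hc
      push Not at hc
      have := max_le hc h5
      linarith
  have hmk : ∀ y : K, y ≠ 0 → ∀ v ∉ E, (v ∈ Ms S (a k) (a k + y⁻¹) ↔ v ∈ Mi S y) := by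
    intro y hy v hv
    unfold Ms Mi
    rw [Set.mem_ofPred_eq, Set.mem_ofPred_eq]
    refine and_congr_right fun _ => ?_
    rw [meets_good v (hE1 v hv k), add_sub_cancel_left, map_inv₀]
    exact inv_lt_one₀ (FinitePlace.pos_iff.2 hy)
  have hmj : ∀ y : K, y ≠ 0 → ∀ v ∉ E, ∀ j, j ≠ k →
      (v ∈ Ms S (a j) (a k + y⁻¹) ↔ v ∈ Ms S (a' j) y) := by
    intro y hy v hv j hj
    unfold Ms
    rw [Set.mem_ofPred_eq, Set.mem_ofPred_eq]
    refine and_congr_right fun _ => ?_
    rw [meets_good v (hE1 v hv j), meets_good v (hv3 v hv j), hfac y hy j hj, map_div₀, map_mul,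
      hv1 v hv j hj, one_mul]
    have hy0 : 0 < v y := FinitePlace.pos_iff.2 hy
    have hs : v (a' j - y) = v (y - a' j) := by
      rw [← fneg' v (y - a' j), neg_sub]
    have h2 := hv2 v hv j hj
    rw [div_lt_one hy0, hs]
    have h3 := FinitePlace.add_le v (y - a' j) (a' j)
    rw [sub_add_cancel, h2] at h3
    have h4 := FinitePlace.add_le v (a' j - y) y
    rw [sub_add_cancel, h2, hs] at h4
    constructor
    · intro h5
      rcases le_total (v (y - a' j)) 1 with h6 | h6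
      · rw [max_eq_right h6] at h3
        linarith
      · rw [max_eq_left h6] at h3
        linarith
    · intro h5
      by_contra hc
      push Not at hc
      have := max_lt h5 (lt_of_le_of_lt hc h5)
      linarith
  have hht : ∀ y : K, |logHeight₁ (a k + y⁻¹) - logHeight₁ y| ≤ C4 := by
    intro y
    have g1 := logHeight₁_add_le (a k) y⁻¹
    have g2 := logHeight₁_sub_le (a k + y⁻¹) (a k)
    rw [add_sub_cancel_left] at g2
    rw [logHeight₁_inv] at g1 g2
    rw [hC4, abs_le]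
    constructor <;> linarith
  intro η hη H
  obtain ⟨B, hB⟩ : ∃ B : ℝ, B = 1 + (∑ j, |θ j|) + |τ| := ⟨_, rfl⟩
  have hB0 : 0 < B := by
    rw [hB]
    have h1 : 0 ≤ ∑ j, |θ j| := Finset.sum_nonneg fun j _ => abs_nonneg _
    have h2 := abs_nonneg τ
    linarith
  have hθB : ∀ j, |θ j| ≤ B := by
    intro j
    have h1 : |θ j| ≤ ∑ j, |θ j| :=
      Finset.single_le_sum (f := fun j => |θ j|) (fun j _ => abs_nonneg _) (Finset.mem_univ j)
    have h2 := abs_nonneg τ
    rw [hB]
    linarith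
  have hτB : |τ| ≤ B := by
    have h1 : 0 ≤ ∑ j, |θ j| := Finset.sum_nonneg fun j _ => abs_nonneg _
    rw [hB]
    linarith
  obtain ⟨y, hy1, hy2, hy3, hy4⟩ := h (η / 2) (by linarith)
    (|H| + C4 + 2 * (C3 + B * C4 + η * C4) / η)
  have hy0 : y ≠ 0 := by
    have := hy1 k
    rwa [hk0] at this
  have hH0 := abs_nonneg H
  have hHH := le_abs_self H
  have hbig : 0 ≤ 2 * (C3 + B * C4 + η * C4) / η := by positivity
  have hyh : 2 * (C3 + B * C4 + η * C4) ≤ logHeight₁ y * η := by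
    rw [← div_le_iff₀ hη]
    linarith
  have hh := hht y
  have hh' := hh
  rw [abs_le] at hh'
  have hxa : ∀ j, a k + y⁻¹ ≠ a j := by
    intro j h5
    by_cases hj : j = k
    · rw [hj] at h5
      have : y⁻¹ = 0 := by
        have := sub_eq_zero.2 h5
        rwa [add_sub_cancel_left] at this
      exact hy0 (inv_eq_zero.1 this)
    · have h6 := hfac y hy0 j hj
      rw [h5, sub_self] at h6
      have h7 : (a j - a k) * (a' j - y) = 0 := by
        rcases div_eq_zero_iff.1 h6.symm with h | h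
        · exact h
        · exact absurd h hy0
      rcases mul_eq_zero.1 h7 with h | h
      · exact hne j hj h
      · exact hy1 j (sub_eq_zero.1 h).symm
  -- generic estimate
  have gen : ∀ (L L' t : ℝ), |t| ≤ B → |L - L'| ≤ C3 → |L' - t * logHeight₁ y| ≤
      η / 2 * logHeight₁ y →
      |L - t * logHeight₁ (a k + y⁻¹)| ≤ η * logHeight₁ (a k + y⁻¹) := by
    intro L L' t ht h5 h6
    have k4 : |t * (logHeight₁ y - logHeight₁ (a k + y⁻¹))| ≤ B * C4 := by
      rw [abs_mul]
      refine mul_le_mul ht ?_ (abs_nonneg _) hB0.le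
      rw [abs_sub_comm]
      exact hh
    have k5 : η * (logHeight₁ y - C4) ≤ η * logHeight₁ (a k + y⁻¹) :=
      mul_le_mul_of_nonneg_left (by linarith [hh'.1]) hη.le
    rw [abs_le] at h5 h6 k4 ⊢
    constructor
    · linarith [h5.1, h6.1, k4.1]
    · linarith [h5.2, h6.2, k4.2]
  refine ⟨a k + y⁻¹, hxa, by linarith [hh'.1], fun j => ?_, ?_⟩
  · by_cases hj : j = k
    · rw [hj]
      refine gen _ (Real.log (PP (Mi S y))) (θ k) (hθB k) ?_ hy4
      rw [hC3]
      exact PP_close2 (Ms_fin S (hxa k)) (Mi_fin S y) E (hmk y hy0)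
    · have h5 := hy3 j
      rw [Function.update_of_ne hj] at h5
      refine gen _ _ (θ j) (hθB j) ?_ h5
      rw [hC3]
      exact PP_close2 (Ms_fin S (hxa j)) (Ms_fin S (hy1 j)) E (fun v hv => hmj y hy0 v hv j hj)
  · have h5 := hy3 k
    rw [Function.update_self] at h5
    refine gen _ _ τ hτB ?_ h5
    rw [hC3]
    exact PP_close2 (Mi_fin S _) (Ms_fin S (hy1 k)) E (hmi y hy0)

/-- the point `a k` is the free one -/
theorem joint' {r : ℕ} (a : Fin r → K) (ha : Injective a)
    (S : Finset (FinitePlace K)) (k : Fin r) (θ : Fin r → ℝ) (τ : ℝ) (hθ : ∀ j, 0 ≤ θ j ∧ θ j ≤ 1)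
    (hτ : 0 ≤ τ ∧ τ ≤ 1) (h1 : (r - 1) + τ / 2 ≤ τ + ∑ i ∈ Finset.univ.erase k, θ i)
    (h2 : ∀ j, j ≠ k → (r - 1) + θ j / 2 ≤ τ + ∑ i ∈ Finset.univ.erase k, θ i) :
    JL S a θ τ := by
  classical
  have hsum : ∑ i, Function.update θ k τ i = τ + ∑ i ∈ Finset.univ.erase k, θ i := by
    rw [← Finset.add_sum_erase Finset.univ _ (Finset.mem_univ k), Function.update_self]
    congr 1
    exact Finset.sum_congr rfl fun i hi => Function.update_of_ne (Finset.ne_of_mem_erase hi) _ _
  refine JL.inv ha k (joint k.pos _ (fun i j hij => ?_) S _ _ (fun j => ?_) (hθ k) fun j => ?_)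
  · exact ha (sub_left_injective (inv_injective hij))
  · by_cases hj : j = k
    · rw [hj, Function.update_self]
      exact hτ
    · rw [Function.update_of_ne hj]
      exact hθ j
  · rw [hsum]
    by_cases hj : j = k
    · rw [hj, Function.update_self]
      exact h1
    · rw [Function.update_of_ne hj]
      exact h2 j hj

end Pool.Agent.Q272.LP
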