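import Pool.Agent.Q272.LP.Basic

/-!
# Limit points of `log Φ / log N` in classes of curves that are closed under twists
-/

set_option autoImplicit false

namespace Pool.Agent.Q272.LP

open Finset

/-- `x` is a limit of `log Φ / log N` along curves with the property `P` with `N → ∞` -/
def LimPt (Φ N : ℤ → ℤ → ℝ) (P : ℤ → ℤ → Prop) (x : ℝ) : Prop :=
  ∀ ε M : ℝ, 0 < ε → ∃ a b : ℤ, IsMinimal a b ∧ P a b ∧ M < N a b ∧
    |Real.log (Φ a b) / Real.log (N a b) - x| < ε

/-- `P` is closed under the twists by the primes that do not divide `6 D` -/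
def TwistClosed (P : ℤ → ℤ → Prop) : Prop :=
  ∀ (a b : ℤ) (l : ℕ), l.Prime → 5 ≤ l → ¬ (l : ℤ) ∣ Disc a b → P a b →
    P ((l : ℤ) ^ 2 * a) ((l : ℤ) ^ 3 * b)

/-- the conductor away from `6` as a real number -/
noncomputable def N6 (a b : ℤ) : ℝ := (Cond6 a b : ℝ)

/-- size functions -/
structure Size (Φ : ℤ → ℤ → ℝ) (c : ℝ) : Prop where
  one : ∀ a b, IsMinimal a b → 1 ≤ Φ a b
  twist : ∀ (a b : ℤ) (l : ℕ), Φ ((l : ℤ) ^ 2 * a) ((l : ℤ) ^ 3 * b) = (l : ℝ) ^ 6 * Φ a b
  disc : ∀ a b, IsMinimal a b → Real.log |(Disc a b : ℝ)| ≤ Real.log (Φ a b) + c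
  c0 : 0 ≤ c

theorem N6_one (a b : ℤ) : 1 ≤ N6 a b := by
  unfold N6
  exact_mod_cast cond6_pos a b

/-- the twist -/
theorem twist_to {Φ : ℤ → ℤ → ℝ} {c : ℝ} (hΦ : Size Φ c) {P : ℤ → ℤ → Prop} (hP : TwistClosed P)
    {a b : ℤ} (hmin : IsMinimal a b) (hab : P a b) {L : ℝ} (hL : 2 ≤ L) (k : ℕ)
    (hk : Real.log (Φ a b) + c ≤ k * L) :
    ∃ (a' b' : ℤ) (t : ℝ), IsMinimal a' b' ∧ P a' b' ∧ L ≤ t ∧ t ≤ L + k + 2 ∧
      Real.log (Φ a' b') = Real.log (Φ a b) + 6 * t ∧
      Real.log (N6 a' b') = Real.log (N6 a b) + 2 * t ∧ N6 a b ≤ N6 a' b' := by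
  set m : ℕ := ⌈Real.exp L⌉₊ with hm
  have he : Real.exp L ≤ m := Nat.le_ceil _
  have he0 := Real.exp_pos L
  have he7 : (7 : ℝ) < Real.exp L := by
    have h1 : Real.exp 2 ≤ Real.exp L := Real.exp_le_exp.mpr hL
    have h2 : Real.exp 2 = Real.exp 1 ^ 2 := by rw [← Real.exp_nat_mul]; norm_num
    have h3 := Real.exp_one_gt_d9
    nlinarith
  have hm1 : (m : ℝ) ≤ 2 * Real.exp L := by
    have := Nat.ceil_lt_add_one he0.le
    rw [← hm] at this
    linarith
  have hmpos : (0 : ℝ) < m := by linarith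
  have hm5 : 5 ≤ m := by
    have : (5 : ℝ) ≤ m := by linarith
    exact_mod_cast this
  have hlogm : L ≤ Real.log m := by rwa [Real.le_log_iff_exp_le hmpos]
  have hlogm2 : Real.log m ≤ L + 1 := by
    have h1 : Real.log m ≤ Real.log (2 * Real.exp L) := Real.log_le_log hmpos hm1
    rw [Real.log_mul (by norm_num) he0.ne', Real.log_exp] at h1
    have := Real.log_two_lt_d9
    linarith
  have hD0 : 0 < (Disc a b).natAbs := Int.natAbs_pos.mpr hmin.1
  have hDc : (((Disc a b).natAbs : ℕ) : ℝ) = |(Disc a b : ℝ)| := by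
    rw [Nat.cast_natAbs, Int.cast_abs]
  obtain ⟨l, hl, hl1, hl2, hl3⟩ := exists_prime (Disc a b).natAbs hD0 m k (by omega) (by
    rw [hDc]
    have h1 := hΦ.disc a b hmin
    have h2 : (k : ℝ) * L ≤ k * Real.log m := by gcongr
    linarith)
  have hlD : ¬ (l : ℤ) ∣ Disc a b := by rwa [Int.natCast_dvd]
  have hl0 : (0 : ℝ) < l := by exact_mod_cast hl.pos
  have h5l : 5 ≤ l := by omega
  refine ⟨_, _, Real.log l, twist_min hmin hl hlD, hP a b l hl h5l hlD hab, ?_, ?_, ?_, ?_, ?_⟩
  · refine hlogm.trans (Real.log_le_log hmpos ?_)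
    exact_mod_cast hl1.le
  · have h1 : (l : ℝ) ≤ 2 ^ (k + 1) * m := by exact_mod_cast hl2
    have h2 := Real.log_le_log hl0 h1
    rw [Real.log_mul (by positivity) hmpos.ne', Real.log_pow] at h2
    push_cast at h2
    have h3 := Real.log_two_lt_d9
    have h4 : ((k : ℝ) + 1) * Real.log 2 ≤ (k + 1) * 1 := by
      gcongr
      linarith
    linarith
  · rw [hΦ.twist, Real.log_mul (by positivity) (by have := hΦ.one a b hmin; positivity),
      Real.log_pow]
    push_cast
    ring
  · unfold N6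
    rw [twist_cond hmin.1 hl h5l hlD]
    have := cond6_pos a b
    push_cast
    rw [Real.log_mul (by positivity) (by positivity), Real.log_pow]
    push_cast
    ring
  · unfold N6
    rw [twist_cond hmin.1 hl h5l hlD]
    have h1 : 1 ≤ l ^ 2 := Nat.one_le_pow _ _ hl.pos
    exact_mod_cast Nat.le_mul_of_pos_left _ h1

theorem big_of {M R : ℝ} : ∃ M' : ℝ, M ≤ M' ∧ ∀ x : ℝ, M' < x → R ≤ Real.log x ∧ M < x := by
  refine ⟨max M (Real.exp R), le_max_left _ _, fun x hx => ?_⟩
  have h1 : Real.exp R < x := lt_of_le_of_lt (le_max_right _ _) hx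
  refine ⟨?_, lt_of_le_of_lt (le_max_left _ _) hx⟩
  rw [Real.le_log_iff_exp_le ((Real.exp_pos R).trans h1)]
  exact h1.le

/-- the value `3` -/
theorem reach_three {Φ : ℤ → ℤ → ℝ} {c : ℝ} (hΦ : Size Φ c) {P : ℤ → ℤ → Prop}
    (hP : TwistClosed P) {a b : ℤ} (hmin : IsMinimal a b) (hab : P a b) : LimPt Φ N6 P 3 := by
  intro ε M hε
  set A := Real.log (Φ a b) with hA
  set B := Real.log (N6 a b) with hB
  have hA0 : 0 ≤ A := Real.log_nonneg (hΦ.one a b hmin)
  have hB0 : 0 ≤ B := Real.log_nonneg (N6_one a b)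
  have hc := hΦ.c0
  set L : ℝ := (A + B + c + 2) * (2 / ε + 1) + |M| with hL
  have h2e : 0 < 2 / ε := by positivity
  have hS : (A + B + c + 2) * 1 ≤ (A + B + c + 2) * (2 / ε + 1) := by gcongr; linarith
  have hM := abs_nonneg M
  obtain ⟨a', b', t, h1, h2, h3, h4, h5, h6, h7⟩ := twist_to hΦ hP hmin hab (L := L) (by linarith) 1
    (by push_cast; linarith)
  refine ⟨a', b', h1, h2, ?_, ?_⟩
  · have h8 : M < Real.log (N6 a' b') := by
      rw [h6]
      have := le_abs_self M
      linarith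
    have h9 : Real.log (N6 a' b') ≤ N6 a' b' - 1 :=
      Real.log_le_sub_one_of_pos (by have := N6_one a' b'; linarith)
    linarith
  · rw [h5, h6]
    have ht : 0 < t := by linarith
    have hpos : 0 < B + 2 * t := by linarith
    have e1 : (A + 6 * t) / (B + 2 * t) - 3 = (A - 3 * B) / (B + 2 * t) := by
      field_simp
      ring
    rw [e1, abs_div, abs_of_pos hpos, div_lt_iff₀ hpos]
    have h8 : |A - 3 * B| ≤ 3 * (A + B) := by
      rw [abs_le]
      constructor <;> linarith
    have h10 : (A + B + c + 2) * (2 / ε) ≤ t := by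
      have : (A + B + c + 2) * (2 / ε) ≤ (A + B + c + 2) * (2 / ε + 1) := by gcongr; linarith
      linarith
    have h11 : (A + B + c + 2) * 2 ≤ ε * t := by
      have h12 : ε * ((A + B + c + 2) * (2 / ε)) = (A + B + c + 2) * 2 := by
        field_simp
      rw [← h12]
      gcongr
    nlinarith

/-- values above `3` -/
theorem reach_up {Φ : ℤ → ℤ → ℝ} {c : ℝ} (hΦ : Size Φ c) {P : ℤ → ℤ → Prop}
    (hP : TwistClosed P) {y : ℝ} (hy : 3 < y)
    (h : ∀ ε M : ℝ, 0 < ε → ∃ a b : ℤ, IsMinimal a b ∧ P a b ∧ M < N6 a b ∧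
      (y - ε) * Real.log (N6 a b) ≤ Real.log (Φ a b)) : LimPt Φ N6 P y := by
  intro ε M hε
  set w := y - 3 with hw
  have hw0 : 0 < w := by linarith
  have hc := hΦ.c0
  set k : ℕ := ⌈2 * w * (y + ε / 2) / (ε / 2)⌉₊ + 1 with hk
  have hk0 : 2 * w * (y + ε / 2) / (ε / 2) + 1 ≤ k := by
    rw [hk]
    push_cast
    have := Nat.le_ceil (2 * w * (y + ε / 2) / (ε / 2))
    linarith
  set R : ℝ := k + 2 with hR
  have hR0 : 0 < R := by positivity
  set T : ℝ := (2 + c) * (4 * w / ε) + (2 * w * R) / ε + 1 with hT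
  have hT1 : 0 < T := by positivity
  obtain ⟨M', -, hM'⟩ := big_of (M := M) (R := T)
  obtain ⟨a, b, h1, h2, h3, h4⟩ := h (ε / 2) M' (by linarith)
  obtain ⟨h5, h6⟩ := hM' _ h3
  set A := Real.log (Φ a b) with hA
  set B := Real.log (N6 a b) with hB
  have hB0 : 0 < B := by linarith
  by_cases hcase : A ≤ (y + ε / 2) * B
  · refine ⟨a, b, h1, h2, h6, ?_⟩
    rw [← hA, ← hB, abs_lt]
    constructor
    · rw [lt_sub_iff_add_lt, lt_div_iff₀ hB0]
      nlinarith
    · rw [sub_lt_iff_lt_add, div_lt_iff₀ hB0]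
      nlinarith
  · push Not at hcase
    set L : ℝ := (A - y * B) / (2 * w) with hL
    have hLw : 2 * w * L = A - y * B := by
      rw [hL]; field_simp
    have hLB : ε / (4 * w) * B ≤ L := by
      rw [hL, le_div_iff₀ (by positivity)]
      have : ε / (4 * w) * B * (2 * w) = ε / 2 * B := by field_simp; ring
      rw [this]
      linarith
    have hTB : (2 + c) ≤ ε / (4 * w) * B := by
      have h7 : ε / (4 * w) * ((2 + c) * (4 * w / ε)) = 2 + c := by field_simp
      rw [← h7]
      gcongr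
      have : 0 ≤ (2 * w * R) / ε := by positivity
      linarith
    have hAL : A + c ≤ k * L := by
      have h8 : A ≤ 2 * w * (y + ε / 2) / (ε / 2) * L := by
        rw [div_mul_eq_mul_div, le_div_iff₀ (by positivity)]
        have : 2 * w * (y + ε / 2) * L = (y + ε / 2) * (A - y * B) := by
          rw [← hLw]; ring
        rw [this]
        nlinarith
      have h9 : c ≤ 1 * L := by linarith
      calc A + c ≤ (2 * w * (y + ε / 2) / (ε / 2) + 1) * L := by linarith
        _ ≤ k * L := by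
            have : 0 ≤ L := by linarith
            gcongr
    obtain ⟨a', b', t, g1, g2, g3, g4, g5, g6, g7⟩ := twist_to hΦ hP h1 h2 (L := L) (by linarith) k
      hAL
    refine ⟨a', b', g1, g2, lt_of_lt_of_le h6 g7, ?_⟩
    rw [g5, g6, ← hA, ← hB]
    have hL0 : 0 < L := by linarith
    have ht : 0 < t := by linarith
    have hpos : 0 < B + 2 * t := by linarith
    have e1 : (A + 6 * t) / (B + 2 * t) - y = 2 * w * (L - t) / (B + 2 * t) := by
      rw [eq_div_iff hpos.ne', sub_mul, div_mul_cancel₀ _ hpos.ne', mul_sub, hLw, hw]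
      ring
    rw [e1, abs_div, abs_of_pos hpos, div_lt_iff₀ hpos]
    have h10 : |2 * w * (L - t)| ≤ 2 * w * R := by
      rw [abs_mul, abs_of_pos (by positivity : 0 < 2 * w)]
      gcongr
      rw [abs_le, hR]
      constructor <;> linarith
    have h11 : 2 * w * R < ε * B := by
      have h12 : (2 * w * R) / ε < B := by
        have : 0 ≤ (2 + c) * (4 * w / ε) := by positivity
        linarith
      rw [div_lt_iff₀ hε] at h12
      linarith
    nlinarith

/-- values below `3` -/
theorem reach_down {Φ : ℤ → ℤ → ℝ} {c : ℝ} (hΦ : Size Φ c) {P : ℤ → ℤ → Prop}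
    (hP : TwistClosed P) {y : ℝ} (hy0 : 0 ≤ y) (hy : y < 3)
    (h : ∀ ε M : ℝ, 0 < ε → ∃ a b : ℤ, IsMinimal a b ∧ P a b ∧ M < N6 a b ∧
      Real.log (Φ a b) ≤ (y + ε) * Real.log (N6 a b)) : LimPt Φ N6 P y := by
  intro ε M hε
  set w := 3 - y with hw
  have hw0 : 0 < w := by linarith
  have hc := hΦ.c0
  set k : ℕ := ⌈4 * w * y / ε⌉₊ + 1 with hk
  have hk0 : 4 * w * y / ε + 1 ≤ k := by
    rw [hk]
    push_cast
    have := Nat.le_ceil (4 * w * y / ε)
    linarith
  set R : ℝ := k + 2 with hR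
  have hR0 : 0 < R := by positivity
  set T : ℝ := (2 + c) * (4 * w / ε) + (2 * w * R) / ε + 1 with hT
  have hT1 : 0 < T := by positivity
  obtain ⟨M', -, hM'⟩ := big_of (M := M) (R := T)
  obtain ⟨a, b, h1, h2, h3, h4⟩ := h (ε / 2) M' (by linarith)
  obtain ⟨h5, h6⟩ := hM' _ h3
  set A := Real.log (Φ a b) with hA
  set B := Real.log (N6 a b) with hB
  have hB0 : 0 < B := by linarith
  by_cases hcase : (y - ε / 2) * B ≤ A
  · refine ⟨a, b, h1, h2, h6, ?_⟩
    rw [← hA, ← hB, abs_lt]
    constructor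
    · rw [lt_sub_iff_add_lt, lt_div_iff₀ hB0]
      nlinarith
    · rw [sub_lt_iff_lt_add, div_lt_iff₀ hB0]
      nlinarith
  · push Not at hcase
    set L : ℝ := (y * B - A) / (2 * w) with hL
    have hLw : 2 * w * L = y * B - A := by
      rw [hL]; field_simp
    have hLB : ε / (4 * w) * B ≤ L := by
      rw [hL, le_div_iff₀ (by positivity)]
      have : ε / (4 * w) * B * (2 * w) = ε / 2 * B := by field_simp; ring
      rw [this]
      linarith
    have hTB : (2 + c) ≤ ε / (4 * w) * B := by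
      have h7 : ε / (4 * w) * ((2 + c) * (4 * w / ε)) = 2 + c := by field_simp
      rw [← h7]
      gcongr
      have : 0 ≤ (2 * w * R) / ε := by positivity
      linarith
    have hAL : A + c ≤ k * L := by
      have h8 : A ≤ 4 * w * y / ε * L := by
        have h81 : A ≤ y * B := by nlinarith
        have h82 : 4 * w * y / ε * (ε / (4 * w) * B) = y * B := by field_simp
        have h83 : 0 ≤ 4 * w * y / ε := by positivity
        calc A ≤ y * B := h81
          _ = 4 * w * y / ε * (ε / (4 * w) * B) := h82.symm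
          _ ≤ _ := by gcongr
      have h9 : c ≤ 1 * L := by linarith
      calc A + c ≤ (4 * w * y / ε + 1) * L := by linarith
        _ ≤ k * L := by
            have : 0 ≤ L := by linarith
            gcongr
    obtain ⟨a', b', t, g1, g2, g3, g4, g5, g6, g7⟩ := twist_to hΦ hP h1 h2 (L := L) (by linarith) k
      hAL
    refine ⟨a', b', g1, g2, lt_of_lt_of_le h6 g7, ?_⟩
    rw [g5, g6, ← hA, ← hB]
    have hL0 : 0 < L := by linarith
    have ht : 0 < t := by linarith
    have hpos : 0 < B + 2 * t := by linarith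
    have e1 : (A + 6 * t) / (B + 2 * t) - y = 2 * w * (t - L) / (B + 2 * t) := by
      rw [eq_div_iff hpos.ne', sub_mul, div_mul_cancel₀ _ hpos.ne', mul_sub, hLw, hw]
      ring
    rw [e1, abs_div, abs_of_pos hpos, div_lt_iff₀ hpos]
    have h10 : |2 * w * (t - L)| ≤ 2 * w * R := by
      rw [abs_mul, abs_of_pos (by positivity : 0 < 2 * w)]
      gcongr
      rw [abs_le, hR]
      constructor <;> linarith
    have h11 : 2 * w * R < ε * B := by
      have h12 : (2 * w * R) / ε < B := by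
        have : 0 ≤ (2 + c) * (4 * w / ε) := by positivity
        linarith
      rw [div_lt_iff₀ hε] at h12
      linarith
    nlinarith

/-- change of the conductor by a bounded factor -/
theorem lp_iff {Φ : ℤ → ℤ → ℝ} {N : ℤ → ℤ → ℝ} {C : ℝ} (hN : ∀ a b, IsMinimal a b →
    N6 a b ≤ N a b ∧ N a b ≤ C * N6 a b) (hC : 1 ≤ C) {P : ℤ → ℤ → Prop} {x : ℝ} :
    LimPt Φ N P x ↔ LimPt Φ N6 P x := by
  have hlogC : 0 ≤ Real.log C := Real.log_nonneg hC
  constructor
  · intro h ε M hε
    set δ : ℝ := min (ε / 2) 1 with hδ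
    have hδ0 : 0 < δ := by positivity
    set T : ℝ := (|x| + 1) * Real.log C * (4 / ε) + 2 * Real.log C + 1 with hT
    obtain ⟨M', hM0, hM'⟩ := big_of (M := C * |M|) (R := T)
    obtain ⟨a, b, h1, h2, h3, h4⟩ := h δ M' hδ0
    obtain ⟨h5, h6⟩ := hM' _ h3
    obtain ⟨g1, g2⟩ := hN a b h1
    have hN1 := N6_one a b
    have hN0 : 0 < N a b := by linarith
    set B := Real.log (N6 a b) with hB
    set B' := Real.log (N a b) with hB'
    set A := Real.log (Φ a b) with hA
    have hBB : B ≤ B' := Real.log_le_log (by linarith) g1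
    have hBB' : B' ≤ B + Real.log C := by
      have := Real.log_le_log hN0 g2
      rw [Real.log_mul (by linarith) (by linarith)] at this
      linarith
    have hT0 : 0 ≤ (|x| + 1) * Real.log C * (4 / ε) := by positivity
    have hB0 : 0 < B := by linarith
    have hB'0 : 0 < B' := by linarith
    refine ⟨a, b, h1, h2, ?_, ?_⟩
    · have h7 : C * |M| < C * N6 a b := lt_of_lt_of_le h6 g2
      have h8 : |M| < N6 a b := lt_of_mul_lt_mul_left h7 (by linarith)
      exact lt_of_le_of_lt (le_abs_self M) h8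
    · have e1 : A / B - x = (A / B' - x) + A / B' * ((B' - B) / B) := by
        field_simp
        ring
      have h7 : |A / B'| ≤ |x| + 1 := by
        have : |A / B'| ≤ |A / B' - x| + |x| := by
          have := abs_add_le (A / B' - x) x
          simpa using this
        have h8 : δ ≤ 1 := min_le_right _ _
        linarith
      have h8 : (B' - B) / B ≤ Real.log C / B := by
        gcongr
        linarith
      have h9 : 0 ≤ (B' - B) / B := div_nonneg (by linarith) hB0.le
      rw [← hA, ← hB, e1]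
      refine lt_of_le_of_lt (abs_add_le _ _) ?_
      rw [abs_mul, abs_of_nonneg h9]
      have h10 : |A / B'| * ((B' - B) / B) ≤ (|x| + 1) * (Real.log C / B) := by gcongr
      have h11 : (|x| + 1) * (Real.log C / B) ≤ ε / 4 := by
        rw [← mul_div_assoc, div_le_iff₀ hB0]
        have h12 : (|x| + 1) * Real.log C * (4 / ε) ≤ B := by linarith
        calc (|x| + 1) * Real.log C = ε / 4 * ((|x| + 1) * Real.log C * (4 / ε)) := by
              field_simp
          _ ≤ ε / 4 * B := by gcongr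
      have h13 : δ ≤ ε / 2 := min_le_left _ _
      linarith
  · intro h ε M hε
    set δ : ℝ := min (ε / 2) 1 with hδ
    have hδ0 : 0 < δ := by positivity
    set T : ℝ := (|x| + 1) * Real.log C * (4 / ε) + 2 * Real.log C + 1 with hT
    obtain ⟨M', hM0, hM'⟩ := big_of (M := M) (R := T)
    obtain ⟨a, b, h1, h2, h3, h4⟩ := h δ M' hδ0
    obtain ⟨h5, h6⟩ := hM' _ h3
    obtain ⟨g1, g2⟩ := hN a b h1
    have hN1 := N6_one a b
    have hN0 : 0 < N a b := by linarith
    set B := Real.log (N6 a b) with hB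
    set B' := Real.log (N a b) with hB'
    set A := Real.log (Φ a b) with hA
    have hBB : B ≤ B' := Real.log_le_log (by linarith) g1
    have hBB' : B' ≤ B + Real.log C := by
      have := Real.log_le_log hN0 g2
      rw [Real.log_mul (by linarith) (by linarith)] at this
      linarith
    have hT0 : 0 ≤ (|x| + 1) * Real.log C * (4 / ε) := by positivity
    have hB0 : 0 < B := by linarith
    have hB'0 : 0 < B' := by linarith
    refine ⟨a, b, h1, h2, lt_of_lt_of_le h6 g1, ?_⟩
    have e1 : A / B' - x = (A / B - x) - A / B * ((B' - B) / B') := by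
      field_simp
      ring
    have h7 : |A / B| ≤ |x| + 1 := by
      have : |A / B| ≤ |A / B - x| + |x| := by
        have := abs_add_le (A / B - x) x
        simpa using this
      have h8 : δ ≤ 1 := min_le_right _ _
      linarith
    have h8 : (B' - B) / B' ≤ Real.log C / B := by
      calc (B' - B) / B' ≤ (B' - B) / B := by
            have : 0 ≤ B' - B := by linarith
            gcongr
        _ ≤ Real.log C / B := by gcongr; linarith
    have h9 : 0 ≤ (B' - B) / B' := div_nonneg (by linarith) hB'0.le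
    rw [← hA, ← hB', e1]
    refine lt_of_le_of_lt (abs_sub _ _) ?_
    rw [abs_mul, abs_of_nonneg h9]
    have h10 : |A / B| * ((B' - B) / B') ≤ (|x| + 1) * (Real.log C / B) := by gcongr
    have h11 : (|x| + 1) * (Real.log C / B) ≤ ε / 4 := by
      rw [← mul_div_assoc, div_le_iff₀ hB0]
      have h12 : (|x| + 1) * Real.log C * (4 / ε) ≤ B := by linarith
      calc (|x| + 1) * Real.log C = ε / 4 * ((|x| + 1) * Real.log C * (4 / ε)) := by
            field_simp
        _ ≤ ε / 4 * B := by gcongr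
    have h13 : δ ≤ ε / 2 := min_le_left _ _
    linarith

/-- the limit points form an interval -/
theorem interval {Φ : ℤ → ℤ → ℝ} {c : ℝ} (hΦ : Size Φ c) {P : ℤ → ℤ → Prop}
    (hP : TwistClosed P) (hne : ∃ a b, IsMinimal a b ∧ P a b) :
    ∃ (I : ℝ) (S : EReal), 0 ≤ I ∧ I ≤ 3 ∧ 3 ≤ S ∧
      ∀ x : ℝ, LimPt Φ N6 P x ↔ I ≤ x ∧ (x : EReal) ≤ S := by
  obtain ⟨a0, b0, hm0, hp0⟩ := hne
  have h3 := reach_three hΦ hP hm0 hp0
  have hnn : ∀ x, LimPt Φ N6 P x → 0 ≤ x := by
    intro x hx
    by_contra hcon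
    push Not at hcon
    obtain ⟨a, b, h1, h2, h4, h5⟩ := hx (-x) 1 (by linarith)
    have h6 : 0 ≤ Real.log (Φ a b) / Real.log (N6 a b) :=
      div_nonneg (Real.log_nonneg (hΦ.one a b h1)) (Real.log_nonneg (N6_one a b))
    have h7 := (abs_lt.mp h5).2
    linarith
  set Z : Set ℝ := {x | LimPt Φ N6 P x} with hZ
  have hbdd : BddBelow Z := ⟨0, fun x hx => hnn x hx⟩
  have h3Z : (3 : ℝ) ∈ Z := h3
  refine ⟨sInf Z, sSup ((fun x : ℝ => (x : EReal)) '' Z), ?_, csInf_le hbdd h3Z, ?_, ?_⟩
  · exact le_csInf ⟨3, h3Z⟩ fun x hx => hnn x hx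
  · exact le_sSup ⟨3, h3Z, rfl⟩
  · intro x
    constructor
    · intro hx
      exact ⟨csInf_le hbdd hx, le_sSup ⟨x, hx, rfl⟩⟩
    · rintro ⟨h1, h2⟩
      rcases lt_trichotomy x 3 with hx | hx | hx
      · have hx0 : 0 ≤ x := (le_csInf ⟨3, h3Z⟩ fun x hx => hnn x hx).trans h1
        refine reach_down hΦ hP hx0 hx fun ε M hε => ?_
        have h4 : sInf Z < x + ε / 2 := by linarith
        obtain ⟨y, hy, hyx⟩ := exists_lt_of_csInf_lt ⟨3, h3Z⟩ h4
        obtain ⟨M', -, hM'⟩ := big_of (M := M) (R := 1)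
        obtain ⟨a, b, g1, g2, g3, g4⟩ := hy (ε / 2) M' (by linarith)
        obtain ⟨g5, g6⟩ := hM' _ g3
        refine ⟨a, b, g1, g2, g6, ?_⟩
        have g7 := (abs_lt.mp g4).2
        have g8 : Real.log (Φ a b) / Real.log (N6 a b) ≤ x + ε := by linarith
        rwa [div_le_iff₀ (by linarith)] at g8
      · rw [hx]; exact h3
      · refine reach_up hΦ hP hx fun ε M hε => ?_
        have h4 : ((x - ε / 2 : ℝ) : EReal) < sSup ((fun x : ℝ => (x : EReal)) '' Z) := by
          refine lt_of_lt_of_le ?_ h2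
          exact_mod_cast (by linarith : x - ε / 2 < x)
        obtain ⟨z, ⟨y, hy, hyz⟩, hyx⟩ := lt_sSup_iff.mp h4
        have hyx' : x - ε / 2 < y := by
          have hyz' : (y : EReal) = z := hyz
          rw [← hyz'] at hyx
          exact_mod_cast hyx
        obtain ⟨M', -, hM'⟩ := big_of (M := M) (R := 1)
        obtain ⟨a, b, g1, g2, g3, g4⟩ := hy (ε / 2) M' (by linarith)
        obtain ⟨g5, g6⟩ := hM' _ g3
        refine ⟨a, b, g1, g2, g6, ?_⟩
        have g7 := (abs_lt.mp g4).1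
        have g8 : x - ε ≤ Real.log (Φ a b) / Real.log (N6 a b) := by linarith
        rwa [le_div_iff₀ (by linarith)] at g8

end Pool.Agent.Q272.LP
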