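import Pool.Agent.Q272.LP.Fin

/-!
# Unbounded excess: `log Φ ≥ y log N + K` for all `K` makes `y` a limit point
-/

set_option autoImplicit false

namespace Pool.Agent.Q272.LP

open Finset

theorem reach_up' {Φ : ℤ → ℤ → ℝ} {c : ℝ} (hΦ : Size Φ c) {P : ℤ → ℤ → Prop}
    (hP : TwistClosed P) {y : ℝ} (hy : 3 < y)
    (h : ∀ K : ℝ, ∃ a b : ℤ, IsMinimal a b ∧ P a b ∧
      y * Real.log (N6 a b) + K ≤ Real.log (Φ a b)) : LimPt Φ N6 P y := by
  intro ε M hε
  set w := y - 3 with hw
  have hw0 : 0 < w := by linarith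
  have hc := hΦ.c0
  set L0 : ℝ := 3 + |M| + (2 * w / ε) * (y + (2 * w + c + 3) / 2) with hL0
  have hM := abs_nonneg M
  have hterm : 0 ≤ (2 * w / ε) * (y + (2 * w + c + 3) / 2) := by positivity
  obtain ⟨a, b, h1, h2, h3⟩ := h (2 * w * L0)
  set A := Real.log (Φ a b) with hA
  set B := Real.log (N6 a b) with hB
  have hB0 : 0 ≤ B := Real.log_nonneg (N6_one a b)
  set L : ℝ := (A - y * B) / (2 * w) with hL
  have hLw : 2 * w * L = A - y * B := by rw [hL]; field_simp
  have hLL : L0 ≤ L := by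
    rw [hL, le_div_iff₀ (by positivity)]
    linarith
  have hL3 : 3 ≤ L := by linarith
  have hLpos : 0 < L := by linarith
  have hA0 : 0 ≤ A := Real.log_nonneg (hΦ.one a b h1)
  set k : ℕ := ⌈(A + c) / L⌉₊ with hk
  have hk1 : (A + c) / L ≤ k := Nat.le_ceil _
  have hk2 : (k : ℝ) ≤ (A + c) / L + 1 := (Nat.ceil_lt_add_one (by positivity)).le
  have hkL : A + c ≤ k * L := by rwa [div_le_iff₀ hLpos] at hk1
  obtain ⟨a', b', t, g1, g2, g3, g4, g5, g6, g7⟩ := twist_to hΦ hP h1 h2 (L := L) (by linarith) k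
    hkL
  have ht : 0 < t := by linarith
  have hpos : 0 < B + 2 * t := by linarith
  refine ⟨a', b', g1, g2, ?_, ?_⟩
  · have h8 : M < Real.log (N6 a' b') := by
      rw [g6]
      have := le_abs_self M
      linarith
    have h9 : Real.log (N6 a' b') ≤ N6 a' b' - 1 :=
      Real.log_le_sub_one_of_pos (by have := N6_one a' b'; linarith)
    linarith
  · rw [g5, g6, ← hA, ← hB]
    have e1 : (A + 6 * t) / (B + 2 * t) - y = 2 * w * (L - t) / (B + 2 * t) := by
      rw [eq_div_iff hpos.ne', sub_mul, div_mul_cancel₀ _ hpos.ne', mul_sub, hLw, hw]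
      ring
    rw [e1, abs_div, abs_of_pos hpos, div_lt_iff₀ hpos]
    have h10 : |2 * w * (L - t)| ≤ 2 * w * ((A + c) / L + 3) := by
      rw [abs_mul, abs_of_pos (by positivity : 0 < 2 * w)]
      gcongr
      rw [abs_le]
      have : 0 ≤ (A + c) / L := by positivity
      constructor <;> linarith
    refine lt_of_le_of_lt h10 ?_
    have e2 : (A + c) / L = y * B / L + 2 * w + c / L := by
      have : A = y * B + 2 * w * L := by linarith
      rw [this]
      field_simp
    have h11 : c / L ≤ c := by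
      rw [div_le_iff₀ hLpos]
      nlinarith
    have h12 : (2 * w / ε) * (y + (2 * w + c + 3) / 2) < L := by linarith
    have h13 : 2 * w * (y + (2 * w + c + 3) / 2) < ε * L := by
      have : (2 * w / ε) * (y + (2 * w + c + 3) / 2) = 2 * w * (y + (2 * w + c + 3) / 2) / ε := by
        ring
      rw [this, div_lt_iff₀ hε] at h12
      linarith
    -- the main estimate
    have h14 : 2 * w * ((A + c) / L + 3) ≤
        (2 * w * (y + (2 * w + c + 3) / 2)) / L * (B + 2 * L) := by
      rw [e2]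
      have e3 : (2 * w * (y + (2 * w + c + 3) / 2)) / L * (B + 2 * L) =
          2 * w * (y * B / L + (2 * w + c + 3) / 2 * B / L + 2 * y + (2 * w + c + 3)) := by
        field_simp
        ring
      rw [e3]
      have h15 : 0 ≤ (2 * w + c + 3) / 2 * B / L := by positivity
      gcongr 2 * w * ?_
      linarith
    calc 2 * w * ((A + c) / L + 3) ≤
        (2 * w * (y + (2 * w + c + 3) / 2)) / L * (B + 2 * L) := h14
      _ < ε * (B + 2 * L) := by
          have : (2 * w * (y + (2 * w + c + 3) / 2)) / L < ε := by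
            rw [div_lt_iff₀ hLpos]; exact h13
          have h16 : 0 < B + 2 * L := by linarith
          gcongr
      _ ≤ ε * (B + 2 * t) := by gcongr

/-- above the interval the inequality holds with a constant -/
theorem szpiro_const {Φ : ℤ → ℤ → ℝ} {c : ℝ} (hΦ : Size Φ c) {P : ℤ → ℤ → Prop}
    (hP : TwistClosed P) {S : EReal} (hS : 3 ≤ S)
    (h : ∀ x : ℝ, LimPt Φ N6 P x → (x : EReal) ≤ S) (κ : ℝ) (hκ : S < κ) :
    ∃ C : ℝ, 0 < C ∧ ∀ a b, IsMinimal a b → P a b → Φ a b ≤ C * N6 a b ^ κ := by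
  have h3 : (3 : ℝ) < κ := by
    have : ((3 : ℝ) : EReal) < κ := lt_of_le_of_lt (by exact_mod_cast hS) hκ
    exact_mod_cast this
  have hno : ¬ LimPt Φ N6 P κ := fun hl => absurd (h κ hl) (not_le.mpr hκ)
  have h4 : ∃ K : ℝ, ∀ a b, IsMinimal a b → P a b →
      Real.log (Φ a b) < κ * Real.log (N6 a b) + K := by
    by_contra hcon
    push Not at hcon
    exact hno (reach_up' hΦ hP h3 hcon)
  obtain ⟨K, hK⟩ := h4
  refine ⟨Real.exp K, Real.exp_pos K, fun a b h1 h2 => ?_⟩
  have h5 := hK a b h1 h2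
  have hN0 : 0 < N6 a b := by have := N6_one a b; linarith
  have hΦ0 : 0 < Φ a b := by have := hΦ.one a b h1; linarith
  have h6 : Real.log (Φ a b) ≤ Real.log (Real.exp K * N6 a b ^ κ) := by
    rw [Real.log_mul (Real.exp_pos K).ne' (Real.rpow_pos_of_pos hN0 κ).ne', Real.log_exp,
      Real.log_rpow hN0]
    linarith
  exact (Real.log_le_log_iff hΦ0 (by positivity)).mp h6

/-- the set of limit points is closed (from below) -/
theorem lim_closed {Φ N : ℤ → ℤ → ℝ} {P : ℤ → ℤ → Prop} {x : ℝ}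
    (h : ∀ δ : ℝ, 0 < δ → ∃ y : ℝ, |y - x| < δ ∧ LimPt Φ N P y) : LimPt Φ N P x := by
  intro ε M hε
  obtain ⟨y, hy, hlim⟩ := h (ε / 2) (by positivity)
  obtain ⟨a, b, h1, h2, h3, h4⟩ := hlim (ε / 2) M (by positivity)
  refine ⟨a, b, h1, h2, h3, ?_⟩
  have e : Real.log (Φ a b) / Real.log (N a b) - x =
      (Real.log (Φ a b) / Real.log (N a b) - y) + (y - x) := by ring
  rw [e]
  exact lt_of_le_of_lt (abs_add_le _ _) (by linarith)

end Pool.Agent.Q272.LP
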