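import Pool.Agent.Q272.LP.Lim
import Pool.Agent.Q272.LP.Ex

/-!
# The sets of limit points for some classes of curves
-/

set_option autoImplicit false

namespace Pool.Agent.Q272.LP

open Finset

/-- the lower endpoint of the interval -/
theorem interval_lo {Φ : ℤ → ℤ → ℝ} {c : ℝ} (hΦ : Size Φ c) {P : ℤ → ℤ → Prop}
    (hP : TwistClosed P) {lo : ℝ} (hlo0 : 0 ≤ lo) (hlo : lo < 3)
    (hlow : ∃ c' : ℝ, ∀ a b, IsMinimal a b → P a b →
      lo * Real.log (N6 a b) ≤ Real.log (Φ a b) + c')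
    (hex : ∀ ε M : ℝ, 0 < ε → ∃ a b : ℤ, IsMinimal a b ∧ P a b ∧ M < N6 a b ∧
      Real.log (Φ a b) ≤ (lo + ε) * Real.log (N6 a b)) :
    ∃ S : EReal, 3 ≤ S ∧ ∀ x : ℝ, LimPt Φ N6 P x ↔ lo ≤ x ∧ (x : EReal) ≤ S := by
  obtain ⟨a0, b0, hm0, hp0, -⟩ := hex 1 0 one_pos
  obtain ⟨I, S, h1, h2, h3, h4⟩ := interval hΦ hP ⟨a0, b0, hm0, hp0⟩
  refine ⟨S, h3, fun x => ?_⟩
  have hlim := reach_down hΦ hP hlo0 hlo hex
  have hI : I ≤ lo := ((h4 lo).mp hlim).1
  obtain ⟨c', hc'⟩ := hlow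
  constructor
  · intro hx
    refine ⟨?_, ((h4 x).mp hx).2⟩
    by_contra hcon
    push Not at hcon
    set δ := (lo - x) / 2 with hδ
    have hδ0 : 0 < δ := by linarith
    obtain ⟨M', -, hM'⟩ := big_of (M := 0) (R := |c'| / δ + 1)
    obtain ⟨a, b, g1, g2, g3, g4⟩ := hx δ M' hδ0
    obtain ⟨g5, g6⟩ := hM' _ g3
    have hB : 0 < Real.log (N6 a b) := by
      have : 0 ≤ |c'| / δ := by positivity
      linarith
    have g7 := hc' a b g1 g2
    have g8 : Real.log (Φ a b) / Real.log (N6 a b) < lo - δ := by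
      have := (abs_lt.mp g4).2
      linarith
    rw [div_lt_iff₀ hB] at g8
    have g9 : |c'| < δ * Real.log (N6 a b) := by
      have : |c'| / δ < Real.log (N6 a b) := by linarith
      rwa [div_lt_iff₀ hδ0, mul_comm] at this
    have := le_abs_self c'
    nlinarith
  · rintro ⟨hx1, hx2⟩
    exact (h4 x).mpr ⟨hI.trans hx1, hx2⟩

/-- both endpoints of the interval -/
theorem interval_both {Φ : ℤ → ℤ → ℝ} {c : ℝ} (hΦ : Size Φ c) {P : ℤ → ℤ → Prop}
    (hP : TwistClosed P) {lo hi : ℝ} (hlo0 : 0 ≤ lo) (hlo : lo < 3) (hhi : 3 < hi)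
    (hlow : ∃ c' : ℝ, ∀ a b, IsMinimal a b → P a b →
      lo * Real.log (N6 a b) ≤ Real.log (Φ a b) + c')
    (hup : ∃ c' : ℝ, ∀ a b, IsMinimal a b → P a b →
      Real.log (Φ a b) ≤ hi * Real.log (N6 a b) + c')
    (hex : ∀ ε M : ℝ, 0 < ε → ∃ a b : ℤ, IsMinimal a b ∧ P a b ∧ M < N6 a b ∧
      Real.log (Φ a b) ≤ (lo + ε) * Real.log (N6 a b))
    (hex' : ∀ ε M : ℝ, 0 < ε → ∃ a b : ℤ, IsMinimal a b ∧ P a b ∧ M < N6 a b ∧
      (hi - ε) * Real.log (N6 a b) ≤ Real.log (Φ a b)) (x : ℝ) :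
    LimPt Φ N6 P x ↔ lo ≤ x ∧ x ≤ hi := by
  obtain ⟨S, h1, h2⟩ := interval_lo hΦ hP hlo0 hlo hlow hex
  have hlim := reach_up hΦ hP hhi hex'
  have hS : ((hi : ℝ) : EReal) ≤ S := ((h2 hi).mp hlim).2
  obtain ⟨c', hc'⟩ := hup
  constructor
  · intro hx
    refine ⟨((h2 x).mp hx).1, ?_⟩
    by_contra hcon
    push Not at hcon
    set δ := (x - hi) / 2 with hδ
    have hδ0 : 0 < δ := by linarith
    obtain ⟨M', -, hM'⟩ := big_of (M := 0) (R := |c'| / δ + 1)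
    obtain ⟨a, b, g1, g2, g3, g4⟩ := hx δ M' hδ0
    obtain ⟨g5, g6⟩ := hM' _ g3
    have hB : 0 < Real.log (N6 a b) := by
      have : 0 ≤ |c'| / δ := by positivity
      linarith
    have g7 := hc' a b g1 g2
    have g8 : hi + δ < Real.log (Φ a b) / Real.log (N6 a b) := by
      have := (abs_lt.mp g4).1
      linarith
    rw [lt_div_iff₀ hB] at g8
    have g9 : |c'| < δ * Real.log (N6 a b) := by
      have : |c'| / δ < Real.log (N6 a b) := by linarith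
      rwa [div_lt_iff₀ hδ0, mul_comm] at this
    have := le_abs_self c'
    nlinarith
  · rintro ⟨hx1, hx2⟩
    refine (h2 x).mpr ⟨hx1, le_trans ?_ hS⟩
    exact_mod_cast hx2

/-- the absolute value of the discriminant -/
noncomputable def absD (a b : ℤ) : ℝ := |(Disc a b : ℝ)|

theorem absD_eq (a b : ℤ) : absD a b = ((Disc a b).natAbs : ℝ) := by
  unfold absD
  rw [Nat.cast_natAbs, Int.cast_abs]

theorem size_absD : Size absD 0 where
  one := by
    intro a b h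
    rw [absD_eq]
    have := Int.natAbs_pos.mpr h.1
    exact_mod_cast this
  twist := by
    intro a b l
    unfold absD
    rw [disc_twist]
    push_cast
    rw [abs_mul, abs_of_nonneg (by positivity : (0 : ℝ) ≤ (l : ℝ) ^ 6)]
  disc := by
    intro a b _
    rw [add_zero]
    exact le_rfl
  c0 := le_rfl

theorem log_le_of_dvd {m n : ℕ} (hn : n ≠ 0) (h : m ∣ n) : Real.log m ≤ Real.log n := by
  rcases Nat.eq_zero_or_pos m with hm | hm
  · rw [hm] at h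
    exact absurd (Nat.eq_zero_of_zero_dvd h) hn
  · have h1 : (m : ℝ) ≤ n := by exact_mod_cast Nat.le_of_dvd (Nat.pos_of_ne_zero hn) h
    exact Real.log_le_log (by exact_mod_cast hm) h1

/-! ### twist-closed classes -/

theorem tc_all : TwistClosed (fun _ _ => True) := fun _ _ _ _ _ _ _ => trivial

theorem tc_full : TwistClosed FullTwoTorsion := by
  rintro a b l hl - - ⟨r, s, t, h⟩
  refine ⟨l * r, l * s, l * t, fun x => ?_⟩
  have hl0 : (l : ℚ) ≠ 0 := by exact_mod_cast hl.ne_zero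
  have h1 := h (x / l)
  have e : x ^ 3 - ((((l : ℤ) ^ 2 * a : ℤ)) : ℚ) * x - ((((l : ℤ) ^ 3 * b : ℤ)) : ℚ) =
      (l : ℚ) ^ 3 * ((x / l) ^ 3 - a * (x / l) - b) := by
    push_cast
    field_simp
  rw [e, h1]
  field_simp

theorem tc_two : TwistClosed TwoTorsion := by
  rintro a b l hl - - ⟨r, h⟩
  refine ⟨l * r, ?_⟩
  push_cast
  have e : ((l : ℚ) * r) ^ 3 - (l : ℚ) ^ 2 * a * (l * r) - (l : ℚ) ^ 3 * b =
      (l : ℚ) ^ 3 * (r ^ 3 - a * r - b) := by ring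
  rw [e, h, mul_zero]

theorem tc_zero : TwistClosed (fun a _ => a = 0) := by
  rintro a b l - - - h
  have h' : a = 0 := h
  change (l : ℤ) ^ 2 * a = 0
  rw [h', mul_zero]

theorem tc_zero' : TwistClosed (fun _ b => b = 0) := by
  rintro a b l - - - h
  have h' : b = 0 := h
  change (l : ℤ) ^ 3 * b = 0
  rw [h', mul_zero]

theorem tc_int : TwistClosed IntegralJ := by
  rintro a b l - - - h
  unfold IntegralJ at h ⊢
  rw [disc_twist]
  have : 6912 * ((l : ℤ) ^ 2 * a) ^ 3 = (l : ℤ) ^ 6 * (6912 * a ^ 3) := by ring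
  rw [this]
  exact mul_dvd_mul_left _ h

theorem zero_int (b : ℤ) : IntegralJ 0 b := by
  unfold IntegralJ
  simp

/-! ### bounds -/

theorem low_all (a b : ℤ) (h : IsMinimal a b) :
    Real.log (N6 a b) ≤ Real.log (absD a b) := by
  rw [absD_eq]
  unfold N6
  exact log_le_of_dvd (Int.natAbs_ne_zero.mpr h.1) (cond_dvd h.1)

theorem low_full (a b : ℤ) (h : IsMinimal a b) (hf : FullTwoTorsion a b) :
    2 * Real.log (N6 a b) ≤ Real.log (absD a b) := by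
  rw [absD_eq]
  unfold N6
  obtain ⟨r, s, t, h1, h2, h3⟩ := full_int hf
  have h4 := log_le_of_dvd (Int.natAbs_ne_zero.mpr h.1) (cond_sq_dvd h.1 h1 h2 h3)
  push_cast at h4
  rw [Real.log_pow] at h4
  exact_mod_cast h4

theorem up_int (a b : ℤ) (h : IsMinimal a b) (hj : IntegralJ a b) :
    Real.log (absD a b) ≤ 5 * Real.log (N6 a b) + Real.log (6 ^ 40) := by
  rw [absD_eq]
  unfold N6
  have h4 := log_le_of_dvd (mul_ne_zero (by norm_num) (pow_ne_zero _ (cond6_ne a b)))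
    (disc_dvd h hj)
  have h5 : (Cond6 a b : ℝ) ≠ 0 := by exact_mod_cast cond6_ne a b
  rw [Nat.cast_mul, Nat.cast_pow, Nat.cast_pow, Nat.cast_ofNat,
    Real.log_mul (by positivity) (pow_ne_zero _ h5), Real.log_pow (x := (Cond6 a b : ℝ)) (n := 5),
    Nat.cast_ofNat] at h4
  linarith

theorem both_zero' (a : ℤ) (h : IsMinimal a 0) :
    3 / 2 * Real.log (N6 a 0) ≤ Real.log (absD a 0) ∧
    Real.log (absD a 0) ≤ 9 / 2 * Real.log (N6 a 0) + Real.log (6 ^ 40) / 2 := by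
  obtain ⟨h1, h2⟩ := disc_dvd' h
  have hD := Int.natAbs_ne_zero.mpr h.1
  have h3 := log_le_of_dvd (pow_ne_zero _ hD) h1
  have h4 := log_le_of_dvd (mul_ne_zero (by norm_num) (pow_ne_zero _ (cond6_ne a 0))) h2
  have h5 : (Cond6 a 0 : ℝ) ≠ 0 := by exact_mod_cast cond6_ne a 0
  rw [absD_eq]
  unfold N6
  rw [Nat.cast_pow, Nat.cast_pow, Real.log_pow, Real.log_pow, Nat.cast_ofNat,
    Nat.cast_ofNat] at h3
  rw [Nat.cast_mul, Nat.cast_pow, Nat.cast_pow, Nat.cast_pow, Nat.cast_ofNat,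
    Real.log_mul (by positivity) (pow_ne_zero _ h5), Real.log_pow (x := (Cond6 a 0 : ℝ)) (n := 9),
    Real.log_pow (n := 2), Nat.cast_ofNat, Nat.cast_ofNat] at h4
  obtain ⟨Z, hZ⟩ : ∃ Z, Z = Real.log ((6 : ℝ) ^ 40) := ⟨_, rfl⟩
  rw [← hZ] at h4 ⊢
  constructor <;> linarith

/-! ### examples -/

theorem big_prime (M : ℝ) : ∃ p : ℕ, p.Prime ∧ 5 ≤ p ∧ M < (p : ℝ) ^ 2 := by
  obtain ⟨n, hn⟩ := exists_nat_gt M
  obtain ⟨p, hp1, hp⟩ := Nat.exists_infinite_primes (n + 5)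
  refine ⟨p, hp, by omega, ?_⟩
  have h1 : (n : ℝ) ≤ p := by exact_mod_cast (by omega : n ≤ p)
  have h2 : (1 : ℝ) ≤ p := by exact_mod_cast hp.one_lt.le
  nlinarith

/-- `log D ≤ (lo + ε) log N` from `log D ≤ lo log N + c` -/
theorem ex_of {Φ : ℤ → ℤ → ℝ} {P : ℤ → ℤ → Prop} {lo c : ℝ}
    (h : ∀ M : ℝ, ∃ a b : ℤ, IsMinimal a b ∧ P a b ∧ M < N6 a b ∧
      Real.log (Φ a b) ≤ lo * Real.log (N6 a b) + c) :
    ∀ ε M : ℝ, 0 < ε → ∃ a b : ℤ, IsMinimal a b ∧ P a b ∧ M < N6 a b ∧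
      Real.log (Φ a b) ≤ (lo + ε) * Real.log (N6 a b) := by
  intro ε M hε
  obtain ⟨M', -, hM'⟩ := big_of (M := M) (R := c / ε)
  obtain ⟨a, b, g1, g2, g3, g4⟩ := h M'
  obtain ⟨g5, g6⟩ := hM' _ g3
  refine ⟨a, b, g1, g2, g6, ?_⟩
  have : c ≤ ε * Real.log (N6 a b) := by
    rwa [div_le_iff₀ hε, mul_comm] at g5
  linarith

theorem ex_of' {Φ : ℤ → ℤ → ℝ} {P : ℤ → ℤ → Prop} {hi c : ℝ}
    (h : ∀ M : ℝ, ∃ a b : ℤ, IsMinimal a b ∧ P a b ∧ M < N6 a b ∧
      hi * Real.log (N6 a b) ≤ Real.log (Φ a b) + c) :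
    ∀ ε M : ℝ, 0 < ε → ∃ a b : ℤ, IsMinimal a b ∧ P a b ∧ M < N6 a b ∧
      (hi - ε) * Real.log (N6 a b) ≤ Real.log (Φ a b) := by
  intro ε M hε
  obtain ⟨M', -, hM'⟩ := big_of (M := M) (R := c / ε)
  obtain ⟨a, b, g1, g2, g3, g4⟩ := h M'
  obtain ⟨g5, g6⟩ := hM' _ g3
  refine ⟨a, b, g1, g2, g6, ?_⟩
  have : c ≤ ε * Real.log (N6 a b) := by
    rwa [div_le_iff₀ hε, mul_comm] at g5
  linarith

theorem zero_logs {p k : ℕ} (hp : p.Prime) (h5 : 5 ≤ p) (hk : 1 ≤ k) :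
    Real.log (N6 0 ((p : ℤ) ^ k)) = 2 * Real.log p ∧
      Real.log (absD 0 ((p : ℤ) ^ k)) = 2 * k * Real.log p + Real.log 27 := by
  have hp0 : (0 : ℝ) < p := by exact_mod_cast hp.pos
  constructor
  · unfold N6
    rw [zero_cond hp h5 hk]
    push_cast
    rw [Real.log_pow]
    push_cast
    ring
  · have e : ((Disc 0 ((p : ℤ) ^ k) : ℤ) : ℝ) = -(27 * ((p : ℝ) ^ k) ^ 2) := by
      unfold Disc; push_cast; ring
    unfold absD
    rw [e, abs_neg, abs_of_pos (by positivity), Real.log_mul (by norm_num) (by positivity),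
      Real.log_pow, Real.log_pow]
    push_cast
    ring

theorem zero_logs' {p k : ℕ} (hp : p.Prime) (h5 : 5 ≤ p) (hk : 1 ≤ k) :
    Real.log (N6 ((p : ℤ) ^ k) 0) = 2 * Real.log p ∧
      Real.log (absD ((p : ℤ) ^ k) 0) = 3 * k * Real.log p + Real.log 4 := by
  have hp0 : (0 : ℝ) < p := by exact_mod_cast hp.pos
  constructor
  · unfold N6
    rw [zero_cond' hp h5 hk]
    push_cast
    rw [Real.log_pow]
    push_cast
    ring
  · have e : ((Disc ((p : ℤ) ^ k) 0 : ℤ) : ℝ) = 4 * ((p : ℝ) ^ k) ^ 3 := by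
      unfold Disc; push_cast; ring
    unfold absD
    rw [e, abs_of_pos (by positivity), Real.log_mul (by norm_num) (by positivity),
      Real.log_pow, Real.log_pow]
    push_cast
    ring

theorem ex_zero (k : ℕ) (hk : 1 ≤ k) (hk5 : k ≤ 5) (M : ℝ) : ∃ b : ℤ, IsMinimal 0 b ∧
    M < N6 0 b ∧ Real.log (absD 0 b) = k * Real.log (N6 0 b) + Real.log 27 := by
  obtain ⟨p, hp, h5, hM⟩ := big_prime M
  obtain ⟨h1, h2⟩ := zero_logs hp h5 hk
  refine ⟨(p : ℤ) ^ k, zero_min hp hk5, ?_, ?_⟩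
  · unfold N6
    rw [zero_cond hp h5 hk]
    push_cast
    exact hM
  · rw [h1, h2]; ring

theorem ex_zero' (k : ℕ) (hk : 1 ≤ k) (hk3 : k ≤ 3) (M : ℝ) : ∃ a : ℤ, IsMinimal a 0 ∧
    M < N6 a 0 ∧ Real.log (absD a 0) = 3 * k / 2 * Real.log (N6 a 0) + Real.log 4 := by
  obtain ⟨p, hp, h5, hM⟩ := big_prime M
  obtain ⟨h1, h2⟩ := zero_logs' hp h5 hk
  refine ⟨(p : ℤ) ^ k, zero_min' hp hk3, ?_, ?_⟩
  · unfold N6
    rw [zero_cond' hp h5 hk]
    push_cast
    exact hM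
  · rw [h1, h2]; ring

/-- full 2-torsion, `D` nearly `N²` -/
theorem ex_full_lo (M : ℝ) : ∃ a b : ℤ, IsMinimal a b ∧ FullTwoTorsion a b ∧ M < N6 a b ∧
    Real.log (absD a b) ≤ 2 * Real.log (N6 a b) + (Real.log 729 + 2 * Real.log 6) := by
  obtain ⟨m, hm⟩ := exists_nat_gt (6 * |M|)
  obtain ⟨n, hn, hn0, hsq⟩ := ex_full m
  set P : ℕ := n * (n + 1) * (n + (n + 1)) with hP
  have hcop : IsCoprime (n : ℤ) ((n : ℤ) + 1) := ⟨-1, 1, by ring⟩
  have hne : (n : ℤ) * ((n : ℤ) + 1) * ((n : ℤ) + ((n : ℤ) + 1)) ≠ 0 := by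
    have : (0 : ℤ) < n := by exact_mod_cast hn0
    positivity
  have hmin := tri_min hcop hne
  have hD := hmin.1
  have hdisc := tri_disc (n : ℤ) ((n : ℤ) + 1)
  have hPD : (P : ℤ) ∣ Disc (ta n ((n : ℤ) + 1)) (tb n ((n : ℤ) + 1)) := by
    rw [hdisc, hP]
    push_cast
    exact Dvd.dvd.mul_left (dvd_pow_self _ (by norm_num)) _
  have hle := sqfree_le hD hsq hPD
  have hleR : (P : ℝ) ≤ 6 * N6 (ta n ((n : ℤ) + 1)) (tb n ((n : ℤ) + 1)) := by
    unfold N6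
    exact_mod_cast hle
  have hN1 := N6_one (ta n ((n : ℤ) + 1)) (tb n ((n : ℤ) + 1))
  have hPn : (n : ℝ) ≤ P := by
    have : n ≤ P := by
      rw [hP]
      calc n = n * 1 * 1 := by ring
        _ ≤ n * (n + 1) * (n + (n + 1)) := by gcongr <;> omega
    exact_mod_cast this
  have hP0 : (0 : ℝ) < P := by
    have : (0 : ℝ) < n := by exact_mod_cast hn0
    linarith
  refine ⟨_, _, hmin, tri_full _ _, ?_, ?_⟩
  · have h1 : (m : ℝ) ≤ n := by exact_mod_cast hn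
    have h2 := le_abs_self M
    linarith
  · have e : absD (ta n ((n : ℤ) + 1)) (tb n ((n : ℤ) + 1)) = 729 * (P : ℝ) ^ 2 := by
      unfold absD
      rw [hdisc, hP]
      push_cast
      rw [abs_of_nonneg (by positivity)]
    rw [e, Real.log_mul (by norm_num) (by positivity), Real.log_pow]
    have h1 := Real.log_le_log hP0 hleR
    rw [Real.log_mul (by norm_num) (by linarith)] at h1
    push_cast
    linarith

/-- a point of order two, `D` nearly `N` -/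
theorem ex_two_lo (M : ℝ) : ∃ a b : ℤ, IsMinimal a b ∧ TwoTorsion a b ∧ M < N6 a b ∧
    Real.log (absD a b) ≤ 1 * Real.log (N6 a b) + (Real.log 729 + Real.log 6) := by
  obtain ⟨m, hm⟩ := exists_nat_gt (6 * |M|)
  obtain ⟨k, hk, hsq⟩ := ex_two m
  set P : ℕ := (4 * k + 1) * (4 * k + 5) with hP
  set s : ℤ := 4 * k + 3 with hs
  have hPs : s ^ 2 - 4 = P := by
    rw [hs, hP]
    push_cast
    ring
  have hP0' : 0 < P := by positivity
  have hs4 : s ^ 2 ≠ 4 := by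
    intro h
    rw [h] at hPs
    have : (0 : ℤ) < P := by exact_mod_cast hP0'
    omega
  have hmin := two_min hs4
  have hD := hmin.1
  have hdisc := two_disc s
  rw [hPs] at hdisc
  have hPD : (P : ℤ) ∣ Disc (3 * (s ^ 2 - 3)) (9 * s - 2 * s ^ 3) := by
    rw [hdisc]
    exact Dvd.intro_left _ rfl
  have hle := sqfree_le hD hsq hPD
  have hleR : (P : ℝ) ≤ 6 * N6 (3 * (s ^ 2 - 3)) (9 * s - 2 * s ^ 3) := by
    unfold N6
    exact_mod_cast hle
  have hN1 := N6_one (3 * (s ^ 2 - 3)) (9 * s - 2 * s ^ 3)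
  have hPn : (k : ℝ) ≤ P := by
    have : k ≤ P := by
      rw [hP]
      nlinarith
    exact_mod_cast this
  have hP0 : (0 : ℝ) < P := by exact_mod_cast hP0'
  refine ⟨_, _, hmin, two_tors _, ?_, ?_⟩
  · have h1 : (m : ℝ) ≤ k := by exact_mod_cast hk
    have h2 := le_abs_self M
    linarith
  · have e : absD (3 * (s ^ 2 - 3)) (9 * s - 2 * s ^ 3) = 729 * (P : ℝ) := by
      unfold absD
      rw [hdisc]
      push_cast
      rw [abs_of_nonneg (by positivity)]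
    rw [e, Real.log_mul (by norm_num) (by positivity)]
    have h1 := Real.log_le_log hP0 hleR
    rw [Real.log_mul (by norm_num) (by linarith)] at h1
    linarith

end Pool.Agent.Q272.LP
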