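import Pool.Agent.Q272.LP.AbcFull
import Pool.Agent.TH498.MT.M3

/-!
# Global minimal Weierstrass equations and short minimal models
-/

set_option autoImplicit false

namespace Pool.Agent.Q272.LP

open Finset
open Pool.Agent.H39R3 (GMin condW shortW FullT iso_short)
open Pool.Agent.Q272.TR (ht AbcExp SzExp)

/-- `27 c₄ = u⁴ a` and `54 c₆ = u⁶ b` for a nonzero integer `u`, `|u| ≤ 6` -/
structure Rel (W : WeierstrassCurve ℤ) (a b : ℤ) (u : ℤ) : Prop where
  c4 : 27 * W.c₄ = u ^ 4 * a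
  c6 : 54 * W.c₆ = u ^ 6 * b
  ne : u ≠ 0
  le : |u| ≤ 6
  gmin : GMin W
  min : IsMinimal a b

theorem int_of_rel {a b X Y : ℤ} (h : IsMinimal a b) {u : ℚ} (hu : u ≠ 0)
    (hX : (X : ℚ) = u ^ 4 * a) (hY : (Y : ℚ) = u ^ 6 * b) : ∃ n : ℤ, n ≠ 0 ∧ u = n ∧
      X = n ^ 4 * a ∧ Y = n ^ 6 * b := by
  have hd : (u.den : ℚ) ≠ 0 := by exact_mod_cast u.den_nz
  have h4 : X * (u.den : ℤ) ^ 4 = u.num ^ 4 * a := by
    have : ((X * (u.den : ℤ) ^ 4 : ℤ) : ℚ) = ((u.num ^ 4 * a : ℤ) : ℚ) := by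
      rw [Int.cast_mul, hX]
      push_cast
      nth_rewrite 1 [← Rat.num_div_den u]
      field_simp
    exact_mod_cast this
  have h6 : Y * (u.den : ℤ) ^ 6 = u.num ^ 6 * b := by
    have : ((Y * (u.den : ℤ) ^ 6 : ℤ) : ℚ) = ((u.num ^ 6 * b : ℤ) : ℚ) := by
      rw [Int.cast_mul, hY]
      push_cast
      nth_rewrite 1 [← Rat.num_div_den u]
      field_simp
    exact_mod_cast this
  have hco : IsCoprime u.num (u.den : ℤ) := by
    rw [Int.isCoprime_iff_gcd_eq_one]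
    exact u.reduced
  have d4 : (u.den : ℤ) ^ 4 ∣ a :=
    (IsCoprime.pow hco.symm).dvd_of_dvd_mul_left (h4 ▸ Dvd.intro_left _ rfl)
  have d6 : (u.den : ℤ) ^ 6 ∣ b :=
    (IsCoprime.pow hco.symm).dvd_of_dvd_mul_left (h6 ▸ Dvd.intro_left _ rfl)
  have hden : u.den = 1 := by
    by_contra hne
    obtain ⟨p, hp, hpd⟩ := Nat.exists_prime_and_dvd hne
    have hpd' : (p : ℤ) ∣ (u.den : ℤ) := Int.natCast_dvd_natCast.mpr hpd
    exact ((isMinimal_iff a b).mp h).2 p hp ⟨(pow_dvd_pow_of_dvd hpd' 4).trans d4,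
      (pow_dvd_pow_of_dvd hpd' 6).trans d6⟩
  have hun : u = u.num := by
    nth_rewrite 1 [← Rat.num_div_den u]
    rw [hden]
    simp
  refine ⟨u.num, Rat.num_ne_zero.mpr hu, hun, ?_, ?_⟩
  · rw [hden] at h4
    simpa using h4
  · rw [hden] at h6
    simpa using h6

theorem rel_of {W : WeierstrassCurve ℤ} {a b : ℤ} (hW : GMin W) (h : IsMinimal a b) {u : ℚ}
    (hu : u ≠ 0) (hX : (27 * W.c₄ : ℚ) = u ^ 4 * a) (hY : (54 * W.c₆ : ℚ) = u ^ 6 * b) :
    ∃ n : ℤ, Rel W a b n := by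
  obtain ⟨n, hn, -, h4, h6⟩ := int_of_rel (X := 27 * W.c₄) (Y := 54 * W.c₆) h hu
    (by push_cast; exact hX) (by push_cast; exact hY)
  refine ⟨n, h4, h6, hn, ?_, hW, h⟩
  have := Pool.Agent.TH498.KB.prim_of_gmin W hW n (h4 ▸ Dvd.intro _ rfl) (h6 ▸ Dvd.intro _ rfl)
  exact_mod_cast this

theorem disc_c (W : WeierstrassCurve ℤ) : Disc (27 * W.c₄) (54 * W.c₆) = 78732 * 1728 * W.Δ := by
  have := W.c_relation
  unfold Disc
  linear_combination (-78732) * this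

/-- from `W` to a short model -/
theorem exists_short (W : WeierstrassCurve ℤ) (hW : GMin W) : ∃ a b u, Rel W a b u := by
  classical
  let Sx : Set ℕ := {n | ∃ (a b : ℤ) (u : ℚ), u ≠ 0 ∧ (27 * W.c₄ : ℚ) = u ^ 4 * a ∧
    (54 * W.c₆ : ℚ) = u ^ 6 * b ∧ (Disc a b).natAbs = n}
  have hne : Sx.Nonempty := ⟨_, 27 * W.c₄, 54 * W.c₆, 1, one_ne_zero, by push_cast; ring,
    by push_cast; ring, rfl⟩
  obtain ⟨a, b, u, hu, h4, h6, hn⟩ := Nat.sInf_mem hne
  have hDe : ((78732 * 1728 * W.Δ : ℤ) : ℚ) = u ^ 12 * (Disc a b : ℚ) := by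
    rw [← disc_c]
    unfold Disc
    push_cast
    rw [h4, h6]
    ring
  have hmin : IsMinimal a b := by
    constructor
    · intro h0
      rw [h0] at hDe
      have h9 : ((78732 * 1728 * W.Δ : ℤ) : ℚ) = 0 := by rw [hDe]; simp
      have : (78732 * 1728 * W.Δ : ℤ) = 0 := Int.cast_eq_zero.mp h9
      have hΔ := hW.1
      omega
    · intro v a' b' hv ha' hb'
      have hmem : (Disc a' b').natAbs ∈ Sx := by
        refine ⟨a', b', u / v, div_ne_zero hu hv, ?_, ?_, rfl⟩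
        · rw [h4, ha', div_pow]
          field_simp
        · rw [h6, hb', div_pow]
          field_simp
      have h5 := Nat.sInf_le hmem
      rw [← hn] at h5
      rw [Int.abs_eq_natAbs, Int.abs_eq_natAbs]
      exact_mod_cast h5
  obtain ⟨n, h⟩ := rel_of hW hmin hu h4 h6
  exact ⟨a, b, n, h⟩

/-- from a short model to `W` -/
theorem exists_long {a b : ℤ} (h : IsMinimal a b) : ∃ W u, Rel W a b u := by
  have hΔ : (shortW a b).Δ ≠ 0 := by
    rw [Pool.Agent.H39R3.shortW_Δ]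
    exact mul_ne_zero (by norm_num) h.1
  obtain ⟨W, C, hW, hC⟩ := Pool.Agent.TH498.MT.exists_gmin
    ((shortW a b).map (Int.castRingHom ℚ)) (shortW a b) hΔ 1 (one_smul _ _)
  have h4 := congrArg WeierstrassCurve.c₄ hC
  have h6 := congrArg WeierstrassCurve.c₆ hC
  rw [WeierstrassCurve.variableChange_c₄, WeierstrassCurve.map_c₄, WeierstrassCurve.map_c₄,
    eq_intCast, eq_intCast, Pool.Agent.H39R3.shortW_c4] at h4
  rw [WeierstrassCurve.variableChange_c₆, WeierstrassCurve.map_c₆, WeierstrassCurve.map_c₆,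
    eq_intCast, eq_intCast, Pool.Agent.H39R3.shortW_c6] at h6
  set v : ℚ := ((C.u⁻¹ : ℚˣ) : ℚ) with hv
  have hv0 : v ≠ 0 := Units.ne_zero _
  obtain ⟨n, hn⟩ := rel_of hW h (u := 6 * v) (mul_ne_zero (by norm_num) hv0) (by
    rw [← h4]
    push_cast
    ring) (by
    rw [← h6]
    push_cast
    ring)
  exact ⟨W, n, hn⟩

/-- the heights -/
theorem rel_ht {W : WeierstrassCurve ℤ} {a b u : ℤ} (h : Rel W a b u) :
    78732 * ht W = (u : ℝ) ^ 12 * Hs a b := by
  have e4 : (27 : ℝ) * W.c₄ = (u : ℝ) ^ 4 * a := by exact_mod_cast h.c4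
  have e6 : (54 : ℝ) * W.c₆ = (u : ℝ) ^ 6 * b := by exact_mod_cast h.c6
  have hu : (0 : ℝ) ≤ (u : ℝ) ^ 12 := by
    have : (u : ℝ) ^ 12 = ((u : ℝ) ^ 6) ^ 2 := by ring
    rw [this]
    positivity
  unfold ht Hs
  rw [mul_max_of_nonneg _ _ (by norm_num : (0 : ℝ) ≤ 78732), mul_max_of_nonneg _ _ hu]
  congr 1
  · have h1 := congrArg (fun z : ℝ => 4 * |z| ^ 3) e4
    simp only [abs_mul] at h1
    rw [abs_of_pos (by norm_num : (0 : ℝ) < 27), abs_pow, mul_pow, mul_pow, ← pow_mul] at h1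
    have h2 : |(u : ℝ)| ^ (4 * 3) = (u : ℝ) ^ 12 := by
      rw [show 4 * 3 = 2 * 6 by norm_num, pow_mul, sq_abs, ← pow_mul]
    rw [h2] at h1
    linarith
  · have h1 := congrArg (fun z : ℝ => 27 * z ^ 2) e6
    simp only [mul_pow] at h1
    rw [← pow_mul] at h1
    norm_num at h1
    linarith

theorem rel_one {W : WeierstrassCurve ℤ} {a b u : ℤ} (h : Rel W a b u) :
    (1 : ℝ) ≤ (u : ℝ) ^ 12 ∧ (u : ℝ) ^ 12 ≤ 6 ^ 12 := by
  have h1 : (1 : ℝ) ≤ |(u : ℝ)| := by exact_mod_cast Int.one_le_abs h.ne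
  have h2 : |(u : ℝ)| ≤ 6 := by exact_mod_cast h.le
  have e : (u : ℝ) ^ 12 = |(u : ℝ)| ^ 12 := by
    rw [show 12 = 2 * 6 by norm_num, pow_mul, pow_mul |(u : ℝ)|, sq_abs]
  rw [e]
  exact ⟨one_le_pow₀ h1, by gcongr⟩

theorem rel_disc {W : WeierstrassCurve ℤ} {a b u : ℤ} (h : Rel W a b u) :
    78732 * 1728 * W.Δ = u ^ 12 * Disc a b := by
  rw [← disc_c, h.c4, h.c6]
  unfold Disc
  ring

theorem ht_pos {W : WeierstrassCurve ℤ} (h : GMin W) : 1 ≤ ht W := by
  unfold ht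
  by_cases h0 : W.c₄ = 0
  · have h6 : W.c₆ ≠ 0 := by
      intro h6
      have := W.c_relation
      rw [h0, h6] at this
      have := h.1
      omega
    have h1 : (1 : ℝ) ≤ |(W.c₆ : ℝ)| := by exact_mod_cast Int.one_le_abs h6
    refine le_trans ?_ (le_max_right _ _)
    rw [← sq_abs]
    exact one_le_pow₀ h1
  · have h1 : (1 : ℝ) ≤ |(W.c₄ : ℝ)| := by exact_mod_cast Int.one_le_abs h0
    exact (one_le_pow₀ h1).trans (le_max_left _ _)

/-- the factorization of the conductor of a global minimal equation -/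
theorem fact_condW {W : WeierstrassCurve ℤ} (hD : W.Δ ≠ 0) {p : ℕ} (hp : p.Prime) :
    (condW W).factorization p =
      if 5 ≤ p ∧ (p : ℤ) ∣ W.Δ then (if (p : ℤ) ∣ W.c₄ then 2 else 1) else 0 := by
  have h1 : condW W = ∏ p ∈ W.Δ.natAbs.primeFactors.filter (fun p => 5 ≤ p),
      p ^ (fun p : ℕ => if (p : ℤ) ∣ W.c₄ then 2 else 1) p := by
    unfold condW
    refine prod_congr rfl fun p _ => ?_
    by_cases h : (p : ℤ) ∣ W.c₄
    · simp [h]
    · simp [h]
  rw [h1, fact_prod _ fun p hp => Nat.prime_of_mem_primeFactors (mem_filter.1 hp).1]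
  have h2 : p ∈ W.Δ.natAbs.primeFactors.filter (fun p => 5 ≤ p) ↔
      5 ≤ p ∧ (p : ℤ) ∣ W.Δ := by
    rw [mem_filter, Nat.mem_primeFactors, ← Int.natCast_dvd]
    constructor
    · rintro ⟨⟨_, h, _⟩, h5⟩
      exact ⟨h5, h⟩
    · rintro ⟨h5, h⟩
      exact ⟨⟨hp, h, Int.natAbs_ne_zero.2 hD⟩, h5⟩
  simp only [h2]

theorem rel_iff {W : WeierstrassCurve ℤ} {a b u : ℤ} (h : Rel W a b u) {p : ℕ} (hp : p.Prime)
    (h7 : 7 ≤ p) : ((p : ℤ) ∣ W.Δ ↔ (p : ℤ) ∣ Disc a b) ∧ ((p : ℤ) ∣ W.c₄ ↔ (p : ℤ) ∣ a) := by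
  have hpp := Nat.prime_iff_prime_int.mp hp
  have hu : ¬ (p : ℤ) ∣ u := by
    intro hc
    have h1 := Int.natCast_dvd.mp hc
    have h2 := Nat.le_of_dvd (Int.natAbs_pos.mpr h.ne) h1
    have h3 := h.le
    rw [Int.abs_eq_natAbs] at h3
    omega
  have hco : ∀ k : ℕ, ¬ (p : ℤ) ∣ u ^ k := fun k hc => hu (hpp.dvd_of_dvd_pow hc)
  have h6 : ¬ (p : ℤ) ∣ 6 := by
    intro hc
    have h1 : p ∣ 6 := by exact_mod_cast hc
    have := Nat.le_of_dvd (by norm_num) h1
    omega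
  have h27 : ¬ (p : ℤ) ∣ 27 := by
    intro hc
    have h1 : (p : ℤ) ∣ 3 := by
      rw [show (27 : ℤ) = 3 ^ 3 by norm_num] at hc
      exact hpp.dvd_of_dvd_pow hc
    exact h6 (h1.trans (by norm_num))
  have hbig : ¬ (p : ℤ) ∣ 78732 * 1728 := by
    intro hc
    have : (78732 * 1728 : ℤ) ∣ 6 ^ 12 := by norm_num
    exact h6 (hpp.dvd_of_dvd_pow (hc.trans this))
  have e1 := rel_disc h
  have e2 := h.c4
  constructor
  · constructor
    · intro hc
      have : (p : ℤ) ∣ u ^ 12 * Disc a b := by rw [← e1]; exact Dvd.dvd.mul_left hc _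
      exact (hpp.dvd_or_dvd this).resolve_left (hco 12)
    · intro hc
      have : (p : ℤ) ∣ 78732 * 1728 * W.Δ := by rw [e1]; exact Dvd.dvd.mul_left hc _
      exact (hpp.dvd_or_dvd this).resolve_left hbig
  · constructor
    · intro hc
      have : (p : ℤ) ∣ u ^ 4 * a := by rw [← e2]; exact Dvd.dvd.mul_left hc _
      exact (hpp.dvd_or_dvd this).resolve_left (hco 4)
    · intro hc
      have : (p : ℤ) ∣ 27 * W.c₄ := by rw [e2]; exact Dvd.dvd.mul_left hc _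
      exact (hpp.dvd_or_dvd this).resolve_left h27

theorem f25 : (25 : ℕ).factorization 5 = 2 := by
  rw [show (25 : ℕ) = 5 ^ 2 by norm_num, Nat.Prime.factorization_pow (by norm_num)]
  simp

theorem rel_cond {W : WeierstrassCurve ℤ} {a b u : ℤ} (h : Rel W a b u) :
    condW W ∣ 25 * Cond6 a b ∧ Cond6 a b ∣ 25 * condW W := by
  have hc1 := cond6_ne a b
  have hc2 := (Pool.Agent.Q272.TR.condW_pos W).ne'
  constructor
  · rw [← Nat.factorization_prime_le_iff_dvd hc2 (mul_ne_zero (by norm_num) hc1)]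
    intro p hp
    rw [fact_condW h.gmin.1 hp, Nat.factorization_mul (by norm_num) hc1, Finsupp.add_apply,
      fact_cond h.min.1 hp]
    by_cases h7 : 7 ≤ p
    · obtain ⟨i1, i2⟩ := rel_iff h hp h7
      simp only [i1, i2]
      omega
    · by_cases h5 : p = 5
      · rw [h5, f25]
        split_ifs <;> omega
      · have hlt : ¬ 5 ≤ p := by
          intro hc
          have : p = 6 := by omega
          rw [this] at hp
          exact absurd hp (by norm_num)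
        rw [if_neg (fun hc => hlt hc.1)]
        omega
  · rw [← Nat.factorization_prime_le_iff_dvd hc1 (mul_ne_zero (by norm_num) hc2)]
    intro p hp
    rw [fact_cond h.min.1 hp, Nat.factorization_mul (by norm_num) hc2, Finsupp.add_apply,
      fact_condW h.gmin.1 hp]
    by_cases h7 : 7 ≤ p
    · obtain ⟨i1, i2⟩ := rel_iff h hp h7
      simp only [i1, i2]
      omega
    · by_cases h5 : p = 5
      · rw [h5, f25]
        split_ifs <;> omega
      · have hlt : ¬ 5 ≤ p := by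
          intro hc
          have : p = 6 := by omega
          rw [this] at hp
          exact absurd hp (by norm_num)
        rw [if_neg (fun hc => hlt hc.1)]
        omega

/-! ### transfer of limit points -/

theorem ratio_close {A B A' B' x δ K ε : ℝ} (hB : 0 < B) (hB' : 0 < B') (hA : |A' - A| ≤ K)
    (hBB : |B' - B| ≤ K) (h : |A / B - x| < δ) (hδ : δ ≤ ε / 2)
    (hT : K * (δ + 1 + |x|) ≤ ε / 2 * B') : |A' / B' - x| < ε := by
  have hδ0 : 0 < δ := lt_of_le_of_lt (abs_nonneg _) h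
  have hK : 0 ≤ K := (abs_nonneg _).trans hA
  have e : A' / B' - x = (A' - x * B') / B' := by field_simp
  have h1 : |A - x * B| < δ * B := by
    have : A - x * B = (A / B - x) * B := by field_simp
    rw [this, abs_mul, abs_of_pos hB]
    gcongr
  have h2 : |A' - x * B'| ≤ |A - x * B| + |A' - A| + |x| * |B' - B| := by
    have : A' - x * B' = (A - x * B) + (A' - A) - x * (B' - B) := by ring
    rw [this]
    refine (abs_sub _ _).trans ?_
    rw [abs_mul]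
    gcongr
    exact abs_add_le _ _
  have h3 : |x| * |B' - B| ≤ |x| * K := by gcongr
  have h4 : B ≤ B' + K := by
    have := (abs_le.mp hBB).1
    linarith
  have h5 : δ * B ≤ δ * (B' + K) := by gcongr
  have h6 : δ * B' ≤ ε / 2 * B' := by gcongr
  rw [e, abs_div, abs_of_pos hB', div_lt_iff₀ hB']
  have h7 : K * (δ + 1 + |x|) = δ * K + K + |x| * K := by ring
  rw [h7] at hT
  have h8 : δ * (B' + K) = δ * B' + δ * K := by ring
  linarith

theorem lim_transfer {α β : Type} {Fα Nα : α → ℝ} {Fβ Nβ : β → ℝ} {Pα : α → Prop}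
    {Pβ : β → Prop} {K : ℝ} (hK : 0 ≤ K)
    (h : ∀ a, Pα a → ∃ b, Pβ b ∧ 1 ≤ Nα a ∧ 1 ≤ Nβ b ∧
      |Real.log (Fβ b) - Real.log (Fα a)| ≤ K ∧ |Real.log (Nβ b) - Real.log (Nα a)| ≤ K) {x : ℝ}
    (hx : ∀ ε M : ℝ, 0 < ε → ∃ a, Pα a ∧ M < Nα a ∧
      |Real.log (Fα a) / Real.log (Nα a) - x| < ε) :
    ∀ ε M : ℝ, 0 < ε → ∃ b, Pβ b ∧ M < Nβ b ∧
      |Real.log (Fβ b) / Real.log (Nβ b) - x| < ε := by
  intro ε M hε
  set T : ℝ := K * (ε / 2 + 1 + |x|) * (2 / ε) + K + |M| + 1 with hT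
  obtain ⟨M', -, hM'⟩ := big_of (M := 0) (R := T)
  obtain ⟨a, h1, h2, h3⟩ := hx (ε / 2) M' (by positivity)
  obtain ⟨h4, -⟩ := hM' _ h2
  obtain ⟨b, g1, g2, g3, g4, g5⟩ := h a h1
  have hT0 : 0 ≤ K * (ε / 2 + 1 + |x|) * (2 / ε) := by positivity
  have hM := abs_nonneg M
  have hB : 0 < Real.log (Nα a) := by linarith
  have hB' : T - K ≤ Real.log (Nβ b) := by
    have := (abs_le.mp g5).1
    linarith
  have hB'0 : 0 < Real.log (Nβ b) := by linarith
  refine ⟨b, g1, ?_, ratio_close hB hB'0 g4 g5 h3 le_rfl ?_⟩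
  · have h9 : Real.log (Nβ b) ≤ Nβ b - 1 := Real.log_le_sub_one_of_pos (by linarith)
    have := le_abs_self M
    linarith
  · have h10 : K * (ε / 2 + 1 + |x|) * (2 / ε) ≤ Real.log (Nβ b) := by linarith
    calc K * (ε / 2 + 1 + |x|) = ε / 2 * (K * (ε / 2 + 1 + |x|) * (2 / ε)) := by
          field_simp
      _ ≤ ε / 2 * Real.log (Nβ b) := by gcongr

/-- limit points for global minimal equations -/
def LimW (N : WeierstrassCurve ℤ → ℝ) (P : WeierstrassCurve ℤ → Prop) (x : ℝ) : Prop :=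
  ∀ ε M : ℝ, 0 < ε → ∃ W, (GMin W ∧ P W) ∧ M < N W ∧
    |Real.log (ht W) / Real.log (N W) - x| < ε

theorem log_near {x y C D : ℝ} (hx : 0 < x) (hy : 0 < y) (hC : 1 ≤ C) (hD : 1 ≤ D)
    (h1 : x ≤ C * y) (h2 : y ≤ D * x) : |Real.log x - Real.log y| ≤ Real.log C + Real.log D := by
  have l1 := Real.log_le_log hx h1
  have l2 := Real.log_le_log hy h2
  rw [Real.log_mul (by linarith) hy.ne'] at l1
  rw [Real.log_mul (by linarith) hx.ne'] at l2
  have := Real.log_nonneg hC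
  have := Real.log_nonneg hD
  rw [abs_le]
  constructor <;> linarith

theorem limW_iff {N : WeierstrassCurve ℤ → ℝ} {C : ℝ} (hC : 1 ≤ C)
    (hN : ∀ W, GMin W → (condW W : ℝ) ≤ N W ∧ N W ≤ C * condW W)
    {P : WeierstrassCurve ℤ → Prop} {Q : ℤ → ℤ → Prop}
    (hPQ : ∀ W a b u, Rel W a b u → (P W ↔ Q a b)) (x : ℝ) : LimW N P x ↔ LimPt Hs N6 Q x := by
  obtain ⟨K, hK⟩ : ∃ K, K = (Real.log (6 ^ 12) + Real.log 78732) +
    (Real.log (25 * C) + Real.log 25) := ⟨_, rfl⟩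
  have l1 : 0 ≤ Real.log ((6 : ℝ) ^ 12) := Real.log_nonneg (by norm_num)
  have l2 : 0 ≤ Real.log (78732 : ℝ) := Real.log_nonneg (by norm_num)
  have l3 : 0 ≤ Real.log (25 * C) := Real.log_nonneg (by linarith)
  have l4 : 0 ≤ Real.log (25 : ℝ) := Real.log_nonneg (by norm_num)
  have hK0 : 0 ≤ K := by rw [hK]; positivity
  have key : ∀ W a b u, Rel W a b u → 1 ≤ N W ∧ 1 ≤ N6 a b ∧
      |Real.log (ht W) - Real.log (Hs a b)| ≤ K ∧ |Real.log (N W) - Real.log (N6 a b)| ≤ K := by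
    intro W a b u h
    obtain ⟨n1, n2⟩ := hN W h.gmin
    have hc1 : (1 : ℝ) ≤ condW W := by exact_mod_cast Pool.Agent.Q272.TR.condW_pos W
    have hc2 := N6_one a b
    obtain ⟨d1, d2⟩ := rel_cond h
    have e1 : (condW W : ℝ) ≤ 25 * N6 a b := by
      unfold N6
      exact_mod_cast Nat.le_of_dvd (by have := cond6_pos a b; omega) d1
    have e2 : N6 a b ≤ 25 * (condW W : ℝ) := by
      unfold N6
      exact_mod_cast Nat.le_of_dvd (by have := Pool.Agent.Q272.TR.condW_pos W; omega) d2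
    have hN1 : 1 ≤ N W := hc1.trans n1
    have h1 := ht_pos h.gmin
    have h2 := hs_one h.min.1
    have h3 := rel_ht h
    obtain ⟨u1, u2⟩ := rel_one h
    refine ⟨hN1, hc2, ?_, ?_⟩
    · refine (log_near (C := 6 ^ 12) (D := 78732) (by linarith) (by linarith) (by norm_num)
        (by norm_num) ?_ ?_).trans (by rw [hK]; linarith)
      · have : (u : ℝ) ^ 12 * Hs a b ≤ 6 ^ 12 * Hs a b := by gcongr
        linarith
      · have : 1 * Hs a b ≤ (u : ℝ) ^ 12 * Hs a b := by gcongr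
        linarith
    · refine (log_near (C := 25 * C) (D := 25) (by linarith) (by linarith) (by linarith)
        (by norm_num) ?_ ?_).trans (by rw [hK]; linarith)
      · calc N W ≤ C * condW W := n2
          _ ≤ C * (25 * N6 a b) := by gcongr
          _ = _ := by ring
      · calc N6 a b ≤ 25 * (condW W : ℝ) := e2
          _ ≤ _ := by gcongr
  constructor
  · intro hx
    have h := lim_transfer (α := WeierstrassCurve ℤ) (β := ℤ × ℤ) (Fα := ht) (Nα := N)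
      (Fβ := fun q => Hs q.1 q.2) (Nβ := fun q => N6 q.1 q.2) (Pα := fun W => GMin W ∧ P W)
      (Pβ := fun q => IsMinimal q.1 q.2 ∧ Q q.1 q.2) hK0 (fun W hW => by
        obtain ⟨a, b, u, hr⟩ := exists_short W hW.1
        obtain ⟨k1, k2, k3, k4⟩ := key W a b u hr
        refine ⟨(a, b), ⟨hr.min, (hPQ W a b u hr).mp hW.2⟩, k1, k2, ?_, ?_⟩
        · rwa [abs_sub_comm]
        · rwa [abs_sub_comm]) hx
    intro ε M hε
    obtain ⟨q, ⟨h1, h2⟩, h3, h4⟩ := h ε M hε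
    exact ⟨q.1, q.2, h1, h2, h3, h4⟩
  · intro hx
    refine lim_transfer (α := ℤ × ℤ) (β := WeierstrassCurve ℤ) (Fβ := ht) (Nβ := N)
      (Fα := fun q => Hs q.1 q.2) (Nα := fun q => N6 q.1 q.2) (Pβ := fun W => GMin W ∧ P W)
      (Pα := fun q => IsMinimal q.1 q.2 ∧ Q q.1 q.2) hK0 (fun q hq => by
        obtain ⟨W, u, hr⟩ := exists_long hq.1
        obtain ⟨k1, k2, k3, k4⟩ := key W q.1 q.2 u hr
        exact ⟨W, ⟨hr.gmin, (hPQ W q.1 q.2 u hr).mpr hq.2⟩, k2, k1, k3, k4⟩) ?_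
    intro ε M hε
    obtain ⟨a, b, h1, h2, h3, h4⟩ := hx ε M hε
    exact ⟨(a, b), ⟨h1, h2⟩, h3, h4⟩

/-- from the short models to the global minimal equations: the inequality -/
theorem ineq_transfer {N : WeierstrassCurve ℤ → ℝ}
    (hN : ∀ W, GMin W → (condW W : ℝ) ≤ N W)
    {P : WeierstrassCurve ℤ → Prop} {Q : ℤ → ℤ → Prop}
    (hPQ : ∀ W a b u, Rel W a b u → (P W ↔ Q a b)) {κ : ℝ} (hκ : 0 ≤ κ)
    (h : ∃ C : ℝ, 0 < C ∧ ∀ a b, IsMinimal a b → Q a b → Hs a b ≤ C * N6 a b ^ κ) :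
    ∃ C : ℝ, ∀ W, GMin W → P W → ht W ≤ C * N W ^ κ := by
  obtain ⟨C, hC0, hC⟩ := h
  refine ⟨6 ^ 12 * (C * 25 ^ κ), fun W hW hP => ?_⟩
  obtain ⟨a, b, u, hr⟩ := exists_short W hW
  have h1 := hC a b hr.min ((hPQ W a b u hr).mp hP)
  have h2 := rel_ht hr
  obtain ⟨u1, u2⟩ := rel_one hr
  have h3 := hs_nonneg a b
  have hc1 : (1 : ℝ) ≤ condW W := by exact_mod_cast Pool.Agent.Q272.TR.condW_pos W
  have hNW := hN W hW
  have h4 : N6 a b ≤ 25 * N W := by
    have e2 : N6 a b ≤ 25 * (condW W : ℝ) := by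
      unfold N6
      exact_mod_cast Nat.le_of_dvd (by have := Pool.Agent.Q272.TR.condW_pos W; omega)
        (rel_cond hr).2
    linarith
  have hN6 := N6_one a b
  have h5 : N6 a b ^ κ ≤ 25 ^ κ * N W ^ κ := by
    rw [← Real.mul_rpow (by norm_num) (by linarith)]
    exact Real.rpow_le_rpow (by linarith) h4 hκ
  have h6 : ht W ≤ 6 ^ 12 * Hs a b := by
    have h7 : (u : ℝ) ^ 12 * Hs a b ≤ 6 ^ 12 * Hs a b := by gcongr
    have h8 := ht_pos hW
    linarith
  calc ht W ≤ 6 ^ 12 * Hs a b := h6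
    _ ≤ 6 ^ 12 * (C * N6 a b ^ κ) := by gcongr
    _ ≤ 6 ^ 12 * (C * (25 ^ κ * N W ^ κ)) := by gcongr
    _ = _ := by ring

/-- the inequality bounds the limit points -/
theorem limW_le {N : WeierstrassCurve ℤ → ℝ} (hN : ∀ W, GMin W → (condW W : ℝ) ≤ N W)
    {P : WeierstrassCurve ℤ → Prop} {κ : ℝ}
    (h : ∃ C : ℝ, ∀ W, GMin W → P W → ht W ≤ C * N W ^ κ) {x : ℝ} (hx : LimW N P x) : x ≤ κ := by
  obtain ⟨C, hC⟩ := h
  by_contra hcon
  push Not at hcon
  set δ := (x - κ) / 2 with hδ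
  have hδ0 : 0 < δ := by linarith
  obtain ⟨M', -, hM'⟩ := big_of (M := 0) (R := Real.log (|C| + 1) / δ + 1)
  obtain ⟨W, ⟨g1, g2⟩, g3, g4⟩ := hx δ M' hδ0
  obtain ⟨g5, g6⟩ := hM' _ g3
  have hl : 0 ≤ Real.log (|C| + 1) := Real.log_nonneg (by have := abs_nonneg C; linarith)
  have hB : 0 < Real.log (N W) := by
    have : 0 ≤ Real.log (|C| + 1) / δ := by positivity
    linarith
  have hN0 : 0 < N W := by
    have hc1 : (1 : ℝ) ≤ condW W := by exact_mod_cast Pool.Agent.Q272.TR.condW_pos W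
    have := hN W g1
    linarith
  have g7 := hC W g1 g2
  have g7' : ht W ≤ (|C| + 1) * N W ^ κ := by
    refine g7.trans ?_
    have : 0 < N W ^ κ := Real.rpow_pos_of_pos hN0 κ
    have := le_abs_self C
    gcongr
    linarith
  have g8 : Real.log (ht W) ≤ Real.log (|C| + 1) + κ * Real.log (N W) := by
    have := Real.log_le_log (by have := ht_pos g1; linarith) g7'
    rwa [Real.log_mul (by have := abs_nonneg C; linarith) (Real.rpow_pos_of_pos hN0 κ).ne',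
      Real.log_rpow hN0] at this
  have g9 : κ + δ < Real.log (ht W) / Real.log (N W) := by
    have := (abs_lt.mp g4).1
    linarith
  rw [lt_div_iff₀ hB] at g9
  have g10 : Real.log (|C| + 1) < δ * Real.log (N W) := by
    have : Real.log (|C| + 1) / δ < Real.log (N W) := by linarith
    rwa [div_lt_iff₀ hδ0, mul_comm] at this
  nlinarith

end Pool.Agent.Q272.LP
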